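import Mathlib

set_option autoImplicit false

/-!
# Comparison of powers
-/

open MeasureTheory Set Filter

namespace Pool.Agent.Helper156_SM

theorem ev_pow (C : ℝ) {a b : ℝ} (h : a < b) : ∀ᶠ T : ℝ in atTop, C * T ^ a ≤ T ^ b := by
  have h1 := (tendsto_rpow_atTop (by linarith : 0 < b - a)).eventually_ge_atTop C
  filter_upwards [h1, eventually_gt_atTop 0] with T h2 h3
  calc C * T ^ a ≤ T ^ (b - a) * T ^ a := by gcongr
    _ = T ^ b := by rw [← Real.rpow_add h3]; congr 1; ring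

theorem ev_log (C : ℝ) (n : ℕ) {a b : ℝ} (h : a < b) : ∀ᶠ T : ℝ in atTop, C * Real.log T ^ n * T ^ a ≤ T ^ b := by
  have h1 := (isLittleO_log_rpow_rpow_atTop (n : ℝ) (by linarith : 0 < b - a)).bound
    (by positivity : (0 : ℝ) < 1 / (|C| + 1))
  filter_upwards [h1, eventually_ge_atTop 1] with T h2 h3
  have h0 : 0 < T := by linarith
  have hl : 0 ≤ Real.log T := Real.log_nonneg h3
  rw [Real.rpow_natCast, Real.norm_of_nonneg (by positivity), Real.norm_of_nonneg (by positivity)] at h2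
  have h4 : C * Real.log T ^ n ≤ T ^ (b - a) := by
    calc C * Real.log T ^ n ≤ (|C| + 1) * Real.log T ^ n := by
          gcongr; linarith [le_abs_self C]
      _ ≤ (|C| + 1) * (1 / (|C| + 1) * T ^ (b - a)) := by gcongr
      _ = T ^ (b - a) := by field_simp
  calc C * Real.log T ^ n * T ^ a ≤ T ^ (b - a) * T ^ a := by gcongr
    _ = T ^ b := by rw [← Real.rpow_add h0]; congr 1; ring

theorem ev_exp (C a : ℝ) {c e : ℝ} (hc : 0 < c) (he : 0 < e) :
    ∀ᶠ T : ℝ in atTop, C * T ^ a * Real.exp (-(c * T ^ e)) ≤ 1 := by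
  have h1 := (tendsto_rpow_mul_exp_neg_mul_atTop_nhds_zero (a / e) c hc).comp (tendsto_rpow_atTop he)
  have h2 : Tendsto (fun T : ℝ => |C| * (((fun x : ℝ => x ^ (a / e) * Real.exp (-c * x)) ∘ fun x : ℝ => x ^ e) T))
      atTop (nhds (|C| * 0)) := h1.const_mul _
  rw [mul_zero] at h2
  have h3 := h2.eventually_le_const (by norm_num : (0 : ℝ) < 1)
  filter_upwards [h3, eventually_gt_atTop 0] with T h4 h5
  simp only [Function.comp] at h4
  rw [← Real.rpow_mul h5.le, mul_div_cancel₀ _ he.ne'] at h4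
  have h6 : 0 ≤ T ^ a * Real.exp (-c * T ^ e) := by positivity
  have h7 : -(c * T ^ e) = -c * T ^ e := by ring
  rw [h7]
  calc C * T ^ a * Real.exp (-c * T ^ e) = C * (T ^ a * Real.exp (-c * T ^ e)) := by ring
    _ ≤ |C| * (T ^ a * Real.exp (-c * T ^ e)) := by gcongr; exact le_abs_self C
    _ ≤ 1 := h4

/-- the length -/
noncomputable def Nf (ν T : ℝ) : ℕ := ⌊T ^ ν⌋₊

theorem ev_N {ν : ℝ} (h0 : 0 < ν) (h1 : ν < 1 / 2) : ∀ᶠ T : ℝ in atTop, 1 ≤ Nf ν T ∧ T ^ ν / 2 ≤ (Nf ν T : ℝ) ∧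
    (Nf ν T : ℝ) ≤ T ^ ν ∧ (Nf ν T : ℝ) ^ 2 ≤ T := by
  have h2 := (tendsto_rpow_atTop h0).eventually_ge_atTop 2
  filter_upwards [h2, eventually_ge_atTop 1] with T h3 h4
  have h5 : (Nf ν T : ℝ) ≤ T ^ ν := Nat.floor_le (by positivity)
  have h6 : T ^ ν < (Nf ν T : ℝ) + 1 := Nat.lt_floor_add_one _
  refine ⟨?_, by linarith, h5, ?_⟩
  · have : (0 : ℝ) < Nf ν T := by linarith
    exact_mod_cast this
  · calc (Nf ν T : ℝ) ^ 2 ≤ (T ^ ν) ^ 2 := by gcongr
      _ = T ^ (ν * 2) := by rw [← Real.rpow_natCast, ← Real.rpow_mul (by linarith)]; norm_num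
      _ ≤ T ^ (1 : ℝ) := Real.rpow_le_rpow_of_exponent_le h4 (by linarith)
      _ = T := Real.rpow_one T

theorem w_sq {T e : ℝ} (hT : 0 < T) (c : ℝ) (hc : 0 < c) : T ^ 2 / (c * (T ^ (1 - e)) ^ 2) = 1 / c * T ^ (2 * e) := by
  have h1 : (T ^ (1 - e)) ^ 2 = T ^ (2 - 2 * e) := by
    rw [← Real.rpow_natCast, ← Real.rpow_mul hT.le]; congr 1; push_cast; ring
  have h2 : T ^ 2 = T ^ (2 - 2 * e) * T ^ (2 * e) := by
    rw [← Real.rpow_add hT, ← Real.rpow_natCast]; congr 1; push_cast; ring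
  rw [h1, h2]
  have : 0 < T ^ (2 - 2 * e) := by positivity
  field_simp

end Pool.Agent.Helper156_SM
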