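import Mathlib

set_option autoImplicit false

/-!
# The maximum principle in a rectangle and the three lines theorem
-/

open MeasureTheory Set Filter

namespace Pool.Agent.Helper156_SM

/-- Maximum principle in a rectangle. -/
theorem rect_max {f : ℂ → ℂ} {a c y1 y2 M : ℝ} (hac : a < c) (hy : y1 < y2)
    (hf : DifferentiableOn ℂ f (Icc a c ×ℂ Icc y1 y2))
    (hl : ∀ z : ℂ, z.re = a → z.im ∈ Icc y1 y2 → ‖f z‖ ≤ M)
    (hr : ∀ z : ℂ, z.re = c → z.im ∈ Icc y1 y2 → ‖f z‖ ≤ M)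
    (hb : ∀ z : ℂ, z.re ∈ Icc a c → z.im = y1 → ‖f z‖ ≤ M)
    (ht : ∀ z : ℂ, z.re ∈ Icc a c → z.im = y2 → ‖f z‖ ≤ M) {z : ℂ} (hz : z.re ∈ Icc a c)
    (hz' : z.im ∈ Icc y1 y2) : ‖f z‖ ≤ M := by
  have hcl : closure (Ioo a c ×ℂ Ioo y1 y2) = Icc a c ×ℂ Icc y1 y2 := by
    rw [Complex.closure_reProdIm, closure_Ioo hac.ne, closure_Ioo hy.ne]
  have hd : DiffContOnCl ℂ f (Ioo a c ×ℂ Ioo y1 y2) := by
    apply DifferentiableOn.diffContOnCl
    rwa [hcl]
  have hbd : Bornology.IsBounded (Ioo a c ×ℂ Ioo y1 y2) :=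
    (Metric.isBounded_Ioo a c).reProdIm (Metric.isBounded_Ioo y1 y2)
  have hop : IsOpen (Ioo a c ×ℂ Ioo y1 y2) := isOpen_Ioo.reProdIm isOpen_Ioo
  refine Complex.norm_le_of_forall_mem_frontier_norm_le hbd hd (fun w hw => ?_)
    (by rw [hcl]; exact ⟨hz, hz'⟩)
  rw [hop.frontier_eq, hcl] at hw
  obtain ⟨⟨h1, h2⟩, h3⟩ := hw
  change w.re ∈ Icc a c at h1
  change w.im ∈ Icc y1 y2 at h2
  by_cases e1 : w.re = a
  · exact hl w e1 h2
  by_cases e2 : w.re = c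
  · exact hr w e2 h2
  by_cases e3 : w.im = y1
  · exact hb w h1 e3
  by_cases e4 : w.im = y2
  · exact ht w h1 e4
  exfalso
  apply h3
  exact ⟨⟨lt_of_le_of_ne h1.1 (Ne.symm e1), lt_of_le_of_ne h1.2 e2⟩,
    ⟨lt_of_le_of_ne h2.1 (Ne.symm e3), lt_of_le_of_ne h2.2 e4⟩⟩

/-- Three lines theorem in a rectangle, with a crude bound on the horizontal sides. -/
theorem three_lines {f : ℂ → ℂ} {a c Y A B G X : ℝ} (hac : a < c) (hY : 0 < Y) {s0 : ℂ}
    (h0 : s0.re ∈ Icc a c) (hf : DifferentiableOn ℂ f (Icc a c ×ℂ Icc (s0.im - Y) (s0.im + Y)))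
    (hA : ∀ z : ℂ, z.re = a → |z.im - s0.im| ≤ Y → ‖f z‖ ≤ A)
    (hB : ∀ z : ℂ, z.re = c → |z.im - s0.im| ≤ Y → ‖f z‖ ≤ B)
    (hG : ∀ z : ℂ, z.re ∈ Icc a c → |z.im - s0.im| ≤ Y → ‖f z‖ ≤ G) (hX : 1 ≤ X) :
    ‖f s0‖ ≤ Real.exp ((c - a) ^ 2) * (A * X ^ (a - s0.re) + B * X ^ (c - s0.re) +
      G * Real.exp (-Y ^ 2) * X ^ (c - a)) := by
  have hX0 : 0 < X := by linarith
  have hlX : 0 ≤ Real.log X := Real.log_nonneg hX
  set g : ℂ → ℂ := fun z => f z * Complex.exp ((z - s0) ^ 2 + (z - s0) * (Real.log X : ℂ)) with hg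
  have hgn : ∀ z : ℂ, ‖g z‖ = ‖f z‖ * (Real.exp ((z.re - s0.re) ^ 2 - (z.im - s0.im) ^ 2) * X ^ (z.re - s0.re)) := by
    intro z
    rw [hg]
    simp only
    rw [norm_mul, Complex.norm_exp]
    congr 1
    rw [Real.rpow_def_of_pos hX0, ← Real.exp_add]
    congr 1
    rw [sq]
    simp only [Complex.add_re, Complex.mul_re, Complex.sub_re, Complex.sub_im, Complex.ofReal_re, Complex.ofReal_im]
    ring
  have hA0 : 0 ≤ A := (norm_nonneg _).trans (hA ⟨a, s0.im⟩ rfl (by simpa using hY.le))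
  have hB0 : 0 ≤ B := (norm_nonneg _).trans (hB ⟨c, s0.im⟩ rfl (by simpa using hY.le))
  have hG0 : 0 ≤ G := (norm_nonneg _).trans (hG s0 h0 (by simpa using hY.le))
  set M := Real.exp ((c - a) ^ 2) * (A * X ^ (a - s0.re) + B * X ^ (c - s0.re) +
      G * Real.exp (-Y ^ 2) * X ^ (c - a)) with hM
  have hgd : DifferentiableOn ℂ g (Icc a c ×ℂ Icc (s0.im - Y) (s0.im + Y)) := by
    apply hf.mul
    apply Differentiable.differentiableOn
    fun_prop
  have hsq : ∀ x : ℝ, x ∈ Icc a c → (x - s0.re) ^ 2 ≤ (c - a) ^ 2 := by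
    intro x hx
    have : |x - s0.re| ≤ c - a := abs_le.2 ⟨by linarith [hx.1, h0.2], by linarith [hx.2, h0.1]⟩
    have h2 := pow_le_pow_left₀ (abs_nonneg _) this 2
    rwa [sq_abs] at h2
  have p1 : 0 ≤ A * X ^ (a - s0.re) := by positivity
  have p2 : 0 ≤ B * X ^ (c - s0.re) := by positivity
  have p3 : 0 ≤ G * Real.exp (-Y ^ 2) * X ^ (c - a) := by positivity
  have hpE : 0 < Real.exp ((c - a) ^ 2) := Real.exp_pos _
  have main : ‖g s0‖ ≤ M := by
    apply rect_max hac (by linarith : s0.im - Y < s0.im + Y) hgd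
    · intro z hz1 hz2
      have hz3 : |z.im - s0.im| ≤ Y := abs_le.2 ⟨by linarith [hz2.1], by linarith [hz2.2]⟩
      rw [hgn, hz1]
      have e1 : Real.exp ((a - s0.re) ^ 2 - (z.im - s0.im) ^ 2) ≤ Real.exp ((c - a) ^ 2) := by
        apply Real.exp_le_exp.2
        have := hsq a ⟨le_rfl, hac.le⟩
        nlinarith [sq_nonneg (z.im - s0.im)]
      calc ‖f z‖ * (Real.exp ((a - s0.re) ^ 2 - (z.im - s0.im) ^ 2) * X ^ (a - s0.re))
          ≤ A * (Real.exp ((c - a) ^ 2) * X ^ (a - s0.re)) := by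
            have := hA z hz1 hz3
            gcongr
        _ = Real.exp ((c - a) ^ 2) * (A * X ^ (a - s0.re)) := by ring
        _ ≤ M := by rw [hM]; gcongr; linarith
    · intro z hz1 hz2
      have hz3 : |z.im - s0.im| ≤ Y := abs_le.2 ⟨by linarith [hz2.1], by linarith [hz2.2]⟩
      rw [hgn, hz1]
      have e1 : Real.exp ((c - s0.re) ^ 2 - (z.im - s0.im) ^ 2) ≤ Real.exp ((c - a) ^ 2) := by
        apply Real.exp_le_exp.2
        have := hsq c ⟨hac.le, le_rfl⟩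
        nlinarith [sq_nonneg (z.im - s0.im)]
      calc ‖f z‖ * (Real.exp ((c - s0.re) ^ 2 - (z.im - s0.im) ^ 2) * X ^ (c - s0.re))
          ≤ B * (Real.exp ((c - a) ^ 2) * X ^ (c - s0.re)) := by
            have := hB z hz1 hz3
            gcongr
        _ = Real.exp ((c - a) ^ 2) * (B * X ^ (c - s0.re)) := by ring
        _ ≤ M := by rw [hM]; gcongr; linarith
    case hz => exact h0
    case hz' => exact ⟨by linarith, by linarith⟩
    all_goals
      intro z hz1 hz2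
      have hz3 : |z.im - s0.im| ≤ Y := by rw [hz2]; simp [abs_of_pos hY]
      have hz4 : (z.im - s0.im) ^ 2 = Y ^ 2 := by rw [hz2]; ring
      rw [hgn, hz4]
      have e1 : Real.exp ((z.re - s0.re) ^ 2 - Y ^ 2) ≤ Real.exp ((c - a) ^ 2) * Real.exp (-Y ^ 2) := by
        rw [← Real.exp_add]
        apply Real.exp_le_exp.2
        have := hsq z.re hz1
        linarith
      have e2 : X ^ (z.re - s0.re) ≤ X ^ (c - a) :=
        Real.rpow_le_rpow_of_exponent_le hX (by linarith [hz1.2, h0.1])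
      calc ‖f z‖ * (Real.exp ((z.re - s0.re) ^ 2 - Y ^ 2) * X ^ (z.re - s0.re))
          ≤ G * ((Real.exp ((c - a) ^ 2) * Real.exp (-Y ^ 2)) * X ^ (c - a)) := by
            have := hG z hz1 hz3
            gcongr
        _ = Real.exp ((c - a) ^ 2) * (G * Real.exp (-Y ^ 2) * X ^ (c - a)) := by ring
        _ ≤ M := by rw [hM]; gcongr; linarith
  have : ‖g s0‖ = ‖f s0‖ := by
    rw [hgn]
    simp
  rw [← this]
  exact main

end Pool.Agent.Helper156_SM
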