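import Pool.Agent.Helper156_SM.LH
import Pool.Agent.Helper156_SM.TL
import Pool.Agent.Helper156_SM.Asym

set_option autoImplicit false

/-!
# The bounds for the twisted moment, for large `T`
-/

open MeasureTheory Set Filter

namespace Pool.Agent.Helper156_SM

open Pool.Agent.Helper156_EK
open Pool.Agent.W188.QS Pool.Agent.W188.GP

/-- the twisted moment with the chosen parameters -/
noncomputable def Kf (k : ℕ) (ν e T : ℝ) (s : ℂ) : ℂ := KK k (Nf ν T) T (T ^ (1 - e)) s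

/-- the diagonal with the chosen parameters -/
noncomputable def Sf (k : ℕ) (ν e T : ℝ) (s : ℂ) : ℂ := Ph T (T ^ (1 - e)) 0 * SS k (Nf ν T) s

theorem crude (k : ℕ) {ν e : ℝ} (hν : 0 < ν) (hν1 : ν < 1 / 2) : ∃ A : ℝ, 0 < A ∧ ∀ᶠ T : ℝ in atTop,
    ∀ s : ℂ, 0 ≤ s.re → s.re ≤ 3 → |s.im| ≤ T / 2 → ‖Kf k ν e T s‖ ≤ T ^ A := by
  obtain ⟨C, B, hC, hB, h⟩ := zk_crude k
  refine ⟨B + 3, by linarith, ?_⟩
  filter_upwards [ev_N hν hν1, eventually_ge_atTop 1, ev_pow (47 * C) (by linarith : B + 2 < B + 3)]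
    with T hN hT hp s h1 h2 h3
  obtain ⟨n1, n2, n3, n4⟩ := hN
  have hT0 : 0 < T := by linarith
  have hN1 : (1 : ℝ) ≤ Nf ν T := by exact_mod_cast n1
  have hNT : (Nf ν T : ℝ) ≤ T := by nlinarith
  have hs : Real.sqrt (Nf ν T) ≤ T := by
    rw [Real.sqrt_le_left hT0.le]; nlinarith
  unfold Kf
  have hP : ∀ t ∈ Icc T (2 * T), ‖zk k s t‖ ≤ C * T ^ B := fun t ht => h T t hT ht s h1 h2 h3
  refine (KK_le n1 n4 (by positivity) s (by positivity : 0 ≤ C * T ^ B) hP (fun t ht _ => hP t ht)).trans ?_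
  have h4 : Real.exp (-(T ^ 2 / (16 * (T ^ (1 - e)) ^ 2))) ≤ 1 := by
    rw [Real.exp_le_one_iff]
    have : 0 ≤ T ^ 2 / (16 * (T ^ (1 - e)) ^ 2) := by positivity
    linarith
  have e1 : T ^ (B + 2) = T * T * T ^ B := by
    rw [Real.rpow_add hT0]
    have : T ^ (2 : ℝ) = T * T := by
      rw [show (2 : ℝ) = ((2 : ℕ) : ℝ) by norm_num, Real.rpow_natCast]; ring
    rw [this]; ring
  calc 46 * T * Real.sqrt (Nf ν T) * (C * T ^ B) + T * (Nf ν T) * (C * T ^ B) * Real.exp (-(T ^ 2 / (16 * (T ^ (1 - e)) ^ 2)))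
      ≤ 46 * T * T * (C * T ^ B) + T * T * (C * T ^ B) * 1 := by gcongr
    _ = 47 * C * T ^ (B + 2) := by rw [e1]; ring
    _ ≤ T ^ (B + 3) := hp

theorem zk_line (k : ℕ) {s : ℂ} (hs : s.re = 1 / 2) (t : ℝ) {H : ℝ} (h1 : fk k (t + s.im) ≤ H)
    (h2 : fk k (t - s.im) ≤ H) : ‖zk k s t‖ ≤ H := by
  have e1 : s + t * Complex.I = 1 / 2 + ((t + s.im : ℝ) : ℂ) * Complex.I := by
    apply Complex.ext
    · simp [hs]
    · simp; ring
  have e2 : s - t * Complex.I = (starRingEnd ℂ) (1 / 2 + ((t - s.im : ℝ) : ℂ) * Complex.I) := by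
    rw [map_add, map_mul, Complex.conj_I, Complex.conj_ofReal, map_div₀, map_one, Complex.conj_ofNat]
    apply Complex.ext
    · simp [hs]
    · simp
  unfold zk
  rw [e1, e2, riemannZeta_conj, norm_mul, norm_pow, norm_pow, RCLike.norm_conj]
  unfold fk at h1 h2
  rw [mul_comm 2 k, pow_mul] at h1 h2
  set a := ‖riemannZeta (1 / 2 + ((t + s.im : ℝ) : ℂ) * Complex.I)‖ ^ k
  set b := ‖riemannZeta (1 / 2 + ((t - s.im : ℝ) : ℂ) * Complex.I)‖ ^ k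
  nlinarith [sq_nonneg (a - b)]

/-- the bound on the critical line -/
theorem line_bound {k : ℕ} (hk : 1 ≤ k) {ν e θ : ℝ} (hν : 0 < ν) (hν1 : ν < 1 / 2) (he : 0 < e) (hθ : 0 ≤ θ) :
    ∀ᶠ T : ℝ in atTop, Close k (1 / 2) T θ e → ∀ s : ℂ, s.re = 1 / 2 → |s.im| ≤ T / 8 →
    ‖Kf k ν e T s‖ ≤ T ^ (1 + θ + ν / 2 + 2 * e) := by
  obtain ⟨C, T₀, hC, hT₀, h⟩ := lh hk
  obtain ⟨C1, B, hC1, hB, h1⟩ := zk_crude k
  have ev1 := ev_log (184 * C) 2 (a := 1 + θ + ν / 2 + e) (b := 1 + θ + ν / 2 + 2 * e) (by linarith)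
  have ev2 := ev_exp C1 (B + 2) (c := 1 / 16) (e := 2 * e) (by norm_num) (by linarith)
  have ev3 := ev_pow 2 (a := 0) (b := 1 + θ + ν / 2 + 2 * e) (by linarith)
  filter_upwards [ev_N hν hν1, eventually_ge_atTop T₀, eventually_ge_atTop 1, ev1, ev2, ev3]
    with T hN hTT hT e1 e2 e3 hcl s hs hsi
  obtain ⟨n1, n2, n3, n4⟩ := hN
  have hT0 : 0 < T := by linarith
  have hN1 : (1 : ℝ) ≤ Nf ν T := by exact_mod_cast n1
  have hNT : (Nf ν T : ℝ) ≤ T := by nlinarith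
  have hlh := h T θ e hTT hθ he.le hcl
  set H := C * Real.log T ^ 2 * (T ^ θ + T ^ e) with hH
  have hL : 0 ≤ Real.log T := Real.log_nonneg hT
  have hH0 : 0 ≤ H := by positivity
  have hab := abs_le.1 hsi
  unfold Kf
  have hP : ∀ t ∈ Icc T (2 * T), ‖zk k s t‖ ≤ C1 * T ^ B := fun t ht =>
    h1 T t hT ht s (by rw [hs]; norm_num) (by rw [hs]; norm_num) (by linarith)
  have hcore : ∀ t ∈ Icc T (2 * T), |t - 3 * T / 2| ≤ T / 4 → ‖zk k s t‖ ≤ H := by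
    intro t _ ht
    have ht' := abs_le.1 ht
    apply zk_line k hs t
    · apply hlh; constructor <;> linarith
    · apply hlh; constructor <;> linarith
  refine (KK_le n1 n4 (by positivity) s hH0 hP hcore).trans ?_
  have hsq : Real.sqrt (Nf ν T) ≤ T ^ (ν / 2) := by
    rw [Real.sqrt_le_left (by positivity), ← Real.rpow_natCast, ← Real.rpow_mul hT0.le]
    refine n3.trans (le_of_eq ?_)
    congr 1; push_cast; ring
  have p1 : T ^ θ + T ^ e ≤ 2 * T ^ (θ + e) := by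
    have := Real.rpow_le_rpow_of_exponent_le hT (by linarith : θ ≤ θ + e)
    have := Real.rpow_le_rpow_of_exponent_le hT (by linarith : e ≤ θ + e)
    linarith
  have p2 : 46 * T * Real.sqrt (Nf ν T) * H ≤ T ^ (1 + θ + ν / 2 + 2 * e) / 2 := by
    calc 46 * T * Real.sqrt (Nf ν T) * H ≤ 46 * T * T ^ (ν / 2) * (C * Real.log T ^ 2 * (2 * T ^ (θ + e))) := by
          rw [hH]; gcongr
      _ = (184 * C * Real.log T ^ 2 * T ^ (1 + θ + ν / 2 + e)) / 2 := by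
          have : T ^ (1 + θ + ν / 2 + e) = T * T ^ (ν / 2) * T ^ (θ + e) := by
            rw [show 1 + θ + ν / 2 + e = 1 + ν / 2 + (θ + e) by ring, Real.rpow_add hT0, Real.rpow_add hT0, Real.rpow_one]
          rw [this]; ring
      _ ≤ T ^ (1 + θ + ν / 2 + 2 * e) / 2 := by gcongr
  have p3 : T * (Nf ν T) * (C1 * T ^ B) * Real.exp (-(T ^ 2 / (16 * (T ^ (1 - e)) ^ 2))) ≤ 1 := by
    rw [w_sq hT0 16 (by norm_num)]
    refine le_trans ?_ e2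
    have : T ^ (B + 2) = T * T * T ^ B := by
      rw [Real.rpow_add hT0]
      have : T ^ (2 : ℝ) = T * T := by
        rw [show (2 : ℝ) = ((2 : ℕ) : ℝ) by norm_num, Real.rpow_natCast]; ring
      rw [this]; ring
    rw [this]
    have h5 : T * (Nf ν T) * (C1 * T ^ B) ≤ C1 * (T * T * T ^ B) := by
      calc T * (Nf ν T) * (C1 * T ^ B) ≤ T * T * (C1 * T ^ B) := by gcongr
        _ = C1 * (T * T * T ^ B) := by ring
    gcongr
  rw [Real.rpow_zero] at e3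
  linarith

/-- the expansion to the right -/
theorem right_bound (k : ℕ) {ν e : ℝ} (hν : 0 < ν) (hν1 : ν < 1 / 2) (he : 0 < e) (he1 : e ≤ 1 / 4) :
    ∀ᶠ T : ℝ in atTop, ∀ s : ℂ, s.re = 1 + e → ‖Kf k ν e T s - Sf k ν e T s‖ ≤ T ^ (ν + e) := by
  obtain ⟨C, hC, h⟩ := expand k (ε := e / 4) (by linarith) (by linarith)
  have ev1 := ev_pow (3 * C) (a := 4 * ν - 2 + 2 * e) (b := ν + e) (by linarith)
  have ev2 := ev_pow (3 * C) (a := ν) (b := ν + e) (by linarith)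
  have ev3 := ev_exp (3 * C) 2 (c := 1 / 8) (e := 2 * e) (by norm_num) (by linarith)
  filter_upwards [ev_N hν hν1, eventually_ge_atTop 1, ev1, ev2, ev3] with T hN hT e1 e2 e3 s hs
  obtain ⟨n1, n2, n3, n4⟩ := hN
  have hT0 : 0 < T := by linarith
  have hN1 : (1 : ℝ) ≤ Nf ν T := by exact_mod_cast n1
  have hNT : (Nf ν T : ℝ) ≤ T := by nlinarith
  set N : ℝ := (Nf ν T : ℝ) with hNdef
  set W := T ^ (1 - e) with hW
  have hW0 : 0 < W := by positivity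
  have hW1 : 1 ≤ W := Real.one_le_rpow hT (by linarith)
  have hWT : W ≤ T := by
    calc W ≤ T ^ (1 : ℝ) := Real.rpow_le_rpow_of_exponent_le hT (by linarith)
      _ = T := Real.rpow_one T
  unfold Kf Sf
  rw [← hW]
  refine (h (Nf ν T) n1 T W hT0 hW0 s (by rw [hs]; ring)).trans ?_
  rw [← hNdef]
  have q1 : N * (W * (N / W) ^ 3) ≤ T ^ (4 * ν - 2 + 2 * e) := by
    have : N * (W * (N / W) ^ 3) = N ^ 4 / W ^ 2 := by field_simp
    rw [this, div_le_iff₀ (by positivity)]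
    have h1 : W ^ 2 = T ^ (2 - 2 * e) := by
      rw [hW, ← Real.rpow_natCast, ← Real.rpow_mul hT0.le]; congr 1; push_cast; ring
    rw [h1, ← Real.rpow_add hT0]
    calc N ^ 4 ≤ (T ^ ν) ^ 4 := by gcongr
      _ = T ^ (4 * ν - 2 + 2 * e + (2 - 2 * e)) := by
          rw [← Real.rpow_natCast, ← Real.rpow_mul hT0.le]; congr 1; push_cast; ring
  have q2 : N * (W * (N / W) ^ (1 + 2 * (e / 4)) * N ^ (-(1 + 4 * (e / 4)))) ≤ T ^ ν := by
    have h1 : (N / W) ^ (1 + 2 * (e / 4)) = N ^ (1 + e / 2) * W ^ (-(1 + e / 2)) := by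
      rw [show 1 + 2 * (e / 4) = 1 + e / 2 by ring, Real.div_rpow (by positivity) (by positivity),
        Real.rpow_neg (by positivity), div_eq_mul_inv]
    have h2 : N * (W * (N / W) ^ (1 + 2 * (e / 4)) * N ^ (-(1 + 4 * (e / 4)))) =
        N * (W * W ^ (-(1 + e / 2))) * (N ^ (1 + e / 2) * N ^ (-(1 + 4 * (e / 4)))) := by
      rw [h1]; ring
    have h3 : W * W ^ (-(1 + e / 2)) ≤ 1 := by
      have : W * W ^ (-(1 + e / 2)) = W ^ (-(e / 2)) := by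
        nth_rewrite 1 [← Real.rpow_one W]
        rw [← Real.rpow_add hW0]; congr 1; ring
      rw [this]
      exact Real.rpow_le_one_of_one_le_of_nonpos hW1 (by linarith)
    have h4 : N ^ (1 + e / 2) * N ^ (-(1 + 4 * (e / 4))) ≤ 1 := by
      rw [← Real.rpow_add (by linarith)]
      exact Real.rpow_le_one_of_one_le_of_nonpos hN1 (by linarith)
    rw [h2]
    calc N * (W * W ^ (-(1 + e / 2))) * (N ^ (1 + e / 2) * N ^ (-(1 + 4 * (e / 4)))) ≤ N * 1 * 1 := by gcongr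
      _ = N := by ring
      _ ≤ T ^ ν := n3
  have q3 : 3 * C * (N * (W * Real.exp (-(T ^ 2 / (8 * W ^ 2))))) ≤ 1 := by
    rw [hW, w_sq hT0 8 (by norm_num), ← hW]
    refine le_trans ?_ e3
    have h1 : T ^ (2 : ℝ) = T * T := by
      rw [show (2 : ℝ) = ((2 : ℕ) : ℝ) by norm_num, Real.rpow_natCast]; ring
    rw [h1]
    calc 3 * C * (N * (W * Real.exp (-(1 / 8 * T ^ (2 * e))))) ≤ 3 * C * (T * (T * Real.exp (-(1 / 8 * T ^ (2 * e))))) := by gcongr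
      _ = 3 * C * (T * T) * Real.exp (-(1 / 8 * T ^ (2 * e))) := by ring
  have q4 : 1 ≤ T ^ (ν + e) := Real.one_le_rpow hT (by linarith)
  have q5 : C * (N * (W * (N / W) ^ 3 + W * (N / W) ^ (1 + 2 * (e / 4)) * N ^ (-(1 + 4 * (e / 4))) +
      W * Real.exp (-(T ^ 2 / (8 * W ^ 2))))) =
      (3 * C * (N * (W * (N / W) ^ 3)) + 3 * C * (N * (W * (N / W) ^ (1 + 2 * (e / 4)) * N ^ (-(1 + 4 * (e / 4))))) +
        3 * C * (N * (W * Real.exp (-(T ^ 2 / (8 * W ^ 2)))))) / 3 := by ring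
  rw [q5]
  have q6 : 3 * C * (N * (W * (N / W) ^ 3)) ≤ T ^ (ν + e) := le_trans (by gcongr) e1
  have q7 : 3 * C * (N * (W * (N / W) ^ (1 + 2 * (e / 4)) * N ^ (-(1 + 4 * (e / 4))))) ≤ T ^ (ν + e) :=
    le_trans (by gcongr) e2
  linarith

/-- upper bound for the diagonal -/
theorem diag_upper' (k : ℕ) {ν e : ℝ} (c : ℝ) (hν : 0 < ν) (hν1 : ν < 1 / 2) (he : 0 < e) :
    ∀ᶠ T : ℝ in atTop, ∀ s : ℂ, 1 / 2 + e ≤ s.re → s.re ≤ c →
    ‖Sf k ν e T s‖ ≤ T ^ (1 - 2 * (s.re - 1 / 2) * ν + e) := by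
  obtain ⟨C, hC, h⟩ := SS_norm_le k he
  have ev1 := ev_pow (5 * C * 2 ^ (2 * c)) (a := 1 - e + ν * e) (b := 1 + e) (by nlinarith)
  filter_upwards [ev_N hν hν1, eventually_ge_atTop 1, ev1] with T hN hT e1 s hs hs2
  obtain ⟨n1, n2, n3, n4⟩ := hN
  have hT0 : 0 < T := by linarith
  have hN1 : (1 : ℝ) ≤ Nf ν T := by exact_mod_cast n1
  unfold Sf
  rw [norm_mul]
  have h1 := h (Nf ν T) n1 s hs
  have h2 := Ph_le (ξ := 0) hT0 (by positivity : 0 < T ^ (1 - e))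
  set N : ℝ := (Nf ν T : ℝ) with hNdef
  set η := s.re - 1 / 2 with hη
  have h3 : N ^ (1 + e - 2 * s.re) ≤ 2 ^ (2 * c) * T ^ (ν * (e - 2 * η)) := by
    have e2 : 1 + e - 2 * s.re = e - 2 * η := by rw [hη]; ring
    rw [e2]
    calc N ^ (e - 2 * η) ≤ (T ^ ν / 2) ^ (e - 2 * η) :=
          Real.rpow_le_rpow_of_nonpos (by positivity) n2 (by linarith)
      _ = 2 ^ (-(e - 2 * η)) * T ^ (ν * (e - 2 * η)) := by
          rw [Real.div_rpow (by positivity) (by norm_num), Real.rpow_neg (by norm_num), ← Real.rpow_mul hT0.le,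
            div_eq_mul_inv, mul_comm]
      _ ≤ 2 ^ (2 * c) * T ^ (ν * (e - 2 * η)) := by
          gcongr
          · norm_num
          · linarith
  calc ‖Ph T (T ^ (1 - e)) 0‖ * ‖SS k (Nf ν T) s‖ ≤ (5 * T ^ (1 - e)) * (C * (2 ^ (2 * c) * T ^ (ν * (e - 2 * η)))) := by
        gcongr
        exact h1.trans (by gcongr)
    _ = 5 * C * 2 ^ (2 * c) * T ^ (1 - e + ν * e) * T ^ (-(2 * η * ν)) := by
        have : T ^ (1 - e) * T ^ (ν * (e - 2 * η)) = T ^ (1 - e + ν * e) * T ^ (-(2 * η * ν)) := by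
          rw [← Real.rpow_add hT0, ← Real.rpow_add hT0]; congr 1; ring
        calc (5 * T ^ (1 - e)) * (C * (2 ^ (2 * c) * T ^ (ν * (e - 2 * η)))) = 5 * C * 2 ^ (2 * c) * (T ^ (1 - e) * T ^ (ν * (e - 2 * η))) := by ring
          _ = _ := by rw [this]; ring
    _ ≤ T ^ (1 + e) * T ^ (-(2 * η * ν)) := by gcongr
    _ = T ^ (1 - 2 * η * ν + e) := by rw [← Real.rpow_add hT0]; congr 1; ring

theorem diag_upper (k : ℕ) {ν e : ℝ} (hν : 0 < ν) (hν1 : ν < 1 / 2) (he : 0 < e) :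
    ∀ᶠ T : ℝ in atTop, ∀ s : ℂ, 1 / 2 + e ≤ s.re → s.re ≤ 2 →
    ‖Sf k ν e T s‖ ≤ T ^ (1 - 2 * (s.re - 1 / 2) * ν + e) :=
  diag_upper' k 2 hν hν1 he

/-- lower bound for the diagonal at a real point -/
theorem diag_lower' {k : ℕ} (hk : 1 ≤ k) {ν e η : ℝ} (hν : 0 < ν) (hν1 : ν < 1 / 2) (he : 0 < e) (hη : 0 < η) :
    ∀ᶠ T : ℝ in atTop, T ^ (1 - 2 * η * ν - 2 * e) ≤ ‖Sf k ν e T ((1 / 2 + η : ℝ) : ℂ)‖ := by
  have ev1 := ev_pow (2 / 4 ^ (-(1 / 2 + η))) (a := 1 - 2 * η * ν - 2 * e) (b := 1 - 2 * η * ν - e) (by linarith)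
  filter_upwards [ev_N hν hν1, eventually_ge_atTop 1, ev1] with T hN hT e1
  obtain ⟨n1, n2, n3, n4⟩ := hN
  have hT0 : 0 < T := by linarith
  have hN1 : (1 : ℝ) ≤ Nf ν T := by exact_mod_cast n1
  have hWT : T ^ (1 - e) ≤ T := by
    calc T ^ (1 - e) ≤ T ^ (1 : ℝ) := Real.rpow_le_rpow_of_exponent_le hT (by linarith)
      _ = T := Real.rpow_one T
  unfold Sf
  rw [norm_mul]
  have h1 := SS_real_ge' k hk (Nf ν T) n1 (1 / 2 + η) (by linarith)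
  obtain ⟨h2, h3⟩ := Ph_zero (T := T) (by positivity : 0 < T ^ (1 - e)) hWT
  have h4 : T ^ (1 - e) / 2 ≤ ‖Ph T (T ^ (1 - e)) 0‖ := by
    rw [h3, Complex.norm_real]; exact h2.trans (le_abs_self _)
  have h5 : T ^ (-(2 * η * ν)) ≤ (Nf ν T : ℝ) ^ (1 - 2 * (1 / 2 + η)) := by
    have e1 : 1 - 2 * (1 / 2 + η) = -(2 * η) := by ring
    rw [e1]
    calc T ^ (-(2 * η * ν)) = (T ^ ν) ^ (-(2 * η)) := by rw [← Real.rpow_mul hT0.le]; congr 1; ring
      _ ≤ (Nf ν T : ℝ) ^ (-(2 * η)) := Real.rpow_le_rpow_of_nonpos (by linarith) n3 (by linarith)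
  have h6 : (0 : ℝ) < 4 ^ (-(1 / 2 + η)) := by positivity
  calc T ^ (1 - 2 * η * ν - 2 * e) = 4 ^ (-(1 / 2 + η)) / 2 * (2 / 4 ^ (-(1 / 2 + η)) * T ^ (1 - 2 * η * ν - 2 * e)) := by
        field_simp
    _ ≤ 4 ^ (-(1 / 2 + η)) / 2 * T ^ (1 - 2 * η * ν - e) := by gcongr
    _ = (T ^ (1 - e) / 2) * (4 ^ (-(1 / 2 + η)) * T ^ (-(2 * η * ν))) := by
        have : T ^ (1 - 2 * η * ν - e) = T ^ (1 - e) * T ^ (-(2 * η * ν)) := by
          rw [← Real.rpow_add hT0]; congr 1; ring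
        rw [this]; ring
    _ ≤ ‖Ph T (T ^ (1 - e)) 0‖ * ‖SS k (Nf ν T) ((1 / 2 + η : ℝ) : ℂ)‖ := by
        gcongr
        refine le_trans ?_ h1
        gcongr

/-- lower bound for the diagonal -/
theorem diag_lower {k : ℕ} (hk : 1 ≤ k) {ν e η : ℝ} (hν : 0 < ν) (hν1 : ν < 1 / 2) (he : 0 < e) (he1 : e < 1)
    (hη : 0 < η) (hη1 : η ≤ 1) :
    ∀ᶠ T : ℝ in atTop, T ^ (1 - 2 * η * ν - e) / 32 ≤ ‖Sf k ν e T ((1 / 2 + η : ℝ) : ℂ)‖ := by
  filter_upwards [ev_N hν hν1, eventually_ge_atTop 1] with T hN hT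
  obtain ⟨n1, n2, n3, n4⟩ := hN
  have hT0 : 0 < T := by linarith
  have hN1 : (1 : ℝ) ≤ Nf ν T := by exact_mod_cast n1
  have hWT : T ^ (1 - e) ≤ T := by
    calc T ^ (1 - e) ≤ T ^ (1 : ℝ) := Real.rpow_le_rpow_of_exponent_le hT (by linarith)
      _ = T := Real.rpow_one T
  unfold Sf
  rw [norm_mul]
  have h1 := SS_real_ge k hk (Nf ν T) n1 (1 / 2 + η) (by linarith) (by linarith)
  obtain ⟨h2, h3⟩ := Ph_zero (T := T) (by positivity : 0 < T ^ (1 - e)) hWT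
  have h4 : T ^ (1 - e) / 2 ≤ ‖Ph T (T ^ (1 - e)) 0‖ := by
    rw [h3, Complex.norm_real]; exact h2.trans (le_abs_self _)
  have h5 : T ^ (-(2 * η * ν)) ≤ (Nf ν T : ℝ) ^ (1 - 2 * (1 / 2 + η)) := by
    have e1 : 1 - 2 * (1 / 2 + η) = -(2 * η) := by ring
    rw [e1]
    calc T ^ (-(2 * η * ν)) = (T ^ ν) ^ (-(2 * η)) := by rw [← Real.rpow_mul hT0.le]; congr 1; ring
      _ ≤ (Nf ν T : ℝ) ^ (-(2 * η)) := Real.rpow_le_rpow_of_nonpos (by linarith) n3 (by linarith)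
  calc T ^ (1 - 2 * η * ν - e) / 32 = (T ^ (1 - e) / 2) * (T ^ (-(2 * η * ν)) / 16) := by
        have : T ^ (1 - 2 * η * ν - e) = T ^ (1 - e) * T ^ (-(2 * η * ν)) := by
          rw [← Real.rpow_add hT0]; congr 1; ring
        rw [this]; ring
    _ ≤ ‖Ph T (T ^ (1 - e)) 0‖ * ‖SS k (Nf ν T) ((1 / 2 + η : ℝ) : ℂ)‖ := by
        gcongr
        refine le_trans ?_ h1
        gcongr

end Pool.Agent.Helper156_SM
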