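import Pool.Agent.Helper156_SM.Bounds

set_option autoImplicit false

/-!
# The twisted moment in the strip
-/

open MeasureTheory Set Filter

namespace Pool.Agent.Helper156_SM

open Pool.Agent.Helper156_EK
open Pool.Agent.W188.QS Pool.Agent.W188.GP

theorem Kf_diff (k : ℕ) (ν e : ℝ) {T : ℝ} (hT : 0 < T) : DifferentiableOn ℂ (Kf k ν e T) {s : ℂ | |s.im| < T} :=
  KK_diff k (Nf ν T) hT

theorem Sf_diff (k : ℕ) (ν e T : ℝ) {a : ℝ} (ha : 0 < a) (hN : 1 ≤ Nf ν T) :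
    DifferentiableOn ℂ (Sf k ν e T) {s : ℂ | 1 / 2 + a < s.re} :=
  (SS_diff k (Nf ν T) hN ha).const_mul _

theorem exp_le_two {x : ℝ} (h : x ≤ 9 / 16) : Real.exp x ≤ 2 := by
  have h1 : Real.exp x ≤ Real.exp (9 / 16) := Real.exp_le_exp.2 h
  have h2 : Real.exp (9 / 16) ≤ 2 := by
    rw [← Real.le_log_iff_exp_le (by norm_num)]
    linarith [Real.log_two_gt_d9]
  linarith

/-- the moment in the strip -/
theorem strip_bound {k : ℕ} (hk : 1 ≤ k) {ν e θ : ℝ} (hν : 0 < ν) (hν1 : ν < 1 / 2) (he : 0 < e) (he1 : e ≤ 1 / 4)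
    (hθ : 0 ≤ θ) : ∀ᶠ T : ℝ in atTop, Close k (1 / 2) T θ e → ∀ s : ℂ, 1 / 2 ≤ s.re → s.re ≤ 1 + e →
    |s.im| ≤ T / 16 → ‖Kf k ν e T s‖ ≤ T ^ (1 + θ + ν / 2 + 3 * e) := by
  obtain ⟨A, hA, hcr⟩ := crude k (e := e) hν hν1
  have ev1 := ev_pow 10 (a := 1 + θ + ν / 2 + 2 * e) (b := 1 + θ + ν / 2 + 3 * e) (by linarith)
  have ev2 := ev_exp 1 A (c := 1 / 256) (e := 2) (by norm_num) (by norm_num)
  filter_upwards [hcr, line_bound hk hν hν1 he hθ, right_bound k hν hν1 he he1, diag_upper k hν hν1 he, ev1, ev2,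
    eventually_ge_atTop 1] with T h1 h2 h3 h4 e1 e2 hT hcl s hs1 hs2 hs3
  have hT0 : 0 < T := by linarith
  have hsi := abs_le.1 hs3
  have hz : ∀ z : ℂ, |z.im - s.im| ≤ T / 16 → |z.im| ≤ T / 8 := by
    intro z hz
    have := abs_le.1 hz
    rw [abs_le]; constructor <;> linarith
  have h5 := three_lines (f := Kf k ν e T) (a := 1 / 2) (c := 1 + e) (Y := T / 16) (X := 1)
    (A := T ^ (1 + θ + ν / 2 + 2 * e)) (B := 2 * T ^ (1 + θ + ν / 2 + 2 * e)) (G := T ^ A) (s0 := s)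
    (by linarith) (by positivity) ⟨hs1, hs2⟩ ?_ ?_ ?_ ?_ le_rfl
  · refine h5.trans ?_
    have q1 : Real.exp ((1 + e - 1 / 2) ^ 2) ≤ 2 := by
      apply exp_le_two
      nlinarith
    have q2 : T ^ A * Real.exp (-(T / 16) ^ 2) ≤ 1 := by
      have : -(T / 16) ^ 2 = -(1 / 256 * T ^ (2 : ℝ)) := by
        rw [show (2 : ℝ) = ((2 : ℕ) : ℝ) by norm_num, Real.rpow_natCast]; ring
      rw [this]
      simpa using e2
    have q3 : 1 ≤ T ^ (1 + θ + ν / 2 + 2 * e) := Real.one_le_rpow hT (by linarith)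
    rw [Real.one_rpow, Real.one_rpow, Real.one_rpow, mul_one, mul_one, mul_one]
    have q4 : T ^ (1 + θ + ν / 2 + 2 * e) + 2 * T ^ (1 + θ + ν / 2 + 2 * e) + T ^ A * Real.exp (-(T / 16) ^ 2) ≤
        4 * T ^ (1 + θ + ν / 2 + 2 * e) := by linarith
    calc Real.exp ((1 + e - 1 / 2) ^ 2) * (T ^ (1 + θ + ν / 2 + 2 * e) + 2 * T ^ (1 + θ + ν / 2 + 2 * e) +
          T ^ A * Real.exp (-(T / 16) ^ 2)) ≤ 2 * (4 * T ^ (1 + θ + ν / 2 + 2 * e)) := by gcongr
      _ ≤ T ^ (1 + θ + ν / 2 + 3 * e) := by linarith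
  · apply (Kf_diff k ν e hT0).mono
    intro z hz1
    change |z.im| < T
    have h6 := hz1.2
    change z.im ∈ Icc _ _ at h6
    rw [abs_lt]
    constructor <;> linarith [h6.1, h6.2]
  · intro z hz1 hz2
    exact h2 hcl z hz1 (hz z hz2)
  · intro z hz1 hz2
    have h6 := h3 z hz1
    have h7 := h4 z (by rw [hz1]; linarith) (by rw [hz1]; linarith)
    have h8 : ‖Kf k ν e T z‖ ≤ ‖Kf k ν e T z - Sf k ν e T z‖ + ‖Sf k ν e T z‖ := by
      have := norm_add_le (Kf k ν e T z - Sf k ν e T z) (Sf k ν e T z)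
      simpa using this
    have h9 : T ^ (ν + e) ≤ T ^ (1 + θ + ν / 2 + 2 * e) := Real.rpow_le_rpow_of_exponent_le hT (by linarith)
    have h10 : T ^ (1 - 2 * (z.re - 1 / 2) * ν + e) ≤ T ^ (1 + θ + ν / 2 + 2 * e) := by
      apply Real.rpow_le_rpow_of_exponent_le hT
      rw [hz1]
      nlinarith
    linarith
  · intro z hz1 hz2
    have := hz z hz2
    exact h1 z (by linarith [hz1.1]) (by linarith [hz1.2]) (by linarith)

/-- the remainder in the strip -/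
theorem rem_bound {k : ℕ} (hk : 1 ≤ k) {ν e θ : ℝ} (hν : 0 < ν) (hν1 : ν < 1 / 2) (he : 0 < e) (he1 : e ≤ 1 / 4)
    (hθ : 0 ≤ θ) : ∀ᶠ T : ℝ in atTop, Close k (1 / 2) T θ e → ∀ s : ℂ, 1 / 2 + e ≤ s.re → s.re ≤ 1 →
    |s.im| ≤ T / 32 → ‖Kf k ν e T s - Sf k ν e T s‖ ≤
      T ^ (1 + θ + ν / 2 - 2 * (1 + θ - ν / 2) * (s.re - 1 / 2) + (5 + 2 * (1 + θ - ν / 2)) * e) := by
  obtain ⟨A, hA, hcr⟩ := crude k (e := e) hν hν1
  set x := 2 * (1 + θ - ν / 2) with hx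
  have hx0 : 0 < x := by rw [hx]; linarith
  have ev2 := ev_exp 2 (A + 2 + x) (c := 1 / 1024) (e := 2) (by norm_num) (by norm_num)
  have ev3 := ev_pow 8 (a := 0) (b := e) he
  filter_upwards [hcr, strip_bound hk hν hν1 he he1 hθ, right_bound k hν hν1 he he1, diag_upper k hν hν1 he, ev2, ev3,
    ev_N hν hν1, eventually_ge_atTop 1] with T h1 h2 h3 h4 e2 e3 hN hT hcl s hs1 hs2 hs3
  have hT0 : 0 < T := by linarith
  have hsi := abs_le.1 hs3
  rw [Real.rpow_zero, mul_one] at e3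
  have hz : ∀ z : ℂ, |z.im - s.im| ≤ T / 32 → |z.im| ≤ T / 16 := by
    intro z hz
    have := abs_le.1 hz
    rw [abs_le]; constructor <;> linarith
  have hSle : ∀ z : ℂ, 1 / 2 + e ≤ z.re → z.re ≤ 2 → ‖Sf k ν e T z‖ ≤ T ^ (1 + e) := by
    intro z hz1 hz2
    refine (h4 z hz1 hz2).trans (Real.rpow_le_rpow_of_exponent_le hT ?_)
    have : 0 ≤ 2 * (z.re - 1 / 2) * ν := by
      have : 0 ≤ z.re - 1 / 2 := by linarith
      positivity
    linarith
  set m0 := 1 + θ + ν / 2 + 3 * e with hm0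
  set m := 1 + θ + ν / 2 - x * (s.re - 1 / 2) + (5 + x) * e with hm
  have h5 := three_lines (f := fun z => Kf k ν e T z - Sf k ν e T z) (a := 1 / 2 + e) (c := 1 + e) (Y := T / 32) (X := T ^ x)
    (A := 2 * T ^ m0) (B := T ^ (ν + e)) (G := T ^ A + T ^ (1 + e)) (s0 := s)
    (by linarith) (by positivity) ⟨hs1, by linarith⟩ ?_ ?_ ?_ ?_ (Real.one_le_rpow hT hx0.le)
  · refine h5.trans ?_
    have q1 : Real.exp ((1 + e - (1 / 2 + e)) ^ 2) ≤ 2 := by
      apply exp_le_two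
      norm_num
    have q2 : 2 * T ^ m0 * (T ^ x) ^ (1 / 2 + e - s.re) = 2 * T ^ (m - 2 * e) := by
      rw [← Real.rpow_mul hT0.le, mul_assoc, ← Real.rpow_add hT0]
      congr 2
      rw [hm0, hm]; ring
    have q3 : T ^ (ν + e) * (T ^ x) ^ (1 + e - s.re) = T ^ (m - 4 * e) := by
      rw [← Real.rpow_mul hT0.le, ← Real.rpow_add hT0]
      congr 1
      rw [hm, hx]; ring
    have q4 : (T ^ A + T ^ (1 + e)) * Real.exp (-(T / 32) ^ 2) * (T ^ x) ^ (1 + e - (1 / 2 + e)) ≤ 1 := by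
      have r1 : -(T / 32) ^ 2 = -(1 / 1024 * T ^ (2 : ℝ)) := by
        rw [show (2 : ℝ) = ((2 : ℕ) : ℝ) by norm_num, Real.rpow_natCast]; ring
      have r2 : T ^ A ≤ T ^ (A + 2) := Real.rpow_le_rpow_of_exponent_le hT (by linarith)
      have r3 : T ^ (1 + e) ≤ T ^ (A + 2) := Real.rpow_le_rpow_of_exponent_le hT (by linarith)
      have r4 : (T ^ x) ^ (1 + e - (1 / 2 + e)) ≤ T ^ x := by
        rw [← Real.rpow_mul hT0.le]
        exact Real.rpow_le_rpow_of_exponent_le hT (by nlinarith)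
      rw [r1]
      calc (T ^ A + T ^ (1 + e)) * Real.exp (-(1 / 1024 * T ^ (2 : ℝ))) * (T ^ x) ^ (1 + e - (1 / 2 + e))
          ≤ (T ^ (A + 2) + T ^ (A + 2)) * Real.exp (-(1 / 1024 * T ^ (2 : ℝ))) * T ^ x := by gcongr
        _ = 2 * T ^ (A + 2 + x) * Real.exp (-(1 / 1024 * T ^ (2 : ℝ))) := by
            rw [Real.rpow_add hT0 (A + 2) x]; ring
        _ ≤ 1 := e2
    have hm1 : 0 ≤ m - 2 * e := by
      have : x * (s.re - 1 / 2) ≤ x * (1 / 2) := by gcongr; linarith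
      rw [hm]
      nlinarith
    have q5 : 1 ≤ T ^ (m - 2 * e) := Real.one_le_rpow hT hm1
    have q6 : T ^ (m - 4 * e) ≤ T ^ (m - 2 * e) := Real.rpow_le_rpow_of_exponent_le hT (by linarith)
    rw [q2, q3]
    calc Real.exp ((1 + e - (1 / 2 + e)) ^ 2) * (2 * T ^ (m - 2 * e) + T ^ (m - 4 * e) +
          (T ^ A + T ^ (1 + e)) * Real.exp (-(T / 32) ^ 2) * (T ^ x) ^ (1 + e - (1 / 2 + e)))
        ≤ 2 * (4 * T ^ (m - 2 * e)) := by gcongr; linarith
      _ = 8 * T ^ (m - 2 * e) := by ring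
      _ ≤ T ^ e * T ^ (m - 2 * e) := by gcongr
      _ = T ^ (m - e) := by rw [← Real.rpow_add hT0]; congr 1; ring
      _ ≤ T ^ m := Real.rpow_le_rpow_of_exponent_le hT (by linarith)
  · apply DifferentiableOn.sub
    · apply (Kf_diff k ν e hT0).mono
      intro z hz1
      change |z.im| < T
      have h6 := hz1.2
      change z.im ∈ Icc _ _ at h6
      rw [abs_lt]
      constructor <;> linarith [h6.1, h6.2]
    · apply (Sf_diff k ν e T (a := e / 2) (by linarith) hN.1).mono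
      intro z hz1
      change 1 / 2 + e / 2 < z.re
      have h6 := hz1.1
      change z.re ∈ Icc _ _ at h6
      linarith [h6.1]
  · intro z hz1 hz2
    have h6 := h2 hcl z (by rw [hz1]; linarith) (by rw [hz1]; linarith) (hz z hz2)
    have h7 := hSle z (by rw [hz1]) (by rw [hz1]; linarith)
    have h8 : T ^ (1 + e) ≤ T ^ m0 := Real.rpow_le_rpow_of_exponent_le hT (by rw [hm0]; linarith)
    have h9 := norm_sub_le (Kf k ν e T z) (Sf k ν e T z)
    linarith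
  · intro z hz1 _
    exact h3 z hz1
  · intro z hz1 hz2
    have h6 := hz z hz2
    have h7 := h1 z (by linarith [hz1.1]) (by linarith [hz1.2]) (by linarith)
    have h8 := hSle z hz1.1 (by linarith [hz1.2])
    have h9 := norm_sub_le (Kf k ν e T z) (Sf k ν e T z)
    linarith

/-- a small error term makes the twisted moment small -/
theorem near_bound {k : ℕ} {ν e θ : ℝ} (hν : 0 < ν) (hν1 : ν < 1 / 2) (he : 0 < e) (hθ : 0 ≤ θ) :
    ∀ᶠ T : ℝ in atTop, ∀ s : ℂ, |s.im| ≤ T / 2 → Close k s T θ e → ‖Kf k ν e T s‖ ≤ T ^ (1 + θ - ν / 2 + 2 * e) := by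
  have ev1 := ev_exp 6 (1 + θ + e) (c := 1 / 4) (e := 2 * e) (by norm_num) (by linarith)
  have ev2 := ev_pow 414 (a := 1 + θ - ν / 2 + e) (b := 1 + θ - ν / 2 + 2 * e) (by linarith)
  have ev3 := ev_pow 552 (a := 2 * e + 3 * ν / 2) (b := 1 + θ - ν / 2 + 2 * e) (by linarith)
  have ev4 := ev_pow 3 (a := 0) (b := 1 + θ - ν / 2 + 2 * e) (by linarith)
  filter_upwards [ev_N hν hν1, ev1, ev2, ev3, ev4, eventually_ge_atTop 1] with T hN e1 e2 e3 e4 hT s hs hcl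
  obtain ⟨n1, n2, n3, n4⟩ := hN
  have hT0 : 0 < T := by linarith
  have hN1 : (1 : ℝ) ≤ Nf ν T := by exact_mod_cast n1
  have hNT : (Nf ν T : ℝ) ≤ T := by nlinarith
  rw [Real.rpow_zero, mul_one] at e4
  obtain ⟨M, M', M'', hM, hM', hM'', hb1, hb2, hE⟩ := hcl
  have h1 := left (F := zk k s) (c := fun _ => (1:ℂ)) (W := T ^ (1 - e)) n1 n4 (by positivity) (fun n _ => by simp)
    (zk_contOn k s (by linarith)) hM hM' hM'' hb1 hb2 (fun t ht => hE t ht)
  unfold Kf KK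
  refine h1.trans ?_
  set N : ℝ := (Nf ν T : ℝ) with hNdef
  have hsq1 : Real.sqrt N ≤ T ^ (ν / 2) := by
    rw [Real.sqrt_le_left (by positivity), ← Real.rpow_natCast, ← Real.rpow_mul hT0.le]
    refine n3.trans (le_of_eq ?_)
    congr 1; push_cast; ring
  have hsq2 : Real.sqrt N / N ≤ 2 * T ^ (-(ν / 2)) := by
    have hs0 : 0 < Real.sqrt N := Real.sqrt_pos.2 (by linarith)
    have h2 : Real.sqrt N / N = 1 / Real.sqrt N := by
      rw [div_eq_div_iff (by linarith) hs0.ne', Real.mul_self_sqrt (by linarith), one_mul]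
    rw [h2, Real.rpow_neg hT0.le, ← div_eq_mul_inv, div_le_div_iff₀ hs0 (by positivity), one_mul]
    have h3 : (T ^ (ν / 2)) ^ 2 ≤ (2 * Real.sqrt N) ^ 2 := by
      rw [mul_pow, Real.sq_sqrt (by linarith), ← Real.rpow_natCast, ← Real.rpow_mul hT0.le]
      have : T ^ (ν / 2 * ((2 : ℕ) : ℝ)) = T ^ ν := by congr 1; push_cast; ring
      rw [this]
      linarith
    exact (pow_le_pow_iff_left₀ (by positivity) (by positivity) (by norm_num)).1 h3
  have t1 : 2 * Real.exp (-(T ^ 2 / (4 * (T ^ (1 - e)) ^ 2))) * (N * T ^ θ + 2 * N ^ 2 * T ^ e) ≤ 1 := by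
    rw [w_sq hT0 4 (by norm_num)]
    refine le_trans ?_ e1
    have r1 : N * T ^ θ ≤ T ^ (1 + θ + e) := by
      calc N * T ^ θ ≤ T * T ^ θ := by gcongr
        _ = T ^ (1 + θ) := by rw [Real.rpow_add hT0, Real.rpow_one]
        _ ≤ T ^ (1 + θ + e) := Real.rpow_le_rpow_of_exponent_le hT (by linarith)
    have r2 : N ^ 2 * T ^ e ≤ T ^ (1 + θ + e) := by
      calc N ^ 2 * T ^ e ≤ T * T ^ e := by gcongr
        _ = T ^ (1 + e) := by rw [Real.rpow_add hT0, Real.rpow_one]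
        _ ≤ T ^ (1 + θ + e) := Real.rpow_le_rpow_of_exponent_le hT (by linarith)
    have r3 : N * T ^ θ + 2 * N ^ 2 * T ^ e ≤ 3 * T ^ (1 + θ + e) := by linarith
    calc 2 * Real.exp (-(1 / 4 * T ^ (2 * e))) * (N * T ^ θ + 2 * N ^ 2 * T ^ e)
        ≤ 2 * Real.exp (-(1 / 4 * T ^ (2 * e))) * (3 * T ^ (1 + θ + e)) := by gcongr
      _ = 6 * T ^ (1 + θ + e) * Real.exp (-(1 / 4 * T ^ (2 * e))) := by ring
  have hTW : T / T ^ (1 - e) = T ^ e := by
    rw [div_eq_iff (by positivity), ← Real.rpow_add hT0]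
    rw [show e + (1 - e) = 1 by ring, Real.rpow_one]
  have t2 : 46 * T ^ θ * (T * Real.sqrt N / T ^ (1 - e) + T * Real.sqrt N / N) ≤ 138 * T ^ (1 + θ - ν / 2 + e) := by
    have r1 : T * Real.sqrt N / T ^ (1 - e) ≤ T ^ (1 - ν / 2 + e) := by
      calc T * Real.sqrt N / T ^ (1 - e) = T / T ^ (1 - e) * Real.sqrt N := by ring
        _ ≤ T ^ e * T ^ (ν / 2) := by rw [hTW]; gcongr
        _ = T ^ (e + ν / 2) := by rw [← Real.rpow_add hT0]
        _ ≤ T ^ (1 - ν / 2 + e) := Real.rpow_le_rpow_of_exponent_le hT (by linarith)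
    have r2 : T * Real.sqrt N / N ≤ 2 * T ^ (1 - ν / 2 + e) := by
      calc T * Real.sqrt N / N = T * (Real.sqrt N / N) := by ring
        _ ≤ T * (2 * T ^ (-(ν / 2))) := by gcongr
        _ = 2 * T ^ (1 - ν / 2) := by
            rw [show 1 - ν / 2 = 1 + -(ν / 2) by ring, Real.rpow_add hT0, Real.rpow_one]; ring
        _ ≤ 2 * T ^ (1 - ν / 2 + e) := by
            have := Real.rpow_le_rpow_of_exponent_le hT (by linarith : 1 - ν / 2 ≤ 1 - ν / 2 + e)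
            linarith
    have r3 : T ^ (1 + θ - ν / 2 + e) = T ^ θ * T ^ (1 - ν / 2 + e) := by
      rw [← Real.rpow_add hT0]; congr 1; ring
    rw [r3]
    have : 0 < T ^ θ := by positivity
    nlinarith
  have t3 : 92 * (T ^ e / T ^ (1 - e) + T ^ (e - 1)) * (T * Real.sqrt N * N) ≤ 184 * T ^ (2 * e + 3 * ν / 2) := by
    have r1 : T ^ e / T ^ (1 - e) = T ^ (2 * e - 1) := by
      rw [← Real.rpow_sub hT0]; congr 1; ring
    have r2 : T ^ (e - 1) ≤ T ^ (2 * e - 1) := Real.rpow_le_rpow_of_exponent_le hT (by linarith)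
    have r3 : T * Real.sqrt N * N ≤ T ^ (1 + 3 * ν / 2) := by
      calc T * Real.sqrt N * N ≤ T * T ^ (ν / 2) * T ^ ν := by gcongr
        _ = T ^ (1 + 3 * ν / 2) := by
            rw [show 1 + 3 * ν / 2 = 1 + ν / 2 + ν by ring, Real.rpow_add hT0, Real.rpow_add hT0, Real.rpow_one]
    rw [r1]
    calc 92 * (T ^ (2 * e - 1) + T ^ (e - 1)) * (T * Real.sqrt N * N)
        ≤ 92 * (T ^ (2 * e - 1) + T ^ (2 * e - 1)) * T ^ (1 + 3 * ν / 2) := by gcongr
      _ = 184 * (T ^ (2 * e - 1) * T ^ (1 + 3 * ν / 2)) := by ring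
      _ = 184 * T ^ (2 * e + 3 * ν / 2) := by rw [← Real.rpow_add hT0]; congr 2; ring
  linarith

end Pool.Agent.Helper156_SM
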