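import Mathlib
import Pool.Agent.H510R2.Div

set_option autoImplicit false

/-!
# The coefficients of the powers of zeta
-/

open MeasureTheory Set Filter

namespace Pool.Agent.Helper156_SM

/-- the coefficients of `ζ ^ k` (the `k`-fold divisor function) -/
noncomputable def ak (k n : ℕ) : ℝ := (((ArithmeticFunction.zeta : ArithmeticFunction ℕ) ^ k) n : ℝ)

theorem ak_nonneg (k n : ℕ) : 0 ≤ ak k n := Nat.cast_nonneg _

theorem ak_zero (k : ℕ) : ak k 0 = 0 := by simp [ak]

theorem pow_one' (k : ℕ) : ((ArithmeticFunction.zeta : ArithmeticFunction ℕ) ^ k) 1 = 1 := by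
  induction k with
  | zero => simp
  | succ k ih =>
    rw [pow_succ, ArithmeticFunction.mul_apply]
    simp [ih]

theorem ak_one_le {k n : ℕ} (hk : 1 ≤ k) (hn : 1 ≤ n) : 1 ≤ ak k n := by
  obtain ⟨j, rfl⟩ : ∃ j, k = j + 1 := ⟨k - 1, by omega⟩
  unfold ak
  have h : 1 ≤ ((ArithmeticFunction.zeta : ArithmeticFunction ℕ) ^ (j + 1)) n := by
    rw [pow_succ, ArithmeticFunction.mul_apply]
    have h1 : (1, n) ∈ n.divisorsAntidiagonal := by
      rw [Nat.mem_divisorsAntidiagonal]
      exact ⟨by simp, by omega⟩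
    refine le_trans ?_ (Finset.single_le_sum (fun _ _ => Nat.zero_le _) h1)
    simp only [pow_one', one_mul]
    rw [ArithmeticFunction.zeta_apply, if_neg (by omega)]
  exact_mod_cast h

theorem ak_bound (k : ℕ) (ε : ℝ) (hε : 0 < ε) : ∃ C : ℝ, 1 ≤ C ∧ ∀ n : ℕ, 1 ≤ n → ak k n ≤ C * (n : ℝ) ^ ε := by
  induction k generalizing ε with
  | zero =>
    refine ⟨1, le_rfl, fun n hn => ?_⟩
    have h0 : (1 : ℝ) ≤ n := by exact_mod_cast hn
    have h1 : (1 : ℝ) ≤ (n : ℝ) ^ ε := Real.one_le_rpow h0 hε.le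
    unfold ak
    rw [pow_zero, ArithmeticFunction.one_apply]
    split_ifs
    · push_cast; linarith
    · push_cast; linarith
  | succ k ih =>
    obtain ⟨C, hC, h⟩ := ih (ε / 2) (by linarith)
    obtain ⟨D, hD, h'⟩ := Pool.Agent.H510R2.divisor_bound (ε / 2) (by linarith)
    refine ⟨max 1 (D * C), le_max_left _ _, fun n hn => ?_⟩
    have h0 : (1 : ℝ) ≤ n := by exact_mod_cast hn
    have h1 : ak (k + 1) n ≤ (n.divisors.card : ℝ) * (C * (n : ℝ) ^ (ε / 2)) := by
      unfold ak
      rw [pow_succ, ArithmeticFunction.mul_apply]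
      push_cast
      have h2 : ∀ x ∈ n.divisorsAntidiagonal, (((ArithmeticFunction.zeta ^ k : ArithmeticFunction ℕ) x.1 : ℕ) : ℝ) *
          ((ArithmeticFunction.zeta x.2 : ℕ) : ℝ) ≤ C * (n : ℝ) ^ (ε / 2) := by
        intro x hx
        rw [Nat.mem_divisorsAntidiagonal] at hx
        have hx1 : 1 ≤ x.1 := by
          rcases Nat.eq_zero_or_pos x.1 with h3 | h3
          · rw [h3] at hx; simp at hx; omega
          · exact h3
        have hx2 : 1 ≤ x.2 := by
          rcases Nat.eq_zero_or_pos x.2 with h3 | h3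
          · rw [h3] at hx; simp at hx; omega
          · exact h3
        have h4 := h x.1 hx1
        unfold ak at h4
        have h5 : (x.1 : ℝ) ≤ n := by
          have : x.1 ≤ n := Nat.le_of_dvd hn ⟨x.2, hx.1.symm⟩
          exact_mod_cast this
        have h6 : (x.1 : ℝ) ^ (ε / 2) ≤ (n : ℝ) ^ (ε / 2) := Real.rpow_le_rpow (by positivity) h5 (by linarith)
        rw [ArithmeticFunction.zeta_apply, if_neg (by omega), Nat.cast_one, mul_one]
        refine h4.trans ?_
        gcongr
      refine (Finset.sum_le_card_nsmul _ _ _ h2).trans (le_of_eq ?_)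
      rw [nsmul_eq_mul]
      congr 2
      rw [← Nat.map_div_right_divisors, Finset.card_map]
    refine h1.trans ?_
    calc (n.divisors.card : ℝ) * (C * (n : ℝ) ^ (ε / 2)) ≤ (D * (n : ℝ) ^ (ε / 2)) * (C * (n : ℝ) ^ (ε / 2)) := by
          gcongr
          exact h' n hn
      _ = D * C * (n : ℝ) ^ ε := by
          have : (n : ℝ) ^ ε = (n : ℝ) ^ (ε / 2) * (n : ℝ) ^ (ε / 2) := by
            rw [← Real.rpow_add (by linarith)]; congr 1; ring
          rw [this]; ring
      _ ≤ max 1 (D * C) * (n : ℝ) ^ ε := by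
          gcongr
          exact le_max_right _ _

theorem ak_lseries (k : ℕ) {s : ℂ} (hs : 1 < s.re) :
    LSeriesHasSum (fun n => (ak k n : ℂ)) s (riemannZeta s ^ k) := by
  induction k with
  | zero =>
    have h1 : (fun n => (ak 0 n : ℂ)) = LSeries.delta := by
      funext n
      unfold ak
      rw [pow_zero, ArithmeticFunction.one_apply]
      unfold LSeries.delta
      split_ifs <;> simp
    rw [h1, pow_zero]
    have h2 := LSeries_delta
    have h3 : LSeriesSummable LSeries.delta s := by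
      unfold LSeriesSummable
      refine summable_of_ne_finset_zero (s := {1}) fun n hn => ?_
      rw [Finset.mem_singleton] at hn
      rw [LSeries.term]
      split_ifs
      · rfl
      · simp [LSeries.delta, hn]
    have h4 := h3.LSeriesHasSum
    rw [h2] at h4
    exact h4
  | succ k ih =>
    have h1 := ArithmeticFunction.LSeriesHasSum_zeta hs
    have h2 : LSeriesHasSum (fun n : ℕ => ((((ArithmeticFunction.zeta ^ k : ArithmeticFunction ℕ) : ArithmeticFunction ℂ)) n : ℂ)) s
        (riemannZeta s ^ k) := by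
      refine (iff_of_eq ?_).1 ih
      congr 1
    have h3 : LSeriesHasSum (fun n : ℕ => (((ArithmeticFunction.zeta : ArithmeticFunction ℕ) : ArithmeticFunction ℂ) n : ℂ)) s
        (riemannZeta s) := by
      refine (iff_of_eq ?_).1 h1
      congr 1
    have h4 := ArithmeticFunction.LSeriesHasSum_mul h2 h3
    rw [pow_succ]
    refine (iff_of_eq ?_).1 h4
    congr 1
    funext n
    unfold ak
    rw [pow_succ, ← ArithmeticFunction.natCoe_mul, ArithmeticFunction.natCoe_apply]
    push_cast
    rfl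

theorem ak_hasSum (k : ℕ) {s : ℂ} (hs : 1 < s.re) :
    HasSum (fun n : ℕ => (ak k n : ℂ) * (n : ℂ) ^ (-s)) (riemannZeta s ^ k) := by
  have h := ak_lseries k hs
  unfold LSeriesHasSum at h
  convert h using 1
  funext n
  rw [LSeries.term]
  split_ifs with h0
  · rw [h0, ak_zero]; simp
  · rw [Complex.cpow_neg, div_eq_mul_inv]

theorem ak_summable (k : ℕ) {σ : ℝ} (hσ : 1 < σ) : Summable fun n : ℕ => ak k n * (n : ℝ) ^ (-σ) := by
  have h := (ak_hasSum k (s := (σ : ℂ)) (by rwa [Complex.ofReal_re])).summable.norm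
  refine h.congr fun n => ?_
  rw [norm_mul, Complex.norm_real, Real.norm_of_nonneg (ak_nonneg k n)]
  rcases Nat.eq_zero_or_pos n with h0 | h0
  · rw [h0, ak_zero]; simp
  · rw [Complex.norm_natCast_cpow_of_pos h0, Complex.neg_re, Complex.ofReal_re]

end Pool.Agent.Helper156_SM
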