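import Pool.Agent.Helper156_SM.Bounds2

set_option autoImplicit false

/-!
# The main argument
-/

open MeasureTheory Set Filter

namespace Pool.Agent.Helper156_SM

open Pool.Agent.Helper156_EK
open Pool.Agent.W188.QS Pool.Agent.W188.GP

/-- lower bound for the twisted moment at a real point -/
theorem lowerK {k : ℕ} (hk : 1 ≤ k) {ν e θ η : ℝ} (hν : 0 < ν) (hν1 : ν < 1 / 2) (he : 0 < e) (he1 : e ≤ 1 / 4)
    (hθ : 0 ≤ θ) (hη : e ≤ η) (hη1 : η ≤ 1 / 2)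
    (hc : 1 + θ + ν / 2 - 2 * (1 + θ - ν / 2) * η + (5 + 2 * (1 + θ - ν / 2)) * e < 1 - 2 * η * ν - e) :
    ∀ᶠ T : ℝ in atTop, Close k (1 / 2) T θ e →
      T ^ (1 - 2 * η * ν - 2 * e) ≤ ‖Kf k ν e T ((1 / 2 + η : ℝ) : ℂ)‖ := by
  have ev1 := ev_pow 64 hc
  have ev2 := ev_pow 64 (a := 1 - 2 * η * ν - 2 * e) (b := 1 - 2 * η * ν - e) (by linarith)
  filter_upwards [rem_bound hk hν hν1 he he1 hθ, diag_lower hk hν hν1 he (by linarith) (by linarith : 0 < η) (by linarith),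
    ev1, ev2, eventually_ge_atTop 1] with T h1 h2 e1 e2 hT hcl
  have h3 := h1 hcl ((1 / 2 + η : ℝ) : ℂ) (by rw [Complex.ofReal_re]; linarith) (by rw [Complex.ofReal_re]; linarith)
    (by rw [Complex.ofReal_im, abs_zero]; positivity)
  rw [Complex.ofReal_re, show (1 / 2 + η : ℝ) - 1 / 2 = η by ring] at h3
  have h4 : ‖Sf k ν e T ((1 / 2 + η : ℝ) : ℂ)‖ ≤ ‖Kf k ν e T ((1 / 2 + η : ℝ) : ℂ) - Sf k ν e T ((1 / 2 + η : ℝ) : ℂ)‖ +
      ‖Kf k ν e T ((1 / 2 + η : ℝ) : ℂ)‖ := by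
    have := norm_sub_le (Kf k ν e T ((1 / 2 + η : ℝ) : ℂ))
      (Kf k ν e T ((1 / 2 + η : ℝ) : ℂ) - Sf k ν e T ((1 / 2 + η : ℝ) : ℂ))
    rw [sub_sub_cancel] at this
    linarith
  linarith

/-- Two lines. -/
theorem coreB {k : ℕ} (hk : 1 ≤ k) {ν e θ θ1 η : ℝ} (hν : 0 < ν) (hν1 : ν < 1 / 2) (he : 0 < e) (he1 : e ≤ 1 / 4)
    (hθ : 0 ≤ θ) (hθ1 : 0 ≤ θ1) (hη : e ≤ η) (hη1 : η ≤ 1 / 2)
    (hc : 1 + θ + ν / 2 - 2 * (1 + θ - ν / 2) * η + (5 + 2 * (1 + θ - ν / 2)) * e < 1 - 2 * η * ν - e)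
    (hc1 : θ1 - ν / 2 + 2 * e < -(2 * η * ν) - 2 * e) :
    ∀ᶠ T : ℝ in atTop, Close k (1 / 2) T θ e → ¬ Close k ((1 / 2 + η : ℝ) : ℂ) T θ1 e := by
  have ev1 := ev_pow 2 (a := 1 + θ1 - ν / 2 + 2 * e) (b := 1 - 2 * η * ν - 2 * e) (by linarith)
  filter_upwards [lowerK hk hν hν1 he he1 hθ hη hη1 hc, near_bound (k := k) hν hν1 he hθ1, ev1, eventually_ge_atTop 1]
    with T h1 h2 e1 hT hcl hcl1
  have h3 := h1 hcl
  have h4 := h2 _ (by rw [Complex.ofReal_im, abs_zero]; positivity) hcl1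
  have h5 : 0 < T ^ (1 + θ1 - ν / 2 + 2 * e) := by positivity
  linarith

/-- Shifts on the critical line. -/
theorem coreA {k : ℕ} (hk : 1 ≤ k) {ν e θ η1 η2 U b g : ℝ} (hν : 0 < ν) (hν1 : ν < 1 / 2) (he : 0 < e) (he1 : e ≤ 1 / 4)
    (hθ : 0 ≤ θ) (hη1 : e ≤ η1) (hη12 : η1 < η2) (hη2 : η2 ≤ 1 / 2) (hU : 0 < U) (hb : 0 < b) (hg : 0 < g)
    (hc : 1 + θ + ν / 2 - 2 * (1 + θ - ν / 2) * η1 + (5 + 2 * (1 + θ - ν / 2)) * e < 1 - 2 * η1 * ν - e)
    (hc' : 1 + θ + ν / 2 - 2 * (1 + θ - ν / 2) * η2 + (5 + 2 * (1 + θ - ν / 2)) * e < 1 - 2 * η2 * ν - e)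
    (hc1 : 4 * e < g * (η2 - η1)) (hc2 : θ - ν / 2 + 4 * e < -(b * η1 * η2) - g * η1)
    (hc3 : θ + ν / 2 - b * U ^ 2 + 4 * e < -(b * η1 * η2) - g * η1) :
    ∀ᶠ T : ℝ in atTop, ¬ (∀ u : ℝ, |u| ≤ U → Close k (1 / 2 + u * Complex.I) T θ e) := by
  obtain ⟨A, hA, hcr⟩ := crude k (e := e) hν hν1
  set κ := b * (η1 + η2) + g with hκ
  have hκ0 : 0 < κ := by rw [hκ]; have : 0 < η1 + η2 := by linarith
                         positivity
  set m := 1 - 2 * e + b * η1 ^ 2 - κ * η1 with hm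
  have hm' : m = 1 - 2 * e - b * η1 * η2 - g * η1 := by rw [hm, hκ]; ring
  -- the height
  set Y := 1 + U + (A + b + 2 + |m|) / b with hY
  have hq0 : 0 < (A + b + 2 + |m|) / b := by positivity
  have hY1 : 1 ≤ Y := by rw [hY]; linarith
  have hYU : U < Y := by rw [hY]; linarith
  have hbY : A + b + 2 + |m| ≤ b * Y ^ 2 := by
    have h1 : (A + b + 2 + |m|) / b ≤ Y := by rw [hY]; linarith
    rw [div_le_iff₀ hb] at h1
    have h2 : Y ≤ Y ^ 2 := by nlinarith [hY1]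
    have h3 : b * Y ≤ b * Y ^ 2 := mul_le_mul_of_nonneg_left h2 hb.le
    linarith
  have ev1 := ev_pow 4 (a := 1 + e + b * η2 ^ 2 - κ * η2) (b := m) (by rw [hm', hκ]; nlinarith)
  have ev2 := ev_pow 4 (a := 1 + θ - ν / 2 + 2 * e) (b := m) (by rw [hm']; linarith)
  have ev3 := ev_pow 4 (a := 1 + θ + ν / 2 + 2 * e - b * U ^ 2) (b := m) (by rw [hm']; linarith)
  have ev4 := ev_pow 4 (a := A + b + 1 - b * Y ^ 2) (b := m) (by linarith [neg_abs_le m])
  filter_upwards [hcr, lowerK hk hν hν1 he he1 hθ hη1 (by linarith) hc, near_bound (k := k) hν hν1 he hθ,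
    line_bound hk hν hν1 he hθ, rem_bound hk hν hν1 he he1 hθ, diag_upper k hν hν1 he, ev1, ev2, ev3, ev4,
    eventually_ge_atTop 1, eventually_ge_atTop (32 * Y)] with T h1 h2 h3 h4 h5 h6 e1 e2 e3 e4 hT hTY hall
  have hT0 : 0 < T := by linarith
  have hL : 0 ≤ Real.log T := Real.log_nonneg hT
  have hcl0 : Close k (1 / 2) T θ e := by
    have := hall 0 (by rw [abs_zero]; exact hU.le)
    simpa using this
  -- the function
  set H : ℂ → ℂ := fun s => Kf k ν e T s * Complex.exp ((Real.log T : ℂ) * (b * (s - 1 / 2) ^ 2 - κ * (s - 1 / 2) +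
    2 * ν * (s - 1 / 2))) with hH
  have hHn : ∀ s : ℂ, ‖H s‖ = ‖Kf k ν e T s‖ * T ^ (b * ((s.re - 1 / 2) ^ 2 - s.im ^ 2) - κ * (s.re - 1 / 2) +
      2 * ν * (s.re - 1 / 2)) := by
    intro s
    rw [hH]
    simp only
    rw [norm_mul, Complex.norm_exp]
    congr 1
    rw [Real.rpow_def_of_pos hT0]
    congr 1
    rw [Complex.re_ofReal_mul]
    congr 1
    rw [sq, sq]
    simp only [Complex.add_re, Complex.sub_re, Complex.mul_re, Complex.mul_im, Complex.sub_im, Complex.ofReal_re,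
      Complex.ofReal_im, Complex.one_re, Complex.one_im, Complex.re_ofNat, Complex.im_ofNat, Complex.div_ofNat_re,
      Complex.div_ofNat_im]
    ring
  have hp : 0 < T ^ m := by positivity
  have main : ‖H ((1 / 2 + η1 : ℝ) : ℂ)‖ ≤ T ^ m / 2 := by
    apply rect_max (a := 1 / 2) (c := 1 / 2 + η2) (y1 := -Y) (y2 := Y) (by linarith) (by linarith)
    · -- differentiability
      apply DifferentiableOn.mul
      · apply (Kf_diff k ν e hT0).mono
        intro z hz1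
        change |z.im| < T
        have h6 := hz1.2
        change z.im ∈ Icc _ _ at h6
        rw [abs_lt]
        constructor <;> linarith [h6.1, h6.2]
      · apply Differentiable.differentiableOn
        fun_prop
    · -- left side
      intro z hz1 hz2
      have hz3 : |z.im| ≤ Y := abs_le.2 hz2
      rw [hHn, hz1]
      have r0 : b * ((1 / 2 - 1 / 2 : ℝ) ^ 2 - z.im ^ 2) - κ * (1 / 2 - 1 / 2) + 2 * ν * (1 / 2 - 1 / 2) = -(b * z.im ^ 2) := by
        ring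
      rw [r0]
      rcases le_or_gt |z.im| U with hu | hu
      · have hz4 : z = 1 / 2 + (z.im : ℂ) * Complex.I := by
          apply Complex.ext
          · simp [hz1]
          · simp
        have h7 := h3 z (by linarith) (by rw [hz4]; simpa using hall z.im hu)
        have h8 : T ^ (-(b * z.im ^ 2)) ≤ 1 := by
          apply Real.rpow_le_one_of_one_le_of_nonpos hT
          have : 0 ≤ b * z.im ^ 2 := by positivity
          linarith
        calc ‖Kf k ν e T z‖ * T ^ (-(b * z.im ^ 2)) ≤ T ^ (1 + θ - ν / 2 + 2 * e) * 1 := by gcongr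
          _ ≤ T ^ m / 2 := by linarith
      · have h7 := h4 hcl0 z hz1 (by linarith)
        have h8 : T ^ (-(b * z.im ^ 2)) ≤ T ^ (-(b * U ^ 2)) := by
          apply Real.rpow_le_rpow_of_exponent_le hT
          have : U ^ 2 ≤ z.im ^ 2 := by
            have := pow_le_pow_left₀ hU.le hu.le 2
            rwa [sq_abs] at this
          nlinarith
        calc ‖Kf k ν e T z‖ * T ^ (-(b * z.im ^ 2)) ≤ T ^ (1 + θ + ν / 2 + 2 * e) * T ^ (-(b * U ^ 2)) := by gcongr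
          _ = T ^ (1 + θ + ν / 2 + 2 * e - b * U ^ 2) := by rw [← Real.rpow_add hT0]; congr 1
          _ ≤ T ^ m / 2 := by linarith
    · -- right side
      intro z hz1 hz2
      have hz3 : |z.im| ≤ Y := abs_le.2 hz2
      rw [hHn, hz1]
      have h7 := h5 hcl0 z (by rw [hz1]; linarith) (by rw [hz1]; linarith) (by linarith)
      have h8 := h6 z (by rw [hz1]; linarith) (by rw [hz1]; linarith)
      rw [hz1, show (1 / 2 + η2 : ℝ) - 1 / 2 = η2 by ring] at h7 h8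
      have h9 : ‖Kf k ν e T z‖ ≤ ‖Kf k ν e T z - Sf k ν e T z‖ + ‖Sf k ν e T z‖ := by
        have := norm_add_le (Kf k ν e T z - Sf k ν e T z) (Sf k ν e T z)
        simpa using this
      have h10 : T ^ (1 + θ + ν / 2 - 2 * (1 + θ - ν / 2) * η2 + (5 + 2 * (1 + θ - ν / 2)) * e) ≤
          T ^ (1 - 2 * η2 * ν + e) := Real.rpow_le_rpow_of_exponent_le hT (by linarith)
      have h11 : ‖Kf k ν e T z‖ ≤ 2 * T ^ (1 - 2 * η2 * ν + e) := by linarith
      have r0 : b * ((1 / 2 + η2 - 1 / 2 : ℝ) ^ 2 - z.im ^ 2) - κ * (1 / 2 + η2 - 1 / 2) + 2 * ν * (1 / 2 + η2 - 1 / 2) ≤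
          b * η2 ^ 2 - κ * η2 + 2 * ν * η2 := by
        have : 0 ≤ b * z.im ^ 2 := by positivity
        nlinarith
      calc ‖Kf k ν e T z‖ * T ^ (b * ((1 / 2 + η2 - 1 / 2 : ℝ) ^ 2 - z.im ^ 2) - κ * (1 / 2 + η2 - 1 / 2) +
            2 * ν * (1 / 2 + η2 - 1 / 2)) ≤ (2 * T ^ (1 - 2 * η2 * ν + e)) * T ^ (b * η2 ^ 2 - κ * η2 + 2 * ν * η2) := by
            gcongr
        _ = 2 * T ^ (1 + e + b * η2 ^ 2 - κ * η2) := by
            rw [mul_assoc, ← Real.rpow_add hT0]; congr 2; ring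
        _ ≤ T ^ m / 2 := by linarith
    case hz =>
      rw [Complex.ofReal_re]
      exact ⟨by linarith, by linarith⟩
    case hz' =>
      rw [Complex.ofReal_im]
      exact ⟨by linarith, by linarith⟩
    all_goals
      intro z hz1 hz2
      have hzY : z.im ^ 2 = Y ^ 2 := by rw [hz2] <;> ring
      have hz3 : |z.im| = Y := by
        rw [hz2]
        first
          | rw [abs_of_pos (by linarith : 0 < Y)]
          | rw [abs_neg, abs_of_pos (by linarith : 0 < Y)]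
      have h7 := h1 z (by linarith [hz1.1]) (by linarith [hz1.2]) (by rw [hz3]; linarith)
      rw [hHn, hzY]
      have r0 : b * ((z.re - 1 / 2) ^ 2 - Y ^ 2) - κ * (z.re - 1 / 2) + 2 * ν * (z.re - 1 / 2) ≤ b + 1 - b * Y ^ 2 := by
        have a1 : 0 ≤ z.re - 1 / 2 := by linarith [hz1.1]
        have a2 : z.re - 1 / 2 ≤ 1 / 2 := by linarith [hz1.2]
        have a3 : 0 ≤ κ * (z.re - 1 / 2) := by positivity
        have a4 : (z.re - 1 / 2) ^ 2 ≤ 1 := by nlinarith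
        have a5 : 2 * ν * (z.re - 1 / 2) ≤ 1 := by nlinarith
        nlinarith
      calc ‖Kf k ν e T z‖ * T ^ (b * ((z.re - 1 / 2) ^ 2 - Y ^ 2) - κ * (z.re - 1 / 2) + 2 * ν * (z.re - 1 / 2))
          ≤ T ^ A * T ^ (b + 1 - b * Y ^ 2) := by
            gcongr
        _ = T ^ (A + b + 1 - b * Y ^ 2) := by rw [← Real.rpow_add hT0]; congr 1; ring
        _ ≤ T ^ m / 2 := by linarith [Real.rpow_pos_of_pos hT0 (A + b + 1 - b * Y ^ 2)]
  have h7 := h2 hcl0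
  rw [hHn, Complex.ofReal_re, Complex.ofReal_im, show (1 / 2 + η1 : ℝ) - 1 / 2 = η1 by ring] at main
  have h8 : T ^ m ≤ ‖Kf k ν e T ((1 / 2 + η1 : ℝ) : ℂ)‖ * T ^ (b * (η1 ^ 2 - 0 ^ 2) - κ * η1 + 2 * ν * η1) := by
    calc T ^ m = T ^ (1 - 2 * η1 * ν - 2 * e) * T ^ (b * (η1 ^ 2 - 0 ^ 2) - κ * η1 + 2 * ν * η1) := by
          rw [← Real.rpow_add hT0]; congr 1; rw [hm]; ring
      _ ≤ _ := by gcongr
  linarith

end Pool.Agent.Helper156_SM
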