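import Mathlib
import Pool.Agent.Y813.RL.HI

set_option autoImplicit false

/-!
# A Poisson type integral over a small set
-/

open MeasureTheory Set Filter

namespace Pool.Agent.Helper156_SM

/-- the real part of the kernel -/
theorem ker_re {x y : ℝ} : ((1 : ℂ) / ((x : ℂ) + (y : ℂ) * Complex.I)).re = x / (x ^ 2 + y ^ 2) := by
  rw [one_div, Complex.inv_re, Complex.normSq_apply]
  simp
  ring

theorem ker_eq (s : ℂ) (τ v : ℝ) : s + τ - 1 / 2 - v * Complex.I =
    ((s.re + τ - 1 / 2 : ℝ) : ℂ) + ((s.im - v : ℝ) : ℂ) * Complex.I := by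
  apply Complex.ext
  · simp
  · simp

theorem harm {B : Set ℝ} (hB : IsCompact B) {ε : ℝ} (hε : 0 < ε) :
    ∃ f : ℂ → ℂ, DifferentiableOn ℂ f {s : ℂ | 1 / 2 ≤ s.re} ∧ (∀ s : ℂ, 1 / 2 ≤ s.re → 0 ≤ (f s).re) ∧
      (∀ s : ℂ, s.re = 1 / 2 → s.im ∈ B → 1 ≤ (f s).re) ∧
      (∀ s : ℂ, 1 / 2 < s.re → (f s).re ≤ ((volume B).toReal + ε) / (s.re - 1 / 2)) := by
  have hBfin : volume B < ⊤ := hB.measure_lt_top
  -- choice of the thickening
  obtain ⟨τ, hτ, hvol⟩ : ∃ τ : ℝ, 0 < τ ∧ volume (Metric.cthickening τ B) ≤ volume B + ENNReal.ofReal ε := by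
    have h1 := tendsto_measure_cthickening_of_isCompact (μ := (volume : Measure ℝ)) hB
    have h2 : ∀ᶠ r in nhds (0 : ℝ), volume (Metric.cthickening r B) < volume B + ENNReal.ofReal ε := by
      apply h1.eventually_lt_const
      exact ENNReal.lt_add_right hBfin.ne (by simpa using hε)
    have h3 : ∀ᶠ r in nhdsWithin (0 : ℝ) (Ioi 0), volume (Metric.cthickening r B) < volume B + ENNReal.ofReal ε :=
      h2.filter_mono nhdsWithin_le_nhds
    obtain ⟨r, hr, hr'⟩ := (h3.and self_mem_nhdsWithin).exists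
    exact ⟨r, hr', hr.le⟩
  set D := Metric.cthickening τ B with hD
  have hDc : IsCompact D := hB.cthickening
  have hDm : MeasurableSet D := hDc.isClosed.measurableSet
  have hDfin : volume D < ⊤ := hDc.measure_lt_top
  have hDr : (volume D).toReal ≤ (volume B).toReal + ε := by
    have h1 := ENNReal.toReal_mono (by simp [hBfin.ne]) hvol
    rw [ENNReal.toReal_add hBfin.ne ENNReal.ofReal_ne_top, ENNReal.toReal_ofReal hε.le] at h1
    exact h1
  set U : Set ℂ := {s : ℂ | 1 / 2 - τ < s.re} with hU
  have hUo : IsOpen U := isOpen_lt continuous_const Complex.continuous_re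
  have hne : ∀ s ∈ U, ∀ v : ℝ, s + τ - 1 / 2 - v * Complex.I ≠ 0 := by
    intro s hs v h
    change 1 / 2 - τ < s.re at hs
    have := congrArg Complex.re h
    rw [ker_eq] at this
    simp at this
    linarith
  have hc : ContinuousOn (fun q : ℂ × ℝ => (1 : ℂ) / (q.1 + τ - 1 / 2 - q.2 * Complex.I)) (U ×ˢ D) := by
    intro q hq
    apply ContinuousAt.continuousWithinAt
    apply ContinuousAt.div continuousAt_const (by fun_prop)
    exact hne q.1 hq.1 q.2
  have hd : ∀ v ∈ D, DifferentiableOn ℂ (fun s : ℂ => (1 : ℂ) / (s + τ - 1 / 2 - v * Complex.I)) U := by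
    intro v _ s hs
    apply DifferentiableAt.differentiableWithinAt
    apply DifferentiableAt.div (by fun_prop) (by fun_prop)
    exact hne s hs v
  have hf := Pool.Agent.Y813.RL.differentiableOn_setIntegral (volume : Measure ℝ) hDc hDm hDfin hUo hc hd
  have hint : ∀ s ∈ U, IntegrableOn (fun v : ℝ => (1 : ℂ) / (s + τ - 1 / 2 - v * Complex.I)) D := by
    intro s hs
    refine ContinuousOn.integrableOn_compact hDc ?_
    intro v hv
    apply ContinuousAt.continuousWithinAt
    apply ContinuousAt.div continuousAt_const (by fun_prop)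
    exact hne s hs v
  have hre : ∀ s ∈ U, (∫ v in D, (1 : ℂ) / (s + τ - 1 / 2 - v * Complex.I)).re =
      ∫ v in D, (s.re + τ - 1 / 2) / ((s.re + τ - 1 / 2) ^ 2 + (s.im - v) ^ 2) := by
    intro s hs
    have h1 := integral_re (hint s hs)
    have h2 : (∫ v in D, (1 : ℂ) / (s + τ - 1 / 2 - v * Complex.I)).re =
        RCLike.re (∫ v in D, (1 : ℂ) / (s + τ - 1 / 2 - v * Complex.I)) := rfl
    rw [h2, ← h1]
    congr 1
    funext v
    rw [ker_eq]
    exact ker_re
  have hintr : ∀ s ∈ U, IntegrableOn (fun v : ℝ => (s.re + τ - 1 / 2) / ((s.re + τ - 1 / 2) ^ 2 + (s.im - v) ^ 2)) D := by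
    intro s hs
    have := (hint s hs).re
    refine this.congr (Eventually.of_forall fun v => ?_)
    simp only
    rw [ker_eq]
    exact ker_re
  have hsub : {s : ℂ | 1 / 2 ≤ s.re} ⊆ U := by
    intro s hs
    change 1 / 2 ≤ s.re at hs
    change 1 / 2 - τ < s.re
    linarith
  refine ⟨fun s => ∫ v in D, (1 : ℂ) / (s + τ - 1 / 2 - v * Complex.I), hf.mono hsub, ?_, ?_, ?_⟩
  · intro s hs
    simp only
    rw [hre s (hsub hs)]
    apply integral_nonneg
    intro v
    have : 0 < s.re + τ - 1 / 2 := by linarith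
    simp only [Pi.zero_apply]
    positivity
  · intro s hs hy
    simp only
    have hsU : s ∈ U := hsub (by change 1 / 2 ≤ s.re; rw [hs])
    rw [hre s hsU]
    have hball : Metric.closedBall s.im τ ⊆ D := Metric.closedBall_subset_cthickening hy τ
    have h1 : ∫ v in Metric.closedBall s.im τ, (s.re + τ - 1 / 2) / ((s.re + τ - 1 / 2) ^ 2 + (s.im - v) ^ 2) ≤
        ∫ v in D, (s.re + τ - 1 / 2) / ((s.re + τ - 1 / 2) ^ 2 + (s.im - v) ^ 2) := by
      apply setIntegral_mono_set (hintr s hsU)
      · apply Eventually.of_forall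
        intro v
        have : 0 < s.re + τ - 1 / 2 := by rw [hs]; linarith
        simp only [Pi.zero_apply]
        positivity
      · exact hball.eventuallyLE
    refine le_trans ?_ h1
    have h2 : ∫ v in Metric.closedBall s.im τ, (1 / (2 * τ) : ℝ) ≤
        ∫ v in Metric.closedBall s.im τ, (s.re + τ - 1 / 2) / ((s.re + τ - 1 / 2) ^ 2 + (s.im - v) ^ 2) := by
      apply setIntegral_mono_on
      · exact (continuousOn_const).integrableOn_compact (isCompact_closedBall _ _)
      · exact (hintr s hsU).mono_set hball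
      · exact Metric.isClosed_closedBall.measurableSet
      intro v hv
      rw [Metric.mem_closedBall, Real.dist_eq] at hv
      have e1 : s.re + τ - 1 / 2 = τ := by rw [hs]; ring
      rw [e1]
      have h3 : (s.im - v) ^ 2 ≤ τ ^ 2 := by
        have := pow_le_pow_left₀ (abs_nonneg _) hv 2
        rw [sq_abs] at this
        nlinarith
      rw [div_le_div_iff₀ (by positivity) (by positivity)]
      nlinarith
    refine le_trans (le_of_eq ?_) h2
    rw [setIntegral_const]
    simp only [Measure.real, Real.volume_closedBall, smul_eq_mul]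
    rw [ENNReal.toReal_ofReal (by positivity)]
    field_simp
  · intro s hs
    simp only
    have hsU : s ∈ U := hsub (by change 1 / 2 ≤ s.re; linarith)
    rw [hre s hsU]
    have hx : 0 < s.re - 1 / 2 := by linarith
    have h2 : ∫ v in D, (s.re + τ - 1 / 2) / ((s.re + τ - 1 / 2) ^ 2 + (s.im - v) ^ 2) ≤
        ∫ v in D, (1 / (s.re - 1 / 2) : ℝ) := by
      apply setIntegral_mono_on (hintr s hsU)
      · simp [hDfin]
      · exact hDm
      intro v _
      have hx' : 0 < s.re + τ - 1 / 2 := by linarith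
      rw [div_le_div_iff₀ (by positivity) hx]
      nlinarith [sq_nonneg (s.im - v)]
    refine h2.trans ?_
    rw [setIntegral_const]
    simp only [Measure.real, smul_eq_mul]
    rw [mul_one_div]
    gcongr

end Pool.Agent.Helper156_SM
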