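import Pool.Agent.Helper156_SM.TL
import Pool.Agent.Helper156_SM.Harm

set_option autoImplicit false

/-!
# The maximum principle with a small exceptional set
-/

open MeasureTheory Set Filter

namespace Pool.Agent.Helper156_SM

theorem core_max {K : ℂ → ℂ} {T y0 U η1 η2 b κ p1 p2 q A Y ε0 m : ℝ} (hT : 1 ≤ T)
    (hη1 : 0 < η1) (hη12 : η1 < η2) (hU : 0 < U) (hUY : U < Y) (hb : 0 ≤ b) (hp : p1 ≤ p2) (hε0 : 0 < ε0)
    (hK : DifferentiableOn ℂ K (Icc (1 / 2) (1 / 2 + η2) ×ℂ Icc (y0 - Y) (y0 + Y)))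
    (hnear : volume {y | y ∈ Icc (y0 - U) (y0 + U) ∧ T ^ p1 < ‖K (1 / 2 + y * Complex.I)‖} ≤ ENNReal.ofReal ε0)
    (hline : ∀ s : ℂ, s.re = 1 / 2 → |s.im - y0| ≤ Y → ‖K s‖ ≤ T ^ p2)
    (hright : ∀ s : ℂ, s.re = 1 / 2 + η2 → |s.im - y0| ≤ Y → ‖K s‖ ≤ T ^ q)
    (htop : ∀ s : ℂ, 1 / 2 ≤ s.re → s.re ≤ 1 / 2 + η2 → |s.im - y0| = Y → ‖K s‖ ≤ T ^ A)
    (h1 : 2 * T ^ p1 ≤ T ^ m) (h2 : p2 - b * U ^ 2 ≤ m) (h3 : q + b * η2 ^ 2 - κ * η2 ≤ m)
    (h4 : A + b * η2 ^ 2 + |κ| * η2 - b * Y ^ 2 ≤ m) :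
    ‖K (((1 / 2 + η1 : ℝ) : ℂ) + y0 * Complex.I)‖ ≤
      T ^ (m - b * η1 ^ 2 + κ * η1 + (p2 - p1) * (2 * ε0 / η1)) := by
  have hT0 : 0 < T := by linarith
  have hY0 : 0 < Y := by linarith
  set L := Real.log T with hL
  have hKc := hK.continuousOn
  -- the exceptional set
  set B : Set ℝ := {y | y ∈ Icc (y0 - U) (y0 + U) ∧ 2 * T ^ p1 ≤ ‖K (1 / 2 + y * Complex.I)‖} with hB
  have hcont : ContinuousOn (fun y : ℝ => ‖K (1 / 2 + y * Complex.I)‖) (Icc (y0 - U) (y0 + U)) := by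
    apply ContinuousOn.norm
    apply hKc.comp (by fun_prop : ContinuousOn (fun y : ℝ => (1 / 2 + y * Complex.I : ℂ)) (Icc (y0 - U) (y0 + U)))
    intro y hy
    refine ⟨?_, ?_⟩
    · change (1 / 2 + (y : ℂ) * Complex.I).re ∈ Icc (1 / 2 : ℝ) (1 / 2 + η2)
      have e : (1 / 2 + (y : ℂ) * Complex.I).re = 1 / 2 := by simp
      rw [e]
      exact ⟨le_rfl, by linarith⟩
    · change (1 / 2 + (y : ℂ) * Complex.I).im ∈ Icc (y0 - Y) (y0 + Y)
      have e : (1 / 2 + (y : ℂ) * Complex.I).im = y := by simp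
      rw [e]
      exact ⟨by linarith [hy.1], by linarith [hy.2]⟩
  have hBcl : IsClosed B := by
    have := hcont.preimage_isClosed_of_isClosed isClosed_Icc (isClosed_Ici (a := 2 * T ^ p1))
    exact this
  have hBc : IsCompact B := isCompact_Icc.of_isClosed_subset hBcl (fun y hy => hy.1)
  have hBv : volume B ≤ ENNReal.ofReal ε0 := by
    refine le_trans (measure_mono ?_) hnear
    intro y hy
    refine ⟨hy.1, ?_⟩
    have h5 : 0 < T ^ p1 := by positivity
    linarith [hy.2]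
  have hBr : (volume B).toReal ≤ ε0 := ENNReal.toReal_le_of_le_ofReal hε0.le hBv
  obtain ⟨f, hfd, hf0, hfB, hfle⟩ := harm hBc hε0
  set H : ℂ → ℂ := fun s => K s * Complex.exp ((L : ℂ) * (b * (s - 1 / 2 - y0 * Complex.I) ^ 2 -
    κ * (s - 1 / 2 - y0 * Complex.I) - ((p2 - p1 : ℝ) : ℂ) * f s)) with hH
  have hHn : ∀ s : ℂ, ‖H s‖ = ‖K s‖ * T ^ (b * ((s.re - 1 / 2) ^ 2 - (s.im - y0) ^ 2) - κ * (s.re - 1 / 2) -
      (p2 - p1) * (f s).re) := by
    intro s
    rw [hH]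
    simp only
    rw [norm_mul, Complex.norm_exp, Real.rpow_def_of_pos hT0]
    congr 2
    rw [Complex.re_ofReal_mul]
    congr 1
    rw [Complex.sub_re, Complex.re_ofReal_mul, sq]
    simp only [Complex.sub_re, Complex.mul_re, Complex.mul_im, Complex.sub_im, Complex.ofReal_re,
      Complex.ofReal_im, Complex.one_re, Complex.one_im, Complex.re_ofNat, Complex.im_ofNat, Complex.div_ofNat_re,
      Complex.div_ofNat_im, Complex.I_re, Complex.I_im]
    ring
  have main : ‖H (((1 / 2 + η1 : ℝ) : ℂ) + y0 * Complex.I)‖ ≤ T ^ m := by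
    apply rect_max (a := 1 / 2) (c := 1 / 2 + η2) (y1 := y0 - Y) (y2 := y0 + Y) (by linarith) (by linarith)
    · apply hK.mul
      apply DifferentiableOn.cexp
      apply DifferentiableOn.const_mul
      apply DifferentiableOn.sub
      · apply Differentiable.differentiableOn
        fun_prop
      · apply DifferentiableOn.const_mul
        apply hfd.mono
        intro z hz1
        have h6 := hz1.1
        change z.re ∈ Icc _ _ at h6
        exact h6.1
    · -- left side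
      intro z hz1 hz2
      have hz3 : |z.im - y0| ≤ Y := abs_le.2 ⟨by linarith [hz2.1], by linarith [hz2.2]⟩
      have hz4 : z = 1 / 2 + (z.im : ℂ) * Complex.I := by
        apply Complex.ext
        · simp [hz1]
        · simp
      rw [hHn, hz1]
      have r0 : b * ((1 / 2 - 1 / 2 : ℝ) ^ 2 - (z.im - y0) ^ 2) - κ * (1 / 2 - 1 / 2) - (p2 - p1) * (f z).re =
          -(b * (z.im - y0) ^ 2) - (p2 - p1) * (f z).re := by ring
      rw [r0]
      have hf0z := hf0 z (by rw [hz1])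
      have hbz : 0 ≤ b * (z.im - y0) ^ 2 := by positivity
      have hpf : 0 ≤ (p2 - p1) * (f z).re := mul_nonneg (by linarith) hf0z
      rcases le_or_gt |z.im - y0| U with hu | hu
      · have hzI : z.im ∈ Icc (y0 - U) (y0 + U) := by
          have := abs_le.1 hu
          exact ⟨by linarith, by linarith⟩
        by_cases hzB : z.im ∈ B
        · have h5 := hline z hz1 hz3
          have h6 := hfB z hz1 hzB
          have h7 : (p2 - p1) * 1 ≤ (p2 - p1) * (f z).re := mul_le_mul_of_nonneg_left h6 (by linarith)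
          calc ‖K z‖ * T ^ (-(b * (z.im - y0) ^ 2) - (p2 - p1) * (f z).re) ≤ T ^ p2 * T ^ (-(p2 - p1)) := by
                gcongr
                linarith
            _ = T ^ p1 := by rw [← Real.rpow_add hT0]; congr 1; ring
            _ ≤ 2 * T ^ p1 := by linarith [Real.rpow_pos_of_pos hT0 p1]
            _ ≤ T ^ m := h1
        · have h5 : ‖K z‖ ≤ 2 * T ^ p1 := by
            by_contra h6
            push Not at h6
            apply hzB
            refine ⟨hzI, ?_⟩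
            rw [← hz4]
            exact h6.le
          calc ‖K z‖ * T ^ (-(b * (z.im - y0) ^ 2) - (p2 - p1) * (f z).re) ≤ (2 * T ^ p1) * 1 := by
                gcongr
                apply Real.rpow_le_one_of_one_le_of_nonpos hT
                linarith
            _ = 2 * T ^ p1 := mul_one _
            _ ≤ T ^ m := h1
      · have h5 := hline z hz1 hz3
        have h6 : U ^ 2 ≤ (z.im - y0) ^ 2 := by
          have := pow_le_pow_left₀ hU.le hu.le 2
          rwa [sq_abs] at this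
        have h7 : b * U ^ 2 ≤ b * (z.im - y0) ^ 2 := mul_le_mul_of_nonneg_left h6 hb
        calc ‖K z‖ * T ^ (-(b * (z.im - y0) ^ 2) - (p2 - p1) * (f z).re) ≤ T ^ p2 * T ^ (-(b * U ^ 2)) := by
              gcongr
              linarith
          _ = T ^ (p2 - b * U ^ 2) := by rw [← Real.rpow_add hT0]; congr 1
          _ ≤ T ^ m := Real.rpow_le_rpow_of_exponent_le hT h2
    · -- right side
      intro z hz1 hz2
      have hz3 : |z.im - y0| ≤ Y := abs_le.2 ⟨by linarith [hz2.1], by linarith [hz2.2]⟩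
      rw [hHn, hz1]
      have h5 := hright z hz1 hz3
      have hf0z := hf0 z (by rw [hz1]; linarith)
      have hbz : 0 ≤ b * (z.im - y0) ^ 2 := by positivity
      have hpf : 0 ≤ (p2 - p1) * (f z).re := mul_nonneg (by linarith) hf0z
      have r0 : b * ((1 / 2 + η2 - 1 / 2 : ℝ) ^ 2 - (z.im - y0) ^ 2) - κ * (1 / 2 + η2 - 1 / 2) - (p2 - p1) * (f z).re ≤
          b * η2 ^ 2 - κ * η2 := by
        have e : b * ((1 / 2 + η2 - 1 / 2 : ℝ) ^ 2 - (z.im - y0) ^ 2) - κ * (1 / 2 + η2 - 1 / 2) =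
          b * η2 ^ 2 - κ * η2 - b * (z.im - y0) ^ 2 := by ring
        linarith
      calc ‖K z‖ * T ^ (b * ((1 / 2 + η2 - 1 / 2 : ℝ) ^ 2 - (z.im - y0) ^ 2) - κ * (1 / 2 + η2 - 1 / 2) -
            (p2 - p1) * (f z).re) ≤ T ^ q * T ^ (b * η2 ^ 2 - κ * η2) := by
            gcongr
        _ = T ^ (q + b * η2 ^ 2 - κ * η2) := by
            rw [← Real.rpow_add hT0]; congr 1; ring
        _ ≤ T ^ m := Real.rpow_le_rpow_of_exponent_le hT h3
    case hz =>
      have e : (((1 / 2 + η1 : ℝ) : ℂ) + y0 * Complex.I).re = 1 / 2 + η1 := by simp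
      rw [e]
      exact ⟨by linarith, by linarith⟩
    case hz' =>
      have e : (((1 / 2 + η1 : ℝ) : ℂ) + y0 * Complex.I).im = y0 := by simp
      rw [e]
      exact ⟨by linarith, by linarith⟩
    all_goals
      intro z hz1 hz2
      have hz3 : |z.im - y0| = Y := by
        rw [hz2]
        first
          | rw [show y0 + Y - y0 = Y by ring, abs_of_pos hY0]
          | rw [show y0 - Y - y0 = -Y by ring, abs_neg, abs_of_pos hY0]
      have hz4 : (z.im - y0) ^ 2 = Y ^ 2 := by rw [← sq_abs, hz3]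
      have h5 := htop z hz1.1 hz1.2 hz3
      have hf0z := hf0 z hz1.1
      have hpf : 0 ≤ (p2 - p1) * (f z).re := mul_nonneg (by linarith) hf0z
      rw [hHn, hz4]
      have a1 : 0 ≤ z.re - 1 / 2 := by linarith [hz1.1]
      have a2 : z.re - 1 / 2 ≤ η2 := by linarith [hz1.2]
      have a3 : (z.re - 1 / 2) ^ 2 ≤ η2 ^ 2 := pow_le_pow_left₀ a1 a2 2
      have a4 : -(κ * (z.re - 1 / 2)) ≤ |κ| * η2 := by
        have b1 := neg_abs_le κ
        have b2 : -(κ * (z.re - 1 / 2)) ≤ |κ| * (z.re - 1 / 2) := by nlinarith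
        have b3 : |κ| * (z.re - 1 / 2) ≤ |κ| * η2 := mul_le_mul_of_nonneg_left a2 (abs_nonneg _)
        linarith
      have a5 : b * (z.re - 1 / 2) ^ 2 ≤ b * η2 ^ 2 := mul_le_mul_of_nonneg_left a3 hb
      have r0 : b * ((z.re - 1 / 2) ^ 2 - Y ^ 2) - κ * (z.re - 1 / 2) - (p2 - p1) * (f z).re ≤
          b * η2 ^ 2 + |κ| * η2 - b * Y ^ 2 := by
        have e : b * ((z.re - 1 / 2) ^ 2 - Y ^ 2) = b * (z.re - 1 / 2) ^ 2 - b * Y ^ 2 := by ring
        linarith
      calc ‖K z‖ * T ^ (b * ((z.re - 1 / 2) ^ 2 - Y ^ 2) - κ * (z.re - 1 / 2) - (p2 - p1) * (f z).re)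
          ≤ T ^ A * T ^ (b * η2 ^ 2 + |κ| * η2 - b * Y ^ 2) := by
            gcongr
        _ = T ^ (A + b * η2 ^ 2 + |κ| * η2 - b * Y ^ 2) := by rw [← Real.rpow_add hT0]; congr 1; ring
        _ ≤ T ^ m := Real.rpow_le_rpow_of_exponent_le hT h4
  rw [hHn] at main
  set s0 : ℂ := ((1 / 2 + η1 : ℝ) : ℂ) + y0 * Complex.I with hs0
  have e1 : s0.re = 1 / 2 + η1 := by rw [hs0]; simp
  have e2 : s0.im = y0 := by rw [hs0]; simp
  have hfs := hfle s0 (by rw [e1]; linarith)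
  rw [e1, e2] at main
  rw [e1] at hfs
  have hfs2 : (f s0).re ≤ 2 * ε0 / η1 := by
    refine hfs.trans ?_
    rw [show 1 / 2 + η1 - 1 / 2 = η1 by ring]
    gcongr
    linarith
  have h5 : (p2 - p1) * (f s0).re ≤ (p2 - p1) * (2 * ε0 / η1) := mul_le_mul_of_nonneg_left hfs2 (by linarith)
  have h6 : ‖K s0‖ = ‖K s0‖ * T ^ (b * ((1 / 2 + η1 - 1 / 2) ^ 2 - (y0 - y0) ^ 2) - κ * (1 / 2 + η1 - 1 / 2) -
      (p2 - p1) * (f s0).re) * T ^ (-(b * ((1 / 2 + η1 - 1 / 2) ^ 2 - (y0 - y0) ^ 2) - κ * (1 / 2 + η1 - 1 / 2) -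
      (p2 - p1) * (f s0).re)) := by
    rw [mul_assoc, ← Real.rpow_add hT0, add_neg_cancel, Real.rpow_zero, mul_one]
  rw [h6]
  calc ‖K s0‖ * T ^ (b * ((1 / 2 + η1 - 1 / 2) ^ 2 - (y0 - y0) ^ 2) - κ * (1 / 2 + η1 - 1 / 2) -
      (p2 - p1) * (f s0).re) * T ^ (-(b * ((1 / 2 + η1 - 1 / 2) ^ 2 - (y0 - y0) ^ 2) - κ * (1 / 2 + η1 - 1 / 2) -
      (p2 - p1) * (f s0).re)) ≤ T ^ m * T ^ (-(b * ((1 / 2 + η1 - 1 / 2) ^ 2 - (y0 - y0) ^ 2) - κ * (1 / 2 + η1 - 1 / 2) -
      (p2 - p1) * (f s0).re)) := by gcongr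
    _ = T ^ (m + -(b * ((1 / 2 + η1 - 1 / 2) ^ 2 - (y0 - y0) ^ 2) - κ * (1 / 2 + η1 - 1 / 2) -
      (p2 - p1) * (f s0).re)) := by rw [← Real.rpow_add hT0]
    _ ≤ _ := by
      apply Real.rpow_le_rpow_of_exponent_le hT
      have e : m + -(b * ((1 / 2 + η1 - 1 / 2) ^ 2 - (y0 - y0) ^ 2) - κ * (1 / 2 + η1 - 1 / 2) - (p2 - p1) * (f s0).re) =
        m - b * η1 ^ 2 + κ * η1 + (p2 - p1) * (f s0).re := by ring
      rw [e]
      linarith

end Pool.Agent.Helper156_SM
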