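import Pool.Agent.Helper156_SM.Bounds2
import Pool.Agent.Helper156_SM.Harm

set_option autoImplicit false

/-!
# The diagonal is large near every point of a vertical line
-/

open MeasureTheory Set Filter

namespace Pool.Agent.Helper156_SM

theorem diag_near {k : ℕ} (hk : 1 ≤ k) (u0 : ℝ) {η1 lam δ : ℝ} (hη : 0 < η1) (hlam : 0 < lam) (hδ : 0 < δ) :
    ∃ e0 : ℝ, 0 < e0 ∧ ∀ ν e : ℝ, 0 < ν → ν < 1 / 2 → 0 < e → e ≤ e0 → e ≤ η1 →
    ∀ᶠ T : ℝ in atTop, ∃ y : ℝ, |y - u0| ≤ lam ∧
      T ^ (1 - 2 * η1 * ν - δ) ≤ ‖Sf k ν e T (((1 / 2 + η1 : ℝ) : ℂ) + y * Complex.I)‖ := by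
  set x1 := 1 + |u0| with hx1
  have hx1' : 1 ≤ x1 := by rw [hx1]; linarith [abs_nonneg u0]
  set τ := min 1 (lam ^ 2 / (4 * x1)) with hτ
  have hτ0 : 0 < τ := lt_min (by norm_num) (by positivity)
  have hτ1 : τ ≤ 1 := min_le_left _ _
  have hτ2 : τ ≤ lam ^ 2 / (4 * x1) := min_le_right _ _
  set κ := τ / (4 * x1) with hκ
  have hκ0 : 0 < κ := by positivity
  set c := 1 / 2 + η1 + 4 * x1 with hc
  set Y := |u0| + 2 * x1 with hY
  refine ⟨δ * κ / 8, by positivity, fun ν e hν hν1 he he0 heη => ?_⟩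
  have hη' : 0 < η1 + x1 - τ := by linarith
  filter_upwards [diag_upper' k c hν hν1 he, diag_lower' hk hν hν1 he hη', ev_N hν hν1, eventually_gt_atTop 1]
    with T h1 h2 hN hT
  by_contra hcon
  push Not at hcon
  have hT0 : 0 < T := by linarith
  set L := Real.log T with hL
  set G : ℂ → ℂ := fun s => τ * (1 / (s - (1 / 2 + η1 : ℝ) + τ - u0 * Complex.I)) with hG
  have hkey : ∀ s : ℂ, s - (1 / 2 + η1 : ℝ) + τ - u0 * Complex.I =
      ((s.re - (1 / 2 + η1) + τ : ℝ) : ℂ) + ((s.im - u0 : ℝ) : ℂ) * Complex.I := by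
    intro s
    apply Complex.ext
    · simp
    · simp
  have hGre : ∀ s : ℂ, (G s).re = τ * ((s.re - (1 / 2 + η1) + τ) / ((s.re - (1 / 2 + η1) + τ) ^ 2 + (s.im - u0) ^ 2)) := by
    intro s
    rw [hG]
    simp only
    rw [hkey, Complex.re_ofReal_mul, ker_re]
  have hGne : ∀ s : ℂ, 1 / 2 + η1 ≤ s.re → s - (1 / 2 + η1 : ℝ) + τ - u0 * Complex.I ≠ 0 := by
    intro s hs h
    have h3 := congrArg Complex.re h
    rw [hkey] at h3
    simp only [Complex.add_re, Complex.ofReal_re, Complex.mul_re, Complex.ofReal_im, Complex.I_re, Complex.I_im,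
      Complex.zero_re, mul_zero, zero_mul, sub_zero, add_zero] at h3
    linarith
  set H : ℂ → ℂ := fun s => Sf k ν e T s * Complex.exp ((L : ℂ) * (2 * ν * (s - 1 / 2) + δ * (G s - κ))) with hH
  have hHn : ∀ s : ℂ, ‖H s‖ = ‖Sf k ν e T s‖ * T ^ (2 * ν * (s.re - 1 / 2) + δ * ((G s).re - κ)) := by
    intro s
    rw [hH]
    simp only
    rw [norm_mul, Complex.norm_exp, Real.rpow_def_of_pos hT0]
    congr 2
    rw [Complex.re_ofReal_mul]
    congr 1
    simp only [Complex.add_re, Complex.sub_re, Complex.mul_re, Complex.mul_im, Complex.sub_im, Complex.ofReal_re,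
      Complex.ofReal_im, Complex.one_re, Complex.one_im, Complex.re_ofNat, Complex.im_ofNat, Complex.div_ofNat_re,
      Complex.div_ofNat_im]
    ring
  have main : ‖H ((1 / 2 + (η1 + x1 - τ) : ℝ) : ℂ)‖ ≤ T ^ (1 + e) := by
    apply rect_max (a := 1 / 2 + η1) (c := c) (y1 := -Y) (y2 := Y) (by rw [hc]; linarith)
      (by rw [hY]; linarith [abs_nonneg u0])
    · -- differentiability
      have hd1 : DifferentiableOn ℂ (Sf k ν e T) (Icc (1 / 2 + η1) c ×ℂ Icc (-Y) Y) := by
        apply (Sf_diff k ν e T (a := η1 / 2) (by linarith) hN.1).mono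
        intro z hz1
        change 1 / 2 + η1 / 2 < z.re
        have h6 := hz1.1
        change z.re ∈ Icc _ _ at h6
        linarith [h6.1]
      have hd2 : DifferentiableOn ℂ G (Icc (1 / 2 + η1) c ×ℂ Icc (-Y) Y) := by
        intro z hz1
        apply DifferentiableAt.differentiableWithinAt
        have h6 := hz1.1
        change z.re ∈ Icc _ _ at h6
        apply DifferentiableAt.const_mul
        apply DifferentiableAt.div (by fun_prop) (by fun_prop)
        exact hGne z h6.1
      apply hd1.mul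
      apply DifferentiableOn.cexp
      apply DifferentiableOn.const_mul
      apply DifferentiableOn.add
      · apply Differentiable.differentiableOn
        fun_prop
      · apply DifferentiableOn.const_mul
        exact hd2.sub_const _
    · -- left side
      intro z hz1 hz2
      rw [hHn, hz1]
      have hGz := hGre z
      rw [hz1, show (1 / 2 + η1 : ℝ) - (1 / 2 + η1) + τ = τ by ring] at hGz
      rcases le_or_gt |z.im - u0| lam with hu | hu
      · have h3 := hcon z.im hu
        have hz4 : z = ((1 / 2 + η1 : ℝ) : ℂ) + (z.im : ℂ) * Complex.I := by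
          apply Complex.ext
          · simp [hz1]
          · simp
        rw [← hz4] at h3
        have hG1 : (G z).re ≤ 1 := by
          rw [hGz, ← mul_div_assoc, div_le_one (by positivity)]
          nlinarith [sq_nonneg (z.im - u0)]
        calc ‖Sf k ν e T z‖ * T ^ (2 * ν * (1 / 2 + η1 - 1 / 2) + δ * ((G z).re - κ))
            ≤ T ^ (1 - 2 * η1 * ν - δ) * T ^ (2 * ν * (1 / 2 + η1 - 1 / 2) + δ * ((G z).re - κ)) := by gcongr
          _ = T ^ (1 - 2 * η1 * ν - δ + (2 * ν * (1 / 2 + η1 - 1 / 2) + δ * ((G z).re - κ))) := by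
              rw [← Real.rpow_add hT0]
          _ ≤ T ^ (1 + e) := by
              apply Real.rpow_le_rpow_of_exponent_le hT.le
              have h5 : δ * ((G z).re - κ) ≤ δ * 1 := mul_le_mul_of_nonneg_left (by linarith) hδ.le
              linarith
      · have h3 := h1 z (by rw [hz1]; linarith) (by rw [hz1, hc]; linarith)
        rw [hz1] at h3
        have hG1 : (G z).re ≤ κ := by
          have hsq : lam ^ 2 ≤ (z.im - u0) ^ 2 := by
            have := pow_le_pow_left₀ hlam.le hu.le 2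
            rwa [sq_abs] at this
          rw [hGz, hκ, ← mul_div_assoc, div_le_div_iff₀ (by positivity) (by positivity)]
          rw [le_div_iff₀ (by positivity)] at hτ2
          have h7 : τ * (4 * x1) ≤ τ ^ 2 + (z.im - u0) ^ 2 := by nlinarith [sq_nonneg τ]
          nlinarith
        calc ‖Sf k ν e T z‖ * T ^ (2 * ν * (1 / 2 + η1 - 1 / 2) + δ * ((G z).re - κ))
            ≤ T ^ (1 - 2 * (1 / 2 + η1 - 1 / 2) * ν + e) * T ^ (2 * ν * (1 / 2 + η1 - 1 / 2) + δ * ((G z).re - κ)) := by
              gcongr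
          _ = T ^ (1 - 2 * (1 / 2 + η1 - 1 / 2) * ν + e + (2 * ν * (1 / 2 + η1 - 1 / 2) + δ * ((G z).re - κ))) := by
              rw [← Real.rpow_add hT0]
          _ ≤ T ^ (1 + e) := by
              apply Real.rpow_le_rpow_of_exponent_le hT.le
              have h5 : δ * ((G z).re - κ) ≤ 0 := mul_nonpos_of_nonneg_of_nonpos hδ.le (by linarith)
              linarith
    · -- right side
      intro z hz1 hz2
      rw [hHn]
      have h3 := h1 z (by rw [hz1, hc]; linarith) (by rw [hz1])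
      have hG1 : (G z).re ≤ κ := by
        rw [hGre, hz1, show c - (1 / 2 + η1) + τ = 4 * x1 + τ by rw [hc]; ring, hκ, ← mul_div_assoc,
          div_le_div_iff₀ (by positivity) (by positivity)]
        have h7 : (4 * x1 + τ) * (4 * x1) ≤ (4 * x1 + τ) ^ 2 + (z.im - u0) ^ 2 := by
          nlinarith [sq_nonneg (z.im - u0)]
        nlinarith
      calc ‖Sf k ν e T z‖ * T ^ (2 * ν * (z.re - 1 / 2) + δ * ((G z).re - κ))
          ≤ T ^ (1 - 2 * (z.re - 1 / 2) * ν + e) * T ^ (2 * ν * (z.re - 1 / 2) + δ * ((G z).re - κ)) := by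
            gcongr
        _ = T ^ (1 - 2 * (z.re - 1 / 2) * ν + e + (2 * ν * (z.re - 1 / 2) + δ * ((G z).re - κ))) := by
            rw [← Real.rpow_add hT0]
        _ ≤ T ^ (1 + e) := by
            apply Real.rpow_le_rpow_of_exponent_le hT.le
            have h5 : δ * ((G z).re - κ) ≤ 0 := mul_nonpos_of_nonneg_of_nonpos hδ.le (by linarith)
            linarith
    case hz =>
      rw [Complex.ofReal_re]
      exact ⟨by linarith, by rw [hc]; linarith⟩
    case hz' =>
      rw [Complex.ofReal_im]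
      exact ⟨by rw [hY]; linarith [abs_nonneg u0], by rw [hY]; linarith [abs_nonneg u0]⟩
    all_goals
      intro z hz1 hz2
      rw [hHn]
      have h3 := h1 z (by linarith [hz1.1]) hz1.2
      have hab : 2 * x1 ≤ |z.im - u0| := by
        have h8 : |z.im| = Y := by
          rw [hz2]
          first
            | rw [abs_of_pos (by rw [hY]; linarith [abs_nonneg u0] : 0 < Y)]
            | rw [abs_neg, abs_of_pos (by rw [hY]; linarith [abs_nonneg u0] : 0 < Y)]
        have h9 := abs_sub_abs_le_abs_sub z.im u0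
        rw [h8, hY] at h9
        linarith
      have hG1 : (G z).re ≤ κ := by
        set x' := z.re - (1 / 2 + η1) + τ with hx'
        have hx'0 : 0 < x' := by rw [hx']; linarith [hz1.1]
        rw [hGre, ← hx', hκ, ← mul_div_assoc, div_le_div_iff₀ (by positivity) (by positivity)]
        have h7 : x' * (4 * x1) ≤ x' ^ 2 + (z.im - u0) ^ 2 := by
          rw [← sq_abs (z.im - u0)]
          nlinarith [sq_nonneg (x' - |z.im - u0|)]
        nlinarith
      calc ‖Sf k ν e T z‖ * T ^ (2 * ν * (z.re - 1 / 2) + δ * ((G z).re - κ))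
          ≤ T ^ (1 - 2 * (z.re - 1 / 2) * ν + e) * T ^ (2 * ν * (z.re - 1 / 2) + δ * ((G z).re - κ)) := by
            gcongr
        _ = T ^ (1 - 2 * (z.re - 1 / 2) * ν + e + (2 * ν * (z.re - 1 / 2) + δ * ((G z).re - κ))) := by
            rw [← Real.rpow_add hT0]
        _ ≤ T ^ (1 + e) := by
            apply Real.rpow_le_rpow_of_exponent_le hT.le
            have h5 : δ * ((G z).re - κ) ≤ 0 := mul_nonpos_of_nonneg_of_nonpos hδ.le (by linarith)
            linarith
  rw [hHn, hGre, Complex.ofReal_re, Complex.ofReal_im] at main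
  have e1 : (1 / 2 + (η1 + x1 - τ)) - (1 / 2 + η1) + τ = x1 := by ring
  rw [e1] at main
  have h4 : 2 * κ ≤ τ * (x1 / (x1 ^ 2 + (0 - u0) ^ 2)) := by
    have h5 : u0 ^ 2 ≤ x1 ^ 2 := by
      rw [← sq_abs u0]
      apply pow_le_pow_left₀ (abs_nonneg _)
      rw [hx1]; linarith
    rw [hκ, ← mul_div_assoc, ← mul_div_assoc, div_le_div_iff₀ (by positivity) (by positivity)]
    have h6 : x1 ^ 2 + (0 - u0) ^ 2 ≤ 2 * x1 ^ 2 := by nlinarith
    calc 2 * τ * (x1 ^ 2 + (0 - u0) ^ 2) ≤ 2 * τ * (2 * x1 ^ 2) := by gcongr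
      _ = τ * x1 * (4 * x1) := by ring
  have h7 : T ^ (1 - 2 * (η1 + x1 - τ) * ν - 2 * e) * T ^ (2 * ν * (1 / 2 + (η1 + x1 - τ) - 1 / 2) +
      δ * (τ * (x1 / (x1 ^ 2 + (0 - u0) ^ 2)) - κ)) ≤ T ^ (1 + e) := le_trans (by gcongr) main
  rw [← Real.rpow_add hT0, Real.rpow_le_rpow_left_iff hT] at h7
  have h8 : δ * κ ≤ δ * (τ * (x1 / (x1 ^ 2 + (0 - u0) ^ 2)) - κ) := mul_le_mul_of_nonneg_left (by linarith) hδ.le
  have h9 : 0 < δ * κ := by positivity
  linarith

end Pool.Agent.Helper156_SM
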