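import Pool.Agent.Helper156_SM.Core
import Pool.Agent.Helper156_SM.CoreX
import Pool.Agent.Helper156_SM.Low

set_option autoImplicit false

/-!
# Many shifts with a large twisted moment
-/

open MeasureTheory Set Filter

namespace Pool.Agent.Helper156_SM

open Pool.Agent.Helper156_EK
open Pool.Agent.W188.QS Pool.Agent.W188.GP

/-- If the twisted moment is large at a point to the right, then it is large on a set of shifts. -/
theorem coreG {k : ℕ} (hk : 1 ≤ k) (R0 : ℝ) {ν e θ η1 η2 U b g ε0 δ : ℝ} (hν : 0 < ν) (hν1 : ν < 1 / 2) (he : 0 < e)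
    (he1 : e ≤ 1 / 4) (hθ : 0 ≤ θ) (hη1 : e ≤ η1) (hη12 : η1 < η2) (hη2 : η2 ≤ 1 / 2) (hU : 0 < U) (hb : 0 < b)
    (hε0 : 0 < ε0)
    (hc' : 1 + θ + ν / 2 - 2 * (1 + θ - ν / 2) * η2 + (5 + 2 * (1 + θ - ν / 2)) * e < 1 - 2 * η2 * ν - e)
    (hg1 : δ + 3 * e + ν * (2 * ε0 / η1) ≤ g * (η2 - η1))
    (hg2 : θ - ν / 2 + 4 * e + δ + ν * (2 * ε0 / η1) ≤ -(b * η1 * η2) - g * η1)
    (hg3 : θ + ν / 2 - b * U ^ 2 + 3 * e + δ + ν * (2 * ε0 / η1) ≤ -(b * η1 * η2) - g * η1) :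
    ∀ᶠ T : ℝ in atTop, ∀ y0 : ℝ, |y0| ≤ R0 → Close k (1 / 2) T θ e →
      T ^ (1 - 2 * η1 * ν - δ) ≤ ‖Kf k ν e T (((1 / 2 + η1 : ℝ) : ℂ) + y0 * Complex.I)‖ →
      ENNReal.ofReal ε0 < volume {u | u ∈ Icc (y0 - U) (y0 + U) ∧
        T ^ (1 + θ - ν / 2 + 2 * e) < ‖Kf k ν e T (1 / 2 + u * Complex.I)‖} := by
  obtain ⟨A, hA, hcr⟩ := crude k (e := e) hν hν1
  set κ := b * (η1 + η2) + g - 2 * ν with hκ
  set ρ := ν * (2 * ε0 / η1) with hρ
  set m := 1 - δ - e - b * η1 * η2 - g * η1 - ρ with hm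
  -- the height
  set X := A + b * η2 ^ 2 + |κ| * η2 + |m| with hX
  have hX0 : 0 ≤ X := by
    have h1 : 0 ≤ b * η2 ^ 2 := by positivity
    have h2 : 0 ≤ |κ| * η2 := mul_nonneg (abs_nonneg _) (by linarith)
    have h3 := abs_nonneg m
    linarith
  set Y := 1 + U + X / b with hY
  have hq0 : 0 ≤ X / b := by positivity
  have hY1 : 1 ≤ Y := by rw [hY]; linarith
  have hYU : U < Y := by rw [hY]; linarith
  have hbY : X ≤ b * Y ^ 2 := by
    have h1 : X / b ≤ Y := by rw [hY]; linarith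
    rw [div_le_iff₀ hb] at h1
    have h2 : Y ≤ Y ^ 2 := by nlinarith [hY1]
    have h3 : b * Y ≤ b * Y ^ 2 := mul_le_mul_of_nonneg_left h2 hb.le
    linarith
  have ev1 := ev_pow 2 (a := 1 + θ - ν / 2 + 2 * e) (b := m) (by rw [hm]; linarith)
  have ev5 := ev_pow 2 (a := 1 - 2 * η2 * ν + e) (b := 1 - 2 * η2 * ν + 2 * e) (by linarith)
  filter_upwards [hcr, line_bound hk hν hν1 he hθ, rem_bound hk hν hν1 he he1 hθ, diag_upper k hν hν1 he, ev1, ev5,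
    eventually_gt_atTop 1, eventually_ge_atTop (32 * (Y + |R0| + 1))] with T h1 h4 h5 h6 e1 e5 hT hTY y0 hy0 hcl hlow
  have hT0 : 0 < T := by linarith
  by_contra hcon
  push Not at hcon
  have hR0 := le_abs_self R0
  have hR0' := abs_nonneg R0
  have hTbig : Y + |R0| + 1 ≤ T / 32 := by linarith
  have him : ∀ z : ℂ, |z.im - y0| ≤ Y → |z.im| ≤ T / 32 := by
    intro z hz
    have h7 := abs_le.1 hz
    have h8 := abs_le.1 hy0
    rw [abs_le]
    constructor <;> linarith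
  have h7 := core_max (K := Kf k ν e T) (T := T) (y0 := y0) (U := U) (η1 := η1) (η2 := η2) (b := b) (κ := κ)
    (p1 := 1 + θ - ν / 2 + 2 * e) (p2 := 1 + θ + ν / 2 + 2 * e) (q := 1 - 2 * η2 * ν + 2 * e) (A := A) (Y := Y)
    (ε0 := ε0) (m := m) hT.le (by linarith) hη12 hU hYU hb.le (by linarith) hε0 ?_ hcon ?_ ?_ ?_ e1 ?_ ?_ ?_
  · have h8 := hlow.trans h7
    rw [Real.rpow_le_rpow_left_iff hT] at h8
    have e2 : (1 + θ + ν / 2 + 2 * e - (1 + θ - ν / 2 + 2 * e)) * (2 * ε0 / η1) = ρ := by rw [hρ]; ring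
    rw [e2] at h8
    have e3 : m - b * η1 ^ 2 + κ * η1 + ρ = 1 - 2 * η1 * ν - δ - e := by rw [hm, hκ]; ring
    linarith
  · apply (Kf_diff k ν e hT0).mono
    intro z hz1
    change |z.im| < T
    have h8 := hz1.2
    change z.im ∈ Icc _ _ at h8
    have h9 := him z (abs_le.2 ⟨by linarith [h8.1], by linarith [h8.2]⟩)
    linarith
  · intro z hz1 hz2
    exact h4 hcl z hz1 (by linarith [him z hz2])
  · intro z hz1 hz2
    have h8 := h5 hcl z (by rw [hz1]; linarith) (by rw [hz1]; linarith) (him z hz2)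
    have h9 := h6 z (by rw [hz1]; linarith) (by rw [hz1]; linarith)
    rw [hz1, show (1 / 2 + η2 : ℝ) - 1 / 2 = η2 by ring] at h8 h9
    have h10 : ‖Kf k ν e T z‖ ≤ ‖Kf k ν e T z - Sf k ν e T z‖ + ‖Sf k ν e T z‖ := by
      have := norm_add_le (Kf k ν e T z - Sf k ν e T z) (Sf k ν e T z)
      simpa using this
    have h11 : T ^ (1 + θ + ν / 2 - 2 * (1 + θ - ν / 2) * η2 + (5 + 2 * (1 + θ - ν / 2)) * e) ≤
        T ^ (1 - 2 * η2 * ν + e) := Real.rpow_le_rpow_of_exponent_le hT.le (by linarith)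
    linarith
  · intro z hz1 hz2 hz3
    exact h1 z (by linarith) (by linarith) (by linarith [him z hz3.le])
  · rw [hm]; linarith
  · rw [hm, hκ]; nlinarith
  · have := neg_abs_le m
    linarith

/-- the measure of the shifts with a small error term -/
theorem meas_le {P : ℝ → Prop} {φ : ℝ → ℝ} {a b M ε0 : ℝ} (hab : a ≤ b) (hε : 0 < ε0) (hφ : ContinuousOn φ (Icc a b))
    (hP : ∀ u ∈ Icc a b, P u → φ u ≤ M) (hbad : ENNReal.ofReal ε0 < volume {u | u ∈ Icc a b ∧ M < φ u}) :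
    volume {u | u ∈ Icc a b ∧ P u} < ENNReal.ofReal (b - a - ε0) := by
  set G : Set ℝ := {u | u ∈ Icc a b ∧ φ u ≤ M} with hG
  have hGcl : IsClosed G := by
    have := hφ.preimage_isClosed_of_isClosed isClosed_Icc (isClosed_Iic (a := M))
    exact this
  have h1 : volume {u | u ∈ Icc a b ∧ P u} ≤ volume G := measure_mono fun u hu => ⟨hu.1, hP u hu.1 hu.2⟩
  refine lt_of_le_of_lt h1 ?_
  have hdiff : {u | u ∈ Icc a b ∧ M < φ u} = Icc a b \ G := by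
    ext u
    constructor
    · rintro ⟨h2, h3⟩; exact ⟨h2, fun h4 => absurd h4.2 (not_le.2 h3)⟩
    · rintro ⟨h2, h3⟩
      refine ⟨h2, ?_⟩
      by_contra h4
      exact h3 ⟨h2, not_lt.1 h4⟩
  rw [hdiff] at hbad
  have hGfin : volume G < ⊤ := lt_of_le_of_lt (measure_mono fun u hu => hu.1) (by rw [Real.volume_Icc]; exact ENNReal.ofReal_lt_top)
  have h2 : volume G + volume (Icc a b \ G) = ENNReal.ofReal (b - a) := by
    rw [← Real.volume_Icc]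
    have h3 : G ⊆ Icc a b := fun u hu => hu.1
    rw [← measure_union disjoint_sdiff_right (measurableSet_Icc.diff hGcl.measurableSet), union_sdiff_cancel h3]
  have h3 : ENNReal.ofReal ε0 + volume G < ENNReal.ofReal (b - a) := by
    rw [← h2, add_comm]
    exact ENNReal.add_lt_add_left hGfin.ne hbad
  have h4 : ε0 < b - a := by
    have h5 : ENNReal.ofReal ε0 < ENNReal.ofReal (b - a) := lt_of_le_of_lt le_self_add h3
    exact (ENNReal.ofReal_lt_ofReal_iff_of_nonneg hε.le).1 h5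
  have h6 : ENNReal.ofReal (b - a) = ENNReal.ofReal ε0 + ENNReal.ofReal (b - a - ε0) := by
    rw [← ENNReal.ofReal_add hε.le (by linarith)]
    congr 1; ring
  rw [h6] at h3
  exact (ENNReal.add_lt_add_iff_left ENNReal.ofReal_ne_top).1 h3

theorem Kf_cont {k : ℕ} {ν e T : ℝ} (hT : 0 < T) {a b : ℝ} (ha : -T < a) (hb : b < T) :
    ContinuousOn (fun u : ℝ => ‖Kf k ν e T (1 / 2 + u * Complex.I)‖) (Icc a b) := by
  apply ContinuousOn.norm
  apply (Kf_diff k ν e hT).continuousOn.comp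
    (by fun_prop : ContinuousOn (fun y : ℝ => (1 / 2 + y * Complex.I : ℂ)) (Icc a b))
  intro y hy
  change |(1 / 2 + (y : ℂ) * Complex.I).im| < T
  have e : (1 / 2 + (y : ℂ) * Complex.I).im = y := by simp
  rw [e, abs_lt]
  exact ⟨by linarith [hy.1], by linarith [hy.2]⟩

/-- Shifts around zero. -/
theorem coreR {k : ℕ} (hk : 1 ≤ k) {ν e θ η1 η2 U b g ε0 : ℝ} (hν : 0 < ν) (hν1 : ν < 1 / 2) (he : 0 < e)
    (he1 : e ≤ 1 / 4) (hθ : 0 ≤ θ) (hη1 : e ≤ η1) (hη12 : η1 < η2) (hη2 : η2 ≤ 1 / 2) (hU : 0 < U) (hb : 0 < b)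
    (hε0 : 0 < ε0)
    (hc : 1 + θ + ν / 2 - 2 * (1 + θ - ν / 2) * η1 + (5 + 2 * (1 + θ - ν / 2)) * e < 1 - 2 * η1 * ν - e)
    (hc' : 1 + θ + ν / 2 - 2 * (1 + θ - ν / 2) * η2 + (5 + 2 * (1 + θ - ν / 2)) * e < 1 - 2 * η2 * ν - e)
    (hg1 : 5 * e + ν * (2 * ε0 / η1) ≤ g * (η2 - η1))
    (hg2 : θ - ν / 2 + 6 * e + ν * (2 * ε0 / η1) ≤ -(b * η1 * η2) - g * η1)
    (hg3 : θ + ν / 2 - b * U ^ 2 + 5 * e + ν * (2 * ε0 / η1) ≤ -(b * η1 * η2) - g * η1) :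
    ∀ᶠ T : ℝ in atTop, Close k (1 / 2) T θ e →
      volume {u : ℝ | u ∈ Icc (-U) U ∧ Close k (1 / 2 + u * Complex.I) T θ e} < ENNReal.ofReal (2 * U - ε0) := by
  filter_upwards [coreG hk 0 (δ := 2 * e) hν hν1 he he1 hθ hη1 hη12 hη2 hU hb hε0 hc' (by linarith) (by linarith)
      (by linarith), lowerK hk hν hν1 he he1 hθ hη1 (by linarith) hc, near_bound (k := k) hν hν1 he hθ,
    eventually_gt_atTop (4 * U)] with T h1 h2 h3 hT hcl
  have hT0 : 0 < T := by linarith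
  have h4 := h1 0 (by simp) hcl (by simpa using h2 hcl)
  rw [zero_sub, zero_add] at h4
  have h5 := meas_le (P := fun u => Close k (1 / 2 + u * Complex.I) T θ e) (by linarith : -U ≤ U) hε0
    (Kf_cont (k := k) (ν := ν) (e := e) hT0 (by linarith : -T < -U) (by linarith : U < T)) ?_ h4
  · convert h5 using 2
    ring
  · intro u hu hcu
    refine h3 _ ?_ hcu
    have e1 : (1 / 2 + (u : ℂ) * Complex.I).im = u := by simp
    rw [e1, abs_le]
    exact ⟨by linarith [hu.1], by linarith [hu.2]⟩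

/-- Shifts in any interval. -/
theorem coreI {k : ℕ} (hk : 1 ≤ k) (u0 : ℝ) {η1 lam δ : ℝ} (hη0 : 0 < η1) (hlam : 0 < lam) (hδ : 0 < δ) :
    ∃ e0 : ℝ, 0 < e0 ∧ ∀ ν e θ η2 U b g ε0 : ℝ, 0 < ν → ν < 1 / 2 → 0 < e → e ≤ 1 / 4 → e ≤ e0 →
    0 ≤ θ → e ≤ η1 → η1 < η2 → η2 ≤ 1 / 2 → 0 < U → 0 < b → 0 < ε0 →
    1 + θ + ν / 2 - 2 * (1 + θ - ν / 2) * η1 + (5 + 2 * (1 + θ - ν / 2)) * e < 1 - 2 * η1 * ν - δ - e →
    1 + θ + ν / 2 - 2 * (1 + θ - ν / 2) * η2 + (5 + 2 * (1 + θ - ν / 2)) * e < 1 - 2 * η2 * ν - e →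
    δ + 4 * e + ν * (2 * ε0 / η1) ≤ g * (η2 - η1) →
    θ - ν / 2 + 5 * e + δ + ν * (2 * ε0 / η1) ≤ -(b * η1 * η2) - g * η1 →
    θ + ν / 2 - b * U ^ 2 + 4 * e + δ + ν * (2 * ε0 / η1) ≤ -(b * η1 * η2) - g * η1 →
    ∀ᶠ T : ℝ in atTop, Close k (1 / 2) T θ e →
      volume {u : ℝ | u ∈ Icc (u0 - (U + lam)) (u0 + (U + lam)) ∧ Close k (1 / 2 + u * Complex.I) T θ e} <
        ENNReal.ofReal (2 * (U + lam) - ε0) := by
  obtain ⟨e0, he0, hdn⟩ := diag_near hk u0 hη0 hlam hδ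
  refine ⟨e0, he0, fun ν e θ η2 U b g ε0 hν hν1 he he1 hee0 hθ hη1 hη12 hη2 hU hb hε0 hc hc' hg1 hg2 hg3 => ?_⟩
  have ev1 := ev_pow 2 (a := 1 - 2 * η1 * ν - δ - e) (b := 1 - 2 * η1 * ν - δ) (by linarith)
  filter_upwards [coreG hk (|u0| + lam) (δ := δ + e) hν hν1 he he1 hθ hη1 hη12 hη2 hU hb hε0 hc' (by linarith)
      (by linarith) (by linarith), hdn ν e hν hν1 he hee0 hη1, rem_bound hk hν hν1 he he1 hθ,
      near_bound (k := k) hν hν1 he hθ, ev1, eventually_gt_atTop 1, eventually_gt_atTop (32 * (|u0| + U + lam))]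
    with T h1 h2 h3 h4 e1 hT1 hT hcl
  have hT0 : 0 < T := by linarith
  have hu00 := abs_nonneg u0
  obtain ⟨y0, hy0, hS⟩ := h2
  have hy0' := abs_le.1 hy0
  have hua := abs_le.1 (le_refl |u0|)
  have hyabs : |y0| ≤ |u0| + lam := by
    rw [abs_le]; constructor <;> linarith
  set s0 : ℂ := ((1 / 2 + η1 : ℝ) : ℂ) + y0 * Complex.I with hs0
  have e2 : s0.re = 1 / 2 + η1 := by rw [hs0]; simp
  have e3 : s0.im = y0 := by rw [hs0]; simp
  have h5 := h3 hcl s0 (by rw [e2]; linarith) (by rw [e2]; linarith) (by rw [e3]; linarith)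
  rw [e2, show (1 / 2 + η1 : ℝ) - 1 / 2 = η1 by ring] at h5
  have h6 : ‖Sf k ν e T s0‖ ≤ ‖Kf k ν e T s0 - Sf k ν e T s0‖ + ‖Kf k ν e T s0‖ := by
    have := norm_sub_le (Kf k ν e T s0) (Kf k ν e T s0 - Sf k ν e T s0)
    rw [sub_sub_cancel] at this
    linarith
  have h7 : T ^ (1 + θ + ν / 2 - 2 * (1 + θ - ν / 2) * η1 + (5 + 2 * (1 + θ - ν / 2)) * e) ≤
      T ^ (1 - 2 * η1 * ν - δ - e) := Real.rpow_le_rpow_of_exponent_le hT1.le hc.le
  have h8 : T ^ (1 - 2 * η1 * ν - (δ + e)) ≤ ‖Kf k ν e T s0‖ := by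
    rw [show 1 - 2 * η1 * ν - (δ + e) = 1 - 2 * η1 * ν - δ - e by ring]
    linarith
  have h9 := h1 y0 hyabs hcl h8
  have h10 : ENNReal.ofReal ε0 < volume {u | u ∈ Icc (u0 - (U + lam)) (u0 + (U + lam)) ∧
        T ^ (1 + θ - ν / 2 + 2 * e) < ‖Kf k ν e T (1 / 2 + u * Complex.I)‖} := by
    refine lt_of_lt_of_le h9 (measure_mono ?_)
    intro u hu
    refine ⟨⟨by linarith [hu.1.1], by linarith [hu.1.2]⟩, hu.2⟩
  have h5 := meas_le (P := fun u => Close k (1 / 2 + u * Complex.I) T θ e)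
    (by linarith : u0 - (U + lam) ≤ u0 + (U + lam)) hε0
    (Kf_cont (k := k) (ν := ν) (e := e) hT0 (by linarith : -T < u0 - (U + lam)) (by linarith : u0 + (U + lam) < T)) ?_ h10
  · convert h5 using 2
    ring
  · intro u hu hcu
    refine h4 _ ?_ hcu
    have e1 : (1 / 2 + (u : ℂ) * Complex.I).im = u := by simp
    rw [e1, abs_le]
    exact ⟨by linarith [hu.1], by linarith [hu.2]⟩

end Pool.Agent.Helper156_SM
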