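import Pool.Agent.Helper156_SM.CoreN

set_option autoImplicit false

/-!
# The same argument with a crude bound on the critical line
-/

open MeasureTheory Set Filter

namespace Pool.Agent.Helper156_SM

open Pool.Agent.Helper156_EK
open Pool.Agent.W188.QS Pool.Agent.W188.GP

/-- the moment in the strip -/
theorem strip_bound_g {k : ℕ} {ν e P : ℝ} (hν : 0 < ν) (hν1 : ν < 1 / 2) (he : 0 < e) (he1 : e ≤ 1 / 4)
    (hP : 1 + e ≤ P) : ∀ᶠ T : ℝ in atTop, (∀ s : ℂ, s.re = 1 / 2 → |s.im| ≤ T / 8 → ‖Kf k ν e T s‖ ≤ T ^ P) →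
    ∀ s : ℂ, 1 / 2 ≤ s.re → s.re ≤ 1 + e → |s.im| ≤ T / 16 → ‖Kf k ν e T s‖ ≤ T ^ (P + e) := by
  obtain ⟨A, hA, hcr⟩ := crude k (e := e) hν hν1
  have ev1 := ev_pow 10 (a := P) (b := P + e) (by linarith)
  have ev2 := ev_exp 1 A (c := 1 / 256) (e := 2) (by norm_num) (by norm_num)
  filter_upwards [hcr, right_bound k hν hν1 he he1, diag_upper k hν hν1 he, ev1, ev2,
    eventually_ge_atTop 1] with T h1 h3 h4 e1 e2 hT h2 s hs1 hs2 hs3
  have hT0 : 0 < T := by linarith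
  have hsi := abs_le.1 hs3
  have hz : ∀ z : ℂ, |z.im - s.im| ≤ T / 16 → |z.im| ≤ T / 8 := by
    intro z hz
    have := abs_le.1 hz
    rw [abs_le]; constructor <;> linarith
  have h5 := three_lines (f := Kf k ν e T) (a := 1 / 2) (c := 1 + e) (Y := T / 16) (X := 1)
    (A := T ^ P) (B := 2 * T ^ P) (G := T ^ A) (s0 := s)
    (by linarith) (by positivity) ⟨hs1, hs2⟩ ?_ ?_ ?_ ?_ le_rfl
  · refine h5.trans ?_
    have q1 : Real.exp ((1 + e - 1 / 2) ^ 2) ≤ 2 := by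
      apply exp_le_two
      nlinarith
    have q2 : T ^ A * Real.exp (-(T / 16) ^ 2) ≤ 1 := by
      have : -(T / 16) ^ 2 = -(1 / 256 * T ^ (2 : ℝ)) := by
        rw [show (2 : ℝ) = ((2 : ℕ) : ℝ) by norm_num, Real.rpow_natCast]; ring
      rw [this]
      simpa using e2
    have q3 : 1 ≤ T ^ P := Real.one_le_rpow hT (by linarith)
    rw [Real.one_rpow, Real.one_rpow, Real.one_rpow, mul_one, mul_one, mul_one]
    have q4 : T ^ P + 2 * T ^ P + T ^ A * Real.exp (-(T / 16) ^ 2) ≤ 4 * T ^ P := by linarith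
    calc Real.exp ((1 + e - 1 / 2) ^ 2) * (T ^ P + 2 * T ^ P + T ^ A * Real.exp (-(T / 16) ^ 2))
          ≤ 2 * (4 * T ^ P) := by gcongr
      _ ≤ T ^ (P + e) := by linarith
  · apply (Kf_diff k ν e hT0).mono
    intro z hz1
    change |z.im| < T
    have h6 := hz1.2
    change z.im ∈ Icc _ _ at h6
    rw [abs_lt]
    constructor <;> linarith [h6.1, h6.2]
  · intro z hz1 hz2
    exact h2 z hz1 (hz z hz2)
  · intro z hz1 hz2
    have h6 := h3 z hz1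
    have h7 := h4 z (by rw [hz1]; linarith) (by rw [hz1]; linarith)
    have h8 : ‖Kf k ν e T z‖ ≤ ‖Kf k ν e T z - Sf k ν e T z‖ + ‖Sf k ν e T z‖ := by
      have := norm_add_le (Kf k ν e T z - Sf k ν e T z) (Sf k ν e T z)
      simpa using this
    have h9 : T ^ (ν + e) ≤ T ^ P := Real.rpow_le_rpow_of_exponent_le hT (by linarith)
    have h10 : T ^ (1 - 2 * (z.re - 1 / 2) * ν + e) ≤ T ^ P := by
      apply Real.rpow_le_rpow_of_exponent_le hT
      rw [hz1]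
      nlinarith
    linarith
  · intro z hz1 hz2
    have := hz z hz2
    exact h1 z (by linarith [hz1.1]) (by linarith [hz1.2]) (by linarith)

/-- the remainder in the strip -/
theorem rem_bound_g {k : ℕ} {ν e P : ℝ} (hν : 0 < ν) (hν1 : ν < 1 / 2) (he : 0 < e) (he1 : e ≤ 1 / 4)
    (hP : 1 + e ≤ P) : ∀ᶠ T : ℝ in atTop, (∀ s : ℂ, s.re = 1 / 2 → |s.im| ≤ T / 8 → ‖Kf k ν e T s‖ ≤ T ^ P) →
    ∀ s : ℂ, 1 / 2 + e ≤ s.re → s.re ≤ 1 →
    |s.im| ≤ T / 32 → ‖Kf k ν e T s - Sf k ν e T s‖ ≤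
      T ^ (P - 2 * (P - ν) * (s.re - 1 / 2) + (3 + 2 * (P - ν)) * e) := by
  obtain ⟨A, hA, hcr⟩ := crude k (e := e) hν hν1
  set x := 2 * (P - ν) with hx
  have hx0 : 0 < x := by rw [hx]; linarith
  have ev2 := ev_exp 2 (A + 2 + x) (c := 1 / 1024) (e := 2) (by norm_num) (by norm_num)
  have ev3 := ev_pow 8 (a := 0) (b := e) he
  filter_upwards [hcr, strip_bound_g (k := k) hν hν1 he he1 hP, right_bound k hν hν1 he he1, diag_upper k hν hν1 he, ev2, ev3,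
    ev_N hν hν1, eventually_ge_atTop 1] with T h1 h2 h3 h4 e2 e3 hN hT hcl s hs1 hs2 hs3
  have hT0 : 0 < T := by linarith
  have hsi := abs_le.1 hs3
  rw [Real.rpow_zero, mul_one] at e3
  have hz : ∀ z : ℂ, |z.im - s.im| ≤ T / 32 → |z.im| ≤ T / 16 := by
    intro z hz
    have := abs_le.1 hz
    rw [abs_le]; constructor <;> linarith
  have hSle : ∀ z : ℂ, 1 / 2 + e ≤ z.re → z.re ≤ 2 → ‖Sf k ν e T z‖ ≤ T ^ (1 + e) := by
    intro z hz1 hz2
    refine (h4 z hz1 hz2).trans (Real.rpow_le_rpow_of_exponent_le hT ?_)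
    have : 0 ≤ 2 * (z.re - 1 / 2) * ν := by
      have : 0 ≤ z.re - 1 / 2 := by linarith
      positivity
    linarith
  set m0 := P + e with hm0
  set m := P - x * (s.re - 1 / 2) + (3 + x) * e with hm
  have h5 := three_lines (f := fun z => Kf k ν e T z - Sf k ν e T z) (a := 1 / 2 + e) (c := 1 + e) (Y := T / 32) (X := T ^ x)
    (A := 2 * T ^ m0) (B := T ^ (ν + e)) (G := T ^ A + T ^ (1 + e)) (s0 := s)
    (by linarith) (by positivity) ⟨hs1, by linarith⟩ ?_ ?_ ?_ ?_ (Real.one_le_rpow hT hx0.le)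
  · refine h5.trans ?_
    have q1 : Real.exp ((1 + e - (1 / 2 + e)) ^ 2) ≤ 2 := by
      apply exp_le_two
      norm_num
    have q2 : 2 * T ^ m0 * (T ^ x) ^ (1 / 2 + e - s.re) = 2 * T ^ (m - 2 * e) := by
      rw [← Real.rpow_mul hT0.le, mul_assoc, ← Real.rpow_add hT0]
      congr 2
      rw [hm0, hm]; ring
    have q3 : T ^ (ν + e) * (T ^ x) ^ (1 + e - s.re) = T ^ (m - 2 * e) := by
      rw [← Real.rpow_mul hT0.le, ← Real.rpow_add hT0]
      congr 1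
      rw [hm, hx]; ring
    have q4 : (T ^ A + T ^ (1 + e)) * Real.exp (-(T / 32) ^ 2) * (T ^ x) ^ (1 + e - (1 / 2 + e)) ≤ 1 := by
      have r1 : -(T / 32) ^ 2 = -(1 / 1024 * T ^ (2 : ℝ)) := by
        rw [show (2 : ℝ) = ((2 : ℕ) : ℝ) by norm_num, Real.rpow_natCast]; ring
      have r2 : T ^ A ≤ T ^ (A + 2) := Real.rpow_le_rpow_of_exponent_le hT (by linarith)
      have r3 : T ^ (1 + e) ≤ T ^ (A + 2) := Real.rpow_le_rpow_of_exponent_le hT (by linarith)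
      have r4 : (T ^ x) ^ (1 + e - (1 / 2 + e)) ≤ T ^ x := by
        rw [← Real.rpow_mul hT0.le]
        exact Real.rpow_le_rpow_of_exponent_le hT (by nlinarith)
      rw [r1]
      calc (T ^ A + T ^ (1 + e)) * Real.exp (-(1 / 1024 * T ^ (2 : ℝ))) * (T ^ x) ^ (1 + e - (1 / 2 + e))
          ≤ (T ^ (A + 2) + T ^ (A + 2)) * Real.exp (-(1 / 1024 * T ^ (2 : ℝ))) * T ^ x := by gcongr
        _ = 2 * T ^ (A + 2 + x) * Real.exp (-(1 / 1024 * T ^ (2 : ℝ))) := by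
            rw [Real.rpow_add hT0 (A + 2) x]; ring
        _ ≤ 1 := e2
    have hm1 : 0 ≤ m - 2 * e := by
      have : x * (s.re - 1 / 2) ≤ x * (1 / 2) := by gcongr; linarith
      rw [hm]
      nlinarith
    have q5 : 1 ≤ T ^ (m - 2 * e) := Real.one_le_rpow hT hm1
    rw [q2, q3]
    calc Real.exp ((1 + e - (1 / 2 + e)) ^ 2) * (2 * T ^ (m - 2 * e) + T ^ (m - 2 * e) +
          (T ^ A + T ^ (1 + e)) * Real.exp (-(T / 32) ^ 2) * (T ^ x) ^ (1 + e - (1 / 2 + e)))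
        ≤ 2 * (4 * T ^ (m - 2 * e)) := by gcongr; linarith
      _ = 8 * T ^ (m - 2 * e) := by ring
      _ ≤ T ^ e * T ^ (m - 2 * e) := by gcongr
      _ = T ^ (m - e) := by rw [← Real.rpow_add hT0]; congr 1; ring
      _ ≤ T ^ m := Real.rpow_le_rpow_of_exponent_le hT (by linarith)
  · apply DifferentiableOn.sub
    · apply (Kf_diff k ν e hT0).mono
      intro z hz1
      change |z.im| < T
      have h6 := hz1.2
      change z.im ∈ Icc _ _ at h6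
      rw [abs_lt]
      constructor <;> linarith [h6.1, h6.2]
    · apply (Sf_diff k ν e T (a := e / 2) (by linarith) hN.1).mono
      intro z hz1
      change 1 / 2 + e / 2 < z.re
      have h6 := hz1.1
      change z.re ∈ Icc _ _ at h6
      linarith [h6.1]
  · intro z hz1 hz2
    have h6 := h2 hcl z (by rw [hz1]; linarith) (by rw [hz1]; linarith) (hz z hz2)
    have h7 := hSle z (by rw [hz1]) (by rw [hz1]; linarith)
    have h8 : T ^ (1 + e) ≤ T ^ m0 := Real.rpow_le_rpow_of_exponent_le hT (by rw [hm0]; linarith)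
    have h9 := norm_sub_le (Kf k ν e T z) (Sf k ν e T z)
    linarith
  · intro z hz1 _
    exact h3 z hz1
  · intro z hz1 hz2
    have h6 := hz z hz2
    have h7 := h1 z (by linarith [hz1.1]) (by linarith [hz1.2]) (by linarith)
    have h8 := hSle z hz1.1 (by linarith [hz1.2])
    have h9 := norm_sub_le (Kf k ν e T z) (Sf k ν e T z)
    linarith

/-- If the twisted moment is large at a point to the right, then it is large on a set of shifts. -/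
theorem coreGg {k : ℕ} (R0 : ℝ) {ν e P θ η1 η2 U b g ε0 δ : ℝ} (hν : 0 < ν) (hν1 : ν < 1 / 2) (he : 0 < e)
    (he1 : e ≤ 1 / 4) (hP : 1 + e ≤ P) (hP1 : 1 + θ - ν / 2 + 2 * e ≤ P) (hη1 : e ≤ η1) (hη12 : η1 < η2)
    (hη2 : η2 ≤ 1 / 2) (hU : 0 < U) (hb : 0 < b) (hε0 : 0 < ε0)
    (hc' : P - 2 * (P - ν) * η2 + (3 + 2 * (P - ν)) * e < 1 - 2 * η2 * ν - e)
    (hg1 : δ + 3 * e + (P - (1 + θ - ν / 2 + 2 * e)) * (2 * ε0 / η1) ≤ g * (η2 - η1))
    (hg2 : θ - ν / 2 + 4 * e + δ + (P - (1 + θ - ν / 2 + 2 * e)) * (2 * ε0 / η1) ≤ -(b * η1 * η2) - g * η1)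
    (hg3 : P - 1 - b * U ^ 2 + e + δ + (P - (1 + θ - ν / 2 + 2 * e)) * (2 * ε0 / η1) ≤ -(b * η1 * η2) - g * η1) :
    ∀ᶠ T : ℝ in atTop, ∀ y0 : ℝ, |y0| ≤ R0 →
      (∀ s : ℂ, s.re = 1 / 2 → |s.im| ≤ T / 8 → ‖Kf k ν e T s‖ ≤ T ^ P) →
      T ^ (1 - 2 * η1 * ν - δ) ≤ ‖Kf k ν e T (((1 / 2 + η1 : ℝ) : ℂ) + y0 * Complex.I)‖ →
      ENNReal.ofReal ε0 < volume {u | u ∈ Icc (y0 - U) (y0 + U) ∧
        T ^ (1 + θ - ν / 2 + 2 * e) < ‖Kf k ν e T (1 / 2 + u * Complex.I)‖} := by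
  obtain ⟨A, hA, hcr⟩ := crude k (e := e) hν hν1
  set κ := b * (η1 + η2) + g - 2 * ν with hκ
  set ρ := (P - (1 + θ - ν / 2 + 2 * e)) * (2 * ε0 / η1) with hρ
  set m := 1 - δ - e - b * η1 * η2 - g * η1 - ρ with hm
  -- the height
  set X := A + b * η2 ^ 2 + |κ| * η2 + |m| with hX
  have hX0 : 0 ≤ X := by
    have h1 : 0 ≤ b * η2 ^ 2 := by positivity
    have h2 : 0 ≤ |κ| * η2 := mul_nonneg (abs_nonneg _) (by linarith)
    have h3 := abs_nonneg m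
    linarith
  set Y := 1 + U + X / b with hY
  have hq0 : 0 ≤ X / b := by positivity
  have hY1 : 1 ≤ Y := by rw [hY]; linarith
  have hYU : U < Y := by rw [hY]; linarith
  have hbY : X ≤ b * Y ^ 2 := by
    have h1 : X / b ≤ Y := by rw [hY]; linarith
    rw [div_le_iff₀ hb] at h1
    have h2 : Y ≤ Y ^ 2 := by nlinarith [hY1]
    have h3 : b * Y ≤ b * Y ^ 2 := mul_le_mul_of_nonneg_left h2 hb.le
    linarith
  have ev1 := ev_pow 2 (a := 1 + θ - ν / 2 + 2 * e) (b := m) (by rw [hm]; linarith)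
  have ev5 := ev_pow 2 (a := 1 - 2 * η2 * ν + e) (b := 1 - 2 * η2 * ν + 2 * e) (by linarith)
  filter_upwards [hcr, rem_bound_g (k := k) hν hν1 he he1 hP, diag_upper k hν hν1 he, ev1, ev5,
    eventually_gt_atTop 1, eventually_ge_atTop (32 * (Y + |R0| + 1))] with T h1 h5 h6 e1 e5 hT hTY y0 hy0 hcl hlow
  have hT0 : 0 < T := by linarith
  by_contra hcon
  push Not at hcon
  have hR0 := le_abs_self R0
  have hR0' := abs_nonneg R0
  have hTbig : Y + |R0| + 1 ≤ T / 32 := by linarith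
  have him : ∀ z : ℂ, |z.im - y0| ≤ Y → |z.im| ≤ T / 32 := by
    intro z hz
    have h7 := abs_le.1 hz
    have h8 := abs_le.1 hy0
    rw [abs_le]
    constructor <;> linarith
  have h7 := core_max (K := Kf k ν e T) (T := T) (y0 := y0) (U := U) (η1 := η1) (η2 := η2) (b := b) (κ := κ)
    (p1 := 1 + θ - ν / 2 + 2 * e) (p2 := P) (q := 1 - 2 * η2 * ν + 2 * e) (A := A) (Y := Y)
    (ε0 := ε0) (m := m) hT.le (by linarith) hη12 hU hYU hb.le hP1 hε0 ?_ hcon ?_ ?_ ?_ e1 ?_ ?_ ?_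
  · have h8 := hlow.trans h7
    rw [Real.rpow_le_rpow_left_iff hT, ← hρ] at h8
    have e3 : m - b * η1 ^ 2 + κ * η1 + ρ = 1 - 2 * η1 * ν - δ - e := by rw [hm, hκ]; ring
    linarith
  · apply (Kf_diff k ν e hT0).mono
    intro z hz1
    change |z.im| < T
    have h8 := hz1.2
    change z.im ∈ Icc _ _ at h8
    have h9 := him z (abs_le.2 ⟨by linarith [h8.1], by linarith [h8.2]⟩)
    linarith
  · intro z hz1 hz2
    exact hcl z hz1 (by linarith [him z hz2])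
  · intro z hz1 hz2
    have h8 := h5 hcl z (by rw [hz1]; linarith) (by rw [hz1]; linarith) (him z hz2)
    have h9 := h6 z (by rw [hz1]; linarith) (by rw [hz1]; linarith)
    rw [hz1, show (1 / 2 + η2 : ℝ) - 1 / 2 = η2 by ring] at h8 h9
    have h10 : ‖Kf k ν e T z‖ ≤ ‖Kf k ν e T z - Sf k ν e T z‖ + ‖Sf k ν e T z‖ := by
      have := norm_add_le (Kf k ν e T z - Sf k ν e T z) (Sf k ν e T z)
      simpa using this
    have h11 : T ^ (P - 2 * (P - ν) * η2 + (3 + 2 * (P - ν)) * e) ≤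
        T ^ (1 - 2 * η2 * ν + e) := Real.rpow_le_rpow_of_exponent_le hT.le (by linarith)
    linarith
  · intro z hz1 hz2 hz3
    exact h1 z (by linarith) (by linarith) (by linarith [him z hz3.le])
  · rw [hm]; linarith
  · rw [hm, hκ]; nlinarith
  · have := neg_abs_le m
    linarith

/-- the crude bound, uniform in the parameters -/
theorem crude' (k : ℕ) : ∃ A : ℝ, 0 < A ∧ ∀ ν e : ℝ, 0 < ν → ν < 1 / 2 → ∀ᶠ T : ℝ in atTop,
    ∀ s : ℂ, 0 ≤ s.re → s.re ≤ 3 → |s.im| ≤ T / 2 → ‖Kf k ν e T s‖ ≤ T ^ A := by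
  obtain ⟨C, B, hC, hB, h⟩ := zk_crude k
  refine ⟨B + 3, by linarith, fun ν e hν hν1 => ?_⟩
  filter_upwards [ev_N hν hν1, eventually_ge_atTop 1, ev_pow (47 * C) (by linarith : B + 2 < B + 3)]
    with T hN hT hp s h1 h2 h3
  obtain ⟨n1, n2, n3, n4⟩ := hN
  have hT0 : 0 < T := by linarith
  have hN1 : (1 : ℝ) ≤ Nf ν T := by exact_mod_cast n1
  have hNT : (Nf ν T : ℝ) ≤ T := by nlinarith
  have hs : Real.sqrt (Nf ν T) ≤ T := by
    rw [Real.sqrt_le_left hT0.le]; nlinarith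
  unfold Kf
  have hP : ∀ t ∈ Icc T (2 * T), ‖zk k s t‖ ≤ C * T ^ B := fun t ht => h T t hT ht s h1 h2 h3
  refine (KK_le n1 n4 (by positivity) s (by positivity : 0 ≤ C * T ^ B) hP (fun t ht _ => hP t ht)).trans ?_
  have h4 : Real.exp (-(T ^ 2 / (16 * (T ^ (1 - e)) ^ 2))) ≤ 1 := by
    rw [Real.exp_le_one_iff]
    have : 0 ≤ T ^ 2 / (16 * (T ^ (1 - e)) ^ 2) := by positivity
    linarith
  have e1 : T ^ (B + 2) = T * T * T ^ B := by
    rw [Real.rpow_add hT0]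
    have : T ^ (2 : ℝ) = T * T := by
      rw [show (2 : ℝ) = ((2 : ℕ) : ℝ) by norm_num, Real.rpow_natCast]; ring
    rw [this]; ring
  calc 46 * T * Real.sqrt (Nf ν T) * (C * T ^ B) + T * (Nf ν T) * (C * T ^ B) * Real.exp (-(T ^ 2 / (16 * (T ^ (1 - e)) ^ 2)))
      ≤ 46 * T * T * (C * T ^ B) + T * T * (C * T ^ B) * 1 := by gcongr
    _ = 47 * C * T ^ (B + 2) := by rw [e1]; ring
    _ ≤ T ^ (B + 3) := hp

/-- Shifts in any interval, without any hypothesis. -/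
theorem coreU (k : ℕ) (hk : 1 ≤ k) {ν : ℝ} (hν : 0 < ν) (hν1 : ν < 1 / 2) : ∃ P : ℝ, 2 ≤ P ∧
    ∀ (u0 η1 lam δ : ℝ), 0 < η1 → 0 < lam → 0 < δ →
    ∃ e0 : ℝ, 0 < e0 ∧ ∀ e θ η2 U b g ε0 : ℝ, 0 < e → e ≤ 1 / 4 → e ≤ e0 →
    0 ≤ θ → θ ≤ 1 / 4 → e ≤ η1 → η1 < η2 → η2 ≤ 1 / 2 → 0 < U → 0 < b → 0 < ε0 →
    P - 2 * (P - ν) * η1 + (3 + 2 * (P - ν)) * e < 1 - 2 * η1 * ν - δ - e →
    P - 2 * (P - ν) * η2 + (3 + 2 * (P - ν)) * e < 1 - 2 * η2 * ν - e →
    δ + 4 * e + P * (2 * ε0 / η1) ≤ g * (η2 - η1) →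
    θ - ν / 2 + 5 * e + δ + P * (2 * ε0 / η1) ≤ -(b * η1 * η2) - g * η1 →
    P - 1 - b * U ^ 2 + 2 * e + δ + P * (2 * ε0 / η1) ≤ -(b * η1 * η2) - g * η1 →
    ∀ᶠ T : ℝ in atTop,
      volume {u : ℝ | u ∈ Icc (u0 - (U + lam)) (u0 + (U + lam)) ∧ Close k (1 / 2 + u * Complex.I) T θ e} <
        ENNReal.ofReal (2 * (U + lam) - ε0) := by
  obtain ⟨A, hA, hcr⟩ := crude' k
  refine ⟨max A 2, le_max_right _ _, fun u0 η1 lam δ hη0 hlam hδ => ?_⟩
  set P := max A 2 with hP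
  have hP2 : 2 ≤ P := le_max_right _ _
  have hPA : A ≤ P := le_max_left _ _
  obtain ⟨e0, he0, hdn⟩ := diag_near hk u0 hη0 hlam hδ
  refine ⟨e0, he0, fun e θ η2 U b g ε0 he he1 hee0 hθ hθ1 hη1 hη12 hη2 hU hb hε0 hc hc' hg1 hg2 hg3 => ?_⟩
  have ev1 := ev_pow 2 (a := 1 - 2 * η1 * ν - δ - e) (b := 1 - 2 * η1 * ν - δ) (by linarith)
  have hρ0 : 0 ≤ 2 * ε0 / η1 := by positivity
  have hρ : (P - (1 + θ - ν / 2 + 2 * e)) * (2 * ε0 / η1) ≤ P * (2 * ε0 / η1) := by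
    apply mul_le_mul_of_nonneg_right _ hρ0
    linarith
  filter_upwards [coreGg (k := k) (|u0| + lam) (P := P) (δ := δ + e) (θ := θ) (g := g) hν hν1 he he1 (by linarith) (by linarith) hη1 hη12
      hη2 hU hb hε0 hc' (by linarith) (by linarith) (by linarith), hdn ν e hν hν1 he hee0 hη1,
      rem_bound_g (k := k) hν hν1 he he1 (by linarith : 1 + e ≤ P), hcr ν e hν hν1,
      near_bound (k := k) hν hν1 he hθ, ev1, eventually_gt_atTop 1, eventually_gt_atTop (32 * (|u0| + U + lam))]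
    with T h1 h2 h3 hcrT h4 e1 hT1 hT
  have hT0 : 0 < T := by linarith
  have hu00 := abs_nonneg u0
  have hcl : ∀ s : ℂ, s.re = 1 / 2 → |s.im| ≤ T / 8 → ‖Kf k ν e T s‖ ≤ T ^ P := by
    intro s hs1 hs2
    refine (hcrT s (by rw [hs1]; norm_num) (by rw [hs1]; norm_num) (by linarith)).trans ?_
    exact Real.rpow_le_rpow_of_exponent_le hT1.le hPA
  obtain ⟨y0, hy0, hS⟩ := h2
  have hy0' := abs_le.1 hy0
  have hua := abs_le.1 (le_refl |u0|)
  have hyabs : |y0| ≤ |u0| + lam := by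
    rw [abs_le]; constructor <;> linarith
  set s0 : ℂ := ((1 / 2 + η1 : ℝ) : ℂ) + y0 * Complex.I with hs0
  have e2 : s0.re = 1 / 2 + η1 := by rw [hs0]; simp
  have e3 : s0.im = y0 := by rw [hs0]; simp
  have h5 := h3 hcl s0 (by rw [e2]; linarith) (by rw [e2]; linarith) (by rw [e3]; linarith)
  rw [e2, show (1 / 2 + η1 : ℝ) - 1 / 2 = η1 by ring] at h5
  have h6 : ‖Sf k ν e T s0‖ ≤ ‖Kf k ν e T s0 - Sf k ν e T s0‖ + ‖Kf k ν e T s0‖ := by
    have := norm_sub_le (Kf k ν e T s0) (Kf k ν e T s0 - Sf k ν e T s0)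
    rw [sub_sub_cancel] at this
    linarith
  have h7 : T ^ (P - 2 * (P - ν) * η1 + (3 + 2 * (P - ν)) * e) ≤
      T ^ (1 - 2 * η1 * ν - δ - e) := Real.rpow_le_rpow_of_exponent_le hT1.le hc.le
  have h8 : T ^ (1 - 2 * η1 * ν - (δ + e)) ≤ ‖Kf k ν e T s0‖ := by
    rw [show 1 - 2 * η1 * ν - (δ + e) = 1 - 2 * η1 * ν - δ - e by ring]
    linarith
  have h9 := h1 y0 hyabs hcl h8
  have h10 : ENNReal.ofReal ε0 < volume {u | u ∈ Icc (u0 - (U + lam)) (u0 + (U + lam)) ∧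
        T ^ (1 + θ - ν / 2 + 2 * e) < ‖Kf k ν e T (1 / 2 + u * Complex.I)‖} := by
    refine lt_of_lt_of_le h9 (measure_mono ?_)
    intro u hu
    refine ⟨⟨by linarith [hu.1.1], by linarith [hu.1.2]⟩, hu.2⟩
  have h5 := meas_le (P := fun u => Close k (1 / 2 + u * Complex.I) T θ e)
    (by linarith : u0 - (U + lam) ≤ u0 + (U + lam)) hε0
    (Kf_cont (k := k) (ν := ν) (e := e) hT0 (by linarith : -T < u0 - (U + lam)) (by linarith : u0 + (U + lam) < T)) ?_ h10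
  · convert h5 using 2
    ring
  · intro u hu hcu
    refine h4 _ ?_ hcu
    have e1 : (1 / 2 + (u : ℂ) * Complex.I).im = u := by simp
    rw [e1, abs_le]
    exact ⟨by linarith [hu.1], by linarith [hu.2]⟩

end Pool.Agent.Helper156_SM
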