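import Pool.Agent.Helper156_SM.Near
import Pool.Agent.Helper156_SM.Bounds2

set_option autoImplicit false

/-!
# The twisted moment on the critical line, from mean values
-/

open MeasureTheory Set Filter

namespace Pool.Agent.Helper156_SM

open Pool.Agent.Helper156_EK
open Pool.Agent.W188.QS Pool.Agent.W188.GP

theorem zk_line_le (k : ℕ) {s : ℂ} (hs : s.re = 1 / 2) (t : ℝ) :
    ‖zk k s t‖ ≤ (fk k (t + s.im) + fk k (t - s.im)) / 2 := by
  have e1 : s + t * Complex.I = 1 / 2 + ((t + s.im : ℝ) : ℂ) * Complex.I := by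
    apply Complex.ext
    · simp [hs]
    · simp; ring
  have e2 : s - t * Complex.I = (starRingEnd ℂ) (1 / 2 + ((t - s.im : ℝ) : ℂ) * Complex.I) := by
    rw [map_add, map_mul, Complex.conj_I, Complex.conj_ofReal, map_div₀, map_one, Complex.conj_ofNat]
    apply Complex.ext
    · simp [hs]
    · simp
  unfold zk
  rw [e1, e2, riemannZeta_conj, norm_mul, norm_pow, norm_pow, RCLike.norm_conj]
  unfold fk
  rw [mul_comm 2 k, pow_mul, pow_mul]
  set a := ‖riemannZeta (1 / 2 + ((t + s.im : ℝ) : ℂ) * Complex.I)‖ ^ k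
  set b := ‖riemannZeta (1 / 2 + ((t - s.im : ℝ) : ℂ) * Complex.I)‖ ^ k
  nlinarith [sq_nonneg (a - b)]

/-- the core of the integral -/
theorem KK_split {k N : ℕ} {T W P : ℝ} (hT0 : 0 < T) (s : ℂ) (hs : |s.im| < T)
    (hP : ∀ t ∈ Icc T (2 * T), ‖zk k s t‖ ≤ P) :
    ‖KK k N T W s‖ ≤ T * N * P * Real.exp (-(T ^ 2 / (16 * W ^ 2))) +
      ∫ t in (5 * T / 4)..(7 * T / 4), ‖Dp (fun _ => (1:ℂ)) N t‖ * ‖zk k s t‖ := by
  have hP0 : 0 ≤ P := (norm_nonneg _).trans (hP T ⟨le_rfl, by linarith⟩)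
  have hDc := Dp_cont (fun _ => (1:ℂ)) N
  have hD : ∀ t, ‖Dp (fun _ => (1:ℂ)) N t‖ ≤ N := by
    intro t
    have := Dp_norm (c := fun _ => (1:ℂ)) (N := N) (B := 1) (fun n _ => by simp) t
    simpa using this
  have hzc := zk_contOn k s hs
  have hgc : Continuous fun t : ℝ => (gw T W t : ℂ) := Complex.continuous_ofReal.comp (gw_cont T W)
  set F : ℝ → ℂ := fun t => (gw T W t : ℂ) * Dp (fun _ => 1) N t * zk k s t with hF
  have hFc : ContinuousOn F (Icc T (2 * T)) := (hgc.mul hDc).continuousOn.mul hzc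
  have hFi : ∀ a b : ℝ, T ≤ a → a ≤ b → b ≤ 2 * T → IntervalIntegrable F volume a b := by
    intro a b ha hab hb
    apply ContinuousOn.intervalIntegrable
    apply hFc.mono
    rw [uIcc_of_le hab]
    exact Icc_subset_Icc ha hb
  set E := Real.exp (-(T ^ 2 / (16 * W ^ 2))) with hE
  have hout : ∀ t ∈ Icc T (2 * T), T / 4 ≤ |t - 3 * T / 2| → ‖F t‖ ≤ N * P * E := by
    intro t ht h
    rw [hF]
    simp only
    rw [norm_mul, norm_mul, Complex.norm_real, Real.norm_of_nonneg (gw_pos _ _ _).le]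
    have h2 : gw T W t ≤ E := by
      unfold gw
      rw [hE]
      apply Real.exp_le_exp.2
      have h3 : (T / 4) ^ 2 ≤ (t - 3 * T / 2) ^ 2 := by
        have := pow_le_pow_left₀ (by positivity) h 2
        rwa [sq_abs] at this
      have h4 : (T / 4) ^ 2 / W ^ 2 ≤ (t - 3 * T / 2) ^ 2 / W ^ 2 := by gcongr
      rw [div_pow]
      have h5 : (T / 4) ^ 2 / W ^ 2 = T ^ 2 / (16 * W ^ 2) := by
        rw [div_pow, div_div]; congr 1; ring
      linarith
    have h6 := hD t
    have h7 := hP t ht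
    have h8 := (gw_pos T W t).le
    calc gw T W t * ‖Dp (fun _ => (1:ℂ)) N t‖ * ‖zk k s t‖ ≤ E * N * P := by gcongr
      _ = N * P * E := by ring
  have hin : ∀ t ∈ Icc T (2 * T), ‖F t‖ ≤ ‖Dp (fun _ => (1:ℂ)) N t‖ * ‖zk k s t‖ := by
    intro t _
    rw [hF]
    simp only
    rw [norm_mul, norm_mul, Complex.norm_real, Real.norm_of_nonneg (gw_pos _ _ _).le]
    have h3 := gw_le_one T W t
    have h8 := (gw_pos T W t).le
    calc gw T W t * ‖Dp (fun _ => (1:ℂ)) N t‖ * ‖zk k s t‖ ≤ 1 * ‖Dp (fun _ => (1:ℂ)) N t‖ * ‖zk k s t‖ := by gcongr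
      _ = _ := by ring
  have hsplit : KK k N T W s = (∫ t in T..(5 * T / 4), F t) + (∫ t in (5 * T / 4)..(7 * T / 4), F t) +
      ∫ t in (7 * T / 4)..(2 * T), F t := by
    unfold KK
    rw [intervalIntegral.integral_add_adjacent_intervals (hFi _ _ le_rfl (by linarith) (by linarith))
      (hFi _ _ (by linarith) (by linarith) (by linarith)),
      intervalIntegral.integral_add_adjacent_intervals (hFi _ _ le_rfl (by linarith) (by linarith))
      (hFi _ _ (by linarith) (by linarith) (by linarith))]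
  have b1 : ‖∫ t in T..(5 * T / 4), F t‖ ≤ N * P * E * (T / 4) := by
    have h := intervalIntegral.norm_integral_le_of_norm_le_const (a := T) (b := 5 * T / 4) (C := N * P * E) (f := F)
      (fun t ht => by
        rw [uIoc_of_le (by linarith)] at ht
        apply hout t ⟨ht.1.le, by linarith [ht.2]⟩
        rw [abs_of_nonpos (by linarith [ht.2])]
        linarith [ht.2])
    have e1 : |5 * T / 4 - T| = T / 4 := by rw [abs_of_nonneg (by linarith)]; ring
    rwa [e1] at h
  have b3 : ‖∫ t in (7 * T / 4)..(2 * T), F t‖ ≤ N * P * E * (T / 4) := by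
    have h := intervalIntegral.norm_integral_le_of_norm_le_const (a := 7 * T / 4) (b := 2 * T) (C := N * P * E) (f := F)
      (fun t ht => by
        rw [uIoc_of_le (by linarith)] at ht
        apply hout t ⟨by linarith [ht.1], ht.2⟩
        rw [abs_of_nonneg (by linarith [ht.1])]
        linarith [ht.1])
    have e1 : |2 * T - 7 * T / 4| = T / 4 := by rw [abs_of_nonneg (by linarith)]; ring
    rwa [e1] at h
  have b2 : ‖∫ t in (5 * T / 4)..(7 * T / 4), F t‖ ≤
      ∫ t in (5 * T / 4)..(7 * T / 4), ‖Dp (fun _ => (1:ℂ)) N t‖ * ‖zk k s t‖ := by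
    apply intervalIntegral.norm_integral_le_of_norm_le (by linarith)
    · refine Eventually.of_forall fun t ht => ?_
      exact hin t ⟨by linarith [ht.1], by linarith [ht.2]⟩
    · apply ContinuousOn.intervalIntegrable
      apply ContinuousOn.mul hDc.norm.continuousOn
      apply (hzc.norm).mono
      rw [uIcc_of_le (by linarith)]
      exact Icc_subset_Icc (by linarith) (by linarith)
  rw [hsplit]
  have h1 := norm_add_le ((∫ t in T..(5 * T / 4), F t) + (∫ t in (5 * T / 4)..(7 * T / 4), F t)) (∫ t in (7 * T / 4)..(2 * T), F t)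
  have h2 := norm_add_le (∫ t in T..(5 * T / 4), F t) (∫ t in (5 * T / 4)..(7 * T / 4), F t)
  have h3 : N * P * E * (T / 4) + N * P * E * (T / 4) ≤ T * N * P * E := by
    have : 0 ≤ N * P * E * T := by positivity
    nlinarith
  linarith

theorem fk_shift_int {k : ℕ} {T v : ℝ} (hT0 : 0 < T) (hv : |v| ≤ T / 8) :
    ∫ t in (5 * T / 4)..(7 * T / 4), fk k (t + v) ≤ ∫ t in T..(2 * T), fk k t := by
  have h1 := abs_le.1 hv
  rw [intervalIntegral.integral_comp_add_right]
  apply intervalIntegral.integral_mono_interval (by linarith) (by linarith) (by linarith)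
  · exact Eventually.of_forall fun t => fk_nonneg k t
  · exact (fk_cont k).intervalIntegrable _ _

theorem fk_shift_int2 {k : ℕ} {T v : ℝ} (hT0 : 0 < T) (hv : |v| ≤ T / 8) :
    ∫ t in (5 * T / 4)..(7 * T / 4), (fk k (t + v) + fk k (t - v)) / 2 ≤ ∫ t in T..(2 * T), fk k t := by
  have h1 := fk_shift_int (k := k) hT0 hv
  have h2 := fk_shift_int (k := k) hT0 (v := -v) (by rwa [abs_neg])
  have hfc := fk_cont k
  have e : ∫ t in (5 * T / 4)..(7 * T / 4), (fk k (t + v) + fk k (t - v)) / 2 =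
      ((∫ t in (5 * T / 4)..(7 * T / 4), fk k (t + v)) + ∫ t in (5 * T / 4)..(7 * T / 4), fk k (t - v)) / 2 := by
    rw [intervalIntegral.integral_div, intervalIntegral.integral_add]
    · exact (hfc.comp (by fun_prop)).intervalIntegrable _ _
    · exact (hfc.comp (by fun_prop)).intervalIntegrable _ _
  simp only [← sub_eq_add_neg] at h2
  rw [e]
  linarith

/-- Mean values of `|ζ| ^ (2 k)` over all subintervals of `[T, 2 T]`. -/
def MV (k : ℕ) (T θ e : ℝ) : Prop := ∀ a b : ℝ, T ≤ a → a ≤ b → b ≤ 2 * T →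
  ∫ t in a..b, fk k t ≤ T ^ (θ + e) + (b - a) * T ^ e

/-- the bound on the critical line, from the mean value only -/
theorem line_bound_C (k : ℕ) {ν e K : ℝ} (hν : 0 < ν) (hν1 : ν < 1 / 2) (he : 0 < e) (hK : 0 ≤ K) :
    ∀ᶠ T : ℝ in atTop, (∫ t in T..(2 * T), fk k t ≤ T ^ (1 + K + e)) → ∀ s : ℂ, s.re = 1 / 2 → |s.im| ≤ T / 8 →
    ‖Kf k ν e T s‖ ≤ T ^ (1 + K + ν + 2 * e) := by
  obtain ⟨C1, B, hC1, hB, h1⟩ := zk_crude k
  have ev1 := ev_pow 2 (a := 1 + K + ν + e) (b := 1 + K + ν + 2 * e) (by linarith)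
  have ev2 := ev_exp C1 (B + 2) (c := 1 / 16) (e := 2 * e) (by norm_num) (by linarith)
  have ev3 := ev_pow 2 (a := 0) (b := 1 + K + ν + 2 * e) (by linarith)
  filter_upwards [ev_N hν hν1, eventually_ge_atTop 1, ev1, ev2, ev3]
    with T hN hT e1 e2 e3 hI s hs hsi
  obtain ⟨n1, n2, n3, n4⟩ := hN
  have hT0 : 0 < T := by linarith
  have hN1 : (1 : ℝ) ≤ Nf ν T := by exact_mod_cast n1
  have hNT : (Nf ν T : ℝ) ≤ T := by nlinarith
  unfold Kf
  have hP : ∀ t ∈ Icc T (2 * T), ‖zk k s t‖ ≤ C1 * T ^ B := fun t ht =>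
    h1 T t hT ht s (by rw [hs]; norm_num) (by rw [hs]; norm_num) (by linarith)
  refine (KK_split (N := Nf ν T) (W := T ^ (1 - e)) hT0 s (by linarith) hP).trans ?_
  have hD : ∀ t, ‖Dp (fun _ => (1:ℂ)) (Nf ν T) t‖ ≤ Nf ν T := by
    intro t
    have := Dp_norm (c := fun _ => (1:ℂ)) (N := Nf ν T) (B := 1) (fun n _ => by simp) t
    simpa using this
  have hfc := fk_cont k
  have hzc := zk_contOn k s (by linarith : |s.im| < T)
  have hDc := Dp_cont (fun _ => (1:ℂ)) (Nf ν T)
  have p2 : ∫ t in (5 * T / 4)..(7 * T / 4), ‖Dp (fun _ => (1:ℂ)) (Nf ν T) t‖ * ‖zk k s t‖ ≤ T ^ (1 + K + ν + e) := by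
    have q1 : ∫ t in (5 * T / 4)..(7 * T / 4), ‖Dp (fun _ => (1:ℂ)) (Nf ν T) t‖ * ‖zk k s t‖ ≤
        ∫ t in (5 * T / 4)..(7 * T / 4), (Nf ν T : ℝ) * ((fk k (t + s.im) + fk k (t - s.im)) / 2) := by
      apply intervalIntegral.integral_mono_on (by linarith)
      · apply ContinuousOn.intervalIntegrable
        apply ContinuousOn.mul hDc.norm.continuousOn
        apply (hzc.norm).mono
        rw [uIcc_of_le (by linarith)]
        exact Icc_subset_Icc (by linarith) (by linarith)
      · apply Continuous.intervalIntegrable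
        exact continuous_const.mul (((hfc.comp (by fun_prop)).add (hfc.comp (by fun_prop))).div_const _)
      · intro t _
        have := hD t
        have := zk_line_le k hs t
        gcongr
    rw [intervalIntegral.integral_const_mul] at q1
    refine q1.trans ?_
    calc (Nf ν T : ℝ) * ∫ t in (5 * T / 4)..(7 * T / 4), (fk k (t + s.im) + fk k (t - s.im)) / 2
        ≤ T ^ ν * T ^ (1 + K + e) := by
          gcongr
          · apply intervalIntegral.integral_nonneg (by linarith)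
            intro t _
            have := fk_nonneg k (t + s.im)
            have := fk_nonneg k (t - s.im)
            positivity
          · exact (fk_shift_int2 hT0 hsi).trans hI
      _ = T ^ (1 + K + ν + e) := by rw [← Real.rpow_add hT0]; congr 1; ring
  have p3 : T * (Nf ν T) * (C1 * T ^ B) * Real.exp (-(T ^ 2 / (16 * (T ^ (1 - e)) ^ 2))) ≤ 1 := by
    rw [w_sq hT0 16 (by norm_num)]
    refine le_trans ?_ e2
    have : T ^ (B + 2) = T * T * T ^ B := by
      rw [Real.rpow_add hT0]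
      have : T ^ (2 : ℝ) = T * T := by
        rw [show (2 : ℝ) = ((2 : ℕ) : ℝ) by norm_num, Real.rpow_natCast]; ring
      rw [this]; ring
    rw [this]
    have h5 : T * (Nf ν T) * (C1 * T ^ B) ≤ C1 * (T * T * T ^ B) := by
      calc T * (Nf ν T) * (C1 * T ^ B) ≤ T * T * (C1 * T ^ B) := by gcongr
        _ = C1 * (T * T * T ^ B) := by ring
    gcongr
  rw [Real.rpow_zero] at e3
  linarith

/-- the bound on the critical line, from mean values on short intervals -/
theorem line_bound_B {k : ℕ} (hk : 1 ≤ k) {ν e θ : ℝ} (hν : 0 < ν) (hν1 : ν < 1 / 2) (he : 0 < e) (hθ : 0 ≤ θ)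
    (hθ1 : θ ≤ 1) :
    ∀ᶠ T : ℝ in atTop, MV k T θ e → ∀ s : ℂ, s.re = 1 / 2 → |s.im| ≤ T / 8 →
    ‖Kf k ν e T s‖ ≤ T ^ (1 + (θ + ν) / 2 + 3 * e) := by
  obtain ⟨C1, B, hC1, hB, h1⟩ := zk_crude k
  obtain ⟨C, T₀, hC, hT₀, hlh⟩ := lh2 hk
  have ev0 := ev_pow 2048 (a := 1 + (θ + ν) / 2) (b := 1 + (θ + ν) / 2 + 3 * e) (by linarith)
  have ev1 := ev_log (8 * C) 2 (a := 1 + (θ + ν) / 2 + 2 * e) (b := 1 + (θ + ν) / 2 + 3 * e) (by linarith)
  have ev2 := ev_exp C1 (B + 2) (c := 1 / 16) (e := 2 * e) (by norm_num) (by linarith)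
  have ev3 := ev_pow 4 (a := 0) (b := 1 + (θ + ν) / 2 + 3 * e) (by linarith)
  filter_upwards [ev_N hν hν1, eventually_ge_atTop 1, eventually_ge_atTop T₀, ev0, ev1, ev2, ev3]
    with T hN hT hTT e0 e1 e2 e3 hMV s hs hsi
  obtain ⟨n1, n2, n3, n4⟩ := hN
  have hT0 : 0 < T := by linarith
  have hN1 : (1 : ℝ) ≤ Nf ν T := by exact_mod_cast n1
  have hNT : (Nf ν T : ℝ) ≤ T := by nlinarith
  have hL : 0 ≤ Real.log T := Real.log_nonneg hT
  unfold Kf
  have hP : ∀ t ∈ Icc T (2 * T), ‖zk k s t‖ ≤ C1 * T ^ B := fun t ht =>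
    h1 T t hT ht s (by rw [hs]; norm_num) (by rw [hs]; norm_num) (by linarith)
  refine (KK_split (N := Nf ν T) (W := T ^ (1 - e)) hT0 s (by linarith) hP).trans ?_
  -- the pointwise bound
  set H := 2 * C * Real.log T ^ 2 * T ^ (θ + e) with hH
  have hH0 : 0 ≤ H := by positivity
  have hpt : ∀ v ∈ Icc (T + T / 100) (2 * T - T / 100), fk k v ≤ H := by
    intro v hv
    have h5 := hlh T (T ^ (θ + e)) (T ^ e) hTT (Real.one_le_rpow hT (by linarith)) (by positivity) hMV v hv
    refine h5.trans ?_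
    have h6 : T ^ e ≤ T ^ (θ + e) := Real.rpow_le_rpow_of_exponent_le hT (by linarith)
    calc C * Real.log T ^ 2 * (T ^ (θ + e) + T ^ e) ≤ C * Real.log T ^ 2 * (T ^ (θ + e) + T ^ (θ + e)) := by gcongr
      _ = H := by rw [hH]; ring
  have hI : ∫ t in T..(2 * T), fk k t ≤ 2 * T ^ (1 + e) := by
    have h5 := hMV T (2 * T) le_rfl (by linarith) le_rfl
    have h6 : T ^ (θ + e) ≤ T ^ (1 + e) := Real.rpow_le_rpow_of_exponent_le hT (by linarith)
    have h7 : (2 * T - T) * T ^ e = T ^ (1 + e) := by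
      rw [Real.rpow_add hT0, Real.rpow_one]; ring
    linarith
  have hfc := fk_cont k
  have hzc := zk_contOn k s (by linarith : |s.im| < T)
  have hDc := Dp_cont (fun _ => (1:ℂ)) (Nf ν T)
  set l := T ^ ((θ - ν) / 2) with hl
  have hl0 : 0 < l := by positivity
  have p2 : ∫ t in (5 * T / 4)..(7 * T / 4), ‖Dp (fun _ => (1:ℂ)) (Nf ν T) t‖ * ‖zk k s t‖ ≤
      l / 2 * (2048 * T * (Nf ν T) * 1 ^ 2) + H / (2 * l) * (2 * T ^ (1 + e)) := by
    have q1 : ∫ t in (5 * T / 4)..(7 * T / 4), ‖Dp (fun _ => (1:ℂ)) (Nf ν T) t‖ * ‖zk k s t‖ ≤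
        ∫ t in (5 * T / 4)..(7 * T / 4), (l / 2 * ‖Dp (fun _ => (1:ℂ)) (Nf ν T) t‖ ^ 2 +
          H / (2 * l) * ((fk k (t + s.im) + fk k (t - s.im)) / 2)) := by
      apply intervalIntegral.integral_mono_on (by linarith)
      · apply ContinuousOn.intervalIntegrable
        apply ContinuousOn.mul hDc.norm.continuousOn
        apply (hzc.norm).mono
        rw [uIcc_of_le (by linarith)]
        exact Icc_subset_Icc (by linarith) (by linarith)
      · apply Continuous.intervalIntegrable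
        apply Continuous.add
        · exact continuous_const.mul (hDc.norm.pow 2)
        · exact continuous_const.mul (((hfc.comp (by fun_prop)).add (hfc.comp (by fun_prop))).div_const _)
      · intro t ht
        have hz1 := zk_line_le k hs t
        have hab := abs_le.1 hsi
        have hz2 : ‖zk k s t‖ ≤ H := by
          have g1 := hpt (t + s.im) ⟨by linarith [ht.1], by linarith [ht.2]⟩
          have g2 := hpt (t - s.im) ⟨by linarith [ht.1], by linarith [ht.2]⟩
          linarith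
        set X := ‖Dp (fun _ => (1:ℂ)) (Nf ν T) t‖
        set Z := ‖zk k s t‖
        have hX : 0 ≤ X := norm_nonneg _
        have hZ : 0 ≤ Z := norm_nonneg _
        have h5 : 0 ≤ (l * X - Z) ^ 2 / (2 * l) := by positivity
        have h6 : (l * X - Z) ^ 2 / (2 * l) = l / 2 * X ^ 2 - X * Z + Z ^ 2 / (2 * l) := by
          field_simp
          ring
        have h7 : Z ^ 2 ≤ H * ((fk k (t + s.im) + fk k (t - s.im)) / 2) := by
          calc Z ^ 2 = Z * Z := sq Z
            _ ≤ H * ((fk k (t + s.im) + fk k (t - s.im)) / 2) := mul_le_mul hz2 hz1 hZ hH0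
        have h8 : Z ^ 2 / (2 * l) ≤ H * ((fk k (t + s.im) + fk k (t - s.im)) / 2) / (2 * l) := by gcongr
        have h9 : H * ((fk k (t + s.im) + fk k (t - s.im)) / 2) / (2 * l) =
            H / (2 * l) * ((fk k (t + s.im) + fk k (t - s.im)) / 2) := by ring
        linarith
    rw [intervalIntegral.integral_add, intervalIntegral.integral_const_mul, intervalIntegral.integral_const_mul] at q1
    · refine q1.trans (add_le_add ?_ ?_)
      · apply mul_le_mul_of_nonneg_left _ (by positivity)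
        refine le_trans ?_ (mean_sq n1 n4 zero_le_one (c := fun _ => (1:ℂ)) (fun n _ => by simp))
        apply intervalIntegral.integral_mono_interval (by linarith) (by linarith) (by linarith)
        · exact Eventually.of_forall fun t => by positivity
        · exact (hDc.norm.pow 2).intervalIntegrable _ _
      · apply mul_le_mul_of_nonneg_left _ (by positivity)
        exact (fk_shift_int2 hT0 hsi).trans hI
    · exact (continuous_const.mul (hDc.norm.pow 2)).intervalIntegrable _ _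
    · exact (continuous_const.mul (((hfc.comp (by fun_prop)).add (hfc.comp (by fun_prop))).div_const _)).intervalIntegrable _ _
  have p1 : l / 2 * (2048 * T * (Nf ν T) * 1 ^ 2) ≤ T ^ (1 + (θ + ν) / 2 + 3 * e) / 2 := by
    calc l / 2 * (2048 * T * (Nf ν T) * 1 ^ 2) ≤ l / 2 * (2048 * T * T ^ ν * 1 ^ 2) := by gcongr
      _ = 2048 * T ^ (1 + (θ + ν) / 2) / 2 := by
          have : T ^ (1 + (θ + ν) / 2) = l * T * T ^ ν := by
            rw [hl, show 1 + (θ + ν) / 2 = (θ - ν) / 2 + 1 + ν by ring, Real.rpow_add hT0, Real.rpow_add hT0, Real.rpow_one]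
          rw [this]; ring
      _ ≤ T ^ (1 + (θ + ν) / 2 + 3 * e) / 2 := by gcongr
  have p4 : H / (2 * l) * (2 * T ^ (1 + e)) ≤ T ^ (1 + (θ + ν) / 2 + 3 * e) / 4 := by
    have h5 : H / (2 * l) * (2 * T ^ (1 + e)) = 8 * C * Real.log T ^ 2 * T ^ (1 + (θ + ν) / 2 + 2 * e) / 4 := by
      have : T ^ (1 + (θ + ν) / 2 + 2 * e) = T ^ (θ + e) * T ^ (1 + e) / l := by
        rw [hl, ← Real.rpow_add hT0, ← Real.rpow_sub hT0]; congr 1; ring
      rw [this, hH]
      field_simp
      ring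
    rw [h5]
    gcongr
  have p3 : T * (Nf ν T) * (C1 * T ^ B) * Real.exp (-(T ^ 2 / (16 * (T ^ (1 - e)) ^ 2))) ≤ 1 := by
    rw [w_sq hT0 16 (by norm_num)]
    refine le_trans ?_ e2
    have : T ^ (B + 2) = T * T * T ^ B := by
      rw [Real.rpow_add hT0]
      have : T ^ (2 : ℝ) = T * T := by
        rw [show (2 : ℝ) = ((2 : ℕ) : ℝ) by norm_num, Real.rpow_natCast]; ring
      rw [this]; ring
    rw [this]
    have h5 : T * (Nf ν T) * (C1 * T ^ B) ≤ C1 * (T * T * T ^ B) := by
      calc T * (Nf ν T) * (C1 * T ^ B) ≤ T * T * (C1 * T ^ B) := by gcongr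
        _ = C1 * (T * T * T ^ B) := by ring
    gcongr
  rw [Real.rpow_zero] at e3
  linarith

end Pool.Agent.Helper156_SM
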