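import Mathlib

set_option autoImplicit false

/-!
# The harmonic measure of the far part of one side of a strip
-/

open MeasureTheory Set Filter

namespace Pool.Agent.Helper156_SM

theorem arg_le {x : ℂ} (h : 0 < x.re) : |Complex.arg x| ≤ |x.im| / x.re := by
  have h1 : |Complex.arg x| < Real.pi / 2 := Complex.abs_arg_lt_pi_div_two_iff.2 (Or.inl h)
  have h2 : Real.tan (Complex.arg x) = x.im / x.re := Complex.tan_arg x
  have h3 : |Complex.arg x| ≤ |Real.tan (Complex.arg x)| := by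
    have h4 := abs_lt.1 h1
    rcases le_total 0 (Complex.arg x) with h5 | h5
    · rw [abs_of_nonneg h5]
      exact (Real.le_tan h5 h4.2).trans (le_abs_self _)
    · rw [abs_of_nonpos h5]
      have h6 := Real.le_tan (x := -Complex.arg x) (by linarith) (by linarith)
      rw [Real.tan_neg] at h6
      exact h6.trans (neg_le_abs _)
  rw [h2, abs_div, abs_of_pos h] at h3
  exact h3

theorem exp_form (a x y : ℝ) : Complex.exp (-(Complex.I * (Real.pi / a) * ((x : ℂ) + y * Complex.I))) =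
    ((Real.exp (Real.pi / a * y) * Real.cos (Real.pi / a * x) : ℝ) : ℂ) +
      ((-(Real.exp (Real.pi / a * y) * Real.sin (Real.pi / a * x)) : ℝ) : ℂ) * Complex.I := by
  have h1 : -(Complex.I * (Real.pi / a) * ((x : ℂ) + y * Complex.I)) =
      ((Real.pi / a * y : ℝ) : ℂ) + ((-(Real.pi / a * x) : ℝ) : ℂ) * Complex.I := by
    push_cast
    ring_nf
    rw [Complex.I_sq]
    ring
  rw [h1, Complex.exp_add, Complex.exp_mul_I, ← Complex.ofReal_exp, ← Complex.ofReal_cos, ← Complex.ofReal_sin,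
    Real.cos_neg, Real.sin_neg]
  push_cast
  ring

theorem exp_form' (a x y : ℝ) : Complex.exp (Complex.I * (Real.pi / a) * ((x : ℂ) + y * Complex.I)) =
    ((Real.exp (-(Real.pi / a * y)) * Real.cos (Real.pi / a * x) : ℝ) : ℂ) +
      ((Real.exp (-(Real.pi / a * y)) * Real.sin (Real.pi / a * x) : ℝ) : ℂ) * Complex.I := by
  have h1 : Complex.I * (Real.pi / a) * ((x : ℂ) + y * Complex.I) =
      ((-(Real.pi / a * y) : ℝ) : ℂ) + ((Real.pi / a * x : ℝ) : ℂ) * Complex.I := by
    push_cast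
    ring_nf
    rw [Complex.I_sq]
    ring
  rw [h1, Complex.exp_add, Complex.exp_mul_I, ← Complex.ofReal_exp, ← Complex.ofReal_cos, ← Complex.ofReal_sin]
  push_cast
  ring

theorem re_form (A B : ℝ) : (((A : ℝ) : ℂ) + ((B : ℝ) : ℂ) * Complex.I).re = A := by
  rw [Complex.add_re, Complex.ofReal_re, Complex.re_ofReal_mul, Complex.I_re, mul_zero, add_zero]

theorem im_form (A B : ℝ) : (((A : ℝ) : ℂ) + ((B : ℝ) : ℂ) * Complex.I).im = B := by
  rw [Complex.add_im, Complex.ofReal_im, Complex.im_ofReal_mul, Complex.I_im, mul_one, zero_add]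

theorem farW (y0 : ℝ) {η2 τ U U' : ℝ} (hη2 : 0 < η2) (hτ : 0 < τ) (hU' : 0 < U')
    (hpos : 0 < Real.cos (Real.pi / (η2 + 2 * τ) * τ) - Real.exp (-(Real.pi / (η2 + 2 * τ) * (U - U')))) :
    ∃ W : ℂ → ℂ, DifferentiableOn ℂ W {s : ℂ | 1 / 2 ≤ s.re ∧ s.re ≤ 1 / 2 + η2} ∧
      (∀ s : ℂ, 1 / 2 ≤ s.re → s.re ≤ 1 / 2 + η2 → 0 ≤ (W s).re) ∧
      (∀ s : ℂ, s.re = 1 / 2 → U ≤ |s.im - y0| → 1 - 1 / Real.pi * (Real.sin (Real.pi / (η2 + 2 * τ) * τ) /
        (Real.cos (Real.pi / (η2 + 2 * τ) * τ) - Real.exp (-(Real.pi / (η2 + 2 * τ) * (U - U'))))) ≤ (W s).re) ∧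
      (∀ η1 : ℝ, 0 < η1 → η1 < η2 → (W (((1 / 2 + η1 : ℝ) : ℂ) + y0 * Complex.I)).re ≤
        2 / Real.pi * (Real.sin (Real.pi / (η2 + 2 * τ) * (η1 + τ)) /
          (Real.exp (Real.pi / (η2 + 2 * τ) * U') - Real.cos (Real.pi / (η2 + 2 * τ) * (η1 + τ))))) := by
  have hπ := Real.pi_pos
  set a := η2 + 2 * τ with ha
  have ha0 : 0 < a := by rw [ha]; linarith
  set q := Real.pi / a with hq
  have hq0 : 0 < q := by positivity
  have hqa : q * a = Real.pi := by rw [hq]; field_simp
  set c := Real.exp (q * U') with hc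
  have hc1 : 1 < c := by
    rw [hc, Real.one_lt_exp_iff]
    positivity
  -- the two functions
  set wp : ℂ → ℂ := fun s => Complex.exp (-(Complex.I * (Real.pi / a) * (s - 1 / 2 - y0 * Complex.I + τ))) - c with hwp
  set wm : ℂ → ℂ := fun s => Complex.exp (Complex.I * (Real.pi / a) * (s - 1 / 2 - y0 * Complex.I + τ)) - c with hwm
  have hz : ∀ s : ℂ, s - 1 / 2 - y0 * Complex.I + τ = ((s.re - 1 / 2 + τ : ℝ) : ℂ) + ((s.im - y0 : ℝ) : ℂ) * Complex.I := by
    intro s
    apply Complex.ext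
    · simp
    · simp
  have hpf : ∀ s : ℂ, wp s = ((Real.exp (q * (s.im - y0)) * Real.cos (q * (s.re - 1 / 2 + τ)) - c : ℝ) : ℂ) +
      ((-(Real.exp (q * (s.im - y0)) * Real.sin (q * (s.re - 1 / 2 + τ))) : ℝ) : ℂ) * Complex.I := by
    intro s
    rw [hwp]
    simp only
    rw [hz, exp_form, ← hq]
    push_cast
    ring
  have hmf : ∀ s : ℂ, wm s = ((Real.exp (-(q * (s.im - y0))) * Real.cos (q * (s.re - 1 / 2 + τ)) - c : ℝ) : ℂ) +
      ((Real.exp (-(q * (s.im - y0))) * Real.sin (q * (s.re - 1 / 2 + τ)) : ℝ) : ℂ) * Complex.I := by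
    intro s
    rw [hwm]
    simp only
    rw [hz, exp_form', ← hq]
    push_cast
    ring
  have hpre : ∀ s : ℂ, (wp s).re = Real.exp (q * (s.im - y0)) * Real.cos (q * (s.re - 1 / 2 + τ)) - c := by
    intro s; rw [hpf, re_form]
  have hpim : ∀ s : ℂ, (wp s).im = -(Real.exp (q * (s.im - y0)) * Real.sin (q * (s.re - 1 / 2 + τ))) := by
    intro s; rw [hpf, im_form]
  have hmre : ∀ s : ℂ, (wm s).re = Real.exp (-(q * (s.im - y0))) * Real.cos (q * (s.re - 1 / 2 + τ)) - c := by
    intro s; rw [hmf, re_form]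
  have hmim : ∀ s : ℂ, (wm s).im = Real.exp (-(q * (s.im - y0))) * Real.sin (q * (s.re - 1 / 2 + τ)) := by
    intro s; rw [hmf, im_form]
  have hsin : ∀ s : ℂ, 1 / 2 ≤ s.re → s.re ≤ 1 / 2 + η2 → 0 < Real.sin (q * (s.re - 1 / 2 + τ)) := by
    intro s h1 h2
    apply Real.sin_pos_of_pos_of_lt_pi
    · have : 0 < s.re - 1 / 2 + τ := by linarith
      positivity
    · rw [← hqa]
      apply mul_lt_mul_of_pos_left _ hq0
      rw [ha]; linarith
  have hpneg : ∀ s : ℂ, 1 / 2 ≤ s.re → s.re ≤ 1 / 2 + η2 → (wp s).im < 0 := by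
    intro s h1 h2
    rw [hpim]
    have := hsin s h1 h2
    have : 0 < Real.exp (q * (s.im - y0)) * Real.sin (q * (s.re - 1 / 2 + τ)) := by positivity
    linarith
  have hmpos : ∀ s : ℂ, 1 / 2 ≤ s.re → s.re ≤ 1 / 2 + η2 → 0 < (wm s).im := by
    intro s h1 h2
    rw [hmim]
    have := hsin s h1 h2
    positivity
  set W : ℂ → ℂ := fun s => 2 - (Complex.I / Real.pi) * Complex.log (wp s) + (Complex.I / Real.pi) * Complex.log (wm s) with hW
  have hWre : ∀ s : ℂ, (W s).re = 2 + 1 / Real.pi * Complex.arg (wp s) - 1 / Real.pi * Complex.arg (wm s) := by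
    intro s
    rw [hW]
    simp only
    have e1 : ∀ w : ℂ, ((Complex.I / Real.pi) * w).re = -(1 / Real.pi * w.im) := by
      intro w
      have : Complex.I / Real.pi * w = ((1 / Real.pi : ℝ) : ℂ) * (Complex.I * w) := by push_cast; ring
      rw [this, Complex.re_ofReal_mul]
      simp
    rw [Complex.add_re, Complex.sub_re, e1, e1, Complex.log_im, Complex.log_im]
    simp
    ring
  refine ⟨W, ?_, ?_, ?_, ?_⟩
  · intro s hs
    obtain ⟨h1, h2⟩ := hs
    apply DifferentiableAt.differentiableWithinAt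
    have hp1 : wp s ∈ Complex.slitPlane := Or.inr (hpneg s h1 h2).ne
    have hm1 : wm s ∈ Complex.slitPlane := Or.inr (hmpos s h1 h2).ne'
    have hpd : DifferentiableAt ℂ wp s := by rw [hwp]; fun_prop
    have hmd : DifferentiableAt ℂ wm s := by rw [hwm]; fun_prop
    have h3 : DifferentiableAt ℂ (fun s => Complex.log (wp s)) s := hpd.clog hp1
    have h4 : DifferentiableAt ℂ (fun s => Complex.log (wm s)) s := hmd.clog hm1
    exact ((h3.const_mul _).const_sub _).add (h4.const_mul _)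
  · intro s h1 h2
    rw [hWre]
    have h3 := Complex.neg_pi_lt_arg (wp s)
    have h4 := Complex.arg_le_pi (wm s)
    have h5 : 1 / Real.pi * (-Real.pi) ≤ 1 / Real.pi * Complex.arg (wp s) := by gcongr
    have h6 : 1 / Real.pi * Complex.arg (wm s) ≤ 1 / Real.pi * Real.pi := by gcongr
    have e1 : 1 / Real.pi * (-Real.pi) = -1 := by field_simp
    have e2 : 1 / Real.pi * Real.pi = 1 := by field_simp
    linarith
  · intro s h1 h2
    have h1' : 1 / 2 ≤ s.re := by rw [h1]
    have h1'' : s.re ≤ 1 / 2 + η2 := by rw [h1]; linarith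
    have ex : s.re - 1 / 2 + τ = τ := by rw [h1]; ring
    have hs0 := hsin s h1' h1''
    rw [ex] at hs0
    rw [hWre]
    have key : ∀ y : ℝ, U ≤ y → 0 < Real.exp (q * y) * Real.cos (q * τ) - c ∧
        Real.exp (q * y) * Real.sin (q * τ) / (Real.exp (q * y) * Real.cos (q * τ) - c) ≤
        Real.sin (q * τ) / (Real.cos (q * τ) - Real.exp (-(q * (U - U')))) := by
      intro y hy
      have e1 : c ≤ Real.exp (q * y) * Real.exp (-(q * (U - U'))) := by
        rw [hc, ← Real.exp_add]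
        apply Real.exp_le_exp.2
        have : q * U ≤ q * y := by gcongr
        linarith
      have e2 : Real.exp (q * y) * (Real.cos (q * τ) - Real.exp (-(q * (U - U')))) ≤
          Real.exp (q * y) * Real.cos (q * τ) - c := by
        rw [mul_sub]; linarith
      have e3 : 0 < Real.exp (q * y) * (Real.cos (q * τ) - Real.exp (-(q * (U - U')))) := by positivity
      refine ⟨by linarith, ?_⟩
      rw [div_le_div_iff₀ (by linarith) hpos]
      calc Real.exp (q * y) * Real.sin (q * τ) * (Real.cos (q * τ) - Real.exp (-(q * (U - U'))))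
          = Real.sin (q * τ) * (Real.exp (q * y) * (Real.cos (q * τ) - Real.exp (-(q * (U - U'))))) := by ring
        _ ≤ Real.sin (q * τ) * (Real.exp (q * y) * Real.cos (q * τ) - c) := by gcongr
    have h3 := Complex.neg_pi_lt_arg (wp s)
    have h4 := Complex.arg_le_pi (wm s)
    have e1 : 1 / Real.pi * (-Real.pi) = -1 := by field_simp
    have e2 : 1 / Real.pi * Real.pi = 1 := by field_simp
    rcases le_or_gt 0 (s.im - y0) with hy | hy
    · rw [abs_of_nonneg hy] at h2
      obtain ⟨k1, k2⟩ := key _ h2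
      have h5 := arg_le (x := wp s) (by rw [hpre, ex]; exact k1)
      rw [hpre, hpim, ex, abs_neg, abs_of_pos (by positivity : 0 < Real.exp (q * (s.im - y0)) * Real.sin (q * τ))] at h5
      have h6 := (abs_le.1 (h5.trans k2)).1
      have h7 : 1 / Real.pi * (-(Real.sin (q * τ) / (Real.cos (q * τ) - Real.exp (-(q * (U - U')))))) ≤
          1 / Real.pi * Complex.arg (wp s) := by gcongr
      have h8 : 1 / Real.pi * Complex.arg (wm s) ≤ 1 / Real.pi * Real.pi := by gcongr
      rw [mul_neg] at h7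
      linarith
    · rw [abs_of_neg hy] at h2
      obtain ⟨k1, k2⟩ := key _ h2
      have e3 : q * (-(s.im - y0)) = -(q * (s.im - y0)) := by ring
      rw [e3] at k1 k2
      have h5 := arg_le (x := wm s) (by rw [hmre, ex]; exact k1)
      rw [hmre, hmim, ex, abs_of_pos (by positivity : 0 < Real.exp (-(q * (s.im - y0))) * Real.sin (q * τ))] at h5
      have h6 := (abs_le.1 (h5.trans k2)).2
      have h7 : 1 / Real.pi * Complex.arg (wm s) ≤
          1 / Real.pi * (Real.sin (q * τ) / (Real.cos (q * τ) - Real.exp (-(q * (U - U'))))) := by gcongr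
      have h8 : 1 / Real.pi * (-Real.pi) ≤ 1 / Real.pi * Complex.arg (wp s) := by gcongr
      linarith
  · intro η1 hη0 hη1
    set s : ℂ := ((1 / 2 + η1 : ℝ) : ℂ) + y0 * Complex.I with hs
    have er : s.re = 1 / 2 + η1 := by rw [hs]; simp
    have ei : s.im = y0 := by rw [hs]; simp
    have ex : s.re - 1 / 2 + τ = η1 + τ := by rw [er]; ring
    have h1' : 1 / 2 ≤ s.re := by rw [er]; linarith
    have h1'' : s.re ≤ 1 / 2 + η2 := by rw [er]; linarith
    have hp0 := hpneg s h1' h1''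
    have hm0 := hmpos s h1' h1''
    have hcos : Real.cos (q * (η1 + τ)) ≤ 1 := Real.cos_le_one _
    have hs0 := hsin s h1' h1''
    rw [ex] at hs0
    have e0 : q * (s.im - y0) = 0 := by rw [ei]; ring
    have hp1 : (wp s).re = Real.cos (q * (η1 + τ)) - c := by rw [hpre, ex, e0, Real.exp_zero, one_mul]
    have hp2 : (wp s).im = -Real.sin (q * (η1 + τ)) := by rw [hpim, ex, e0, Real.exp_zero, one_mul]
    have hm1 : (wm s).re = Real.cos (q * (η1 + τ)) - c := by rw [hmre, ex, e0, neg_zero, Real.exp_zero, one_mul]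
    have hm2 : (wm s).im = Real.sin (q * (η1 + τ)) := by rw [hmim, ex, e0, neg_zero, Real.exp_zero, one_mul]
    have a1 : Complex.arg (-(wp s)) = Complex.arg (wp s) + Real.pi := Complex.arg_neg_eq_arg_add_pi_of_im_neg hp0
    have a2 : Complex.arg (-(wm s)) = Complex.arg (wm s) - Real.pi := Complex.arg_neg_eq_arg_sub_pi_of_im_pos hm0
    have np1 : (-(wp s)).re = c - Real.cos (q * (η1 + τ)) := by rw [Complex.neg_re, hp1]; ring
    have np2 : (-(wp s)).im = Real.sin (q * (η1 + τ)) := by rw [Complex.neg_im, hp2]; ring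
    have nm1 : (-(wm s)).re = c - Real.cos (q * (η1 + τ)) := by rw [Complex.neg_re, hm1]; ring
    have nm2 : (-(wm s)).im = -Real.sin (q * (η1 + τ)) := by rw [Complex.neg_im, hm2]
    have b1 := arg_le (x := -(wp s)) (by rw [np1]; linarith)
    have b2 := arg_le (x := -(wm s)) (by rw [nm1]; linarith)
    rw [np1, np2, abs_of_pos hs0] at b1
    rw [nm1, nm2, abs_neg, abs_of_pos hs0] at b2
    have b3 := (abs_le.1 b1).2
    have b4 := (abs_le.1 b2).1
    rw [a1] at b3
    rw [a2] at b4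
    rw [hWre]
    have h7 : 1 / Real.pi * (Complex.arg (wp s) + Real.pi) ≤ 1 / Real.pi *
        (Real.sin (q * (η1 + τ)) / (c - Real.cos (q * (η1 + τ)))) := by gcongr
    have h8 : 1 / Real.pi * (-(Real.sin (q * (η1 + τ)) / (c - Real.cos (q * (η1 + τ))))) ≤
        1 / Real.pi * (Complex.arg (wm s) - Real.pi) := by gcongr
    have e2 : 1 / Real.pi * Real.pi = 1 := by field_simp
    rw [mul_add, e2] at h7
    rw [mul_sub, e2, mul_neg] at h8
    have e3 : 2 / Real.pi * (Real.sin (q * (η1 + τ)) / (c - Real.cos (q * (η1 + τ)))) =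
        2 * (1 / Real.pi * (Real.sin (q * (η1 + τ)) / (c - Real.cos (q * (η1 + τ))))) := by ring
    rw [e3]
    linarith

end Pool.Agent.Helper156_SM
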