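import Pool.Agent.Helper156_SM.CoreN
import Pool.Agent.Helper156_SM.Gen
import Pool.Agent.Helper156_SM.Strip
import Pool.Agent.Helper156_SM.LineP

set_option autoImplicit false

/-!
# The maximum principle with a small exceptional set and a sharp bound for the far part
-/

open MeasureTheory Set Filter

namespace Pool.Agent.Helper156_SM

open Pool.Agent.Helper156_EK
open Pool.Agent.W188.QS Pool.Agent.W188.GP

theorem core_maxF {K F : ℂ → ℂ} {T y0 η1 η2 b κ p1 p2 q A Y m : ℝ} (hT : 1 ≤ T)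
    (hη1 : 0 < η1) (hη12 : η1 < η2) (hY0 : 0 < Y) (hb : 0 ≤ b) (hp : p1 ≤ p2)
    (hK : DifferentiableOn ℂ K (Icc (1 / 2) (1 / 2 + η2) ×ℂ Icc (y0 - Y) (y0 + Y)))
    (hF : DifferentiableOn ℂ F {s : ℂ | 1 / 2 ≤ s.re ∧ s.re ≤ 1 / 2 + η2})
    (hF0 : ∀ s : ℂ, 1 / 2 ≤ s.re → s.re ≤ 1 / 2 + η2 → 0 ≤ (F s).re)
    (hleft : ∀ s : ℂ, s.re = 1 / 2 → |s.im - y0| ≤ Y → ‖K s‖ ≤ 2 * T ^ p1 ∨ (‖K s‖ ≤ T ^ p2 ∧ 1 ≤ (F s).re))
    (hright : ∀ s : ℂ, s.re = 1 / 2 + η2 → |s.im - y0| ≤ Y → ‖K s‖ ≤ T ^ q)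
    (htop : ∀ s : ℂ, 1 / 2 ≤ s.re → s.re ≤ 1 / 2 + η2 → |s.im - y0| = Y → ‖K s‖ ≤ T ^ A)
    (h1 : 2 * T ^ p1 ≤ T ^ m) (h3 : q + b * η2 ^ 2 - κ * η2 ≤ m)
    (h4 : A + b * η2 ^ 2 + |κ| * η2 - b * Y ^ 2 ≤ m) :
    ‖K (((1 / 2 + η1 : ℝ) : ℂ) + y0 * Complex.I)‖ ≤
      T ^ (m - b * η1 ^ 2 + κ * η1 + (p2 - p1) * (F (((1 / 2 + η1 : ℝ) : ℂ) + y0 * Complex.I)).re) := by
  have hT0 : 0 < T := by linarith
  set L := Real.log T with hL
  set H : ℂ → ℂ := fun s => K s * Complex.exp ((L : ℂ) * (b * (s - 1 / 2 - y0 * Complex.I) ^ 2 -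
    κ * (s - 1 / 2 - y0 * Complex.I) - ((p2 - p1 : ℝ) : ℂ) * F s)) with hH
  have hHn : ∀ s : ℂ, ‖H s‖ = ‖K s‖ * T ^ (b * ((s.re - 1 / 2) ^ 2 - (s.im - y0) ^ 2) - κ * (s.re - 1 / 2) -
      (p2 - p1) * (F s).re) := by
    intro s
    rw [hH]
    simp only
    rw [norm_mul, Complex.norm_exp, Real.rpow_def_of_pos hT0]
    congr 2
    rw [Complex.re_ofReal_mul]
    congr 1
    rw [Complex.sub_re, Complex.re_ofReal_mul, sq]
    simp only [Complex.sub_re, Complex.mul_re, Complex.mul_im, Complex.sub_im, Complex.ofReal_re,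
      Complex.ofReal_im, Complex.one_re, Complex.one_im, Complex.re_ofNat, Complex.im_ofNat, Complex.div_ofNat_re,
      Complex.div_ofNat_im, Complex.I_re, Complex.I_im]
    ring
  have main : ‖H (((1 / 2 + η1 : ℝ) : ℂ) + y0 * Complex.I)‖ ≤ T ^ m := by
    apply rect_max (a := 1 / 2) (c := 1 / 2 + η2) (y1 := y0 - Y) (y2 := y0 + Y) (by linarith) (by linarith)
    · apply hK.mul
      apply DifferentiableOn.cexp
      apply DifferentiableOn.const_mul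
      apply DifferentiableOn.sub
      · apply Differentiable.differentiableOn
        fun_prop
      · apply DifferentiableOn.const_mul
        apply hF.mono
        intro z hz1
        have h6 := hz1.1
        change z.re ∈ Icc _ _ at h6
        exact h6
    · -- left side
      intro z hz1 hz2
      have hz3 : |z.im - y0| ≤ Y := abs_le.2 ⟨by linarith [hz2.1], by linarith [hz2.2]⟩
      rw [hHn, hz1]
      have r0 : b * ((1 / 2 - 1 / 2 : ℝ) ^ 2 - (z.im - y0) ^ 2) - κ * (1 / 2 - 1 / 2) - (p2 - p1) * (F z).re =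
          -(b * (z.im - y0) ^ 2) - (p2 - p1) * (F z).re := by ring
      rw [r0]
      have hf0z := hF0 z (by rw [hz1]) (by rw [hz1]; linarith)
      have hbz : 0 ≤ b * (z.im - y0) ^ 2 := by positivity
      have hpf : 0 ≤ (p2 - p1) * (F z).re := mul_nonneg (by linarith) hf0z
      rcases hleft z hz1 hz3 with h5 | ⟨h5, h6⟩
      · calc ‖K z‖ * T ^ (-(b * (z.im - y0) ^ 2) - (p2 - p1) * (F z).re) ≤ (2 * T ^ p1) * 1 := by
              gcongr
              apply Real.rpow_le_one_of_one_le_of_nonpos hT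
              linarith
          _ = 2 * T ^ p1 := mul_one _
          _ ≤ T ^ m := h1
      · have h7 : (p2 - p1) * 1 ≤ (p2 - p1) * (F z).re := mul_le_mul_of_nonneg_left h6 (by linarith)
        calc ‖K z‖ * T ^ (-(b * (z.im - y0) ^ 2) - (p2 - p1) * (F z).re) ≤ T ^ p2 * T ^ (-(p2 - p1)) := by
              gcongr
              linarith
          _ = T ^ p1 := by rw [← Real.rpow_add hT0]; congr 1; ring
          _ ≤ 2 * T ^ p1 := by linarith [Real.rpow_pos_of_pos hT0 p1]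
          _ ≤ T ^ m := h1
    · -- right side
      intro z hz1 hz2
      have hz3 : |z.im - y0| ≤ Y := abs_le.2 ⟨by linarith [hz2.1], by linarith [hz2.2]⟩
      rw [hHn, hz1]
      have h5 := hright z hz1 hz3
      have hf0z := hF0 z (by rw [hz1]; linarith) (by rw [hz1])
      have hbz : 0 ≤ b * (z.im - y0) ^ 2 := by positivity
      have hpf : 0 ≤ (p2 - p1) * (F z).re := mul_nonneg (by linarith) hf0z
      have r0 : b * ((1 / 2 + η2 - 1 / 2 : ℝ) ^ 2 - (z.im - y0) ^ 2) - κ * (1 / 2 + η2 - 1 / 2) - (p2 - p1) * (F z).re ≤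
          b * η2 ^ 2 - κ * η2 := by
        have e : b * ((1 / 2 + η2 - 1 / 2 : ℝ) ^ 2 - (z.im - y0) ^ 2) - κ * (1 / 2 + η2 - 1 / 2) =
          b * η2 ^ 2 - κ * η2 - b * (z.im - y0) ^ 2 := by ring
        linarith
      calc ‖K z‖ * T ^ (b * ((1 / 2 + η2 - 1 / 2 : ℝ) ^ 2 - (z.im - y0) ^ 2) - κ * (1 / 2 + η2 - 1 / 2) -
            (p2 - p1) * (F z).re) ≤ T ^ q * T ^ (b * η2 ^ 2 - κ * η2) := by
            gcongr
        _ = T ^ (q + b * η2 ^ 2 - κ * η2) := by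
            rw [← Real.rpow_add hT0]; congr 1; ring
        _ ≤ T ^ m := Real.rpow_le_rpow_of_exponent_le hT h3
    case hz =>
      have e : (((1 / 2 + η1 : ℝ) : ℂ) + y0 * Complex.I).re = 1 / 2 + η1 := by simp
      rw [e]
      exact ⟨by linarith, by linarith⟩
    case hz' =>
      have e : (((1 / 2 + η1 : ℝ) : ℂ) + y0 * Complex.I).im = y0 := by simp
      rw [e]
      exact ⟨by linarith, by linarith⟩
    all_goals
      intro z hz1 hz2
      have hz3 : |z.im - y0| = Y := by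
        rw [hz2]
        first
          | rw [show y0 + Y - y0 = Y by ring, abs_of_pos hY0]
          | rw [show y0 - Y - y0 = -Y by ring, abs_neg, abs_of_pos hY0]
      have hz4 : (z.im - y0) ^ 2 = Y ^ 2 := by rw [← sq_abs, hz3]
      have h5 := htop z hz1.1 hz1.2 hz3
      have hf0z := hF0 z hz1.1 hz1.2
      have hpf : 0 ≤ (p2 - p1) * (F z).re := mul_nonneg (by linarith) hf0z
      rw [hHn, hz4]
      have a1 : 0 ≤ z.re - 1 / 2 := by linarith [hz1.1]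
      have a2 : z.re - 1 / 2 ≤ η2 := by linarith [hz1.2]
      have a3 : (z.re - 1 / 2) ^ 2 ≤ η2 ^ 2 := pow_le_pow_left₀ a1 a2 2
      have a4 : -(κ * (z.re - 1 / 2)) ≤ |κ| * η2 := by
        have b1 := neg_abs_le κ
        have b2 : -(κ * (z.re - 1 / 2)) ≤ |κ| * (z.re - 1 / 2) := by nlinarith
        have b3 : |κ| * (z.re - 1 / 2) ≤ |κ| * η2 := mul_le_mul_of_nonneg_left a2 (abs_nonneg _)
        linarith
      have a5 : b * (z.re - 1 / 2) ^ 2 ≤ b * η2 ^ 2 := mul_le_mul_of_nonneg_left a3 hb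
      have r0 : b * ((z.re - 1 / 2) ^ 2 - Y ^ 2) - κ * (z.re - 1 / 2) - (p2 - p1) * (F z).re ≤
          b * η2 ^ 2 + |κ| * η2 - b * Y ^ 2 := by
        have e : b * ((z.re - 1 / 2) ^ 2 - Y ^ 2) = b * (z.re - 1 / 2) ^ 2 - b * Y ^ 2 := by ring
        linarith
      calc ‖K z‖ * T ^ (b * ((z.re - 1 / 2) ^ 2 - Y ^ 2) - κ * (z.re - 1 / 2) - (p2 - p1) * (F z).re)
          ≤ T ^ A * T ^ (b * η2 ^ 2 + |κ| * η2 - b * Y ^ 2) := by
            gcongr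
        _ = T ^ (A + b * η2 ^ 2 + |κ| * η2 - b * Y ^ 2) := by rw [← Real.rpow_add hT0]; congr 1; ring
        _ ≤ T ^ m := Real.rpow_le_rpow_of_exponent_le hT h4
  rw [hHn] at main
  set s0 : ℂ := ((1 / 2 + η1 : ℝ) : ℂ) + y0 * Complex.I with hs0
  have e1 : s0.re = 1 / 2 + η1 := by rw [hs0]; simp
  have e2 : s0.im = y0 := by rw [hs0]; simp
  rw [e1, e2] at main
  set X := b * ((1 / 2 + η1 - 1 / 2) ^ 2 - (y0 - y0) ^ 2) - κ * (1 / 2 + η1 - 1 / 2) - (p2 - p1) * (F s0).re with hX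
  have h6 : ‖K s0‖ = ‖K s0‖ * T ^ X * T ^ (-X) := by
    rw [mul_assoc, ← Real.rpow_add hT0, add_neg_cancel, Real.rpow_zero, mul_one]
  rw [h6]
  calc ‖K s0‖ * T ^ X * T ^ (-X) ≤ T ^ m * T ^ (-X) := by gcongr
    _ = T ^ (m + -X) := by rw [← Real.rpow_add hT0]
    _ = _ := by
      congr 1
      rw [hX]; ring

theorem core_max2 {K W : ℂ → ℂ} {T y0 U η1 η2 b κ p1 p2 q A Y ε0 m χ ω : ℝ} (hT : 1 ≤ T)
    (hη1 : 0 < η1) (hη12 : η1 < η2) (hU : 0 < U) (hUY : U < Y) (hb : 0 ≤ b) (hp : p1 ≤ p2) (hε0 : 0 < ε0)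
    (hK : DifferentiableOn ℂ K (Icc (1 / 2) (1 / 2 + η2) ×ℂ Icc (y0 - Y) (y0 + Y)))
    (hnear : volume {y | y ∈ Icc (y0 - U) (y0 + U) ∧ T ^ p1 < ‖K (1 / 2 + y * Complex.I)‖} ≤ ENNReal.ofReal ε0)
    (hline : ∀ s : ℂ, s.re = 1 / 2 → |s.im - y0| ≤ Y → ‖K s‖ ≤ T ^ p2)
    (hright : ∀ s : ℂ, s.re = 1 / 2 + η2 → |s.im - y0| ≤ Y → ‖K s‖ ≤ T ^ q)
    (htop : ∀ s : ℂ, 1 / 2 ≤ s.re → s.re ≤ 1 / 2 + η2 → |s.im - y0| = Y → ‖K s‖ ≤ T ^ A)
    (hW : DifferentiableOn ℂ W {s : ℂ | 1 / 2 ≤ s.re ∧ s.re ≤ 1 / 2 + η2})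
    (hW0 : ∀ s : ℂ, 1 / 2 ≤ s.re → s.re ≤ 1 / 2 + η2 → 0 ≤ (W s).re) (hχ : 0 < χ)
    (hWfar : ∀ s : ℂ, s.re = 1 / 2 → U ≤ |s.im - y0| → χ ≤ (W s).re)
    (hWs : (W (((1 / 2 + η1 : ℝ) : ℂ) + y0 * Complex.I)).re ≤ ω)
    (h1 : 2 * T ^ p1 ≤ T ^ m) (h3 : q + b * η2 ^ 2 - κ * η2 ≤ m)
    (h4 : A + b * η2 ^ 2 + |κ| * η2 - b * Y ^ 2 ≤ m) :
    ‖K (((1 / 2 + η1 : ℝ) : ℂ) + y0 * Complex.I)‖ ≤
      T ^ (m - b * η1 ^ 2 + κ * η1 + (p2 - p1) * (2 * ε0 / η1 + ω / χ)) := by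
  have hT0 : 0 < T := by linarith
  have hY0 : 0 < Y := by linarith
  have hKc := hK.continuousOn
  -- the exceptional set
  set B : Set ℝ := {y | y ∈ Icc (y0 - U) (y0 + U) ∧ 2 * T ^ p1 ≤ ‖K (1 / 2 + y * Complex.I)‖} with hB
  have hcont : ContinuousOn (fun y : ℝ => ‖K (1 / 2 + y * Complex.I)‖) (Icc (y0 - U) (y0 + U)) := by
    apply ContinuousOn.norm
    apply hKc.comp (by fun_prop : ContinuousOn (fun y : ℝ => (1 / 2 + y * Complex.I : ℂ)) (Icc (y0 - U) (y0 + U)))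
    intro y hy
    refine ⟨?_, ?_⟩
    · change (1 / 2 + (y : ℂ) * Complex.I).re ∈ Icc (1 / 2 : ℝ) (1 / 2 + η2)
      have e : (1 / 2 + (y : ℂ) * Complex.I).re = 1 / 2 := by simp
      rw [e]
      exact ⟨le_rfl, by linarith⟩
    · change (1 / 2 + (y : ℂ) * Complex.I).im ∈ Icc (y0 - Y) (y0 + Y)
      have e : (1 / 2 + (y : ℂ) * Complex.I).im = y := by simp
      rw [e]
      exact ⟨by linarith [hy.1], by linarith [hy.2]⟩
  have hBcl : IsClosed B := by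
    have := hcont.preimage_isClosed_of_isClosed isClosed_Icc (isClosed_Ici (a := 2 * T ^ p1))
    exact this
  have hBc : IsCompact B := isCompact_Icc.of_isClosed_subset hBcl (fun y hy => hy.1)
  have hBv : volume B ≤ ENNReal.ofReal ε0 := by
    refine le_trans (measure_mono ?_) hnear
    intro y hy
    refine ⟨hy.1, ?_⟩
    have h5 : 0 < T ^ p1 := by positivity
    linarith [hy.2]
  have hBr : (volume B).toReal ≤ ε0 := ENNReal.toReal_le_of_le_ofReal hε0.le hBv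
  obtain ⟨f, hfd, hf0, hfB, hfle⟩ := harm hBc hε0
  have hχ1 : 0 ≤ 1 / χ := by positivity
  have hmain := core_maxF (K := K) (F := fun s => f s + ((1 / χ : ℝ) : ℂ) * W s) (T := T) (y0 := y0) (η1 := η1) (η2 := η2)
    (b := b) (κ := κ) (p1 := p1) (p2 := p2) (q := q) (A := A) (Y := Y) (m := m) hT hη1 hη12 hY0 hb hp hK ?_ ?_ ?_ hright
    htop h1 h3 h4
  · refine hmain.trans ?_
    apply Real.rpow_le_rpow_of_exponent_le hT
    set s0 : ℂ := ((1 / 2 + η1 : ℝ) : ℂ) + y0 * Complex.I with hs0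
    have e1 : s0.re = 1 / 2 + η1 := by rw [hs0]; simp
    have hfs := hfle s0 (by rw [e1]; linarith)
    rw [e1] at hfs
    have hfs2 : (f s0).re ≤ 2 * ε0 / η1 := by
      refine hfs.trans ?_
      rw [show 1 / 2 + η1 - 1 / 2 = η1 by ring]
      gcongr
      linarith
    have e2 : (f s0 + ((1 / χ : ℝ) : ℂ) * W s0).re = (f s0).re + 1 / χ * (W s0).re := by
      rw [Complex.add_re, Complex.re_ofReal_mul]
    rw [e2]
    have h5 : 1 / χ * (W s0).re ≤ ω / χ := by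
      rw [div_mul_eq_mul_div, one_mul]
      gcongr
    have h6 : (p2 - p1) * ((f s0).re + 1 / χ * (W s0).re) ≤ (p2 - p1) * (2 * ε0 / η1 + ω / χ) :=
      mul_le_mul_of_nonneg_left (by linarith) (by linarith)
    linarith
  · apply DifferentiableOn.add
    · apply hfd.mono
      intro z hz
      exact hz.1
    · exact hW.const_mul _
  · intro s hs1 hs2
    rw [Complex.add_re, Complex.re_ofReal_mul]
    have := hf0 s hs1
    have := hW0 s hs1 hs2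
    positivity
  · intro z hz1 hz3
    rw [Complex.add_re, Complex.re_ofReal_mul]
    have hf0z := hf0 z (by rw [hz1])
    have hW0z := hW0 z (by rw [hz1]) (by rw [hz1]; linarith)
    have hz4 : z = 1 / 2 + (z.im : ℂ) * Complex.I := by
      apply Complex.ext
      · simp [hz1]
      · simp
    rcases le_or_gt |z.im - y0| U with hu | hu
    · have hzI : z.im ∈ Icc (y0 - U) (y0 + U) := by
        have := abs_le.1 hu
        exact ⟨by linarith, by linarith⟩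
      by_cases hzB : z.im ∈ B
      · right
        refine ⟨hline z hz1 hz3, ?_⟩
        have h6 := hfB z hz1 hzB
        have : 0 ≤ 1 / χ * (W z).re := by positivity
        linarith
      · left
        by_contra h6
        push Not at h6
        apply hzB
        refine ⟨hzI, ?_⟩
        rw [← hz4]
        exact h6.le
    · right
      refine ⟨hline z hz1 hz3, ?_⟩
      have h6 := hWfar z hz1 hu.le
      have h7 : 1 ≤ 1 / χ * (W z).re := by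
        rw [div_mul_eq_mul_div, one_mul, le_div_iff₀ hχ]
        linarith
      linarith

/-- If the twisted moment is large at a point to the right, then it is large on a set of shifts. -/
theorem coreGS {k : ℕ} (R0 : ℝ) {ν e P θ η1 η2 τ U U' b g ε0 δ χ ω : ℝ} (hν : 0 < ν) (hν1 : ν < 1 / 2) (he : 0 < e)
    (he1 : e ≤ 1 / 4) (hP : 1 + e ≤ P) (hP1 : 1 + θ - ν / 2 + 2 * e ≤ P) (hη1 : e ≤ η1) (hη12 : η1 < η2)
    (hη2 : η2 ≤ 1 / 2) (hτ : 0 < τ) (hU : 0 < U) (hU' : 0 < U') (hb : 0 < b) (hε0 : 0 < ε0)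
    (hpos : 0 < Real.cos (Real.pi / (η2 + 2 * τ) * τ) - Real.exp (-(Real.pi / (η2 + 2 * τ) * (U - U'))))
    (hχ : 0 < χ) (hχ1 : χ ≤ 1 - 1 / Real.pi * (Real.sin (Real.pi / (η2 + 2 * τ) * τ) /
        (Real.cos (Real.pi / (η2 + 2 * τ) * τ) - Real.exp (-(Real.pi / (η2 + 2 * τ) * (U - U'))))))
    (hω : 2 / Real.pi * (Real.sin (Real.pi / (η2 + 2 * τ) * (η1 + τ)) /
          (Real.exp (Real.pi / (η2 + 2 * τ) * U') - Real.cos (Real.pi / (η2 + 2 * τ) * (η1 + τ)))) ≤ ω)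
    (hc' : P - 2 * (P - ν) * η2 + (3 + 2 * (P - ν)) * e < 1 - 2 * η2 * ν - e)
    (hg1 : δ + 3 * e + (P - (1 + θ - ν / 2 + 2 * e)) * (2 * ε0 / η1 + ω / χ) ≤ g * (η2 - η1))
    (hg2 : θ - ν / 2 + 4 * e + δ + (P - (1 + θ - ν / 2 + 2 * e)) * (2 * ε0 / η1 + ω / χ) ≤ -(b * η1 * η2) - g * η1) :
    ∀ᶠ T : ℝ in atTop, ∀ y0 : ℝ, |y0| ≤ R0 →
      (∀ s : ℂ, s.re = 1 / 2 → |s.im| ≤ T / 8 → ‖Kf k ν e T s‖ ≤ T ^ P) →
      T ^ (1 - 2 * η1 * ν - δ) ≤ ‖Kf k ν e T (((1 / 2 + η1 : ℝ) : ℂ) + y0 * Complex.I)‖ →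
      ENNReal.ofReal ε0 < volume {u | u ∈ Icc (y0 - U) (y0 + U) ∧
        T ^ (1 + θ - ν / 2 + 2 * e) < ‖Kf k ν e T (1 / 2 + u * Complex.I)‖} := by
  obtain ⟨A, hA, hcr⟩ := crude k (e := e) hν hν1
  set κ := b * (η1 + η2) + g - 2 * ν with hκ
  set ρ := (P - (1 + θ - ν / 2 + 2 * e)) * (2 * ε0 / η1 + ω / χ) with hρ
  set m := 1 - δ - e - b * η1 * η2 - g * η1 - ρ with hm
  -- the height
  set X := A + b * η2 ^ 2 + |κ| * η2 + |m| with hX
  have hX0 : 0 ≤ X := by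
    have h1 : 0 ≤ b * η2 ^ 2 := by positivity
    have h2 : 0 ≤ |κ| * η2 := mul_nonneg (abs_nonneg _) (by linarith)
    have h3 := abs_nonneg m
    linarith
  set Y := 1 + U + X / b with hY
  have hq0 : 0 ≤ X / b := by positivity
  have hY1 : 1 ≤ Y := by rw [hY]; linarith
  have hYU : U < Y := by rw [hY]; linarith
  have hbY : X ≤ b * Y ^ 2 := by
    have h1 : X / b ≤ Y := by rw [hY]; linarith
    rw [div_le_iff₀ hb] at h1
    have h2 : Y ≤ Y ^ 2 := by nlinarith [hY1]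
    have h3 : b * Y ≤ b * Y ^ 2 := mul_le_mul_of_nonneg_left h2 hb.le
    linarith
  have ev1 := ev_pow 2 (a := 1 + θ - ν / 2 + 2 * e) (b := m) (by rw [hm]; linarith)
  have ev5 := ev_pow 2 (a := 1 - 2 * η2 * ν + e) (b := 1 - 2 * η2 * ν + 2 * e) (by linarith)
  filter_upwards [hcr, rem_bound_g (k := k) hν hν1 he he1 hP, diag_upper k hν hν1 he, ev1, ev5,
    eventually_gt_atTop 1, eventually_ge_atTop (32 * (Y + |R0| + 1))] with T h1 h5 h6 e1 e5 hT hTY y0 hy0 hcl hlow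
  have hT0 : 0 < T := by linarith
  by_contra hcon
  push Not at hcon
  have hR0 := le_abs_self R0
  have hR0' := abs_nonneg R0
  have hTbig : Y + |R0| + 1 ≤ T / 32 := by linarith
  have him : ∀ z : ℂ, |z.im - y0| ≤ Y → |z.im| ≤ T / 32 := by
    intro z hz
    have h7 := abs_le.1 hz
    have h8 := abs_le.1 hy0
    rw [abs_le]
    constructor <;> linarith
  obtain ⟨W, hW1, hW2, hW3, hW4⟩ := farW y0 (by linarith : 0 < η2) hτ hU' hpos
  have h7 := core_max2 (K := Kf k ν e T) (W := W) (T := T) (y0 := y0) (U := U) (η1 := η1) (η2 := η2) (b := b) (κ := κ)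
    (p1 := 1 + θ - ν / 2 + 2 * e) (p2 := P) (q := 1 - 2 * η2 * ν + 2 * e) (A := A) (Y := Y)
    (ε0 := ε0) (m := m) (χ := χ) (ω := ω) hT.le (by linarith) hη12 hU hYU hb.le hP1 hε0 ?_ hcon ?_ ?_ ?_ hW1 hW2 hχ
    (fun s hs1 hs2 => hχ1.trans (hW3 s hs1 hs2)) ((hW4 η1 (by linarith) hη12).trans hω) e1 ?_ ?_
  · have h8 := hlow.trans h7
    rw [Real.rpow_le_rpow_left_iff hT, ← hρ] at h8
    have e3 : m - b * η1 ^ 2 + κ * η1 + ρ = 1 - 2 * η1 * ν - δ - e := by rw [hm, hκ]; ring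
    linarith
  · apply (Kf_diff k ν e hT0).mono
    intro z hz1
    change |z.im| < T
    have h8 := hz1.2
    change z.im ∈ Icc _ _ at h8
    have h9 := him z (abs_le.2 ⟨by linarith [h8.1], by linarith [h8.2]⟩)
    linarith
  · intro z hz1 hz2
    exact hcl z hz1 (by linarith [him z hz2])
  · intro z hz1 hz2
    have h8 := h5 hcl z (by rw [hz1]; linarith) (by rw [hz1]; linarith) (him z hz2)
    have h9 := h6 z (by rw [hz1]; linarith) (by rw [hz1]; linarith)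
    rw [hz1, show (1 / 2 + η2 : ℝ) - 1 / 2 = η2 by ring] at h8 h9
    have h10 : ‖Kf k ν e T z‖ ≤ ‖Kf k ν e T z - Sf k ν e T z‖ + ‖Sf k ν e T z‖ := by
      have := norm_add_le (Kf k ν e T z - Sf k ν e T z) (Sf k ν e T z)
      simpa using this
    have h11 : T ^ (P - 2 * (P - ν) * η2 + (3 + 2 * (P - ν)) * e) ≤
        T ^ (1 - 2 * η2 * ν + e) := Real.rpow_le_rpow_of_exponent_le hT.le (by linarith)
    linarith
  · intro z hz1 hz2 hz3
    exact h1 z (by linarith) (by linarith) (by linarith [him z hz3.le])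
  · rw [hm, hκ]; nlinarith
  · have := neg_abs_le m
    linarith

/-- Shifts in an interval: the local statement with all the parameters. -/
theorem coreIS {k : ℕ} (hk : 1 ≤ k) (u0 : ℝ) {η1 lam δ : ℝ} (hη0 : 0 < η1) (hlam : 0 < lam) (hδ : 0 < δ) :
    ∃ e0 : ℝ, 0 < e0 ∧ ∀ ν e P θ η2 τ U U' b g ε0 χ ω : ℝ, 0 < ν → ν < 1 / 2 → 0 < e → e ≤ 1 / 4 → e ≤ e0 →
    0 ≤ θ → 1 + e ≤ P → 1 + θ - ν / 2 + 2 * e ≤ P → e ≤ η1 → η1 < η2 → η2 ≤ 1 / 2 → 0 < τ → 0 < U → 0 < U' → 0 < b →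
    0 < ε0 →
    0 < Real.cos (Real.pi / (η2 + 2 * τ) * τ) - Real.exp (-(Real.pi / (η2 + 2 * τ) * (U - U'))) →
    0 < χ → χ ≤ 1 - 1 / Real.pi * (Real.sin (Real.pi / (η2 + 2 * τ) * τ) /
        (Real.cos (Real.pi / (η2 + 2 * τ) * τ) - Real.exp (-(Real.pi / (η2 + 2 * τ) * (U - U'))))) →
    2 / Real.pi * (Real.sin (Real.pi / (η2 + 2 * τ) * (η1 + τ)) /
          (Real.exp (Real.pi / (η2 + 2 * τ) * U') - Real.cos (Real.pi / (η2 + 2 * τ) * (η1 + τ)))) ≤ ω →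
    P - 2 * (P - ν) * η1 + (3 + 2 * (P - ν)) * e < 1 - 2 * η1 * ν - δ - e →
    P - 2 * (P - ν) * η2 + (3 + 2 * (P - ν)) * e < 1 - 2 * η2 * ν - e →
    δ + 4 * e + (P - (1 + θ - ν / 2 + 2 * e)) * (2 * ε0 / η1 + ω / χ) ≤ g * (η2 - η1) →
    θ - ν / 2 + 5 * e + δ + (P - (1 + θ - ν / 2 + 2 * e)) * (2 * ε0 / η1 + ω / χ) ≤ -(b * η1 * η2) - g * η1 →
    ∀ᶠ T : ℝ in atTop, (∀ s : ℂ, s.re = 1 / 2 → |s.im| ≤ T / 8 → ‖Kf k ν e T s‖ ≤ T ^ P) →
      volume {u : ℝ | u ∈ Icc (u0 - (U + lam)) (u0 + (U + lam)) ∧ Close k (1 / 2 + u * Complex.I) T θ e} <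
        ENNReal.ofReal (2 * (U + lam) - ε0) := by
  obtain ⟨e0, he0, hdn⟩ := diag_near hk u0 hη0 hlam hδ
  refine ⟨e0, he0, fun ν e P θ η2 τ U U' b g ε0 χ ω hν hν1 he he1 hee0 hθ hP hP1 hη1 hη12 hη2 hτ hU hU' hb hε0 hpos hχ
    hχ1 hω hc hc' hg1 hg2 => ?_⟩
  have ev1 := ev_pow 2 (a := 1 - 2 * η1 * ν - δ - e) (b := 1 - 2 * η1 * ν - δ) (by linarith)
  filter_upwards [coreGS (k := k) (|u0| + lam) (P := P) (δ := δ + e) (θ := θ) (g := g) hν hν1 he he1 hP hP1 hη1 hη12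
      hη2 hτ hU hU' hb hε0 hpos hχ hχ1 hω hc' (by linarith) (by linarith), hdn ν e hν hν1 he hee0 hη1,
      rem_bound_g (k := k) hν hν1 he he1 hP, 
      near_bound (k := k) hν hν1 he hθ, ev1, eventually_gt_atTop 1, eventually_gt_atTop (32 * (|u0| + U + lam))]
    with T h1 h2 h3 h4 e1 hT1 hT hcl
  have hT0 : 0 < T := by linarith
  have hu00 := abs_nonneg u0
  obtain ⟨y0, hy0, hS⟩ := h2
  have hy0' := abs_le.1 hy0
  have hua := abs_le.1 (le_refl |u0|)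
  have hyabs : |y0| ≤ |u0| + lam := by
    rw [abs_le]; constructor <;> linarith
  set s0 : ℂ := ((1 / 2 + η1 : ℝ) : ℂ) + y0 * Complex.I with hs0
  have e2 : s0.re = 1 / 2 + η1 := by rw [hs0]; simp
  have e3 : s0.im = y0 := by rw [hs0]; simp
  have h5 := h3 hcl s0 (by rw [e2]; linarith) (by rw [e2]; linarith) (by rw [e3]; linarith)
  rw [e2, show (1 / 2 + η1 : ℝ) - 1 / 2 = η1 by ring] at h5
  have h6 : ‖Sf k ν e T s0‖ ≤ ‖Kf k ν e T s0 - Sf k ν e T s0‖ + ‖Kf k ν e T s0‖ := by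
    have := norm_sub_le (Kf k ν e T s0) (Kf k ν e T s0 - Sf k ν e T s0)
    rw [sub_sub_cancel] at this
    linarith
  have h7 : T ^ (P - 2 * (P - ν) * η1 + (3 + 2 * (P - ν)) * e) ≤
      T ^ (1 - 2 * η1 * ν - δ - e) := Real.rpow_le_rpow_of_exponent_le hT1.le hc.le
  have h8 : T ^ (1 - 2 * η1 * ν - (δ + e)) ≤ ‖Kf k ν e T s0‖ := by
    rw [show 1 - 2 * η1 * ν - (δ + e) = 1 - 2 * η1 * ν - δ - e by ring]
    linarith
  have h9 := h1 y0 hyabs hcl h8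
  have h10 : ENNReal.ofReal ε0 < volume {u | u ∈ Icc (u0 - (U + lam)) (u0 + (U + lam)) ∧
        T ^ (1 + θ - ν / 2 + 2 * e) < ‖Kf k ν e T (1 / 2 + u * Complex.I)‖} := by
    refine lt_of_lt_of_le h9 (measure_mono ?_)
    intro u hu
    refine ⟨⟨by linarith [hu.1.1], by linarith [hu.1.2]⟩, hu.2⟩
  have h5 := meas_le (P := fun u => Close k (1 / 2 + u * Complex.I) T θ e)
    (by linarith : u0 - (U + lam) ≤ u0 + (U + lam)) hε0
    (Kf_cont (k := k) (ν := ν) (e := e) hT0 (by linarith : -T < u0 - (U + lam)) (by linarith : u0 + (U + lam) < T)) ?_ h10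
  · convert h5 using 2
    ring
  · intro u hu hcu
    refine h4 _ ?_ hcu
    have e1 : (1 / 2 + (u : ℂ) * Complex.I).im = u := by simp
    rw [e1, abs_le]
    exact ⟨by linarith [hu.1], by linarith [hu.2]⟩

end Pool.Agent.Helper156_SM
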