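import Mathlib

set_option autoImplicit false

/-!
# Shifted moments of the zeta function and their error terms
-/

open MeasureTheory Set Filter

namespace Pool.Agent.Helper156_SM

/-- The shifted moment of order `2 k`: the integral over `[0, T]` of
`ζ (1/2 + i (t + u)) ^ k * conj (ζ (1/2 + i (t - u))) ^ k`.
For `u = 0` it is the integral of `|ζ (1/2 + i t)| ^ (2 k)`. -/
noncomputable def shiftedMoment (k : ℕ) (u T : ℝ) : ℂ :=
  ∫ t in (0 : ℝ)..T, riemannZeta (1 / 2 + (t + u) * Complex.I) ^ k *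
    (starRingEnd ℂ) (riemannZeta (1 / 2 + (t - u) * Complex.I)) ^ k

/-- The main terms that are allowed: functions `M` with two derivatives on `[1, ∞)`, the second one
continuous, such that `M' (t) = O (t ^ δ)` and `M'' (t) = O (t ^ (δ - 1))` for every `δ > 0`. -/
def IsMainTerm (M : ℝ → ℂ) : Prop :=
  ∃ M' M'' : ℝ → ℂ, (∀ t : ℝ, 1 ≤ t → HasDerivAt M (M' t) t) ∧ (∀ t : ℝ, 1 ≤ t → HasDerivAt M' (M'' t) t) ∧
    ContinuousOn M'' (Ici 1) ∧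
    ∀ δ : ℝ, 0 < δ → ∃ C : ℝ, ∀ t : ℝ, 1 ≤ t → ‖M' t‖ ≤ C * t ^ δ ∧ ‖M'' t‖ ≤ C * t ^ (δ - 1)

/-- The shifted moment has an asymptotic formula with error term `O (T ^ θ)`. -/
def HasError (k : ℕ) (u θ : ℝ) : Prop :=
  ∃ M : ℝ → ℂ, IsMainTerm M ∧ ∃ C T₀ : ℝ, ∀ T : ℝ, T₀ ≤ T → ‖shiftedMoment k u T - M T‖ ≤ C * T ^ θ

/-- The moment of order `2 k` on the line `Re s = σ` has an asymptotic formula with error term `O (T ^ θ)`. -/
def HasLineError (k : ℕ) (σ θ : ℝ) : Prop :=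
  ∃ M : ℝ → ℂ, IsMainTerm M ∧ ∃ C T₀ : ℝ, ∀ T : ℝ, T₀ ≤ T →
    ‖((∫ t in (0 : ℝ)..T, ‖riemannZeta (σ + t * Complex.I)‖ ^ (2 * k) : ℝ) : ℂ) - M T‖ ≤ C * T ^ θ

end Pool.Agent.Helper156_SM
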