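import Pool.Agent.Helper156_SM.Par

set_option autoImplicit false

/-!
# Many shifts with a large error term
-/

open MeasureTheory Set Filter

namespace Pool.Agent.Helper156_SM

theorem finA {U θ : ℝ} (hU : 0 < U) (hθ : θ < Th U) : ∃ c : ℝ, 0 < c ∧ ∀ k : ℕ, 1 ≤ k → ∀ u0 : ℝ, HasError k 0 θ →
    volume {u : ℝ | u ∈ Icc (u0 - U) (u0 + U) ∧ HasError k u θ} ≤ ENNReal.ofReal (2 * U - c) := by
  have hT := Th_pos hU
  set θ' := (max θ 0 + Th U) / 2 with hθ'
  have h1 : max θ 0 < Th U := max_lt hθ hT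
  have h2 : max θ 0 < θ' := by rw [hθ']; linarith
  have h3 : θ' < Th U := by rw [hθ']; linarith
  have h4 : 0 < θ' := lt_of_le_of_lt (le_max_right _ _) h2
  have h5 : θ < θ' := lt_of_le_of_lt (le_max_left _ _) h2
  obtain ⟨η, ν, b, a1, a2, a3, a4, a5, a6, a7, a8⟩ := par_exists hU h4.le h3
  obtain ⟨c, hc, h6⟩ := local_interval h4.le a1 a2 a3 a4 a5 hU a6 a7 a8
  refine ⟨c, hc, fun k hk u0 h0 => ?_⟩
  obtain ⟨e, he, h7⟩ := h6 k hk u0
  exact meas_global h5 h4 he h7 h0

/-- Short intervals, with explicit constants. -/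
theorem finI {k : ℕ} (hk : 1 ≤ k) {u0 U θ : ℝ} (hU : 0 < U) (hU1 : U ≤ 1) (hθ : θ < U / 48) (h0 : HasError k 0 θ) :
    volume {u : ℝ | u ∈ Icc (u0 - U) (u0 + U) ∧ HasError k u θ} ≤ ENNReal.ofReal (2 * U - U / 288) := by
  set θ' := (max θ 0 + U / 48) / 2 with hθ'
  have h1 : max θ 0 < U / 48 := max_lt hθ (by positivity)
  have h2 : max θ 0 < θ' := by rw [hθ']; linarith
  have h3 : θ' < U / 48 := by rw [hθ']; linarith
  have h4 : 0 < θ' := lt_of_le_of_lt (le_max_right _ _) h2
  have h5 : θ < θ' := lt_of_le_of_lt (le_max_left _ _) h2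
  set η := U / 6 with hη
  have hη0 : 0 < η := by positivity
  have hη1 : η ≤ 1 / 6 := by rw [hη]; linarith
  set σ := η / 8 - θ' with hσ
  have hσ0 : 0 < σ := by rw [hσ, hη]; linarith
  set δ := min (σ / 2) (η / 48) with hδ
  have hδ0 : 0 < δ := lt_min (by linarith) (by positivity)
  have hδ1 : δ ≤ σ / 2 := min_le_left _ _
  have hδ2 : δ ≤ η / 48 := min_le_right _ _
  obtain ⟨e0, he0, hI⟩ := coreI hk u0 (η1 := η) (lam := U / 2) (δ := δ) hη0 (by positivity) hδ0
  set e := min e0 (min (σ / 20) (η / 400)) with he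
  have hee : 0 < e := lt_min he0 (lt_min (by positivity) (by positivity))
  have he1 : e ≤ σ / 20 := (min_le_right _ _).trans (min_le_left _ _)
  have he2 : e ≤ η / 400 := (min_le_right _ _).trans (min_le_right _ _)
  have hρ : η * (2 * (U / 288) / η) = η / 24 := by
    rw [hη]; field_simp; norm_num
  have hb1 : 1 / (8 * η) * η * (2 * η) = η / 4 := by field_simp; norm_num
  have hb2 : 1 / (8 * η) * (U / 2) ^ 2 = 9 / 8 * η := by
    have : U = 6 * η := by rw [hη]; ring
    rw [this]; field_simp; ring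
  have hθη : θ' < η / 8 := by rw [hη]; linarith
  have hx1 : (5 + 2 * (1 + θ' - η / 2)) * e ≤ 8 * e := by
    apply mul_le_mul_of_nonneg_right _ hee.le
    linarith
  have hfin := hI η e θ' (2 * η) (U / 2) (1 / (8 * η)) (1 / 12) (U / 288) hη0 (by linarith) hee (by linarith)
    (min_le_left _ _) h4.le (by linarith) (by linarith) (by linarith) (by positivity) (by positivity) (by positivity)
    ?_ ?_ ?_ ?_ ?_
  · apply meas_global h5 h4 hee _ h0
    filter_upwards [hfin] with T hT hcl
    have := hT hcl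
    rw [show U / 2 + U / 2 = U by ring] at this
    exact this
  · nlinarith
  · nlinarith
  · rw [hρ]; linarith
  · rw [hρ, hb1]; linarith
  · rw [hρ, hb1, hb2]; linarith

/-- Almost every shift. -/
theorem finAE {k : ℕ} (hk : 1 ≤ k) (h0 : ∀ θ : ℝ, 0 < θ → HasError k 0 θ) :
    ∀ᵐ u : ℝ, ∃ θ : ℝ, 0 < θ ∧ ¬ HasError k u θ := by
  set Z : Set ℝ := {u | ∀ θ : ℝ, 0 < θ → HasError k u θ} with hZ
  have hZ0 : volume Z = 0 := by
    by_contra hne
    have h1 := Besicovitch.ae_tendsto_measure_inter_div (volume : Measure ℝ) Z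
    have h2 : (volume : Measure ℝ).restrict Z ≠ 0 := by
      intro h3
      apply hne
      rwa [Measure.restrict_eq_zero] at h3
    have : (ae ((volume : Measure ℝ).restrict Z)).NeBot := ae_neBot.2 h2
    obtain ⟨x, hx⟩ := h1.exists
    have h3 : ∀ᶠ r in nhdsWithin (0 : ℝ) (Ioi 0), volume (Z ∩ Metric.closedBall x r) / volume (Metric.closedBall x r) ≤
        ENNReal.ofReal (575 / 576) := by
      have h4 : ∀ᶠ r in nhdsWithin (0 : ℝ) (Ioi 0), r < 1 :=
        (eventually_lt_nhds (by norm_num : (0 : ℝ) < 1)).filter_mono nhdsWithin_le_nhds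
      filter_upwards [h4, self_mem_nhdsWithin] with r hr hr0
      change 0 < r at hr0
      have h5 := finI hk (u0 := x) (U := r) (θ := r / 96) hr0 hr.le (by linarith) (h0 _ (by linarith))
      have h6 : volume (Z ∩ Metric.closedBall x r) ≤ ENNReal.ofReal (2 * r - r / 288) := by
        refine le_trans (measure_mono ?_) h5
        intro u hu
        refine ⟨?_, hu.1 _ (by linarith)⟩
        rw [← Real.closedBall_eq_Icc]
        exact hu.2
      rw [Real.volume_closedBall]
      refine ENNReal.div_le_of_le_mul ?_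
      refine h6.trans ?_
      rw [← ENNReal.ofReal_mul (by norm_num)]
      apply ENNReal.ofReal_le_ofReal
      linarith
    have h7 := le_of_tendsto hx h3
    rw [ENNReal.one_le_ofReal] at h7
    norm_num at h7
  rw [ae_iff]
  convert hZ0 using 2
  ext u
  simp only [mem_setOf_eq, hZ]
  push Not
  rfl

end Pool.Agent.Helper156_SM
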