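import Pool.Agent.Helper156_SM.FinS
import Pool.Agent.Helper156_SM.FinA

set_option autoImplicit false

/-!
# The shifts whose error exponent is zero
-/

open MeasureTheory Set Filter

namespace Pool.Agent.Helper156_SM

open Pool.Agent.Helper156_EK

/-- Shifts in any interval, given a bound on the critical line. -/
theorem coreIg {k : ℕ} (hk : 1 ≤ k) (u0 : ℝ) {η1 lam δ : ℝ} (hη0 : 0 < η1) (hlam : 0 < lam) (hδ : 0 < δ) :
    ∃ e0 : ℝ, 0 < e0 ∧ ∀ ν e P θ η2 U b g ε0 : ℝ, 0 < ν → ν < 1 / 2 → 0 < e → e ≤ 1 / 4 → e ≤ e0 →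
    0 ≤ θ → 1 + e ≤ P → 1 + θ - ν / 2 + 2 * e ≤ P → e ≤ η1 → η1 < η2 → η2 ≤ 1 / 2 → 0 < U → 0 < b → 0 < ε0 →
    P - 2 * (P - ν) * η1 + (3 + 2 * (P - ν)) * e < 1 - 2 * η1 * ν - δ - e →
    P - 2 * (P - ν) * η2 + (3 + 2 * (P - ν)) * e < 1 - 2 * η2 * ν - e →
    δ + 4 * e + (P - (1 + θ - ν / 2 + 2 * e)) * (2 * ε0 / η1) ≤ g * (η2 - η1) →
    θ - ν / 2 + 5 * e + δ + (P - (1 + θ - ν / 2 + 2 * e)) * (2 * ε0 / η1) ≤ -(b * η1 * η2) - g * η1 →
    P - 1 - b * U ^ 2 + 2 * e + δ + (P - (1 + θ - ν / 2 + 2 * e)) * (2 * ε0 / η1) ≤ -(b * η1 * η2) - g * η1 →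
    ∀ᶠ T : ℝ in atTop, (∀ s : ℂ, s.re = 1 / 2 → |s.im| ≤ T / 8 → ‖Kf k ν e T s‖ ≤ T ^ P) →
      volume {u : ℝ | u ∈ Icc (u0 - (U + lam)) (u0 + (U + lam)) ∧ Close k (1 / 2 + u * Complex.I) T θ e} <
        ENNReal.ofReal (2 * (U + lam) - ε0) := by
  obtain ⟨e0, he0, hdn⟩ := diag_near hk u0 hη0 hlam hδ
  refine ⟨e0, he0, fun ν e P θ η2 U b g ε0 hν hν1 he he1 hee0 hθ hP hP1 hη1 hη12 hη2 hU hb hε0 hc hc' hg1 hg2 hg3 => ?_⟩
  have ev1 := ev_pow 2 (a := 1 - 2 * η1 * ν - δ - e) (b := 1 - 2 * η1 * ν - δ) (by linarith)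
  filter_upwards [coreGg (k := k) (|u0| + lam) (P := P) (δ := δ + e) (θ := θ) (g := g) hν hν1 he he1 hP hP1 hη1 hη12
      hη2 hU hb hε0 hc' (by linarith) (by linarith) (by linarith), hdn ν e hν hν1 he hee0 hη1,
      rem_bound_g (k := k) hν hν1 he he1 hP,
      near_bound (k := k) hν hν1 he hθ, ev1, eventually_gt_atTop 1, eventually_gt_atTop (32 * (|u0| + U + lam))]
    with T h1 h2 h3 h4 e1 hT1 hT hcl
  have hT0 : 0 < T := by linarith
  have hu00 := abs_nonneg u0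
  obtain ⟨y0, hy0, hS⟩ := h2
  have hy0' := abs_le.1 hy0
  have hua := abs_le.1 (le_refl |u0|)
  have hyabs : |y0| ≤ |u0| + lam := by
    rw [abs_le]; constructor <;> linarith
  set s0 : ℂ := ((1 / 2 + η1 : ℝ) : ℂ) + y0 * Complex.I with hs0
  have e2 : s0.re = 1 / 2 + η1 := by rw [hs0]; simp
  have e3 : s0.im = y0 := by rw [hs0]; simp
  have h5 := h3 hcl s0 (by rw [e2]; linarith) (by rw [e2]; linarith) (by rw [e3]; linarith)
  rw [e2, show (1 / 2 + η1 : ℝ) - 1 / 2 = η1 by ring] at h5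
  have h6 : ‖Sf k ν e T s0‖ ≤ ‖Kf k ν e T s0 - Sf k ν e T s0‖ + ‖Kf k ν e T s0‖ := by
    have := norm_sub_le (Kf k ν e T s0) (Kf k ν e T s0 - Sf k ν e T s0)
    rw [sub_sub_cancel] at this
    linarith
  have h7 : T ^ (P - 2 * (P - ν) * η1 + (3 + 2 * (P - ν)) * e) ≤
      T ^ (1 - 2 * η1 * ν - δ - e) := Real.rpow_le_rpow_of_exponent_le hT1.le hc.le
  have h8 : T ^ (1 - 2 * η1 * ν - (δ + e)) ≤ ‖Kf k ν e T s0‖ := by
    rw [show 1 - 2 * η1 * ν - (δ + e) = 1 - 2 * η1 * ν - δ - e by ring]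
    linarith
  have h9 := h1 y0 hyabs hcl h8
  have h10 : ENNReal.ofReal ε0 < volume {u | u ∈ Icc (u0 - (U + lam)) (u0 + (U + lam)) ∧
        T ^ (1 + θ - ν / 2 + 2 * e) < ‖Kf k ν e T (1 / 2 + u * Complex.I)‖} := by
    refine lt_of_lt_of_le h9 (measure_mono ?_)
    intro u hu
    refine ⟨⟨by linarith [hu.1.1], by linarith [hu.1.2]⟩, hu.2⟩
  have h5 := meas_le (P := fun u => Close k (1 / 2 + u * Complex.I) T θ e)
    (by linarith : u0 - (U + lam) ≤ u0 + (U + lam)) hε0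
    (Kf_cont (k := k) (ν := ν) (e := e) hT0 (by linarith : -T < u0 - (U + lam)) (by linarith : u0 + (U + lam) < T)) ?_ h10
  · convert h5 using 2
    ring
  · intro u hu hcu
    refine h4 _ ?_ hcu
    have e1 : (1 / 2 + (u : ℂ) * Complex.I).im = u := by simp
    rw [e1, abs_le]
    exact ⟨by linarith [hu.1], by linarith [hu.2]⟩

/-- Short intervals, with explicit constants, given good shifts near `0`. -/
theorem I_loc {k : ℕ} (hk : 1 ≤ k) {U θ : ℝ} (hU : 0 < U) (hU1 : U ≤ 1) (hθ0 : 0 ≤ θ) (hθ : θ < U / 48) (u0 : ℝ)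
    {κ : ℝ} (hκ : 0 < κ) (hκ2 : κ ≤ 2) : ∃ r0 : ℝ, 0 < r0 ∧ ∀ r : ℝ, 0 < r → r ≤ r0 →
      ENNReal.ofReal (κ * r) < volume {u : ℝ | |u| ≤ r ∧ HasError k u θ} →
      volume {u : ℝ | u ∈ Icc (u0 - U) (u0 + U) ∧ HasError k u θ} ≤ ENNReal.ofReal (2 * U - U / 288) := by
  set θ' := (θ + U / 48) / 2 with hθ'
  have h2 : θ < θ' := by rw [hθ']; linarith
  have h3 : θ' < U / 48 := by rw [hθ']; linarith
  have h4 : 0 < θ' := by linarith
  set η := U / 6 with hη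
  have hη0 : 0 < η := by positivity
  have hη1 : η ≤ 1 / 6 := by rw [hη]; linarith
  set σ := η / 8 - θ' with hσ
  have hσ0 : 0 < σ := by rw [hσ, hη]; linarith
  set δ := min (σ / 2) (η / 48) with hδ
  have hδ0 : 0 < δ := lt_min (by linarith) (by positivity)
  have hδ1 : δ ≤ σ / 2 := min_le_left _ _
  have hδ2 : δ ≤ η / 48 := min_le_right _ _
  obtain ⟨e0, he0, hI⟩ := coreIg hk u0 (η1 := η) (lam := U / 2) (δ := δ) hη0 (by positivity) hδ0
  set e := min e0 (min (σ / 20) (η / 800)) with he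
  have hee : 0 < e := lt_min he0 (lt_min (by positivity) (by positivity))
  have he1 : e ≤ σ / 20 := (min_le_right _ _).trans (min_le_left _ _)
  have he2 : e ≤ η / 800 := (min_le_right _ _).trans (min_le_right _ _)
  have hρ0 : 2 * (U / 288) / η = 1 / 24 := by
    rw [hη]; field_simp; norm_num
  have hb1 : 1 / (8 * η) * η * (2 * η) = η / 4 := by field_simp; norm_num
  have hb2 : 1 / (8 * η) * (U / 2) ^ 2 = 9 / 8 * η := by
    have : U = 6 * η := by rw [hη]; ring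
    rw [this]; field_simp; ring
  have hθη : θ' < η / 8 := by rw [hη]; linarith
  set P := 1 + θ' + η / 2 + 3 * e with hP
  have hPd : P - (1 + θ' - η / 2 + 2 * e) = η + e := by rw [hP]; ring
  have hx1 : (3 + 2 * (P - η)) * e ≤ 8 * e := by
    apply mul_le_mul_of_nonneg_right _ hee.le
    rw [hP]; linarith
  have hfin := hI η e P θ' (2 * η) (U / 2) (1 / (8 * η)) (1 / 12) (U / 288) hη0 (by linarith) hee (by linarith)
    (min_le_left _ _) h4.le (by rw [hP]; linarith) (by rw [hP]; linarith) (by linarith) (by linarith) (by linarith)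
    (by positivity) (by positivity) (by positivity)
    ?_ ?_ ?_ ?_ ?_
  · obtain ⟨r0, hr0, hmv⟩ := mv_of_near (k := k) hθ0 h2 hee hκ hκ2
    refine ⟨r0, hr0, fun r hr hrr hvol => ?_⟩
    refine meas_global' (θ' := θ') (e := e) h2 h4 hee ?_
    filter_upwards [hfin, hmv r hr hrr hvol, line_bound_B hk hη0 (by linarith : η < 1 / 2) hee h4.le
      (by linarith : θ' ≤ 1), eventually_ge_atTop 1] with T h5 h6 h7 hT
    have h8 := h5 ?_
    · rw [show U / 2 + U / 2 = U by ring] at h8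
      exact h8
    · intro s hs1 hs2
      refine (h7 h6 s hs1 hs2).trans ?_
      apply Real.rpow_le_rpow_of_exponent_le hT
      rw [hP]; linarith
  · have : P - 2 * (P - η) * η = P * (1 - 2 * η) + 2 * η ^ 2 := by ring
    rw [this, hP]
    nlinarith
  · have : P - 2 * (P - η) * (2 * η) = P * (1 - 4 * η) + 4 * η ^ 2 := by ring
    rw [this, hP]
    nlinarith
  · rw [hPd, hρ0]
    nlinarith
  · rw [hPd, hρ0, hb1]
    linarith
  · rw [hPd, hρ0, hb1, hb2, hP]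
    linarith

/-- The shifts whose error exponent is `0` have density `0` at `0`. -/
theorem finZ {k : ℕ} (hk : 1 ≤ k) {κ : ℝ} (hκ : 0 < κ) : ∃ r0 : ℝ, 0 < r0 ∧ ∀ r : ℝ, 0 < r → r ≤ r0 →
    volume {u : ℝ | |u| ≤ r ∧ ∀ θ : ℝ, 0 < θ → HasError k u θ} ≤ ENNReal.ofReal (κ * r) := by
  set Z : Set ℝ := {u | ∀ θ : ℝ, 0 < θ → HasError k u θ} with hZ
  by_contra hcon
  push Not at hcon
  -- many good shifts near `0`
  set κ' := min κ 2 with hκ'
  have hκ'0 : 0 < κ' := lt_min hκ (by norm_num)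
  have hκ'2 : κ' ≤ 2 := min_le_right _ _
  have hmany : ∀ r0 : ℝ, 0 < r0 → ∀ θ : ℝ, 0 < θ → ∃ r : ℝ, 0 < r ∧ r ≤ r0 ∧
      ENNReal.ofReal (κ' * r) < volume {u : ℝ | |u| ≤ r ∧ HasError k u θ} := by
    intro r0 hr0 θ hθ
    obtain ⟨r, hr1, hr2, hr3⟩ := hcon r0 hr0
    refine ⟨r, hr1, hr2, ?_⟩
    refine lt_of_le_of_lt ?_ (hr3.trans_le (measure_mono ?_))
    · apply ENNReal.ofReal_le_ofReal
      have : κ' ≤ κ := min_le_left _ _
      gcongr
    · intro u hu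
      exact ⟨hu.1, hu.2 θ hθ⟩
  have hI : ∀ x U : ℝ, 0 < U → U ≤ 1 → volume (Z ∩ Icc (x - U) (x + U)) ≤ ENNReal.ofReal (2 * U - U / 288) := by
    intro x U hU hU1
    obtain ⟨r0, hr0, h1⟩ := I_loc hk hU hU1 (by linarith : 0 ≤ U / 96) (by linarith : U / 96 < U / 48) x hκ'0 hκ'2
    obtain ⟨r, hr1, hr2, hr3⟩ := hmany r0 hr0 (U / 96) (by linarith)
    refine le_trans (measure_mono ?_) (h1 r hr1 hr2 hr3)
    intro u hu
    exact ⟨hu.2, hu.1 _ (by linarith)⟩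
  have hZ0 : volume Z = 0 := by
    by_contra hne
    have h1 := Besicovitch.ae_tendsto_measure_inter_div (volume : Measure ℝ) Z
    have h2 : (volume : Measure ℝ).restrict Z ≠ 0 := by
      intro h3
      apply hne
      rwa [Measure.restrict_eq_zero] at h3
    have : (ae ((volume : Measure ℝ).restrict Z)).NeBot := ae_neBot.2 h2
    obtain ⟨x, hx⟩ := h1.exists
    have h3 : ∀ᶠ r in nhdsWithin (0 : ℝ) (Ioi 0), volume (Z ∩ Metric.closedBall x r) / volume (Metric.closedBall x r) ≤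
        ENNReal.ofReal (575 / 576) := by
      have h4 : ∀ᶠ r in nhdsWithin (0 : ℝ) (Ioi 0), r < 1 :=
        (eventually_lt_nhds (by norm_num : (0 : ℝ) < 1)).filter_mono nhdsWithin_le_nhds
      filter_upwards [h4, self_mem_nhdsWithin] with r hr hr0
      change 0 < r at hr0
      have h6 : volume (Z ∩ Metric.closedBall x r) ≤ ENNReal.ofReal (2 * r - r / 288) := by
        rw [Real.closedBall_eq_Icc]
        exact hI x r hr0 hr.le
      rw [Real.volume_closedBall]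
      refine ENNReal.div_le_of_le_mul ?_
      refine h6.trans ?_
      rw [← ENNReal.ofReal_mul (by norm_num)]
      apply ENNReal.ofReal_le_ofReal
      linarith
    have h7 := le_of_tendsto hx h3
    rw [ENNReal.one_le_ofReal] at h7
    norm_num at h7
  obtain ⟨r, hr1, _, hr3⟩ := hcon 1 one_pos
  have h1 : volume {u : ℝ | |u| ≤ r ∧ ∀ θ : ℝ, 0 < θ → HasError k u θ} ≤ volume Z :=
    measure_mono fun u hu => hu.2
  rw [hZ0] at h1
  exact absurd (hr3.trans_le h1) (not_lt_bot)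

end Pool.Agent.Helper156_SM
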