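import Pool.Agent.Helper156_SM.Grow
import Pool.Agent.Helper156_SM.FinZ

set_option autoImplicit false

/-!
# Good shifts cannot be dense in any interval
-/

open MeasureTheory Set Filter

namespace Pool.Agent.Helper156_SM

open Pool.Agent.Helper156_EK

/-- There is a shift with a large twisted moment in any interval. -/
theorem coreIg2 {k : ℕ} (hk : 1 ≤ k) (u0 : ℝ) {η1 lam δ : ℝ} (hη0 : 0 < η1) (hlam : 0 < lam) (hδ : 0 < δ) :
    ∃ e0 : ℝ, 0 < e0 ∧ ∀ ν e P θ η2 U b g ε0 : ℝ, 0 < ν → ν < 1 / 2 → 0 < e → e ≤ 1 / 4 → e ≤ e0 →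
    0 ≤ θ → 1 + e ≤ P → 1 + θ - ν / 2 + 2 * e ≤ P → e ≤ η1 → η1 < η2 → η2 ≤ 1 / 2 → 0 < U → 0 < b → 0 < ε0 →
    P - 2 * (P - ν) * η1 + (3 + 2 * (P - ν)) * e < 1 - 2 * η1 * ν - δ - e →
    P - 2 * (P - ν) * η2 + (3 + 2 * (P - ν)) * e < 1 - 2 * η2 * ν - e →
    δ + 4 * e + (P - (1 + θ - ν / 2 + 2 * e)) * (2 * ε0 / η1) ≤ g * (η2 - η1) →
    θ - ν / 2 + 5 * e + δ + (P - (1 + θ - ν / 2 + 2 * e)) * (2 * ε0 / η1) ≤ -(b * η1 * η2) - g * η1 →
    P - 1 - b * U ^ 2 + 2 * e + δ + (P - (1 + θ - ν / 2 + 2 * e)) * (2 * ε0 / η1) ≤ -(b * η1 * η2) - g * η1 →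
    ∀ᶠ T : ℝ in atTop, (∀ s : ℂ, s.re = 1 / 2 → |s.im| ≤ T / 8 → ‖Kf k ν e T s‖ ≤ T ^ P) →
      ∃ u ∈ Icc (u0 - (U + lam)) (u0 + (U + lam)), T ^ (1 + θ - ν / 2 + 2 * e) < ‖Kf k ν e T (1 / 2 + u * Complex.I)‖ := by
  obtain ⟨e0, he0, hdn⟩ := diag_near hk u0 hη0 hlam hδ
  refine ⟨e0, he0, fun ν e P θ η2 U b g ε0 hν hν1 he he1 hee0 hθ hP hP1 hη1 hη12 hη2 hU hb hε0 hc hc' hg1 hg2 hg3 => ?_⟩
  have ev1 := ev_pow 2 (a := 1 - 2 * η1 * ν - δ - e) (b := 1 - 2 * η1 * ν - δ) (by linarith)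
  filter_upwards [coreGg (k := k) (|u0| + lam) (P := P) (δ := δ + e) (θ := θ) (g := g) hν hν1 he he1 hP hP1 hη1 hη12
      hη2 hU hb hε0 hc' (by linarith) (by linarith) (by linarith), hdn ν e hν hν1 he hee0 hη1,
      rem_bound_g (k := k) hν hν1 he he1 hP, ev1, eventually_gt_atTop 1, eventually_gt_atTop (32 * (|u0| + U + lam))]
    with T h1 h2 h3 e1 hT1 hT hcl
  have hT0 : 0 < T := by linarith
  have hu00 := abs_nonneg u0
  obtain ⟨y0, hy0, hS⟩ := h2
  have hy0' := abs_le.1 hy0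
  have hua := abs_le.1 (le_refl |u0|)
  have hyabs : |y0| ≤ |u0| + lam := by
    rw [abs_le]; constructor <;> linarith
  set s0 : ℂ := ((1 / 2 + η1 : ℝ) : ℂ) + y0 * Complex.I with hs0
  have e2 : s0.re = 1 / 2 + η1 := by rw [hs0]; simp
  have e3 : s0.im = y0 := by rw [hs0]; simp
  have h5 := h3 hcl s0 (by rw [e2]; linarith) (by rw [e2]; linarith) (by rw [e3]; linarith)
  rw [e2, show (1 / 2 + η1 : ℝ) - 1 / 2 = η1 by ring] at h5
  have h6 : ‖Sf k ν e T s0‖ ≤ ‖Kf k ν e T s0 - Sf k ν e T s0‖ + ‖Kf k ν e T s0‖ := by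
    have := norm_sub_le (Kf k ν e T s0) (Kf k ν e T s0 - Sf k ν e T s0)
    rw [sub_sub_cancel] at this
    linarith
  have h7 : T ^ (P - 2 * (P - ν) * η1 + (3 + 2 * (P - ν)) * e) ≤
      T ^ (1 - 2 * η1 * ν - δ - e) := Real.rpow_le_rpow_of_exponent_le hT1.le hc.le
  have h8 : T ^ (1 - 2 * η1 * ν - (δ + e)) ≤ ‖Kf k ν e T s0‖ := by
    rw [show 1 - 2 * η1 * ν - (δ + e) = 1 - 2 * η1 * ν - δ - e by ring]
    linarith
  have h9 := h1 y0 hyabs hcl h8
  by_contra hcon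
  push Not at hcon
  have h10 : {u | u ∈ Icc (y0 - U) (y0 + U) ∧
        T ^ (1 + θ - ν / 2 + 2 * e) < ‖Kf k ν e T (1 / 2 + u * Complex.I)‖} = ∅ := by
    ext u
    simp only [mem_setOf_eq, mem_empty_iff_false, iff_false, not_and, not_lt]
    intro hu
    exact hcon u ⟨by linarith [hu.1], by linarith [hu.2]⟩
  rw [h10, measure_empty] at h9
  exact not_lt_bot h9

/-- the choice of the parameters -/
theorem I_core {k : ℕ} (hk : 1 ≤ k) {U : ℝ} (hU : 0 < U) (hU1 : U ≤ 1) (u0 : ℝ) : ∃ e : ℝ, 0 < e ∧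
    e ≤ U / 12800 ∧ ∀ᶠ T : ℝ in atTop,
      (∀ s : ℂ, s.re = 1 / 2 → |s.im| ≤ T / 8 → ‖Kf k (U / 16) e T s‖ ≤ T ^ (1 + U / 16 + 2 * e)) →
      ∃ u ∈ Icc (u0 - U) (u0 + U), T ^ (1 + U / 256 - U / 32 + 2 * e) < ‖Kf k (U / 16) e T (1 / 2 + u * Complex.I)‖ := by
  set η := U / 8 with hη
  have hη0 : 0 < η := by positivity
  have hη1 : η ≤ 1 / 8 := by rw [hη]; linarith
  obtain ⟨e0, he0, hI⟩ := coreIg2 hk u0 (η1 := η) (lam := U / 2) (δ := η / 96) hη0 (by positivity) (by positivity)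
  set e := min e0 (η / 1600) with he
  have hee : 0 < e := lt_min he0 (by positivity)
  have he1 : e ≤ η / 1600 := min_le_right _ _
  refine ⟨e, hee, by linarith, ?_⟩
  have hρ0 : 2 * (η / 96) / η = 1 / 48 := by
    field_simp; norm_num
  have hb1 : 1 / (16 * η) * η * (2 * η) = η / 8 := by field_simp; norm_num
  have hb2 : 1 / (16 * η) * (U / 2) ^ 2 = η := by
    have : U = 8 * η := by rw [hη]; ring
    rw [this]; field_simp; ring
  have hPd : 1 + η / 2 + 2 * e - (1 + η / 32 - η / 2 / 2 + 2 * e) = 23 / 32 * η := by ring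
  have hee2 : e * e ≤ e * 1 := by gcongr; linarith
  have hηη : η * η ≤ η * (1 / 8) := by gcongr
  have heη : 0 ≤ e * η := by positivity
  have hfin := hI (η / 2) e (1 + η / 2 + 2 * e) (η / 32) (2 * η) (U / 2) (1 / (16 * η)) (1 / 24) (η / 96) (by positivity)
    (by linarith) hee (by linarith) (min_le_left _ _) (by positivity) (by linarith) (by linarith) (by linarith)
    (by linarith) (by linarith) (by positivity) (by positivity) (by positivity) ?_ ?_ ?_ ?_ ?_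
  · filter_upwards [hfin] with T hT hcl
    have e1 : U / 16 = η / 2 := by rw [hη]; ring
    have e2 : U / 256 = η / 32 := by rw [hη]; ring
    have e3 : U / 32 = η / 2 / 2 := by rw [hη]; ring
    rw [e1] at hcl ⊢
    have := hT hcl
    rw [show U / 2 + U / 2 = U by ring] at this
    rw [e2, e3]
    exact this
  · nlinarith
  · nlinarith
  · rw [hPd, hρ0]
    nlinarith
  · rw [hPd, hρ0, hb1]
    linarith
  · rw [hPd, hρ0, hb1, hb2]
    linarith

/-- Good shifts cannot be dense in an interval: the statement for one `T`. -/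
theorem dense_step {k : ℕ} (hk : 1 ≤ k) {κ : ℝ} (hκ : 0 < κ) (hκ2 : κ ≤ 2) : ∃ M : ℕ, 8 ≤ M ∧
    ∀ U : ℝ, 0 < U → U ≤ 1 → ∀ u0 : ℝ, ∃ e : ℝ, 0 < e ∧ ∀ᶠ T : ℝ in atTop,
      (∫ t in T..(2 * T), fk k t ≤ T ^ (1 + 0 + e)) →
      ¬ ∀ u ∈ Icc (u0 - U) (u0 + U), ENNReal.ofReal (κ * (2 * U / M)) ≤
        volume {x : ℝ | |x - u| ≤ 2 * U / M ∧ Close k (1 / 2 + x * Complex.I) T (U / 800) e} := by
  obtain ⟨a, ha, hgrow⟩ := grow k
  set Q := 2 * Real.exp 1 / κ with hQ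
  have hQe : Real.exp 1 ≤ Q := by
    rw [hQ, le_div_iff₀ hκ]
    have := Real.exp_pos 1
    nlinarith
  have hQ1 : 1 < Q := lt_of_lt_of_le (by have := Real.exp_one_gt_d9; linarith) hQe
  have hQ0 : 0 < Q := by linarith
  have hlQ : 0 < Real.log Q := Real.log_pos hQ1
  set x := Real.exp (-(800 * (a + 1) * Real.log Q)) with hx
  have hx0 : 0 < x := Real.exp_pos _
  set M : ℕ := ⌈4 * Q / x⌉₊ + 8 with hM
  have hM8 : 8 ≤ M := by omega
  have hM0 : (0 : ℝ) < M := by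
    have : (8 : ℝ) ≤ M := by exact_mod_cast hM8
    linarith
  have hMx : 4 * Q / M ≤ x := by
    rw [div_le_iff₀ hM0]
    have h1 : 4 * Q / x ≤ M := by
      rw [hM]
      push_cast
      have := Nat.le_ceil (4 * Q / x)
      linarith
    rw [div_le_iff₀ hx0] at h1
    linarith
  refine ⟨M, hM8, fun U hU hU1 u0 => ?_⟩
  obtain ⟨e, he, heU, hcore⟩ := I_core hk hU hU1 u0
  refine ⟨e, he, ?_⟩
  set lam := U / (800 * Real.log Q) with hlam
  have hlam0 : 0 < lam := by positivity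
  have hν : 0 < U / 16 := by positivity
  have hν1 : U / 16 < 1 / 2 := by linarith
  have ev1 := ev_pow (2 * Q) (a := 1 + U / 400 - U / 32 + 2 * e) (b := 1 + U / 256 - U / 32 + 2 * e) (by linarith)
  have ev2 := ev_pow 4 (a := 1 + U / 16 + 2 * e + a * (U / 2) - (a + 1) * U) (b := 1 + U / 256 - U / 32 + 2 * e)
    (by nlinarith)
  filter_upwards [hcore, line_bound_C k (K := 0) hν hν1 he le_rfl,
    near_bound (k := k) (θ := U / 800) hν hν1 he (by positivity),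
    hgrow (U / 16) e (1 + U / 16 + 2 * e) hν hν1 (by positivity), ev1, ev2, eventually_gt_atTop 1,
    eventually_gt_atTop (16 * (|u0| + 3))]
    with T h1 h2 h3 h4 e1 e2 hT hTu hI hcl
  have hT0 : 0 < T := by linarith
  have hu0' := abs_nonneg u0
  have hline := h2 hI
  rw [show (1 : ℝ) + 0 + U / 16 + 2 * e = 1 + U / 16 + 2 * e by ring] at hline
  obtain ⟨u, hu, hbig⟩ := h1 hline
  have hgr := h4 hline
  have hlT : 0 < Real.log T := Real.log_pos hT
  set n := ⌈lam * Real.log T⌉₊ with hn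
  have hn0 : 0 < lam * Real.log T := by positivity
  have hn1 : 1 ≤ n := by
    rw [hn]
    exact Nat.one_le_iff_ne_zero.2 (Nat.ceil_pos.2 hn0).ne'
  have hn2 : lam * Real.log T ≤ n := Nat.le_ceil _
  have hn3 : (n : ℝ) ≤ lam * Real.log T + 1 := (Nat.ceil_lt_add_one hn0.le).le
  have huabs : |u| ≤ |u0| + 1 := by
    have h5 := abs_le.1 (le_refl |u0|)
    rw [abs_le]
    constructor <;> linarith [hu.1, hu.2]
  set Φ : ℂ → ℂ := fun z => Kf k (U / 16) e T (1 / 2 + (u + z) * Complex.I) with hΦ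
  have hre : ∀ z : ℂ, ‖z‖ ≤ U / 2 → |(1 / 2 + (u + z) * Complex.I).re - 1 / 2| ≤ U / 2 ∧
      |(1 / 2 + (u + z) * Complex.I).im| ≤ T / 16 := by
    intro z hz
    have h5 := (Complex.abs_im_le_norm z).trans hz
    have h6 := (Complex.abs_re_le_norm z).trans hz
    have e3 : (1 / 2 + (u + z) * Complex.I).re = 1 / 2 - z.im := by simp; ring
    have e4 : (1 / 2 + (u + z) * Complex.I).im = u + z.re := by simp
    rw [e3, e4]
    constructor
    · rw [show 1 / 2 - z.im - 1 / 2 = -z.im by ring, abs_neg]; exact h5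
    · have := abs_add_le u z.re
      linarith
  have hdiff : DifferentiableOn ℂ Φ (Metric.closedBall 0 (U / 2)) := by
    have h5 : MapsTo (fun z : ℂ => 1 / 2 + (u + z) * Complex.I) (Metric.closedBall 0 (U / 2)) {s : ℂ | |s.im| < T} := by
      intro z hz
      rw [mem_closedBall_zero_iff] at hz
      have := (hre z hz).2
      change |(1 / 2 + (u + z) * Complex.I).im| < T
      linarith
    exact (Kf_diff k (U / 16) e hT0).comp (by fun_prop) h5
  have hMb : ∀ z : ℂ, ‖z‖ ≤ U / 2 → ‖Φ z‖ ≤ T ^ (1 + U / 16 + 2 * e + a * (U / 2)) := by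
    intro z hz
    obtain ⟨h5, h6⟩ := hre z hz
    refine (hgr _ (h5.trans (by linarith)) h6).trans ?_
    apply Real.rpow_le_rpow_of_exponent_le hT.le
    gcongr
  set E : Set ℝ := {y : ℝ | |y| ≤ 2 * U / M ∧ Close k (1 / 2 + ((u + y : ℝ) : ℂ) * Complex.I) T (U / 800) e} with hE
  have hEvol : ENNReal.ofReal (κ * (2 * U / M)) ≤ volume E := by
    have h5 := hcl u hu
    have h6 : E = (fun y => u + y) ⁻¹' {x : ℝ | |x - u| ≤ 2 * U / M ∧ Close k (1 / 2 + x * Complex.I) T (U / 800) e} := by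
      ext y
      simp only [hE, mem_setOf_eq, mem_preimage, add_sub_cancel_left]
    rw [h6, measure_preimage_add]
    exact h5
  have hEA : ∀ y ∈ E, ‖Φ y‖ ≤ T ^ (1 + U / 800 - U / 16 / 2 + 2 * e) := by
    intro y hy
    have h7 : ((u : ℂ) + (y : ℂ)) = ((u + y : ℝ) : ℂ) := by push_cast; ring
    rw [hΦ]
    simp only
    rw [h7]
    refine h3 _ ?_ hy.2
    have e4 : (1 / 2 + ((u + y : ℝ) : ℂ) * Complex.I).im = u + y := by simp
    rw [e4]
    have h8 := abs_add_le u y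
    have h9 : |y| ≤ 1 := by
      refine hy.1.trans ?_
      rw [div_le_one hM0]
      have : (8 : ℝ) ≤ M := by exact_mod_cast hM8
      linarith
    linarith
  have hrR : 2 * U / M ≤ U / 2 / 2 := by
    rw [div_le_iff₀ hM0]
    have : (8 : ℝ) ≤ M := by exact_mod_cast hM8
    nlinarith
  have hmain := remez (by positivity : 0 < U / 2) hdiff hMb (by positivity : 0 < 2 * U / M) hrR hκ hκ2
    (fun y hy => hy.1) hEvol (by positivity) hEA n hn1
  rw [← hQ] at hmain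
  have h0 : Φ 0 = Kf k (U / 16) e T (1 / 2 + u * Complex.I) := by
    rw [hΦ]; simp
  rw [h0] at hmain
  -- the two factors
  have f1 : Q ^ n * T ^ (1 + U / 800 - U / 16 / 2 + 2 * e) ≤ T ^ (1 + U / 256 - U / 32 + 2 * e) / 2 := by
    have g1 : Q ^ n ≤ T ^ (U / 800) * Q := by
      calc Q ^ n = Q ^ (n : ℝ) := (Real.rpow_natCast Q n).symm
        _ ≤ Q ^ (lam * Real.log T + 1) := Real.rpow_le_rpow_of_exponent_le hQ1.le hn3
        _ = Q ^ (lam * Real.log T) * Q := by rw [Real.rpow_add hQ0, Real.rpow_one]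
        _ = T ^ (U / 800) * Q := by
            congr 1
            rw [Real.rpow_def_of_pos hQ0, Real.rpow_def_of_pos hT0]
            congr 1
            rw [hlam]
            field_simp
    calc Q ^ n * T ^ (1 + U / 800 - U / 16 / 2 + 2 * e) ≤ (T ^ (U / 800) * Q) * T ^ (1 + U / 800 - U / 16 / 2 + 2 * e) := by
          gcongr
      _ = Q * T ^ (1 + U / 400 - U / 32 + 2 * e) := by
          rw [mul_comm (T ^ (U / 800)) Q, mul_assoc, ← Real.rpow_add hT0]
          congr 2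
          ring
      _ ≤ T ^ (1 + U / 256 - U / 32 + 2 * e) / 2 := by linarith
  have f2 : Q ^ n * (2 * T ^ (1 + U / 16 + 2 * e + a * (U / 2)) * (2 * U / M / (U / 2)) ^ n) ≤
      T ^ (1 + U / 256 - U / 32 + 2 * e) / 2 := by
    have g1 : Q ^ n * (2 * T ^ (1 + U / 16 + 2 * e + a * (U / 2)) * (2 * U / M / (U / 2)) ^ n) =
        2 * T ^ (1 + U / 16 + 2 * e + a * (U / 2)) * (4 * Q / M) ^ n := by
      have : 2 * U / M / (U / 2) = 4 / M := by field_simp; norm_num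
      rw [this, show 4 * Q / M = Q * (4 / M) by ring, mul_pow]; ring
    rw [g1]
    have g2 : (4 * Q / M) ^ n ≤ T ^ (-((a + 1) * U)) := by
      calc (4 * Q / M) ^ n ≤ x ^ n := pow_le_pow_left₀ (by positivity) hMx n
        _ ≤ T ^ (-((a + 1) * U)) := by
            rw [hx, ← Real.exp_nat_mul, Real.rpow_def_of_pos hT0]
            apply Real.exp_le_exp.2
            have h5 : 800 * (a + 1) * Real.log Q * (lam * Real.log T) ≤ 800 * (a + 1) * Real.log Q * n := by gcongr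
            have h6 : 800 * (a + 1) * Real.log Q * (lam * Real.log T) = (a + 1) * U * Real.log T := by
              rw [hlam]; field_simp
            linarith
    calc 2 * T ^ (1 + U / 16 + 2 * e + a * (U / 2)) * (4 * Q / M) ^ n
        ≤ 2 * T ^ (1 + U / 16 + 2 * e + a * (U / 2)) * T ^ (-((a + 1) * U)) := by gcongr
      _ = 2 * T ^ (1 + U / 16 + 2 * e + a * (U / 2) - (a + 1) * U) := by
          rw [mul_assoc, ← Real.rpow_add hT0]; congr 2
      _ ≤ T ^ (1 + U / 256 - U / 32 + 2 * e) / 2 := by linarith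
  have : Q ^ n * (T ^ (1 + U / 800 - U / 16 / 2 + 2 * e) + 2 * T ^ (1 + U / 16 + 2 * e + a * (U / 2)) *
      (2 * U / M / (U / 2)) ^ n) = Q ^ n * T ^ (1 + U / 800 - U / 16 / 2 + 2 * e) +
      Q ^ n * (2 * T ^ (1 + U / 16 + 2 * e + a * (U / 2)) * (2 * U / M / (U / 2)) ^ n) := by ring
  rw [this] at hmain
  linarith

end Pool.Agent.Helper156_SM
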