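import Pool.Agent.Helper156_SM.Expand

set_option autoImplicit false

/-!
# The diagonal
-/

open MeasureTheory Set Filter

namespace Pool.Agent.Helper156_SM

/-- the real terms -/
noncomputable def rt (k n l : ℕ) (σ : ℝ) : ℝ :=
  (ak k ((n + 1) * l) * (((n + 1) * l : ℕ) : ℝ) ^ (-σ)) * (ak k (n * l) * ((n * l : ℕ) : ℝ) ^ (-σ))

theorem rt_nonneg (k n l : ℕ) (σ : ℝ) : 0 ≤ rt k n l σ :=
  mul_nonneg (mul_nonneg (ak_nonneg _ _) (by positivity)) (mul_nonneg (ak_nonneg _ _) (by positivity))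

theorem snt_norm (k n l : ℕ) (s : ℂ) : ‖snt k n l s‖ = rt k n l s.re := by
  have h : ∀ m : ℕ, ‖(ak k m : ℂ) * (m : ℂ) ^ (-s)‖ = ak k m * (m : ℝ) ^ (-s.re) := by
    intro m
    rw [norm_mul, Complex.norm_real, Real.norm_of_nonneg (ak_nonneg _ _)]
    rcases Nat.eq_zero_or_pos m with h0 | h0
    · rw [h0, ak_zero]; simp
    · rw [Complex.norm_natCast_cpow_of_pos h0, Complex.neg_re]
  unfold snt rt
  rw [norm_mul, h, h]

theorem rt_le (k : ℕ) {e : ℝ} (he : 0 < e) : ∃ C : ℝ, 0 < C ∧ ∀ n l : ℕ, 1 ≤ n → ∀ σ : ℝ, 1 / 2 + e ≤ σ →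
    rt k n l σ ≤ C * (n : ℝ) ^ (e - 2 * σ) * (l : ℝ) ^ (-(1 + e)) := by
  obtain ⟨C, hC, h⟩ := ak_bound k (e / 2) (by linarith)
  refine ⟨C ^ 2, by positivity, fun n l hn σ hσ => ?_⟩
  rcases Nat.eq_zero_or_pos l with hl | hl
  · unfold rt
    rw [hl, mul_zero, ak_zero, zero_mul, zero_mul]
    positivity
  have hn' : (1 : ℝ) ≤ n := by exact_mod_cast hn
  have hl' : (1 : ℝ) ≤ l := by exact_mod_cast hl
  have h1 := h ((n + 1) * l) (Nat.mul_pos (by omega) hl)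
  have h2 := h (n * l) (Nat.mul_pos hn hl)
  have key : ∀ m : ℕ, n * l ≤ m → ak k m ≤ C * (m : ℝ) ^ (e / 2) →
      ak k m * (m : ℝ) ^ (-σ) ≤ C * ((n : ℝ) * l) ^ (e / 2 - σ) := by
    intro m hm hb
    have hm' : (n : ℝ) * l ≤ m := by exact_mod_cast hm
    have hm0 : (0 : ℝ) < m := lt_of_lt_of_le (by positivity) hm'
    calc ak k m * (m : ℝ) ^ (-σ) ≤ C * (m : ℝ) ^ (e / 2) * (m : ℝ) ^ (-σ) := by gcongr
      _ = C * (m : ℝ) ^ (e / 2 - σ) := by rw [mul_assoc, ← Real.rpow_add hm0]; congr 2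
      _ ≤ C * ((n : ℝ) * l) ^ (e / 2 - σ) := by
          have h5 : (m : ℝ) ^ (e / 2 - σ) ≤ ((n : ℝ) * l) ^ (e / 2 - σ) :=
            Real.rpow_le_rpow_of_nonpos (by positivity) hm' (by linarith)
          gcongr
  have h3 := key ((n + 1) * l) (Nat.mul_le_mul_right l (by omega)) h1
  have h4 := key (n * l) le_rfl h2
  unfold rt
  calc (ak k ((n + 1) * l) * (((n + 1) * l : ℕ) : ℝ) ^ (-σ)) * (ak k (n * l) * ((n * l : ℕ) : ℝ) ^ (-σ))
      ≤ (C * ((n : ℝ) * l) ^ (e / 2 - σ)) * (C * ((n : ℝ) * l) ^ (e / 2 - σ)) :=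
        mul_le_mul h3 h4 (mul_nonneg (ak_nonneg _ _) (by positivity)) (by positivity)
    _ = C ^ 2 * ((n : ℝ) ^ (e - 2 * σ) * (l : ℝ) ^ (e - 2 * σ)) := by
        have e1 : ((n : ℝ) * l) ^ (e - 2 * σ) = ((n : ℝ) * l) ^ (e / 2 - σ) * ((n : ℝ) * l) ^ (e / 2 - σ) := by
          rw [← Real.rpow_add (by positivity)]; congr 1; ring
        rw [← Real.mul_rpow (by positivity) (by positivity), e1]
        ring
    _ ≤ C ^ 2 * ((n : ℝ) ^ (e - 2 * σ) * (l : ℝ) ^ (-(1 + e))) := by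
        gcongr
        linarith
    _ = C ^ 2 * (n : ℝ) ^ (e - 2 * σ) * (l : ℝ) ^ (-(1 + e)) := by ring

theorem l_summable {e : ℝ} (he : 0 < e) : Summable fun l : ℕ => (l : ℝ) ^ (-(1 + e)) :=
  Real.summable_nat_rpow.2 (by linarith)

theorem sn_norm_le (k : ℕ) {e : ℝ} (he : 0 < e) : ∃ C : ℝ, 0 < C ∧ ∀ n : ℕ, 1 ≤ n → ∀ s : ℂ, 1 / 2 + e ≤ s.re →
    ‖sn k n s‖ ≤ C * (n : ℝ) ^ (e - 2 * s.re) := by
  obtain ⟨C, hC, h⟩ := rt_le k he
  have hZ : 0 ≤ ∑' l : ℕ, (l : ℝ) ^ (-(1 + e)) := tsum_nonneg fun l => by positivity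
  refine ⟨C * (∑' l : ℕ, (l : ℝ) ^ (-(1 + e)) + 1), by positivity, fun n hn s hs => ?_⟩
  unfold sn
  have h1 : ‖∑' l : ℕ, snt k n l s‖ ≤ ∑' l : ℕ, C * (n : ℝ) ^ (e - 2 * s.re) * (l : ℝ) ^ (-(1 + e)) := by
    apply tsum_of_norm_bounded ((l_summable he).mul_left _).hasSum
    intro l
    rw [snt_norm]
    exact h n l hn s.re hs
  refine h1.trans ?_
  rw [tsum_mul_left]
  have h2 : 0 ≤ C * (n : ℝ) ^ (e - 2 * s.re) := by positivity
  nlinarith

theorem SS_norm_le (k : ℕ) {e : ℝ} (he : 0 < e) : ∃ C : ℝ, 0 < C ∧ ∀ N : ℕ, 1 ≤ N → ∀ s : ℂ, 1 / 2 + e ≤ s.re →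
    ‖SS k N s‖ ≤ C * (N : ℝ) ^ (1 + e - 2 * s.re) := by
  obtain ⟨C, hC, h⟩ := sn_norm_le k he
  refine ⟨C, hC, fun N hN s hs => ?_⟩
  have hN' : (1 : ℝ) ≤ N := by exact_mod_cast hN
  unfold SS
  have h1 : ∀ n ∈ Finset.Ico N (2 * N), ‖sn k n s‖ ≤ C * (N : ℝ) ^ (e - 2 * s.re) := by
    intro n hn
    have hn' := Finset.mem_Ico.1 hn
    refine (h n (by omega) s hs).trans ?_
    have h2 : (N : ℝ) ≤ n := by exact_mod_cast hn'.1
    have h3 : (n : ℝ) ^ (e - 2 * s.re) ≤ (N : ℝ) ^ (e - 2 * s.re) :=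
      Real.rpow_le_rpow_of_nonpos (by linarith) h2 (by linarith)
    gcongr
  refine (norm_sum_le _ _).trans ((Finset.sum_le_sum h1).trans (le_of_eq ?_))
  rw [Finset.sum_const, Nat.card_Ico, nsmul_eq_mul]
  have hcard : ((2 * N - N : ℕ) : ℝ) = N := by congr 1; omega
  rw [hcard]
  have h3 : (N : ℝ) ^ (1 + e - 2 * s.re) = N * (N : ℝ) ^ (e - 2 * s.re) := by
    rw [show 1 + e - 2 * s.re = 1 + (e - 2 * s.re) by ring, Real.rpow_add (by linarith), Real.rpow_one]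
  rw [h3]
  ring

theorem snt_diff (k n l : ℕ) (hn : 1 ≤ n) : Differentiable ℂ fun s : ℂ => snt k n l s := by
  unfold snt
  rcases Nat.eq_zero_or_pos l with hl | hl
  · rw [hl]
    simp only [mul_zero, ak_zero, Complex.ofReal_zero, zero_mul]
    exact differentiable_const _
  have h : ∀ m : ℕ, 1 ≤ m → Differentiable ℂ fun s : ℂ => (ak k m : ℂ) * (m : ℂ) ^ (-s) := by
    intro m hm
    apply Differentiable.const_mul
    intro s
    apply DifferentiableAt.const_cpow (differentiable_neg s)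
    left
    exact_mod_cast (by omega : m ≠ 0)
  exact (h _ (Nat.mul_pos (by omega) hl)).mul (h _ (Nat.mul_pos hn hl))

theorem SS_diff (k N : ℕ) (hN : 1 ≤ N) {e : ℝ} (he : 0 < e) : DifferentiableOn ℂ (SS k N) {s : ℂ | 1 / 2 + e < s.re} := by
  unfold SS
  apply DifferentiableOn.fun_sum
  intro n hn
  have hn' := Finset.mem_Ico.1 hn
  obtain ⟨C, hC, h⟩ := rt_le k he
  unfold sn
  apply Complex.differentiableOn_tsum_of_summable_norm ((l_summable he).mul_left C)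
  · intro l
    exact (snt_diff k n l (by omega)).differentiableOn
  · exact isOpen_lt continuous_const Complex.continuous_re
  · intro l w hw
    change 1 / 2 + e < w.re at hw
    rw [snt_norm]
    refine (h n l (by omega) w.re hw.le).trans ?_
    have h1 : (n : ℝ) ^ (e - 2 * w.re) ≤ 1 := by
      apply Real.rpow_le_one_of_one_le_of_nonpos
      · exact_mod_cast (by omega : 1 ≤ n)
      · linarith
    have h2 : (0 : ℝ) ≤ (l : ℝ) ^ (-(1 + e)) := by positivity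
    nlinarith [mul_le_mul_of_nonneg_left h1 hC.le]

theorem snt_real (k n l : ℕ) (hn : 1 ≤ n) (σ : ℝ) : snt k n l (σ : ℂ) = (rt k n l σ : ℂ) := by
  have h : ∀ m : ℕ, (ak k m : ℂ) * (m : ℂ) ^ (-(σ : ℂ)) = ((ak k m * (m : ℝ) ^ (-σ) : ℝ) : ℂ) := by
    intro m
    rw [Complex.ofReal_mul, Complex.ofReal_cpow (by positivity)]
    push_cast
    rfl
  unfold snt rt
  rw [h, h]
  push_cast
  rfl

/-- lower bound for the diagonal at real points -/
theorem SS_real_ge' (k : ℕ) (hk : 1 ≤ k) (N : ℕ) (hN : 1 ≤ N) (σ : ℝ) (hσ : 1 / 2 < σ) :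
    4 ^ (-σ) * (N : ℝ) ^ (1 - 2 * σ) ≤ ‖SS k N (σ : ℂ)‖ := by
  have hN' : (1 : ℝ) ≤ N := by exact_mod_cast hN
  set e := σ - 1 / 2 with he
  have he0 : 0 < e := by linarith
  obtain ⟨C, hC, h⟩ := rt_le k he0
  have hsn : ∀ n ∈ Finset.Ico N (2 * N), ∃ r : ℝ, sn k n (σ : ℂ) = (r : ℂ) ∧ ((2 * N : ℝ) * (2 * N)) ^ (-σ) ≤ r := by
    intro n hn
    have hn' := Finset.mem_Ico.1 hn
    have hn1 : 1 ≤ n := by omega
    refine ⟨∑' l, rt k n l σ, ?_, ?_⟩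
    · unfold sn
      rw [Complex.ofReal_tsum]
      congr 1
      funext l
      exact snt_real k n l hn1 σ
    · have hs : Summable fun l => rt k n l σ := by
        refine Summable.of_nonneg_of_le (fun l => rt_nonneg k n l σ) (fun l => h n l hn1 σ (by rw [he]; linarith))
          ((l_summable he0).mul_left _)
      refine le_trans ?_ (hs.le_tsum 1 (fun l _ => rt_nonneg k n l σ))
      unfold rt
      rw [mul_one, mul_one]
      have h1 := ak_one_le hk (by omega : 1 ≤ n + 1)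
      have h2 := ak_one_le hk hn1
      have h3 : (1 : ℝ) ≤ n := by exact_mod_cast hn1
      have h4 : ((n + 1 : ℕ) : ℝ) ≤ 2 * N := by exact_mod_cast (by omega : n + 1 ≤ 2 * N)
      have h5 : ((n : ℕ) : ℝ) ≤ 2 * N := by exact_mod_cast (by omega : n ≤ 2 * N)
      have h6 : (2 * N : ℝ) ^ (-σ) ≤ ((n + 1 : ℕ) : ℝ) ^ (-σ) :=
        Real.rpow_le_rpow_of_nonpos (by positivity) h4 (by linarith)
      have h7 : (2 * N : ℝ) ^ (-σ) ≤ ((n : ℕ) : ℝ) ^ (-σ) :=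
        Real.rpow_le_rpow_of_nonpos (by positivity) h5 (by linarith)
      rw [Real.mul_rpow (by positivity) (by positivity)]
      have h8 : (0:ℝ) ≤ (2 * N : ℝ) ^ (-σ) := by positivity
      have h9 : ((n + 1 : ℕ) : ℝ) ^ (-σ) ≤ ak k (n + 1) * ((n + 1 : ℕ) : ℝ) ^ (-σ) :=
        le_mul_of_one_le_left (by positivity) h1
      have h10 : ((n : ℕ) : ℝ) ^ (-σ) ≤ ak k n * ((n : ℕ) : ℝ) ^ (-σ) :=
        le_mul_of_one_le_left (by positivity) h2
      exact mul_le_mul (h6.trans h9) (h7.trans h10) h8 (h8.trans (h6.trans h9))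
  have hsum : ∃ R : ℝ, SS k N (σ : ℂ) = (R : ℂ) ∧ N * ((2 * N : ℝ) * (2 * N)) ^ (-σ) ≤ R := by
    choose! r hr using hsn
    refine ⟨∑ n ∈ Finset.Ico N (2 * N), r n, ?_, ?_⟩
    · unfold SS
      rw [Complex.ofReal_sum]
      exact Finset.sum_congr rfl fun n hn => (hr n hn).1
    · have := Finset.sum_le_sum fun n hn => (hr n hn).2
      refine le_trans (le_of_eq ?_) this
      rw [Finset.sum_const, Nat.card_Ico, nsmul_eq_mul]
      congr 2
      omega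
  obtain ⟨R, hR, hR2⟩ := hsum
  rw [hR, Complex.norm_real]
  refine le_trans ?_ (hR2.trans (le_abs_self R))
  have h1 : ((2 * N : ℝ) * (2 * N)) ^ (-σ) = 4 ^ (-σ) * (N : ℝ) ^ (-(2 * σ)) := by
    have : (2 * N : ℝ) * (2 * N) = 4 * (N : ℝ) ^ (2 : ℕ) := by ring
    rw [this, Real.mul_rpow (by norm_num) (by positivity), ← Real.rpow_natCast, ← Real.rpow_mul (by positivity)]
    congr 2
    push_cast
    ring
  have h3 : (N : ℝ) ^ (1 - 2 * σ) = N * (N : ℝ) ^ (-(2 * σ)) := by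
    rw [show 1 - 2 * σ = 1 + -(2 * σ) by ring, Real.rpow_add (by linarith), Real.rpow_one]
  rw [h1, h3]
  exact le_of_eq (by ring)

theorem SS_real_ge (k : ℕ) (hk : 1 ≤ k) (N : ℕ) (hN : 1 ≤ N) (σ : ℝ) (hσ : 1 / 2 < σ) (hσ2 : σ ≤ 2) :
    (N : ℝ) ^ (1 - 2 * σ) / 16 ≤ ‖SS k N (σ : ℂ)‖ := by
  refine le_trans ?_ (SS_real_ge' k hk N hN σ hσ)
  have h2 : (1 : ℝ) / 16 ≤ 4 ^ (-σ) := by
    calc (1 : ℝ) / 16 = 4 ^ (-2 : ℝ) := by
          rw [Real.rpow_neg (by norm_num)]; norm_num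
      _ ≤ 4 ^ (-σ) := Real.rpow_le_rpow_of_exponent_le (by norm_num) (by linarith)
  have h4 : 0 ≤ (N : ℝ) ^ (1 - 2 * σ) := by positivity
  nlinarith

end Pool.Agent.Helper156_SM
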