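import Pool.Agent.Helper156_SM.Off

set_option autoImplicit false

/-!
# The twisted moment to the right of the line `Re s = 1`
-/

open MeasureTheory Set Filter

namespace Pool.Agent.Helper156_SM

/-- The shifted product. -/
noncomputable def zk (k : ℕ) (s : ℂ) (t : ℝ) : ℂ :=
  riemannZeta (s + t * Complex.I) ^ k * riemannZeta (s - t * Complex.I) ^ k

/-- The twisted moment. -/
noncomputable def KK (k N : ℕ) (T W : ℝ) (s : ℂ) : ℂ :=
  ∫ t in T..(2 * T), (gw T W t : ℂ) * Dp (fun _ => 1) N t * zk k s t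

/-- the terms of the diagonal -/
noncomputable def snt (k n l : ℕ) (s : ℂ) : ℂ :=
  ((ak k ((n + 1) * l) : ℂ) * (((n + 1) * l : ℕ) : ℂ) ^ (-s)) * ((ak k (n * l) : ℂ) * ((n * l : ℕ) : ℂ) ^ (-s))

/-- The diagonal for one frequency. -/
noncomputable def sn (k n : ℕ) (s : ℂ) : ℂ := ∑' l : ℕ, snt k n l s

/-- The diagonal. -/
noncomputable def SS (k N : ℕ) (s : ℂ) : ℂ := ∑ n ∈ Finset.Ico N (2 * N), sn k n s

/-- the pair terms -/
noncomputable def pt (k : ℕ) (s : ℂ) (p : ℕ × ℕ) : ℂ :=
  ((ak k p.1 : ℂ) * (p.1 : ℂ) ^ (-s)) * ((ak k p.2 : ℂ) * (p.2 : ℂ) ^ (-s))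

theorem pt_norm (k : ℕ) {s : ℂ} {ε : ℝ} (hs : s.re = 1 + 4 * ε) (p : ℕ × ℕ) : ‖pt k s p‖ = bb k ε p := by
  have h : ∀ n : ℕ, ‖(ak k n : ℂ) * (n : ℂ) ^ (-s)‖ = ak k n * (n : ℝ) ^ (-(1 + 4 * ε)) := by
    intro n
    rw [norm_mul, Complex.norm_real, Real.norm_of_nonneg (ak_nonneg _ _)]
    rcases Nat.eq_zero_or_pos n with h0 | h0
    · rw [h0, ak_zero]; simp
    · rw [Complex.norm_natCast_cpow_of_pos h0, Complex.neg_re, hs]
  unfold pt bb
  rw [norm_mul, h, h]

theorem pt_summable (k : ℕ) {s : ℂ} {ε : ℝ} (hε : 0 < ε) (hs : s.re = 1 + 4 * ε) : Summable (pt k s) := by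
  apply Summable.of_norm
  refine (bb_summable k hε).congr fun p => ?_
  rw [pt_norm k hs]

theorem cpow_twist (n : ℕ) (hn : 1 ≤ n) (s : ℂ) (t : ℝ) :
    (n : ℂ) ^ (-(s + t * Complex.I)) = (n : ℂ) ^ (-s) * Complex.exp ((-(Real.log n) * t : ℝ) * Complex.I) := by
  have h0 : (n : ℂ) ≠ 0 := by exact_mod_cast (by omega : n ≠ 0)
  rw [neg_add, Complex.cpow_add _ _ h0]
  congr 1
  rw [Complex.cpow_def_of_ne_zero h0, ← Complex.natCast_log]
  congr 1
  push_cast
  ring

theorem term_eq (k : ℕ) (s : ℂ) (t : ℝ) (p : ℕ × ℕ) :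
    pt k s p * Complex.exp (((Real.log p.2 - Real.log p.1) * t : ℝ) * Complex.I) =
      ((ak k p.1 : ℂ) * (p.1 : ℂ) ^ (-(s + t * Complex.I))) *
      ((ak k p.2 : ℂ) * (p.2 : ℂ) ^ (-(s - t * Complex.I))) := by
  unfold pt
  rcases Nat.eq_zero_or_pos p.1 with hp | hp
  · rw [hp, ak_zero]; simp
  rcases Nat.eq_zero_or_pos p.2 with hp2 | hp2
  · rw [hp2, ak_zero]; simp
  have e1 := cpow_twist p.1 hp s t
  have e2 := cpow_twist p.2 hp2 s (-t)
  have e3 : s - t * Complex.I = s + ((-t : ℝ) : ℂ) * Complex.I := by push_cast; ring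
  rw [e3, e1, e2]
  have e4 : Complex.exp (((Real.log p.2 - Real.log p.1) * t : ℝ) * Complex.I) =
      Complex.exp ((-(Real.log p.1) * t : ℝ) * Complex.I) * Complex.exp ((-(Real.log p.2) * (-t) : ℝ) * Complex.I) := by
    rw [← Complex.exp_add]
    congr 1
    push_cast
    ring
  rw [e4]
  ring

theorem prod_hasSum {f g : ℕ → ℂ} {a b : ℂ} (h1 : HasSum f a) (h2 : HasSum g b) :
    HasSum (fun p : ℕ × ℕ => f p.1 * g p.2) (a * b) :=
  h1.mul h2 (summable_mul_of_summable_norm h1.summable.norm h2.summable.norm)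

theorem zk_hasSum (k : ℕ) {s : ℂ} (hs : 1 < s.re) (t : ℝ) :
    HasSum (fun p : ℕ × ℕ => pt k s p * Complex.exp (((Real.log p.2 - Real.log p.1) * t : ℝ) * Complex.I)) (zk k s t) := by
  have h1 := ak_hasSum k (s := s + t * Complex.I) (by simpa using hs)
  have h2 := ak_hasSum k (s := s - t * Complex.I) (by simpa using hs)
  have h4 := prod_hasSum h1 h2
  rw [show (fun p : ℕ × ℕ => pt k s p * Complex.exp (((Real.log p.2 - Real.log p.1) * t : ℝ) * Complex.I)) =
      fun p : ℕ × ℕ => ((ak k p.1 : ℂ) * (p.1 : ℂ) ^ (-(s + t * Complex.I))) *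
      ((ak k p.2 : ℂ) * (p.2 : ℂ) ^ (-(s - t * Complex.I))) from funext fun p => term_eq k s t p, zk]
  exact h4

theorem Kn_hasSum (k n : ℕ) {s : ℂ} {ε T W : ℝ} (hε : 0 < ε) (hs : s.re = 1 + 4 * ε) (hT : 0 < T) :
    HasSum (fun p : ℕ × ℕ => pt k s p * Ph T W (xi n p))
      (∫ t in T..(2 * T), (gw T W t : ℂ) * Complex.exp ((om n * t : ℝ) * Complex.I) * zk k s t) := by
  have hgc : Continuous fun t : ℝ => (gw T W t : ℂ) := Complex.continuous_ofReal.comp (gw_cont T W)
  set F : ℕ × ℕ → ℝ → ℂ := fun p t => pt k s p * ((gw T W t : ℂ) * Complex.exp ((xi n p * t : ℝ) * Complex.I)) with hF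
  have hFc : ∀ p, Continuous (F p) := by
    intro p
    rw [hF]
    fun_prop
  have hFn : ∀ p t, ‖F p t‖ ≤ bb k ε p := by
    intro p t
    rw [hF]
    simp only
    rw [norm_mul, norm_mul, Complex.norm_exp_ofReal_mul_I, mul_one, Complex.norm_real,
      Real.norm_of_nonneg (gw_pos _ _ _).le, pt_norm k hs]
    exact mul_le_of_le_one_right (bb_nonneg k ε p) (gw_le_one _ _ _)
  have hint : ∀ p, Integrable (F p) (volume.restrict (Ioc T (2 * T))) := fun p =>
    ((hFc p).continuousOn.integrableOn_compact isCompact_Icc).mono_set Ioc_subset_Icc_self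
  have h1 : HasSum (fun p => ∫ t in Ioc T (2 * T), F p t) (∫ t in Ioc T (2 * T), ∑' p, F p t) := by
    apply hasSum_integral_of_summable_integral_norm hint
    refine Summable.of_nonneg_of_le (fun p => integral_nonneg fun t => norm_nonneg _) (fun p => ?_)
      ((bb_summable k hε).mul_left T)
    have h2 : ∫ t in Ioc T (2 * T), ‖F p t‖ ≤ ∫ t in Ioc T (2 * T), bb k ε p := by
      apply setIntegral_mono_on (hint p).norm (by simp) measurableSet_Ioc
      intro t _
      exact hFn p t
    refine h2.trans (le_of_eq ?_)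
    rw [setIntegral_const]
    simp only [smul_eq_mul, Measure.real, Real.volume_Ioc]
    rw [ENNReal.toReal_ofReal (by linarith)]
    ring
  have h3 : ∀ p, ∫ t in Ioc T (2 * T), F p t = pt k s p * Ph T W (xi n p) := by
    intro p
    rw [← intervalIntegral.integral_of_le (by linarith : T ≤ 2 * T), hF]
    simp only
    rw [intervalIntegral.integral_const_mul]
    rfl
  have h4 : (∫ t in Ioc T (2 * T), ∑' p, F p t) =
      ∫ t in T..(2 * T), (gw T W t : ℂ) * Complex.exp ((om n * t : ℝ) * Complex.I) * zk k s t := by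
    rw [intervalIntegral.integral_of_le (by linarith : T ≤ 2 * T)]
    congr 1
    funext t
    have h5 := ((zk_hasSum k (s := s) (by rw [hs]; linarith) t).mul_left
      ((gw T W t : ℂ) * Complex.exp ((om n * t : ℝ) * Complex.I))).tsum_eq
    rw [← h5]
    congr 1
    funext p
    rw [hF]
    simp only
    have e : Complex.exp ((xi n p * t : ℝ) * Complex.I) = Complex.exp ((om n * t : ℝ) * Complex.I) *
        Complex.exp (((Real.log p.2 - Real.log p.1) * t : ℝ) * Complex.I) := by
      rw [← Complex.exp_add]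
      congr 1
      unfold xi
      push_cast
      ring
    rw [e]
    ring
  rw [h4] at h1
  convert h1 using 1
  funext p
  rw [h3]

theorem diag_eq (k n : ℕ) (hn : 1 ≤ n) (s : ℂ) :
    ∑' p : ℕ × ℕ, (if ((n : ℝ) + 1) * p.2 - n * p.1 = 0 then pt k s p else 0) = sn k n s := by
  unfold sn
  set e : ℕ → ℕ × ℕ := fun l => ((n + 1) * l, n * l) with he
  have hinj : Function.Injective e := by
    intro a b h
    rw [he] at h
    simp only [Prod.mk.injEq] at h
    exact Nat.eq_of_mul_eq_mul_left (by omega) h.2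
  have hsup : Function.support (fun p : ℕ × ℕ => (if ((n : ℝ) + 1) * p.2 - n * p.1 = 0 then pt k s p else 0)) ⊆
      range e := by
    intro p hp
    rw [Function.mem_support] at hp
    by_cases h : ((n : ℝ) + 1) * p.2 - n * p.1 = 0
    · have h1 : (n + 1) * p.2 = n * p.1 := by
        have : ((n : ℝ) + 1) * p.2 = n * p.1 := by linarith
        exact_mod_cast this
      have h2 : n ∣ p.2 := by
        have h3 : n ∣ (n + 1) * p.2 := ⟨p.1, h1⟩
        exact (Nat.Coprime.dvd_mul_left (by simp)).1 h3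
      obtain ⟨l, hl⟩ := h2
      refine ⟨l, ?_⟩
      rw [he]
      simp only
      refine Prod.ext ?_ hl.symm
      simp only
      rw [hl] at h1
      have h4 : n * ((n + 1) * l) = n * p.1 := by rw [← h1]; ring
      exact Nat.eq_of_mul_eq_mul_left (by omega) h4
    · simp [h] at hp
  rw [← hinj.tsum_eq hsup]
  congr 1
  funext l
  rw [he]
  simp only
  rw [if_pos (by push_cast; ring)]
  unfold pt snt
  rfl

theorem Ph_le {T W ξ : ℝ} (hT : 0 < T) (hW : 0 < W) : ‖Ph T W ξ‖ ≤ 5 * W := by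
  refine (Ph_bound hT hW).trans ?_
  have h1 : Real.exp (-(ξ ^ 2 * W ^ 2 / 4)) ≤ 1 := by
    rw [Real.exp_le_one_iff]
    have : 0 ≤ ξ ^ 2 * W ^ 2 / 4 := by positivity
    linarith
  have h2 : Real.exp (-(T ^ 2 / (8 * W ^ 2))) ≤ 1 := by
    rw [Real.exp_le_one_iff]
    have : 0 ≤ T ^ 2 / (8 * W ^ 2) := by positivity
    linarith
  nlinarith

/-- The twisted moment to the right of `1` is its diagonal up to a small error. -/
theorem expand (k : ℕ) {ε : ℝ} (hε : 0 < ε) (hε1 : ε ≤ 1 / 4) : ∃ C : ℝ, 0 < C ∧ ∀ N : ℕ, 1 ≤ N →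
    ∀ T W : ℝ, 0 < T → 0 < W → ∀ s : ℂ, s.re = 1 + 4 * ε →
    ‖KK k N T W s - Ph T W 0 * SS k N s‖ ≤
      C * (N * (W * (N / W) ^ 3 + W * (N / W) ^ (1 + 2 * ε) * (N : ℝ) ^ (-(1 + 4 * ε)) +
        W * Real.exp (-(T ^ 2 / (8 * W ^ 2))))) := by
  obtain ⟨C, hC, h⟩ := off_sum k hε hε1
  have hB : 0 ≤ ∑' p, bb k ε p := tsum_nonneg (bb_nonneg k ε)
  refine ⟨2 * C + 3 * (∑' p, bb k ε p), by positivity, fun N hN T W hT hW s hs => ?_⟩
  have hN' : (1 : ℝ) ≤ N := by exact_mod_cast hN
  -- splitting the sum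
  have hzc : IntervalIntegrable (fun t => zk k s t) volume T (2 * T) := by
    apply Continuous.intervalIntegrable
    unfold zk
    have hz : ∀ w : ℝ → ℂ, Continuous w → (∀ t, (w t).re = 1 + 4 * ε) → Continuous fun t => riemannZeta (w t) := by
      intro w hw hre
      rw [continuous_iff_continuousAt]
      intro t
      have h1 : w t ≠ 1 := by
        intro h2
        have := hre t
        rw [h2, Complex.one_re] at this
        linarith
      exact ContinuousAt.comp (differentiableAt_riemannZeta h1).continuousAt hw.continuousAt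
    exact ((hz _ (by fun_prop) (fun t => by simp [hs])).pow k).mul ((hz _ (by fun_prop) (fun t => by simp [hs])).pow k)
  have hK : KK k N T W s = ∑ n ∈ Finset.Ico N (2 * N),
      ∫ t in T..(2 * T), (gw T W t : ℂ) * Complex.exp ((om n * t : ℝ) * Complex.I) * zk k s t := by
    unfold KK Dp
    rw [← intervalIntegral.integral_finsetSum]
    · congr 1
      funext t
      rw [Finset.mul_sum, Finset.sum_mul]
      refine Finset.sum_congr rfl fun n _ => ?_
      ring
    · intro n _
      apply IntervalIntegrable.continuousOn_mul hzc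
      have := gw_cont T W
      apply Continuous.continuousOn
      fun_prop
  rw [hK]
  unfold SS
  rw [Finset.mul_sum, ← Finset.sum_sub_distrib]
  have hn : ∀ n ∈ Finset.Ico N (2 * N), ‖(∫ t in T..(2 * T), (gw T W t : ℂ) *
      Complex.exp ((om n * t : ℝ) * Complex.I) * zk k s t) - Ph T W 0 * sn k n s‖ ≤
      2 * W * (C * ((N / W) ^ 3 + (N / W) ^ (1 + 2 * ε) * (N : ℝ) ^ (-(1 + 4 * ε)))) +
        3 * W * Real.exp (-(T ^ 2 / (8 * W ^ 2))) * ∑' p, bb k ε p := by
    intro n hn
    have hn' := Finset.mem_Ico.1 hn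
    have hn1 : 1 ≤ n := by omega
    have h1 := Kn_hasSum k n (W := W) hε hs hT
    rw [← h1.tsum_eq, ← diag_eq k n hn1 s, ← tsum_mul_left]
    have hsum2 : Summable fun p : ℕ × ℕ => Ph T W 0 * (if ((n : ℝ) + 1) * p.2 - n * p.1 = 0 then pt k s p else 0) := by
      apply Summable.mul_left
      apply Summable.of_norm_bounded (bb_summable k hε)
      intro p
      split_ifs
      · rw [pt_norm k hs]
      · rw [norm_zero]; exact bb_nonneg k ε p
    rw [← h1.summable.tsum_sub hsum2]
    set G : ℕ × ℕ → ℝ := fun p => 2 * W * (if ((n : ℝ) + 1) * p.2 - n * p.1 ≠ 0 then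
      bb k ε p * Real.exp (-(xi n p ^ 2 * W ^ 2 / 4)) else 0) +
      3 * W * Real.exp (-(T ^ 2 / (8 * W ^ 2))) * bb k ε p with hG
    have hsG1 : Summable fun p : ℕ × ℕ => (if ((n : ℝ) + 1) * p.2 - n * p.1 ≠ 0 then
      bb k ε p * Real.exp (-(xi n p ^ 2 * W ^ 2 / 4)) else 0) := by
      refine Summable.of_nonneg_of_le (fun p => ?_) (fun p => ?_) (bb_summable k hε)
      · split_ifs
        · exact mul_nonneg (bb_nonneg k ε p) (Real.exp_pos _).le
        · exact le_rfl
      · split_ifs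
        · apply mul_le_of_le_one_right (bb_nonneg k ε p)
          rw [Real.exp_le_one_iff]
          have : 0 ≤ xi n p ^ 2 * W ^ 2 / 4 := by positivity
          linarith
        · exact bb_nonneg k ε p
    have hsG : Summable G := (hsG1.mul_left _).add ((bb_summable k hε).mul_left _)
    have hGe : ∑' p, G p = 2 * W * (∑' p : ℕ × ℕ, (if ((n : ℝ) + 1) * p.2 - n * p.1 ≠ 0 then
      bb k ε p * Real.exp (-(xi n p ^ 2 * W ^ 2 / 4)) else 0)) +
      3 * W * Real.exp (-(T ^ 2 / (8 * W ^ 2))) * ∑' p, bb k ε p := by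
      rw [hG, (hsG1.mul_left _).tsum_add ((bb_summable k hε).mul_left _), tsum_mul_left, tsum_mul_left]
    refine (tsum_of_norm_bounded (f := fun p : ℕ × ℕ => pt k s p * Ph T W (xi n p) -
      Ph T W 0 * (if ((n : ℝ) + 1) * p.2 - n * p.1 = 0 then pt k s p else 0)) hsG.hasSum (fun p => ?_)).trans ?_
    · rw [hG]
      simp only
      by_cases hj : ((n : ℝ) + 1) * p.2 - n * p.1 = 0
      · rw [if_pos hj, if_neg (by simpa using hj)]
        have h0 : 0 ≤ 3 * W * Real.exp (-(T ^ 2 / (8 * W ^ 2))) * bb k ε p := by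
          have := bb_nonneg k ε p
          positivity
        rcases Nat.eq_zero_or_pos p.1 with hp | hp
        · have : pt k s p = 0 := by unfold pt; rw [hp, ak_zero]; simp
          rw [this]; simpa using h0
        rcases Nat.eq_zero_or_pos p.2 with hp2 | hp2
        · have : pt k s p = 0 := by unfold pt; rw [hp2, ak_zero]; simp
          rw [this]; simpa using h0
        have hx : xi n p = 0 := by
          unfold xi om
          have ha : (1 : ℝ) ≤ p.1 := by exact_mod_cast hp
          have hb : (1 : ℝ) ≤ p.2 := by exact_mod_cast hp2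
          have hn0 : (1 : ℝ) ≤ n := by exact_mod_cast hn1
          rw [Real.log_div (by positivity) (by positivity)]
          have h5 : Real.log (((n : ℝ) + 1) * p.2) = Real.log (n * p.1) := by
            congr 1; linarith
          rw [Real.log_mul (by positivity) (by positivity), Real.log_mul (by positivity) (by positivity)] at h5
          linarith
        rw [hx, mul_comm, sub_self, norm_zero]
        simpa using h0
      · rw [if_neg hj, if_pos hj, mul_zero, sub_zero, norm_mul, pt_norm k hs]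
        have h2 := Ph_bound (ξ := xi n p) hT hW
        have h3 := bb_nonneg k ε p
        calc bb k ε p * ‖Ph T W (xi n p)‖ ≤ bb k ε p * (2 * W * Real.exp (-(xi n p ^ 2 * W ^ 2 / 4)) +
              3 * W * Real.exp (-(T ^ 2 / (8 * W ^ 2)))) := by gcongr
          _ = _ := by ring
    · rw [hGe]
      gcongr
      exact h N n hN hn W hW
  refine (norm_sum_le _ _).trans ((Finset.sum_le_sum hn).trans ?_)
  rw [Finset.sum_const, Nat.card_Ico, nsmul_eq_mul]
  have hcard : ((2 * N - N : ℕ) : ℝ) = N := by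
    congr 1; omega
  rw [hcard]
  set B := ∑' p, bb k ε p
  set x := (N / W) ^ 3 with hx
  set y := (N / W) ^ (1 + 2 * ε) * (N : ℝ) ^ (-(1 + 4 * ε)) with hy
  set z := Real.exp (-(T ^ 2 / (8 * W ^ 2))) with hz
  have hx0 : 0 ≤ x := by positivity
  have hy0 : 0 ≤ y := by positivity
  have hz0 : 0 ≤ z := by positivity
  have e1 : W * (N / W) ^ (1 + 2 * ε) * (N : ℝ) ^ (-(1 + 4 * ε)) = W * y := by rw [hy]; ring
  rw [e1]
  have h6 : 2 * W * (C * (x + y)) + 3 * W * z * B ≤ (2 * C + 3 * B) * (W * x + W * y + W * z) := by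
    have h7 : 0 ≤ 3 * B * (W * x + W * y) := by positivity
    have h8 : 0 ≤ 2 * C * (W * z) := by positivity
    nlinarith
  calc (N : ℝ) * (2 * W * (C * (x + y)) + 3 * W * z * B) ≤ N * ((2 * C + 3 * B) * (W * x + W * y + W * z)) := by gcongr
    _ = (2 * C + 3 * B) * (N * (W * x + W * y + W * z)) := by ring

end Pool.Agent.Helper156_SM
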