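import Pool.Agent.Helper156_SM.Par

set_option autoImplicit false

/-!
# Two lines
-/

open MeasureTheory Set Filter

namespace Pool.Agent.Helper156_SM

theorem finB {k : ℕ} (hk : 1 ≤ k) {η θ θ1 : ℝ} (hη : 0 < η) (hη1 : η < 1 / 4) (hθ : 0 ≤ θ) (hθ1 : 0 ≤ θ1)
    (h : (1 + 6 * η) * θ1 < (1 - 4 * η) * (2 * η - (1 - 2 * η) * θ)) :
    ¬ (HasLineError k (1 / 2) θ ∧ HasLineError k (1 / 2 + η) θ1) := by
  rintro ⟨h1, h2⟩
  have E1 : ∀ᶠ s in nhdsWithin (0 : ℝ) (Ioi 0), (1 + 6 * η) * (θ1 + s) - (1 - 4 * η) * (2 * η - (1 - 2 * η) * (θ + s)) < 0 :=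
    ev0 (by fun_prop) (by simp only [add_zero]; linarith)
  obtain ⟨s, hs1, hs2⟩ := (E1.and self_mem_nhdsWithin).exists
  have hs : 0 < s := hs2
  set θ' := θ + s with hθ'
  set θ1' := θ1 + s with hθ1'
  have h4η : 0 < 1 - 4 * η := by linarith
  -- the parameter
  have hν0 : 2 * θ1' / (1 - 4 * η) < (4 * η - 2 * θ' * (1 - 2 * η)) / (1 + 6 * η) := by
    rw [div_lt_div_iff₀ h4η (by positivity)]
    nlinarith
  set ν := (2 * θ1' / (1 - 4 * η) + (4 * η - 2 * θ' * (1 - 2 * η)) / (1 + 6 * η)) / 2 with hν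
  have hν1 : 2 * θ1' / (1 - 4 * η) < ν := by rw [hν]; linarith
  have hν2 : ν < (4 * η - 2 * θ' * (1 - 2 * η)) / (1 + 6 * η) := by rw [hν]; linarith
  have hνp : 0 < ν := lt_of_le_of_lt (by positivity) hν1
  have hνh : ν < 1 / 2 := by
    refine hν2.trans_le ?_
    rw [div_le_div_iff₀ (by positivity) (by norm_num)]
    have : 0 ≤ θ' * (1 - 2 * η) := mul_nonneg (by linarith) (by linarith)
    nlinarith
  rw [div_lt_iff₀ h4η] at hν1
  rw [lt_div_iff₀ (by positivity)] at hν2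
  have E2 : ∀ᶠ e in nhdsWithin (0 : ℝ) (Ioi 0), (1 + θ' + ν / 2 - 2 * (1 + θ' - ν / 2) * η +
      (5 + 2 * (1 + θ' - ν / 2)) * e) - (1 - 2 * η * ν - e) < 0 :=
    ev0 (by fun_prop) (by simp only [mul_zero, add_zero, sub_zero]; nlinarith)
  have E3 : ∀ᶠ e in nhdsWithin (0 : ℝ) (Ioi 0), (θ1' - ν / 2 + 2 * e) - (-(2 * η * ν) - 2 * e) < 0 :=
    ev0 (by fun_prop) (by simp only [mul_zero, add_zero, sub_zero]; nlinarith)
  have E4 : ∀ᶠ e in nhdsWithin (0 : ℝ) (Ioi 0), e - η < 0 := ev0 (by fun_prop) (by linarith)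
  obtain ⟨e, ⟨⟨⟨a1, a2⟩, a3⟩, a4⟩⟩ := (((E2.and E3).and E4).and self_mem_nhdsWithin).exists
  have he : 0 < e := a4
  have hB := coreB hk hνp hνh he (by linarith) (by linarith : 0 ≤ θ') (by linarith : 0 ≤ θ1') (by linarith : e ≤ η)
    (by linarith) (by linarith) (by linarith)
  have c1 : ∀ᶠ T : ℝ in atTop, Close k (1 / 2) T θ' e := by
    have := close_of_err (s := ((1 / 2 : ℝ) : ℂ)) (by rw [Complex.ofReal_re]; norm_num) (hasErr_of_hasLineError h1)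
      (by linarith : θ < θ') (by linarith : 0 < θ') he
    refine this.mono fun T hT => ?_
    push_cast at hT
    exact hT
  have c2 : ∀ᶠ T : ℝ in atTop, Close k ((1 / 2 + η : ℝ) : ℂ) T θ1' e := by
    exact close_of_err (s := ((1 / 2 + η : ℝ) : ℂ)) (by rw [Complex.ofReal_re]; linarith) (hasErr_of_hasLineError h2)
      (by linarith : θ1 < θ1') (by linarith : 0 < θ1') he
  obtain ⟨T, ⟨⟨hT1, hT2⟩, hT3⟩⟩ := ((hB.and c1).and c2).exists
  exact hT1 hT2 hT3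

end Pool.Agent.Helper156_SM
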