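import Pool.Agent.Helper156_SM.Defs
import Pool.Agent.Helper156_SM.CoreN

set_option autoImplicit false

/-!
# From the asymptotic formulas to the local statements
-/

open MeasureTheory Set Filter

namespace Pool.Agent.Helper156_SM

open Pool.Agent.Helper156_EK

theorem zk_cont (k : ℕ) {s : ℂ} (hs : s.re ≠ 1) : Continuous (zk k s) := by
  have hz : ∀ w : ℝ → ℂ, Continuous w → (∀ t, (w t).re = s.re) → Continuous fun t => riemannZeta (w t) := by
    intro w hw hre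
    rw [continuous_iff_continuousAt]
    intro t
    have h1 : w t ≠ 1 := by
      intro h2
      have := hre t
      rw [h2, Complex.one_re] at this
      exact hs this.symm
    exact ContinuousAt.comp (differentiableAt_riemannZeta h1).continuousAt hw.continuousAt
  unfold zk
  exact ((hz _ (by fun_prop) (fun t => by simp)).pow k).mul ((hz _ (by fun_prop) (fun t => by simp)).pow k)

theorem zk_shift (k : ℕ) (u t : ℝ) : zk k (1 / 2 + u * Complex.I) t =
    riemannZeta (1 / 2 + (t + u) * Complex.I) ^ k * (starRingEnd ℂ) (riemannZeta (1 / 2 + (t - u) * Complex.I)) ^ k := by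
  unfold zk
  rw [← riemannZeta_conj]
  congr 3
  · ring
  · rw [map_add, map_mul, Complex.conj_I, map_sub, Complex.conj_ofReal, Complex.conj_ofReal, map_div₀, map_one,
      Complex.conj_ofNat]
    ring

theorem zk_line_real (k : ℕ) (σ t : ℝ) : zk k (σ : ℂ) t = ((‖riemannZeta (σ + t * Complex.I)‖ ^ (2 * k) : ℝ) : ℂ) := by
  unfold zk
  have h1 : (σ : ℂ) - t * Complex.I = (starRingEnd ℂ) (σ + t * Complex.I) := by
    rw [map_add, map_mul, Complex.conj_I, Complex.conj_ofReal, Complex.conj_ofReal]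
    ring
  rw [h1, riemannZeta_conj, ← map_pow, Complex.mul_conj, Complex.normSq_eq_norm_sq, norm_pow]
  rw [← pow_mul, mul_comm k 2]

/-- the general form -/
def HasErr (k : ℕ) (s : ℂ) (θ : ℝ) : Prop :=
  ∃ M : ℝ → ℂ, IsMainTerm M ∧ ∃ C T₀ : ℝ, ∀ T : ℝ, T₀ ≤ T → ‖(∫ t in (0 : ℝ)..T, zk k s t) - M T‖ ≤ C * T ^ θ

theorem hasErr_of_hasError {k : ℕ} {u θ : ℝ} (h : HasError k u θ) : HasErr k (1 / 2 + u * Complex.I) θ := by
  obtain ⟨M, hM, C, T₀, h1⟩ := h
  refine ⟨M, hM, C, T₀, fun T hT => ?_⟩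
  have := h1 T hT
  unfold shiftedMoment at this
  have e : ∀ T : ℝ, ∫ t in (0 : ℝ)..T, zk k (1 / 2 + u * Complex.I) t =
      ∫ t in (0 : ℝ)..T, riemannZeta (1 / 2 + (t + u) * Complex.I) ^ k *
    (starRingEnd ℂ) (riemannZeta (1 / 2 + (t - u) * Complex.I)) ^ k := by
    intro T
    congr 1
    funext t
    exact zk_shift k u t
  rw [e]
  exact this

theorem hasErr_of_hasLineError {k : ℕ} {σ θ : ℝ} (h : HasLineError k σ θ) : HasErr k (σ : ℂ) θ := by
  obtain ⟨M, hM, C, T₀, h1⟩ := h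
  refine ⟨M, hM, C, T₀, fun T hT => ?_⟩
  have := h1 T hT
  have e : ∀ T : ℝ, ∫ t in (0 : ℝ)..T, zk k (σ : ℂ) t =
      ((∫ t in (0 : ℝ)..T, ‖riemannZeta (σ + t * Complex.I)‖ ^ (2 * k) : ℝ) : ℂ) := by
    intro T
    rw [← intervalIntegral.integral_ofReal]
    congr 1
    funext t
    exact zk_line_real k σ t
  rw [e]
  exact this

theorem close_of_err {k : ℕ} {s : ℂ} {θ θ' δ : ℝ} (hs : s.re ≠ 1) (h : HasErr k s θ) (hθ : θ < θ') (hθ' : 0 < θ')
    (hδ : 0 < δ) : ∀ᶠ T : ℝ in atTop, Close k s T θ' δ := by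
  obtain ⟨M, ⟨M', M'', hM, hM', hM'', hb⟩, C, T₀, h1⟩ := h
  set δ1 := min (δ / 2) 1 with hδ1
  have hδ10 : 0 < δ1 := lt_min (by linarith) (by norm_num)
  have hδ11 : δ1 ≤ 1 := min_le_right _ _
  have hδ12 : δ1 ≤ δ / 2 := min_le_left _ _
  obtain ⟨C1, hC1⟩ := hb δ1 hδ10
  set θ'' := max θ 0 with hθ''
  have hθ''0 : 0 ≤ θ'' := le_max_right _ _
  have hθ''1 : θ'' < θ' := max_lt hθ hθ'
  have ev1 := ev_pow (|C1| * 2) (a := δ1) (b := δ) (by linarith)
  have ev2 := ev_pow (|C1|) (a := δ1 - 1) (b := δ - 1) (by linarith)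
  have ev3 := ev_pow (|C| * (2 ^ θ'' + 1)) (a := θ'') (b := θ') hθ''1
  filter_upwards [ev1, ev2, ev3, eventually_ge_atTop 1, eventually_ge_atTop T₀] with T e1 e2 e3 hT hT0
  have hT1 : 0 < T := by linarith
  have hzc := zk_cont k hs
  refine ⟨fun t => M t - M T, M', M'', ?_, ?_, ?_, ?_, ?_, ?_⟩
  · intro t ht
    exact (hM t (hT.trans ht.1)).sub_const _
  · intro t ht
    exact hM' t (hT.trans ht.1)
  · exact hM''.mono fun t ht => hT.trans ht.1
  · intro t ht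
    have h2 := (hC1 t (hT.trans ht.1)).1
    have ht0 : 0 < t := lt_of_lt_of_le hT1 ht.1
    calc ‖M' t‖ ≤ C1 * t ^ δ1 := h2
      _ ≤ |C1| * t ^ δ1 := by gcongr; exact le_abs_self _
      _ ≤ |C1| * (2 * T) ^ δ1 := by
          gcongr
          exact ht.2
      _ = |C1| * 2 ^ δ1 * T ^ δ1 := by rw [Real.mul_rpow (by norm_num) hT1.le]; ring
      _ ≤ |C1| * 2 * T ^ δ1 := by
          gcongr
          calc (2 : ℝ) ^ δ1 ≤ 2 ^ (1 : ℝ) := Real.rpow_le_rpow_of_exponent_le (by norm_num) hδ11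
            _ = 2 := Real.rpow_one 2
      _ ≤ T ^ δ := e1
  · intro t ht
    have h2 := (hC1 t (hT.trans ht.1)).2
    have ht0 : 0 < t := lt_of_lt_of_le hT1 ht.1
    calc ‖M'' t‖ ≤ C1 * t ^ (δ1 - 1) := h2
      _ ≤ |C1| * t ^ (δ1 - 1) := by gcongr; exact le_abs_self _
      _ ≤ |C1| * T ^ (δ1 - 1) := by
          apply mul_le_mul_of_nonneg_left _ (abs_nonneg _)
          exact Real.rpow_le_rpow_of_nonpos hT1 ht.1 (by linarith)
      _ ≤ T ^ (δ - 1) := e2
  · intro t ht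
    have ht1 : 1 ≤ t := hT.trans ht.1
    have ht0 : 0 < t := by linarith
    have h2 : SM k s T t = (∫ v in (0 : ℝ)..t, zk k s v) - ∫ v in (0 : ℝ)..T, zk k s v := by
      unfold SM
      rw [intervalIntegral.integral_interval_sub_left (hzc.intervalIntegrable _ _) (hzc.intervalIntegrable _ _)]
    have h3 := h1 t (hT0.trans ht.1)
    have h4 := h1 T hT0
    have h5 : ∀ x : ℝ, 1 ≤ x → x ≤ 2 * T → C * x ^ θ ≤ |C| * (2 ^ θ'' * T ^ θ'') := by
      intro x hx1 hx2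
      calc C * x ^ θ ≤ |C| * x ^ θ := by gcongr; exact le_abs_self _
        _ ≤ |C| * x ^ θ'' := by
            gcongr
            exact le_max_left _ _
        _ ≤ |C| * (2 * T) ^ θ'' := by gcongr
        _ = |C| * (2 ^ θ'' * T ^ θ'') := by rw [Real.mul_rpow (by norm_num) hT1.le]
    have h6 : C * T ^ θ ≤ |C| * T ^ θ'' := by
      calc C * T ^ θ ≤ |C| * T ^ θ := by gcongr; exact le_abs_self _
        _ ≤ |C| * T ^ θ'' := by
            gcongr
            exact le_max_left _ _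
    have h7 := h5 t ht1 ht.2
    rw [h2]
    have h8 : (∫ v in (0 : ℝ)..t, zk k s v) - (∫ v in (0 : ℝ)..T, zk k s v) - (M t - M T) =
        ((∫ v in (0 : ℝ)..t, zk k s v) - M t) - ((∫ v in (0 : ℝ)..T, zk k s v) - M T) := by ring
    rw [h8]
    refine (norm_sub_le _ _).trans ?_
    calc ‖(∫ v in (0 : ℝ)..t, zk k s v) - M t‖ + ‖(∫ v in (0 : ℝ)..T, zk k s v) - M T‖
        ≤ |C| * (2 ^ θ'' * T ^ θ'') + |C| * T ^ θ'' := by linarith
      _ = |C| * (2 ^ θ'' + 1) * T ^ θ'' := by ring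
      _ ≤ T ^ θ' := e3

/-- passing from the local statements to the global one -/
theorem meas_global {k : ℕ} {θ θ' e a b X : ℝ} (hθ : θ < θ') (hθ' : 0 < θ') (he : 0 < e)
    (hloc : ∀ᶠ T : ℝ in atTop, Close k (1 / 2) T θ' e →
      volume {u : ℝ | u ∈ Icc a b ∧ Close k (1 / 2 + u * Complex.I) T θ' e} < ENNReal.ofReal X)
    (h0 : HasError k 0 θ) : volume {u : ℝ | u ∈ Icc a b ∧ HasError k u θ} ≤ ENNReal.ofReal X := by
  have hre : ∀ u : ℝ, (1 / 2 + (u : ℂ) * Complex.I).re ≠ 1 := by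
    intro u
    have : (1 / 2 + (u : ℂ) * Complex.I).re = 1 / 2 := by simp
    rw [this]; norm_num
  set Z : ℕ → Set ℝ := fun m => {u | u ∈ Icc a b ∧ ∀ T : ℝ, (m : ℝ) ≤ T → Close k (1 / 2 + u * Complex.I) T θ' e} with hZ
  have hmono : Monotone Z := by
    intro m n hmn u hu
    refine ⟨hu.1, fun T hT => hu.2 T ?_⟩
    have : (m : ℝ) ≤ n := by exact_mod_cast hmn
    linarith
  have hsub : {u : ℝ | u ∈ Icc a b ∧ HasError k u θ} ⊆ ⋃ m, Z m := by
    intro u hu
    have h1 := close_of_err (hre u) (hasErr_of_hasError hu.2) hθ hθ' he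
    obtain ⟨T1, hT1⟩ := eventually_atTop.1 h1
    rw [mem_iUnion]
    refine ⟨⌈T1⌉₊, hu.1, fun T hT => hT1 T ((Nat.le_ceil T1).trans hT)⟩
  have h0' : ∀ᶠ T : ℝ in atTop, Close k (1 / 2) T θ' e := by
    have h1 := close_of_err (hre 0) (hasErr_of_hasError h0) hθ hθ' he
    refine h1.mono fun T hT => ?_
    simpa using hT
  refine (measure_mono hsub).trans ?_
  rw [hmono.measure_iUnion]
  apply iSup_le
  intro m
  obtain ⟨T, ⟨hT1, hT2⟩, hT3⟩ := ((hloc.and h0').and (eventually_ge_atTop (m : ℝ))).exists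
  refine le_trans (measure_mono ?_) (hT1 hT2).le
  intro u hu
  exact ⟨hu.1, hu.2 T hT3⟩

end Pool.Agent.Helper156_SM
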