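import Pool.Agent.Helper156_SM.FinL
import Pool.Agent.Helper156_SM.Glob

set_option autoImplicit false

/-!
# Two vertical lines: the final statements
-/

open MeasureTheory Set Filter

namespace Pool.Agent.Helper156_SM

open Pool.Agent.Helper156_EK

theorem zkint_line (k : ℕ) (σ a b : ℝ) : ∫ t in a..b, zk k (σ : ℂ) t = ((∫ t in a..b, fl k σ t : ℝ) : ℂ) := by
  rw [← intervalIntegral.integral_ofReal]
  congr 1
  funext v
  exact zk_line_real k σ v

/-- a small error term on a line gives the mean value on this line -/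
theorem mean_of_line {k : ℕ} {σ θ e : ℝ} (hσ : σ ≠ 1) (hθ : θ < 1) (he : 0 < e) (h : HasLineError k σ θ) :
    ∀ᶠ T : ℝ in atTop, ∫ t in T..(2 * T), fl k σ t ≤ T ^ (1 + e) := by
  set θ' := (max θ 0 + 1) / 2 with hθ'
  have h1 : max θ 0 < 1 := max_lt hθ one_pos
  have h0 : 0 ≤ max θ 0 := le_max_right _ _
  have hcl := close_of_err (s := (σ : ℂ)) (by rw [Complex.ofReal_re]; exact hσ) (hasErr_of_hasLineError h)
    (by have := le_max_left θ 0; linarith : θ < θ') (by linarith : 0 < θ') (by linarith : 0 < e / 2)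
  have ev1 := ev_pow 4 (a := θ') (b := 1 + e) (by linarith)
  have ev2 := ev_pow 2 (a := 1 + e / 2) (b := 1 + e) (by linarith)
  filter_upwards [hcl, ev1, ev2, eventually_gt_atTop 0] with T h2 e1 e2 hT
  have h3 := int_of_close (by rw [Complex.ofReal_im, abs_zero]; exact hT) h2 le_rfl (by linarith : T ≤ 2 * T) le_rfl
  rw [zkint_line, Complex.norm_real, Real.norm_of_nonneg
    (intervalIntegral.integral_nonneg (by linarith) fun t _ => fl_nonneg k σ t)] at h3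
  have h4 : (2 * T - T) * T ^ (e / 2) = T ^ (1 + e / 2) := by
    rw [Real.rpow_add hT, Real.rpow_one]; ring
  rw [h4] at h3
  linarith

theorem lines_gen {k : ℕ} (hk : 1 ≤ k) {K σ1 σ2 θ : ℝ} (hK : 0 ≤ K) (h1 : 1 / 2 ≤ σ1) (h12 : σ1 < σ2)
    (h2 : σ2 < 3 / 4) (hpos : 0 < (1 + K) * (σ2 - σ1) - K * (1 - σ1))
    (h : 4 * σ2 * (1 - σ1) * θ < (3 - 4 * σ2) * ((1 + K) * (σ2 - σ1) - K * (1 - σ1)))
    (hI : ∀ e : ℝ, 0 < e → ∀ᶠ T : ℝ in atTop, ∫ t in T..(2 * T), fl k σ1 t ≤ T ^ (1 + K + e)) :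
    ¬ HasLineError k σ2 θ := by
  intro hE
  have h34 : 0 < 3 - 4 * σ2 := by linarith
  have hX : 0 < (3 - 4 * σ2) * ((1 + K) * (σ2 - σ1) - K * (1 - σ1)) := mul_pos h34 hpos
  have hY : 0 < 4 * σ2 * (1 - σ1) := mul_pos (by linarith) (by linarith)
  obtain ⟨θ', hθ1, hθ2⟩ : ∃ θ' : ℝ, max θ 0 < θ' ∧
      θ' < (3 - 4 * σ2) * ((1 + K) * (σ2 - σ1) - K * (1 - σ1)) / (4 * σ2 * (1 - σ1)) := by
    apply exists_between
    apply max_lt
    · rw [lt_div_iff₀ hY]; linarith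
    · positivity
  have h0 : 0 ≤ max θ 0 := le_max_right _ _
  have hθ' : 0 < θ' := by linarith
  rw [lt_div_iff₀ hY] at hθ2
  obtain ⟨e, he, hloc⟩ := lines_loc hk hK h1 h12 h2 hθ'.le (by linarith)
  have hcl := close_of_err (s := (σ2 : ℂ)) (by rw [Complex.ofReal_re]; linarith) (hasErr_of_hasLineError hE)
    (by have := le_max_left θ 0; linarith : θ < θ') hθ' he
  obtain ⟨T, ⟨⟨t1, t2⟩, t3⟩⟩ := ((hloc.and (hI e he)).and hcl).exists
  exact t1 t2 t3

/-- Two lines: if the error exponent on `Re s = σ1` is less than `1`, then the one on `Re s = σ2` is positive. -/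
theorem finL {k : ℕ} (hk : 1 ≤ k) {σ1 σ2 θ1 θ2 : ℝ} (h1 : 1 / 2 ≤ σ1) (h12 : σ1 < σ2) (h2 : σ2 < 3 / 4) (hθ1 : θ1 < 1)
    (hθ2 : θ2 < (σ2 - σ1) * (3 - 4 * σ2) / (4 * σ2 * (1 - σ1))) :
    ¬ (HasLineError k σ1 θ1 ∧ HasLineError k σ2 θ2) := by
  rintro ⟨hE1, hE2⟩
  rw [lt_div_iff₀ (mul_pos (by linarith) (by linarith))] at hθ2
  refine lines_gen hk (le_refl 0) h1 h12 h2 (by linarith) (by linarith) (fun e he => ?_) hE2
  have := mean_of_line (by linarith : σ1 ≠ 1) hθ1 he hE1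
  simpa using this

end Pool.Agent.Helper156_SM
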