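import Pool.Agent.Helper156_SM.Dense
import Pool.Agent.Helper156_SM.FinL2

set_option autoImplicit false

/-!
# Shifts with a small error exponent have small density
-/

open MeasureTheory Set Filter

namespace Pool.Agent.Helper156_SM

open Pool.Agent.Helper156_EK

theorem icc_cover {x l : ℝ} (hl : 0 < l) {M : ℕ} (hM : 1 ≤ M) :
    Icc x (x + l) ⊆ ⋃ i ∈ Finset.range M, Icc (x + i * (l / M)) (x + (i + 1) * (l / M)) := by
  intro y hy
  have hM0 : (0 : ℝ) < M := by exact_mod_cast hM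
  have hd : 0 < l / M := by positivity
  simp only [mem_iUnion, Finset.mem_range]
  rcases eq_or_lt_of_le hy.2 with h | h
  · refine ⟨M - 1, by omega, ?_, ?_⟩
    · rw [h]
      have e1 : ((M - 1 : ℕ) : ℝ) = M - 1 := by push_cast [hM]; ring
      rw [e1]
      have e2 : (M : ℝ) * (l / M) = l := by field_simp
      nlinarith
    · rw [h]
      have e1 : ((M - 1 : ℕ) : ℝ) = M - 1 := by push_cast [hM]; ring
      rw [e1]
      have e2 : (M : ℝ) * (l / M) = l := by field_simp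
      linarith
  · set i := ⌊(y - x) / (l / M)⌋₊ with hi
    have h0 : 0 ≤ (y - x) / (l / M) := div_nonneg (by linarith [hy.1]) hd.le
    have h1 : (i : ℝ) ≤ (y - x) / (l / M) := Nat.floor_le h0
    have h2 : (y - x) / (l / M) < i + 1 := Nat.lt_floor_add_one _
    rw [le_div_iff₀ hd] at h1
    rw [div_lt_iff₀ hd] at h2
    refine ⟨i, ?_, by linarith, by linarith⟩
    have h3 : (i : ℝ) < M := by
      have e2 : (M : ℝ) * (l / M) = l := by field_simp
      have : (i : ℝ) * (l / M) < M * (l / M) := by linarith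
      exact lt_of_mul_lt_mul_right this hd.le
    exact_mod_cast h3

/-- A set of positive proportion is dense in all the parts of some interval, at a bounded scale. -/
theorem comb (E : Set ℝ) {κ : ℝ} (hκ : 0 ≤ κ) {M : ℕ} (hM : 1 ≤ M) (n : ℕ) : ∀ x l : ℝ, 0 < l →
    ENNReal.ofReal ((κ + (1 - 1 / M) ^ n) * l) < volume (E ∩ Icc x (x + l)) →
    ∃ x' l' : ℝ, l / M ^ n ≤ l' ∧ l' ≤ l ∧ x ≤ x' ∧ x' + l' ≤ x + l ∧
      ∀ i < M, ENNReal.ofReal (κ * (l' / M)) < volume (E ∩ Icc (x' + i * (l' / M)) (x' + (i + 1) * (l' / M))) := by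
  have hM0 : (0 : ℝ) < M := by exact_mod_cast hM
  have hM1 : (1 : ℝ) ≤ M := by exact_mod_cast hM
  have hq0 : 0 ≤ 1 - 1 / (M : ℝ) := by
    rw [sub_nonneg, div_le_one hM0]; exact hM1
  induction n with
  | zero =>
    intro x l hl hv
    exfalso
    rw [pow_zero] at hv
    have h1 : volume (E ∩ Icc x (x + l)) ≤ ENNReal.ofReal l := by
      refine (measure_mono inter_subset_right).trans ?_
      rw [Real.volume_Icc]
      apply ENNReal.ofReal_le_ofReal
      linarith
    have h2 := hv.trans_le h1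
    rw [ENNReal.ofReal_lt_ofReal_iff hl] at h2
    nlinarith
  | succ n ih =>
    intro x l hl hv
    have hd : 0 < l / M := by positivity
    by_cases hall : ∀ i < M, ENNReal.ofReal (κ * (l / M)) < volume (E ∩ Icc (x + i * (l / M)) (x + (i + 1) * (l / M)))
    · refine ⟨x, l, ?_, le_rfl, le_rfl, le_rfl, hall⟩
      rw [div_le_iff₀ (by positivity)]
      have : (1 : ℝ) ≤ (M : ℝ) ^ (n + 1) := one_le_pow₀ hM1
      nlinarith
    · push Not at hall
      obtain ⟨i0, hi0, hi0v⟩ := hall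
      by_cases hex : ∃ j < M, ENNReal.ofReal ((κ + (1 - 1 / M) ^ n) * (l / M)) <
          volume (E ∩ Icc (x + j * (l / M)) (x + j * (l / M) + l / M))
      · obtain ⟨j, hj, hjv⟩ := hex
        obtain ⟨x', l', h1, h2, h3, h4, h5⟩ := ih (x + j * (l / M)) (l / M) hd hjv
        have hjM : ((j : ℝ) + 1) * (l / M) ≤ l := by
          have e2 : (M : ℝ) * (l / M) = l := by field_simp
          have h6 : ((j : ℝ) + 1) ≤ M := by exact_mod_cast hj
          calc ((j : ℝ) + 1) * (l / M) ≤ M * (l / M) := by gcongr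
            _ = l := e2
        have hj0 : 0 ≤ (j : ℝ) * (l / M) := by positivity
        refine ⟨x', l', ?_, ?_, by linarith, by linarith, h5⟩
        · refine le_trans (le_of_eq ?_) h1
          rw [pow_succ]; field_simp
        · refine h2.trans ?_
          rw [div_le_iff₀ hM0]; nlinarith
      · push Not at hex
        exfalso
        have hsub : volume (E ∩ Icc x (x + l)) ≤ ∑ i ∈ Finset.range M,
            volume (E ∩ Icc (x + i * (l / M)) (x + (i + 1) * (l / M))) := by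
          refine le_trans (measure_mono ?_) (measure_biUnion_finset_le _ _)
          intro y hy
          have h6 := icc_cover (x := x) hl hM hy.2
          simp only [mem_iUnion] at h6 ⊢
          obtain ⟨i, hi, hi2⟩ := h6
          exact ⟨i, hi, hy.1, hi2⟩
        have hbd : ∀ i ∈ Finset.range M, volume (E ∩ Icc (x + i * (l / M)) (x + (i + 1) * (l / M))) ≤
            ENNReal.ofReal (if i = i0 then κ * (l / M) else (κ + (1 - 1 / M) ^ n) * (l / M)) := by
          intro i hi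
          rw [Finset.mem_range] at hi
          split_ifs with h7
          · rw [h7]; exact hi0v
          · have := hex i hi
            rwa [show x + i * (l / M) + l / M = x + (i + 1) * (l / M) by ring] at this
        have h8 := hsub.trans (Finset.sum_le_sum hbd)
        rw [← ENNReal.ofReal_sum_of_nonneg (fun i _ => by split_ifs <;> positivity)] at h8
        have h9 : ∑ i ∈ Finset.range M, (if i = i0 then κ * (l / M) else (κ + (1 - 1 / M) ^ n) * (l / M)) =
            (κ + (1 - 1 / M) ^ (n + 1)) * l := by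
          have h10 : ∀ i ∈ Finset.range M, (if i = i0 then κ * (l / M) else (κ + (1 - 1 / (M : ℝ)) ^ n) * (l / M)) =
              (κ + (1 - 1 / (M : ℝ)) ^ n) * (l / M) - (if i = i0 then (1 - 1 / (M : ℝ)) ^ n * (l / M) else 0) := by
            intro i _
            split_ifs <;> ring
          rw [Finset.sum_congr rfl h10, Finset.sum_sub_distrib, Finset.sum_const, Finset.card_range, nsmul_eq_mul,
            Finset.sum_ite_eq', if_pos (Finset.mem_range.2 hi0), pow_succ]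
          field_simp
          ring
        rw [h9] at h8
        exact absurd (hv.trans_le h8) (lt_irrefl _)

theorem close_many' {k : ℕ} {θ θ' δ a b m : ℝ} (hθ : θ < θ') (hθ' : 0 < θ') (hδ : 0 < δ)
    (h : ENNReal.ofReal m < volume ({u : ℝ | HasError k u θ} ∩ Icc a b)) :
    ∀ᶠ T : ℝ in atTop, ENNReal.ofReal m ≤ volume {u : ℝ | u ∈ Icc a b ∧ Close k (1 / 2 + u * Complex.I) T θ' δ} := by
  have hre : ∀ u : ℝ, (1 / 2 + (u : ℂ) * Complex.I).re ≠ 1 := by
    intro u
    have : (1 / 2 + (u : ℂ) * Complex.I).re = 1 / 2 := by simp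
    rw [this]; norm_num
  set Z : ℕ → Set ℝ := fun m => {u | u ∈ Icc a b ∧ ∀ T : ℝ, (m : ℝ) ≤ T → Close k (1 / 2 + u * Complex.I) T θ' δ} with hZ
  have hmono : Monotone Z := by
    intro m n hmn u hu
    refine ⟨hu.1, fun T hT => hu.2 T ?_⟩
    have : (m : ℝ) ≤ n := by exact_mod_cast hmn
    linarith
  have hsub : {u : ℝ | HasError k u θ} ∩ Icc a b ⊆ ⋃ m, Z m := by
    intro u hu
    have h1 := close_of_err (hre u) (hasErr_of_hasError hu.1) hθ hθ' hδ
    obtain ⟨T1, hT1⟩ := eventually_atTop.1 h1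
    rw [mem_iUnion]
    refine ⟨⌈T1⌉₊, hu.2, fun T hT => hT1 T ((Nat.le_ceil T1).trans hT)⟩
  have h2 := h.trans_le (measure_mono hsub)
  rw [hmono.measure_iUnion, lt_iSup_iff] at h2
  obtain ⟨m, hm⟩ := h2
  filter_upwards [eventually_ge_atTop (m : ℝ)] with T hT
  refine hm.le.trans (measure_mono ?_)
  intro u hu
  exact ⟨hu.1, hu.2 T hT⟩

/-- The mean value of `|ζ| ^ (2 k)` is `T ^ (1 + o (1))`. -/
def MeanOne (k : ℕ) : Prop := ∀ e : ℝ, 0 < e → ∀ᶠ T : ℝ in atTop, ∫ t in T..(2 * T), fk k t ≤ T ^ (1 + 0 + e)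

theorem no_dense {k : ℕ} (hk : 1 ≤ k) {κ : ℝ} (hκ : 0 < κ) (hκ2 : κ ≤ 2) : ∃ M : ℕ, 8 ≤ M ∧
    (MeanOne k → ∀ l θ : ℝ, 0 < l → l ≤ 2 → θ < l / 1600 → ∀ x : ℝ,
      ¬ ∀ i < M, ENNReal.ofReal (κ * (l / M)) <
        volume ({u : ℝ | HasError k u θ} ∩ Icc (x + i * (l / M)) (x + (i + 1) * (l / M)))) := by
  obtain ⟨M, hM8, hM⟩ := dense_step hk hκ hκ2
  refine ⟨M, hM8, fun hI l θ hl hl2 hθ x hall => ?_⟩
  obtain ⟨e, he, hT⟩ := hM (l / 2) (by positivity) (by linarith) (x + l / 2)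
  have hM0 : (0 : ℝ) < M := by
    have : (8 : ℝ) ≤ M := by exact_mod_cast hM8
    linarith
  have h1 : ∀ᶠ T : ℝ in atTop, ∀ i ∈ Finset.range M, ENNReal.ofReal (κ * (l / M)) ≤
      volume {u : ℝ | u ∈ Icc (x + i * (l / M)) (x + (i + 1) * (l / M)) ∧
        Close k (1 / 2 + u * Complex.I) T (l / 2 / 800) e} := by
    rw [eventually_all_finset]
    intro i hi
    exact close_many' (by linarith) (by positivity) he (hall i (Finset.mem_range.1 hi))
  obtain ⟨T, ⟨⟨t1, t2⟩, t3⟩⟩ := ((hT.and (hI e he)).and h1).exists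
  refine t1 t2 fun u hu => ?_
  have hu' : u ∈ Icc x (x + l) := ⟨by linarith [hu.1], by linarith [hu.2]⟩
  have h2 := icc_cover (x := x) hl (by omega : 1 ≤ M) hu'
  simp only [mem_iUnion] at h2
  obtain ⟨i, hi, hi2⟩ := h2
  rw [show 2 * (l / 2) / (M : ℝ) = l / M by ring]
  refine (t3 i hi).trans (measure_mono ?_)
  intro v hv
  refine ⟨?_, hv.2⟩
  have h3 := hv.1
  rw [abs_le]
  constructor
  · have := h3.1; have := hi2.2; linarith
  · have := h3.2; have := hi2.1; linarith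

/-- Shifts with a small error exponent have small density in every interval, given the mean value. -/
theorem finD {k : ℕ} (hk : 1 ≤ k) {κ : ℝ} (hκ : 0 < κ) : ∃ c : ℝ, 0 < c ∧ (MeanOne k → ∀ u0 r : ℝ, 0 < r → r ≤ 1 →
    volume {u : ℝ | |u - u0| ≤ r ∧ HasError k u (c * r)} ≤ ENNReal.ofReal (κ * r)) := by
  set κ1 := min κ 2 / 4 with hκ1
  have hκ10 : 0 < κ1 := by
    have : 0 < min κ 2 := lt_min hκ (by norm_num)
    positivity
  have hκ12 : κ1 ≤ 2 := by
    have : min κ 2 ≤ 2 := min_le_right _ _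
    rw [hκ1]; linarith
  obtain ⟨M, hM8, hM⟩ := no_dense hk hκ10 hκ12
  have hM8' : (8 : ℝ) ≤ M := by exact_mod_cast hM8
  have hM0 : (0 : ℝ) < M := by linarith
  have hq0 : 0 ≤ 1 - 1 / (M : ℝ) := by
    rw [sub_nonneg, div_le_one hM0]; linarith
  have hq1 : 1 - 1 / (M : ℝ) < 1 := by
    have : 0 < 1 / (M : ℝ) := by positivity
    linarith
  obtain ⟨n, hn⟩ := exists_pow_lt_of_lt_one hκ10 hq1
  refine ⟨1 / (1600 * M ^ n), by positivity, fun hI u0 r hr hr1 => ?_⟩
  by_contra hcon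
  push Not at hcon
  set E : Set ℝ := {u : ℝ | HasError k u (1 / (1600 * M ^ n) * r)} with hE
  have hset : {u : ℝ | |u - u0| ≤ r ∧ HasError k u (1 / (1600 * M ^ n) * r)} = E ∩ Icc (u0 - r) (u0 - r + 2 * r) := by
    ext u
    simp only [hE, mem_inter_iff, mem_setOf_eq, mem_Icc, abs_le]
    constructor
    · rintro ⟨h1, h2⟩
      exact ⟨h2, by linarith, by linarith⟩
    · rintro ⟨h2, h3, h4⟩
      exact ⟨⟨by linarith, by linarith⟩, h2⟩
  rw [hset] at hcon
  have hv : ENNReal.ofReal ((κ1 + (1 - 1 / M) ^ n) * (2 * r)) < volume (E ∩ Icc (u0 - r) (u0 - r + 2 * r)) := by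
    refine lt_of_le_of_lt (ENNReal.ofReal_le_ofReal ?_) hcon
    have h5 : min κ 2 ≤ κ := min_le_left _ _
    have h6 : κ1 + (1 - 1 / (M : ℝ)) ^ n ≤ κ / 2 := by rw [hκ1] at hn ⊢; linarith
    calc (κ1 + (1 - 1 / (M : ℝ)) ^ n) * (2 * r) ≤ κ / 2 * (2 * r) := by gcongr
      _ = κ * r := by ring
  obtain ⟨x', l', h1, h2, h3, h4, h5⟩ := comb E hκ10.le (by omega : 1 ≤ M) n (u0 - r) (2 * r) (by positivity) hv
  have hl' : 0 < l' := lt_of_lt_of_le (by positivity) h1
  refine hM hI l' (1 / (1600 * M ^ n) * r) hl' (by linarith) ?_ x' h5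
  have h6 : 1 / (1600 * (M : ℝ) ^ n) * r < 2 * r / M ^ n / 1600 := by
    have : 2 * r / (M : ℝ) ^ n / 1600 = 2 * (1 / (1600 * (M : ℝ) ^ n) * r) := by field_simp
    rw [this]
    have : 0 < 1 / (1600 * (M : ℝ) ^ n) * r := by positivity
    linarith
  refine h6.trans_le ?_
  gcongr

/-- Good shifts near `0` at all scales give the mean value. -/
theorem meanOne_of_near {k : ℕ} {κ : ℝ} (hκ : 0 < κ) {c : ℝ} (hc : 0 < c) (h : ∀ r0 : ℝ, 0 < r0 → ∃ r : ℝ, 0 < r ∧ r ≤ r0 ∧
    ENNReal.ofReal (κ * r) < volume {u : ℝ | |u| ≤ r ∧ HasError k u (c * r)}) : MeanOne k := by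
  intro e he
  set κ' := min κ 2 with hκ'
  have hκ'0 : 0 < κ' := lt_min hκ (by norm_num)
  set e' := min (e / 4) (1 / 4) with he'
  have he'0 : 0 < e' := lt_min (by positivity) (by norm_num)
  have he'1 : e' ≤ e / 4 := min_le_left _ _
  have he'2 : e' ≤ 1 / 4 := min_le_right _ _
  obtain ⟨r0, hr0, hmv⟩ := mv_of_near (k := k) (θ := e') (θ' := 2 * e') (e := e') he'0.le (by linarith) he'0 hκ'0
    (min_le_right _ _)
  obtain ⟨r, hr1, hr2, hr3⟩ := h (min r0 (e' / c)) (lt_min hr0 (by positivity))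
  have hcr : c * r ≤ e' := by
    have h5 : r ≤ e' / c := hr2.trans (min_le_right _ _)
    rw [le_div_iff₀ hc] at h5
    linarith
  have h6 := hmv r hr1 (hr2.trans (min_le_left _ _)) ?_
  · filter_upwards [h6, ev_pow 2 (a := 1 + e') (b := 1 + 0 + e) (by linarith), eventually_ge_atTop 1] with T hT e1 hT1
    have hT0 : 0 < T := by linarith
    have h7 := hT T (2 * T) le_rfl (by linarith) le_rfl
    have h8 : T ^ (2 * e' + e') ≤ T ^ (1 + e') := Real.rpow_le_rpow_of_exponent_le hT1 (by linarith)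
    have h9 : (2 * T - T) * T ^ e' = T ^ (1 + e') := by rw [Real.rpow_add hT0, Real.rpow_one]; ring
    rw [h9] at h7
    linarith
  · refine lt_of_le_of_lt (ENNReal.ofReal_le_ofReal ?_) (hr3.trans_le (measure_mono ?_))
    · have : κ' ≤ κ := min_le_left _ _
      gcongr
    · intro u hu
      exact ⟨hu.1, hasError_mono hu.2 hcr⟩

theorem meanOne_of_error {k : ℕ} {θ : ℝ} (hθ : θ < 1) (h : HasError k 0 θ) : MeanOne k := by
  intro e he
  have h1 : HasLineError k (1 / 2) θ := by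
    obtain ⟨M, hM, C, T₀, h2⟩ := h
    refine ⟨M, hM, C, T₀, fun T hT => ?_⟩
    have h3 := h2 T hT
    have h4 : shiftedMoment k 0 T = ((∫ t in (0 : ℝ)..T, ‖riemannZeta ((1 / 2 : ℝ) + t * Complex.I)‖ ^ (2 * k) : ℝ) : ℂ) := by
      unfold shiftedMoment
      rw [← intervalIntegral.integral_ofReal]
      congr 1
      funext t
      have h5 : (1 / 2 + ((t : ℂ) - ((0 : ℝ) : ℂ)) * Complex.I) = 1 / 2 + ((t : ℂ) + ((0 : ℝ) : ℂ)) * Complex.I := by
        push_cast; ring
      rw [h5, ← map_pow, Complex.mul_conj, Complex.normSq_eq_norm_sq, norm_pow, ← pow_mul, mul_comm k 2]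
      push_cast
      ring_nf
    rw [h4] at h3
    exact h3
  have h2 := mean_of_line (by norm_num : (1 / 2 : ℝ) ≠ 1) hθ he h1
  filter_upwards [h2] with T hT
  rw [add_zero]
  have e1 : ∀ t, fl k (1 / 2) t = fk k t := by
    intro t
    unfold fl fk
    norm_num
  simpa only [e1] using hT

/-- **The shifts near `0` with a small error exponent.** -/
theorem finD0 {k : ℕ} (hk : 1 ≤ k) {κ : ℝ} (hκ : 0 < κ) : ∃ c r0 : ℝ, 0 < c ∧ 0 < r0 ∧
    (∀ r : ℝ, 0 < r → r ≤ r0 → volume {u : ℝ | |u| ≤ r ∧ HasError k u (c * r)} ≤ ENNReal.ofReal (κ * r)) ∧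
    ((∃ θ : ℝ, θ < 1 ∧ HasError k 0 θ) → ∀ u0 r : ℝ, 0 < r → r ≤ 1 →
      volume {u : ℝ | |u - u0| ≤ r ∧ HasError k u (c * r)} ≤ ENNReal.ofReal (κ * r)) := by
  obtain ⟨c, hc, hD⟩ := finD hk hκ
  have h1 : ∃ r0 : ℝ, 0 < r0 ∧ ∀ r : ℝ, 0 < r → r ≤ r0 →
      volume {u : ℝ | |u| ≤ r ∧ HasError k u (c * r)} ≤ ENNReal.ofReal (κ * r) := by
    by_contra hcon
    push Not at hcon
    have hI := meanOne_of_near hκ hc fun r0 hr0 => by
      obtain ⟨r, h1, h2, h3⟩ := hcon r0 hr0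
      exact ⟨r, h1, h2, h3⟩
    obtain ⟨r, h1, h2, h3⟩ := hcon 1 one_pos
    have h4 := hD hI 0 r h1 h2
    simp only [sub_zero] at h4
    exact absurd (h3.trans_le h4) (lt_irrefl _)
  obtain ⟨r0, hr0, h2⟩ := h1
  refine ⟨c, r0, hc, hr0, h2, ?_⟩
  rintro ⟨θ, hθ, hE⟩
  exact hD (meanOne_of_error hθ hE)

end Pool.Agent.Helper156_SM
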