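import Pool.Agent.Helper156_SM.Thick

set_option autoImplicit false

/-!
# Thick sets of shifts: moments, short intervals and pointwise bounds
-/

open MeasureTheory Set Filter

namespace Pool.Agent.Helper156_SM

open Pool.Agent.Helper156_EK

/-- the shifted integral -/
noncomputable def J (k : ℕ) (u a b : ℝ) : ℂ :=
  ∫ t in a..b, riemannZeta (1 / 2 + (t + u) * Complex.I) ^ k *
    (starRingEnd ℂ) (riemannZeta (1 / 2 + (t - u) * Complex.I)) ^ k

theorem J_eq (k : ℕ) (u a b : ℝ) : J k u a b = ∫ t in a..b, zk k (1 / 2 + u * Complex.I) t := by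
  unfold J
  congr 1
  funext t
  rw [zk_shift]

/-- the pointwise bound with exponent `κ` -/
def Growth (κ : ℝ) : Prop :=
  ∀ ε : ℝ, 0 < ε → ∃ C : ℝ, ∀ t : ℝ, ‖riemannZeta (1 / 2 + t * Complex.I)‖ ≤ C * (1 + |t|) ^ (κ + ε)

theorem half_ne : (1 / 2 : ℂ).re ≠ 1 := by norm_num

theorem re_shift_ne (u : ℝ) : (1 / 2 + (u : ℂ) * Complex.I).re ≠ 1 := by
  have : (1 / 2 + (u : ℂ) * Complex.I).re = 1 / 2 := by simp
  rw [this]; norm_num

theorem thick_univ : Thick univ := by
  refine ⟨volume, 1, 1, one_pos, fun x y hxy => ?_, fun c hc r₀ hr₀ => ⟨min r₀ 1, by positivity, min_le_left _ _, ?_⟩⟩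
  · rw [Real.volume_Icc, Real.rpow_one, one_mul]
  · rw [univ_inter, Real.volume_Icc]
    apply ENNReal.ofReal_le_ofReal
    have h0 : 0 < min r₀ 1 := by positivity
    have h1 : min r₀ 1 ≤ 1 := min_le_right _ _
    calc (min r₀ 1) ^ (1 + c) ≤ (min r₀ 1) ^ (1 : ℝ) := Real.rpow_le_rpow_of_exponent_ge h0 h1 (by linarith)
      _ = min r₀ 1 := Real.rpow_one _
      _ ≤ min r₀ 1 - -min r₀ 1 := by linarith

theorem thick_mono {E F : Set ℝ} (h : E ⊆ F) (hE : Thick E) : Thick F := by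
  obtain ⟨μ, s, K, h1, h2, h3⟩ := hE
  refine ⟨μ, s, K, h1, h2, fun c hc r₀ hr₀ => ?_⟩
  obtain ⟨r, hr, hr1, hr2⟩ := h3 c hc r₀ hr₀
  exact ⟨r, hr, hr1, hr2.trans (measure_mono (inter_subset_inter_left _ h))⟩

/-- Positive upper density at `0` implies thickness. -/
theorem thick_of_density {E : Set ℝ} {κ : ℝ} (hκ : 0 < κ) (h : ∀ r₀ : ℝ, 0 < r₀ → ∃ r : ℝ, 0 < r ∧ r ≤ r₀ ∧
    ENNReal.ofReal (κ * r) ≤ volume (E ∩ Icc (-r) r)) : Thick E := by
  refine ⟨volume, 1, 1, one_pos, fun x y hxy => ?_, fun c hc r₀ hr₀ => ?_⟩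
  · rw [Real.volume_Icc, Real.rpow_one, one_mul]
  · obtain ⟨r, hr, hr1, hr2⟩ := h (min r₀ (κ ^ (1 / c))) (by positivity)
    refine ⟨r, hr, hr1.trans (min_le_left _ _), le_trans (ENNReal.ofReal_le_ofReal ?_) hr2⟩
    have h1 : r ≤ κ ^ (1 / c) := hr1.trans (min_le_right _ _)
    have h2 : r ^ c ≤ κ := by
      calc r ^ c ≤ (κ ^ (1 / c)) ^ c := Real.rpow_le_rpow hr.le h1 hc.le
        _ = κ := by rw [← Real.rpow_mul hκ.le, one_div_mul_cancel hc.ne', Real.rpow_one]
    rw [add_comm, Real.rpow_add hr, Real.rpow_one]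
    gcongr

/-- The common part: a thick set with integrals over `[a T, b T]`. -/
theorem transfer (k : ℕ) {E : Set ℝ} (hE : Thick E) {β : ℝ} (hβ : 0 ≤ β) {ε : ℝ} (hε : 0 < ε) {a b : ℝ → ℝ}
    (hab : ∀ᶠ T : ℝ in atTop, T ≤ a T ∧ a T ≤ b T ∧ b T ≤ 2 * T)
    (h : ∀ u ∈ E, ∃ C : ℝ, ∀ T : ℝ, 1 ≤ T → ‖J k u (a T) (b T)‖ ≤ C * T ^ (β + ε)) :
    ∀ᶠ T : ℝ in atTop, ∫ t in (a T)..(b T), fk k t ≤ T ^ (β + 4 * ε) := by
  obtain ⟨μ, s, K, hs, hμ, hth⟩ := hE
  have hμ' : ∀ x y : ℝ, x ≤ y → μ (Icc x y) ≤ ENNReal.ofReal (max K 1 * (y - x) ^ s) := by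
    intro x y hxy
    refine (hμ x y hxy).trans (ENNReal.ofReal_le_ofReal ?_)
    apply mul_le_mul_of_nonneg_right (le_max_left _ _)
    exact Real.rpow_nonneg (by linarith) _
  obtain ⟨c, r₀, hc, hr₀, _, hng⟩ := near_gen k hs hμ' (le_max_right _ _) hε
  obtain ⟨r, hr, hr1, hr2⟩ := hth c hc r₀ hr₀
  set F : ℕ → Set ℝ := fun n => {u : ℝ | ∀ T : ℝ, 1 ≤ T → ‖J k u (a T) (b T)‖ ≤ n * T ^ (β + ε)} with hF
  have hmono : Monotone F := by
    intro m n hmn u hu T hT
    refine (hu T hT).trans ?_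
    have : (m : ℝ) ≤ n := by exact_mod_cast hmn
    gcongr
  have hcov : E ⊆ ⋃ n, F n := by
    intro u hu
    obtain ⟨C, hC⟩ := h u hu
    obtain ⟨n, hn⟩ := exists_nat_ge C
    refine mem_iUnion.2 ⟨n, fun T hT => (hC T hT).trans ?_⟩
    gcongr
  obtain ⟨n, hn⟩ := thick_union hr hr2 hmono hcov
  have hev := hng r hr hr1
  filter_upwards [hev, hab, eventually_ge_atTop 1, ev_pow n (a := β + 2 * ε) (b := β + 3 * ε) (by linarith),
    ev_pow 2 (a := β + 3 * ε) (b := β + 4 * ε) (by linarith)] with T hT hT2 hT1 e1 e2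
  have hT0 : 0 < T := by linarith
  have h1 := hT (F n) hn (a T) (b T) (n * T ^ (β + ε)) hT2.1 hT2.2.1 hT2.2.2 (by positivity) (fun u hu _ => by
    rw [← J_eq]; exact hu T hT1)
  have h2 : T ^ ε * (n * T ^ (β + ε)) = n * T ^ (β + 2 * ε) := by
    rw [show β + 2 * ε = ε + (β + ε) by ring, Real.rpow_add hT0 ε]; ring
  have h3 : 1 ≤ T ^ (β + 3 * ε) := Real.one_le_rpow hT1 (by linarith)
  rw [h2] at h1
  linarith

theorem J_cont (k : ℕ) (u : ℝ) : Continuous (zk k (1 / 2 + u * Complex.I)) := zk_cont k (re_shift_ne u)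

theorem J_sub (k : ℕ) (u a b : ℝ) : J k u a b = J k u 0 b - J k u 0 a := by
  rw [J_eq, J_eq, J_eq, intervalIntegral.integral_interval_sub_left]
  · exact (J_cont k u).intervalIntegrable _ _
  · exact (J_cont k u).intervalIntegrable _ _

/-- from dyadic intervals to `[0, T]` -/
theorem dyadic {f : ℝ → ℝ} (hf : Continuous f) (h0 : ∀ t, 0 ≤ f t) {a : ℝ} (ha : 0 < a)
    (h : ∀ᶠ T : ℝ in atTop, ∫ t in T..(2 * T), f t ≤ T ^ a) : ∃ C : ℝ, ∀ T : ℝ, 1 ≤ T → ∫ t in (0 : ℝ)..T, f t ≤ C * T ^ a := by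
  obtain ⟨T1, hT1⟩ := eventually_atTop.1 (h.and (eventually_ge_atTop 1))
  set T0 := max T1 1 with hT0
  have hT01 : 1 ≤ T0 := le_max_right _ _
  have hint : ∀ x y : ℝ, IntervalIntegrable f volume x y := fun x y => hf.intervalIntegrable _ _
  have hmon : ∀ x y : ℝ, 0 ≤ x → x ≤ y → ∫ t in (0 : ℝ)..x, f t ≤ ∫ t in (0 : ℝ)..y, f t := by
    intro x y hx hxy
    rw [← intervalIntegral.integral_add_adjacent_intervals (hint 0 x) (hint x y)]
    have := intervalIntegral.integral_nonneg (μ := volume) (f := f) hxy (fun t _ => h0 t)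
    linarith
  set C0 := ∫ t in (0 : ℝ)..(2 * T0), f t with hC0
  have hC00 : 0 ≤ C0 := intervalIntegral.integral_nonneg (by linarith) (fun t _ => h0 t)
  have h2a : 1 < (2 : ℝ) ^ a := Real.one_lt_rpow (by norm_num) ha
  set D := 1 / ((2 : ℝ) ^ a - 1) with hD
  have hD0 : 0 < D := by
    have : 0 < (2 : ℝ) ^ a - 1 := by linarith
    positivity
  have hDe : D + 1 = D * 2 ^ a := by
    rw [hD]
    have : (2 : ℝ) ^ a - 1 ≠ 0 := by linarith
    field_simp
    ring
  have key : ∀ n : ℕ, ∀ T : ℝ, 1 ≤ T → T ≤ 2 ^ n * (2 * T0) → ∫ t in (0 : ℝ)..T, f t ≤ C0 + D * T ^ a := by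
    intro n
    induction n with
    | zero =>
      intro T hT hT2
      rw [pow_zero, one_mul] at hT2
      have := hmon T _ (by linarith) hT2
      have h3 : 0 ≤ D * T ^ a := by positivity
      linarith
    | succ n ih =>
      intro T hT hT2
      rcases le_or_gt T (2 * T0) with h3 | h3
      · have := hmon T _ (by linarith) h3
        have h4 : 0 ≤ D * T ^ a := by positivity
        linarith
      · have h4 := ih (T / 2) (by linarith) (by rw [pow_succ] at hT2; linarith)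
        have h5 := (hT1 (T / 2) (by
          have : T1 ≤ T0 := le_max_left _ _
          linarith)).1
        rw [show 2 * (T / 2) = T by ring] at h5
        rw [← intervalIntegral.integral_add_adjacent_intervals (hint 0 (T / 2)) (hint (T / 2) T)]
        have h6 : T ^ a = 2 ^ a * (T / 2) ^ a := by
          rw [← Real.mul_rpow (by norm_num) (by linarith)]; congr 1; ring
        have h7 : D * (T / 2) ^ a + (T / 2) ^ a = D * T ^ a := by
          rw [h6, ← mul_assoc, ← hDe]; ring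
        linarith
  refine ⟨C0 + D, fun T hT => ?_⟩
  obtain ⟨n, hn⟩ := pow_unbounded_of_one_lt T (by norm_num : (1 : ℝ) < 2)
  have h1 := key n T hT (by
    have : (2 : ℝ) ^ n * 1 ≤ 2 ^ n * (2 * T0) := by
      apply mul_le_mul_of_nonneg_left _ (by positivity)
      linarith
    linarith)
  have h2 : 1 ≤ T ^ a := Real.one_le_rpow hT ha.le
  nlinarith

/-- the moments -/
theorem moment_of_thick (k : ℕ) {E : Set ℝ} (hE : Thick E) {β : ℝ} (hβ : 0 ≤ β)
    (h : ∀ u ∈ E, ∀ ε : ℝ, 0 < ε → ∃ C : ℝ, ∀ T : ℝ, 1 ≤ T → ‖J k u 0 T‖ ≤ C * T ^ (β + ε)) :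
    ∀ ε : ℝ, 0 < ε → ∃ C : ℝ, ∀ T : ℝ, 1 ≤ T → ∫ t in (0 : ℝ)..T, fk k t ≤ C * T ^ (β + ε) := by
  intro ε hε
  apply dyadic (fk_cont k) (fk_nonneg k) (by linarith)
  have h1 := transfer k hE hβ (ε := ε / 4) (by positivity) (a := fun T => T) (b := fun T => 2 * T)
    (by filter_upwards [eventually_ge_atTop 0] with T hT; exact ⟨le_rfl, by linarith, le_rfl⟩)
    (fun u hu => by
      obtain ⟨C, hC⟩ := h u hu (ε / 4) (by positivity)
      refine ⟨|C| * 2 ^ (β + ε / 4) + |C|, fun T hT => ?_⟩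
      rw [J_sub]
      refine (norm_sub_le _ _).trans ?_
      have h2 := hC (2 * T) (by linarith)
      have h3 := hC T hT
      have h4 : (2 * T) ^ (β + ε / 4) = 2 ^ (β + ε / 4) * T ^ (β + ε / 4) := Real.mul_rpow (by norm_num) (by linarith)
      rw [h4] at h2
      have hp1 : 0 ≤ T ^ (β + ε / 4) := Real.rpow_nonneg (by linarith) _
      have hp2 : (0 : ℝ) ≤ 2 ^ (β + ε / 4) := by positivity
      have h5 : C * (2 ^ (β + ε / 4) * T ^ (β + ε / 4)) ≤ |C| * (2 ^ (β + ε / 4) * T ^ (β + ε / 4)) :=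
        mul_le_mul_of_nonneg_right (le_abs_self C) (by positivity)
      have h6 : C * T ^ (β + ε / 4) ≤ |C| * T ^ (β + ε / 4) := mul_le_mul_of_nonneg_right (le_abs_self C) hp1
      have h7 : (|C| * 2 ^ (β + ε / 4) + |C|) * T ^ (β + ε / 4) =
        |C| * (2 ^ (β + ε / 4) * T ^ (β + ε / 4)) + |C| * T ^ (β + ε / 4) := by ring
      linarith)
  filter_upwards [h1] with T hT
  rwa [show β + 4 * (ε / 4) = β + ε by ring] at hT

/-- the unit intervals -/
theorem local_of_thick (k : ℕ) {E : Set ℝ} (hE : Thick E) {β : ℝ} (hβ : 0 ≤ β)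
    (h : ∀ u ∈ E, ∀ ε : ℝ, 0 < ε → ∃ C : ℝ, ∀ t : ℝ, 1 ≤ t → ‖J k u t (t + 1)‖ ≤ C * t ^ (β + ε)) :
    ∀ ε : ℝ, 0 < ε → ∀ᶠ t : ℝ in atTop, ∫ v in t..(t + 1), fk k v ≤ t ^ (β + ε) := by
  intro ε hε
  have h1 := transfer k hE hβ (ε := ε / 4) (by positivity) (a := fun T => T) (b := fun T => T + 1)
    (by filter_upwards [eventually_ge_atTop 1] with T hT; exact ⟨le_rfl, by linarith, by linarith⟩)
    (fun u hu => h u hu (ε / 4) (by positivity))
  filter_upwards [h1] with T hT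
  rwa [show β + 4 * (ε / 4) = β + ε by ring] at hT

theorem unit_cover {f : ℝ → ℝ} (hf : Continuous f) (h0 : ∀ t, 0 ≤ f t) {a b W : ℝ} (hab : a ≤ b)
    (h : ∀ x, a ≤ x → x ≤ b → ∫ t in x..(x + 1), f t ≤ W) : ∫ t in a..b, f t ≤ (b - a + 1) * W := by
  have hint : ∀ x y : ℝ, IntervalIntegrable f volume x y := fun x y => hf.intervalIntegrable _ _
  have hW : 0 ≤ W := (intervalIntegral.integral_nonneg (by linarith) (fun t _ => h0 t)).trans (h a le_rfl hab)
  set n := ⌊b - a⌋₊ with hn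
  have hn1 : (n : ℝ) ≤ b - a := Nat.floor_le (by linarith)
  have hn2 : b - a < n + 1 := Nat.lt_floor_add_one _
  have key : ∀ m : ℕ, m ≤ n + 1 → ∫ t in a..(a + m), f t ≤ m * W := by
    intro m
    induction m with
    | zero => intro _; simp
    | succ m ih =>
      intro hm
      have h1 := ih (by omega)
      have hmn : (m : ℝ) ≤ n := by exact_mod_cast (by omega : m ≤ n)
      have h2 := h (a + m) (by have : (0 : ℝ) ≤ m := Nat.cast_nonneg m
                               linarith) (by linarith)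
      rw [← intervalIntegral.integral_add_adjacent_intervals (hint a (a + m)) (hint (a + m) (a + (m + 1 : ℕ)))]
      have e : a + ((m + 1 : ℕ) : ℝ) = a + m + 1 := by push_cast; ring
      rw [e]
      push_cast
      linarith
  have h1 := key (n + 1) le_rfl
  have h2 : ∫ t in a..b, f t ≤ ∫ t in a..(a + (n + 1 : ℕ)), f t := by
    rw [← intervalIntegral.integral_add_adjacent_intervals (hint a b) (hint b (a + (n + 1 : ℕ)))]
    have := intervalIntegral.integral_nonneg (μ := volume) (f := f) (a := b) (b := a + (n + 1 : ℕ))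
      (by push_cast; linarith) (fun t _ => h0 t)
    linarith
  refine h2.trans (h1.trans ?_)
  apply mul_le_mul_of_nonneg_right _ hW
  push_cast
  linarith

/-- From a bound at large heights to all heights. -/
theorem growth_of_ev {κ : ℝ} (hκ : 0 ≤ κ) {ε : ℝ} (hε : 0 < ε)
    (h : ∀ᶠ v : ℝ in atTop, ‖riemannZeta (1 / 2 + v * Complex.I)‖ ≤ v ^ (κ + ε)) :
    ∃ C : ℝ, ∀ t : ℝ, ‖riemannZeta (1 / 2 + t * Complex.I)‖ ≤ C * (1 + |t|) ^ (κ + ε) := by
  obtain ⟨v0, hv0⟩ := eventually_atTop.1 (h.and (eventually_ge_atTop 0))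
  set V := max v0 1 with hV
  have hV1 : 1 ≤ V := le_max_right _ _
  have hcont : Continuous fun t : ℝ => ‖riemannZeta (1 / 2 + t * Complex.I)‖ := by
    rw [continuous_iff_continuousAt]
    intro t
    have h1 : (1 / 2 + (t : ℂ) * Complex.I) ≠ 1 := by
      intro h2
      have := re_shift_ne t
      rw [h2, Complex.one_re] at this
      exact this rfl
    have h3 : ContinuousAt riemannZeta (1 / 2 + (t : ℂ) * Complex.I) := (differentiableAt_riemannZeta h1).continuousAt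
    have h4 : ContinuousAt (fun t : ℝ => (1 / 2 + (t : ℂ) * Complex.I)) t := by fun_prop
    exact (ContinuousAt.comp (f := fun t : ℝ => (1 / 2 + (t : ℂ) * Complex.I)) h3 h4).norm
  obtain ⟨B, hB⟩ := (isCompact_Icc (a := -V) (b := V)).exists_bound_of_continuousOn (f := fun t : ℝ =>
    ‖riemannZeta (1 / 2 + t * Complex.I)‖) hcont.continuousOn
  refine ⟨max B 1, fun t => ?_⟩
  have hsym : ∀ t : ℝ, ‖riemannZeta (1 / 2 + ((-t : ℝ) : ℂ) * Complex.I)‖ = ‖riemannZeta (1 / 2 + t * Complex.I)‖ := by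
    intro t
    have h1 : (1 / 2 + ((-t : ℝ) : ℂ) * Complex.I) = (starRingEnd ℂ) (1 / 2 + t * Complex.I) := by
      rw [map_add, map_mul, Complex.conj_I, Complex.conj_ofReal, map_div₀, map_one, Complex.conj_ofNat]
      push_cast; ring
    rw [h1, riemannZeta_conj, Complex.norm_conj]
  have hbase : 1 ≤ (1 + |t|) ^ (κ + ε) := Real.one_le_rpow (by linarith [abs_nonneg t]) (by linarith)
  rcases le_or_gt |t| V with h1 | h1
  · have h2 := hB t (abs_le.1 h1)
    rw [norm_norm] at h2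
    calc ‖riemannZeta (1 / 2 + t * Complex.I)‖ ≤ max B 1 := h2.trans (le_max_left _ _)
      _ = max B 1 * 1 := (mul_one _).symm
      _ ≤ max B 1 * (1 + |t|) ^ (κ + ε) := by
          apply mul_le_mul_of_nonneg_left hbase
          exact zero_le_one.trans (le_max_right _ _)
  · have h2 : ‖riemannZeta (1 / 2 + ((|t| : ℝ) : ℂ) * Complex.I)‖ = ‖riemannZeta (1 / 2 + t * Complex.I)‖ := by
      rcases abs_choice t with h3 | h3
      · rw [h3]
      · rw [h3, hsym]
    have h3 := (hv0 |t| ((le_max_left _ _).trans h1.le)).1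
    rw [h2] at h3
    calc ‖riemannZeta (1 / 2 + t * Complex.I)‖ ≤ |t| ^ (κ + ε) := h3
      _ ≤ (1 + |t|) ^ (κ + ε) := Real.rpow_le_rpow (abs_nonneg t) (by linarith) (by linarith)
      _ = 1 * (1 + |t|) ^ (κ + ε) := (one_mul _).symm
      _ ≤ max B 1 * (1 + |t|) ^ (κ + ε) := by
          apply mul_le_mul_of_nonneg_right (le_max_right _ _) (by positivity)

/-- the pointwise bound from the unit intervals -/
theorem growth_of_local {k : ℕ} (hk : 1 ≤ k) {κ : ℝ} (hκ : 0 ≤ κ)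
    (h : ∀ ε : ℝ, 0 < ε → ∀ᶠ t : ℝ in atTop, ∫ v in t..(t + 1), fk k v ≤ t ^ (2 * k * κ + ε)) : Growth κ := by
  intro ε hε
  apply growth_of_ev hκ hε
  obtain ⟨C, T₀, hC, hT₀, hlh⟩ := lh2 hk
  have hk0 : (1 : ℝ) ≤ k := by exact_mod_cast hk
  set β := 2 * k * κ + ε with hβ
  have hβ0 : 0 < β := by
    have : 0 ≤ 2 * k * κ := by positivity
    linarith
  obtain ⟨t1, ht1⟩ := eventually_atTop.1 (h ε hε)
  have hT : Tendsto (fun v : ℝ => v / (3 / 2)) atTop atTop := tendsto_id.atTop_div_const (by norm_num)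
  have hfin : ∀ᶠ T : ℝ in atTop, C * Real.log T ^ 2 * (2 * (2 * T) ^ β) ≤ T ^ (β + ε) := by
    have h1 := ev_log (2 * C * 2 ^ β) 2 (a := β) (b := β + ε) (by linarith)
    filter_upwards [h1, eventually_ge_atTop 0] with T hT hT0
    rw [Real.mul_rpow (by norm_num) hT0]
    calc C * Real.log T ^ 2 * (2 * (2 ^ β * T ^ β)) = 2 * C * 2 ^ β * Real.log T ^ 2 * T ^ β := by ring
      _ ≤ _ := hT
  filter_upwards [hT.eventually_ge_atTop (max T₀ (max t1 1)), hT.eventually hfin] with v hv1 hv2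
  set T := v / (3 / 2) with hTdef
  have hTa : T₀ ≤ T := (le_max_left _ _).trans hv1
  have hTb : t1 ≤ T := ((le_max_left _ _).trans (le_max_right _ _)).trans hv1
  have hTc : 1 ≤ T := ((le_max_right _ _).trans (le_max_right _ _)).trans hv1
  have hvT : v = 3 / 2 * T := by rw [hTdef]; field_simp
  have hbound : ∀ a b : ℝ, T ≤ a → a ≤ b → b ≤ 2 * T →
      ∫ t in a..b, fk k t ≤ (2 * T) ^ β + (b - a) * (2 * T) ^ β := by
    intro a b ha hab hb
    have h1 := unit_cover (fk_cont k) (fk_nonneg k) (W := (2 * T) ^ β) hab (fun x hx1 hx2 => by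
      refine (ht1 x (by linarith)).trans ?_
      exact Real.rpow_le_rpow (by linarith) (by linarith) hβ0.le)
    linarith
  have h1 := hlh T ((2 * T) ^ β) ((2 * T) ^ β) hTa (Real.one_le_rpow (by linarith) hβ0.le) (by positivity) hbound v
    ⟨by rw [hvT]; linarith, by rw [hvT]; linarith⟩
  have h2 : fk k v ≤ v ^ (β + ε) := by
    calc fk k v ≤ C * Real.log T ^ 2 * ((2 * T) ^ β + (2 * T) ^ β) := h1
      _ = C * Real.log T ^ 2 * (2 * (2 * T) ^ β) := by ring
      _ ≤ T ^ (β + ε) := hv2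
      _ ≤ v ^ (β + ε) := Real.rpow_le_rpow (by linarith) (by rw [hvT]; linarith) (by linarith)
  have hv0 : 1 ≤ v := by rw [hvT]; linarith
  unfold fk at h2
  have h3 : v ^ (β + ε) ≤ (v ^ (κ + ε)) ^ (2 * k) := by
    rw [← Real.rpow_natCast, ← Real.rpow_mul (by linarith)]
    apply Real.rpow_le_rpow_of_exponent_le hv0
    rw [hβ]
    push_cast
    nlinarith
  exact le_of_pow_le_pow_left₀ (by omega) (by positivity) (h2.trans h3)

/-- the pointwise bound from all the moments -/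
theorem lindelof_of_moments (h : ∀ k : ℕ, 1 ≤ k → ∃ C : ℝ, ∀ T : ℝ, 1 ≤ T →
    ∫ t in (0 : ℝ)..T, fk k t ≤ C * T ^ (2 : ℝ)) : Growth 0 := by
  intro ε hε
  apply growth_of_ev le_rfl hε
  obtain ⟨k, hk⟩ := exists_nat_ge (2 / ε + 1)
  have hk1 : 1 ≤ k := by
    have h1 : (1 : ℝ) ≤ 2 / ε + 1 := by
      have : 0 ≤ 2 / ε := by positivity
      linarith
    exact_mod_cast h1.trans hk
  obtain ⟨C, T₀, hC, hT₀, hlh⟩ := lh2 hk1
  obtain ⟨D, hD⟩ := h k hk1
  have hT : Tendsto (fun v : ℝ => v / (3 / 2)) atTop atTop := tendsto_id.atTop_div_const (by norm_num)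
  have hfin : ∀ᶠ T : ℝ in atTop, C * Real.log T ^ 2 * (|D| * (2 * T) ^ (2 : ℝ) + 1 + 0) ≤ T ^ (4 : ℝ) := by
    have h1 := ev_log (C * (|D| * 2 ^ (2 : ℝ) + 1)) 2 (a := 2) (b := 4) (by norm_num)
    filter_upwards [h1, eventually_ge_atTop 1] with T hT hT0
    rw [Real.mul_rpow (by norm_num) (by linarith)]
    have h2 : 1 ≤ T ^ (2 : ℝ) := Real.one_le_rpow hT0 (by norm_num)
    have h3 : 0 ≤ C * Real.log T ^ 2 := by positivity
    calc C * Real.log T ^ 2 * (|D| * (2 ^ (2 : ℝ) * T ^ (2 : ℝ)) + 1 + 0)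
        ≤ C * Real.log T ^ 2 * (|D| * (2 ^ (2 : ℝ) * T ^ (2 : ℝ)) + T ^ (2 : ℝ)) := by
          apply mul_le_mul_of_nonneg_left _ h3
          linarith
      _ = C * (|D| * 2 ^ (2 : ℝ) + 1) * Real.log T ^ 2 * T ^ (2 : ℝ) := by ring
      _ ≤ _ := hT
  filter_upwards [hT.eventually_ge_atTop (max T₀ 1), hT.eventually hfin] with v hv1 hv2
  set T := v / (3 / 2) with hTdef
  have hTa : T₀ ≤ T := (le_max_left _ _).trans hv1
  have hTc : 1 ≤ T := (le_max_right _ _).trans hv1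
  have hvT : v = 3 / 2 * T := by rw [hTdef]; field_simp
  have hfc := fk_cont k
  have hint : ∀ x y : ℝ, IntervalIntegrable (fk k) volume x y := fun x y => hfc.intervalIntegrable _ _
  have hbound : ∀ a b : ℝ, T ≤ a → a ≤ b → b ≤ 2 * T →
      ∫ t in a..b, fk k t ≤ (|D| * (2 * T) ^ (2 : ℝ) + 1) + (b - a) * 0 := by
    intro a b ha hab hb
    have h1 : ∫ t in a..b, fk k t ≤ ∫ t in (0 : ℝ)..b, fk k t := by
      rw [← intervalIntegral.integral_add_adjacent_intervals (hint 0 a) (hint a b)]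
      have := intervalIntegral.integral_nonneg (μ := volume) (f := fk k) (a := 0) (b := a) (by linarith)
        (fun t _ => fk_nonneg k t)
      linarith
    have h2 := hD b (by linarith)
    have h3 : D * b ^ (2 : ℝ) ≤ |D| * (2 * T) ^ (2 : ℝ) := by
      have h4 : b ^ (2 : ℝ) ≤ (2 * T) ^ (2 : ℝ) := Real.rpow_le_rpow (by linarith) hb (by norm_num)
      have h5 : 0 ≤ b ^ (2 : ℝ) := Real.rpow_nonneg (by linarith) _
      calc D * b ^ (2 : ℝ) ≤ |D| * b ^ (2 : ℝ) := mul_le_mul_of_nonneg_right (le_abs_self D) h5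
        _ ≤ _ := mul_le_mul_of_nonneg_left h4 (abs_nonneg D)
    linarith
  have h1 := hlh T (|D| * (2 * T) ^ (2 : ℝ) + 1) 0 hTa (by
    have : 0 ≤ |D| * (2 * T) ^ (2 : ℝ) := by positivity
    linarith) le_rfl hbound v ⟨by rw [hvT]; linarith, by rw [hvT]; linarith⟩
  have hv0 : 1 ≤ v := by rw [hvT]; linarith
  have h2 : fk k v ≤ v ^ (4 : ℝ) := by
    refine h1.trans (hv2.trans ?_)
    exact Real.rpow_le_rpow (by linarith) (by rw [hvT]; linarith) (by norm_num)
  unfold fk at h2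
  have h3 : v ^ (4 : ℝ) ≤ (v ^ (0 + ε)) ^ (2 * k) := by
    rw [← Real.rpow_natCast, ← Real.rpow_mul (by linarith)]
    apply Real.rpow_le_rpow_of_exponent_le hv0
    push_cast
    have h4 : 2 / ε ≤ k := by linarith
    rw [div_le_iff₀ hε] at h4
    linarith
  exact le_of_pow_le_pow_left₀ (by omega) (by positivity) (h2.trans h3)

/-- the converse for the unit intervals -/
theorem local_of_growth (k : ℕ) {κ : ℝ} (hκ : 0 ≤ κ) (h : Growth κ) (u : ℝ) :
    ∀ ε : ℝ, 0 < ε → ∃ C : ℝ, ∀ t : ℝ, 1 ≤ t → ‖J k u t (t + 1)‖ ≤ C * t ^ (2 * k * κ + ε) := by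
  intro ε hε
  rcases Nat.eq_zero_or_pos k with hk | hk
  · subst hk
    refine ⟨1, fun t ht => ?_⟩
    unfold J
    simp only [pow_zero, mul_one]
    rw [intervalIntegral.integral_const]
    have : 1 ≤ t ^ (2 * ((0 : ℕ) : ℝ) * κ + ε) := Real.one_le_rpow ht (by simp; linarith)
    simpa using this
  have hk0 : (0 : ℝ) < k := by exact_mod_cast hk
  obtain ⟨C, hC⟩ := h (ε / (2 * k)) (by positivity)
  set e := κ + ε / (2 * k) with he
  have he0 : 0 < e := by
    have : 0 < ε / (2 * k) := by positivity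
    linarith
  have hek : e * (2 * k) = 2 * k * κ + ε := by rw [he]; field_simp
  refine ⟨(|C| * (3 + |u|) ^ e) ^ (2 * k), fun t ht => ?_⟩
  unfold J
  have h1 := intervalIntegral.norm_integral_le_of_norm_le_const (a := t) (b := t + 1)
    (C := (|C| * ((3 + |u|) * t) ^ e) ^ (2 * k)) (f := fun v : ℝ => riemannZeta (1 / 2 + (v + u) * Complex.I) ^ k *
      (starRingEnd ℂ) (riemannZeta (1 / 2 + (v - u) * Complex.I)) ^ k) (fun v hv => by
        rw [uIoc_of_le (by linarith)] at hv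
        have hz : ∀ w : ℝ, |w| ≤ |v| + |u| → ‖riemannZeta (1 / 2 + w * Complex.I)‖ ≤ |C| * ((3 + |u|) * t) ^ e := by
          intro w hw
          have hv0 : |v| = v := abs_of_pos (by linarith [hv.1])
          have h2 : 1 + |w| ≤ (3 + |u|) * t := by
            rw [hv0] at hw
            have h3 := hv.2
            have h4 : |u| ≤ |u| * t := le_mul_of_one_le_right (abs_nonneg u) ht
            nlinarith
          have h5 : (1 + |w|) ^ e ≤ ((3 + |u|) * t) ^ e := Real.rpow_le_rpow (by positivity) h2 he0.le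
          refine (hC w).trans ?_
          calc C * (1 + |w|) ^ e ≤ |C| * (1 + |w|) ^ e := mul_le_mul_of_nonneg_right (le_abs_self C) (by positivity)
            _ ≤ _ := mul_le_mul_of_nonneg_left h5 (abs_nonneg C)
        have h2 := hz (v + u) (abs_add_le v u)
        have h3 := hz (v - u) (abs_sub v u)
        push_cast at h2 h3
        rw [norm_mul, norm_pow, norm_pow, Complex.norm_conj, two_mul, pow_add]
        gcongr)
  refine h1.trans (le_of_eq ?_)
  rw [add_sub_cancel_left, abs_one, mul_one, Real.mul_rpow (by positivity) (by linarith), ← mul_assoc, mul_pow,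
    ← Real.rpow_natCast (t ^ e), ← Real.rpow_mul (by linarith)]
  congr 2
  push_cast
  exact hek

/-- the converse for the moments -/
theorem moment_conv (k : ℕ) {a : ℝ} (ha : 0 ≤ a) {C : ℝ}
    (h : ∀ T : ℝ, 1 ≤ T → ∫ t in (0 : ℝ)..T, fk k t ≤ C * T ^ a) (u : ℝ) :
    ∃ C' : ℝ, ∀ T : ℝ, 1 ≤ T → ‖J k u 0 T‖ ≤ C' * T ^ a := by
  have hfc := fk_cont k
  have hint : ∀ x y : ℝ, IntervalIntegrable (fk k) volume x y := fun x y => hfc.intervalIntegrable _ _
  set U := |u| with hU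
  set C0 := ∫ t in (-U)..(0 : ℝ), fk k t with hC0
  have hC00 : 0 ≤ C0 := intervalIntegral.integral_nonneg (by rw [hU]; linarith [abs_nonneg u]) (fun t _ => fk_nonneg k t)
  have hU0 : 0 ≤ U := abs_nonneg u
  refine ⟨C0 + |C| * (1 + U) ^ a, fun T hT => ?_⟩
  have hbig : ∀ w : ℝ, |w| ≤ U → ∫ t in (0 : ℝ)..T, fk k (t + w) ≤ (C0 + |C| * (1 + U) ^ a) * T ^ a := by
    intro w hw
    have hw' := abs_le.1 hw
    rw [intervalIntegral.integral_comp_add_right (fun t => fk k t) w]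
    have h1 : ∫ t in (0 + w)..(T + w), fk k t ≤ ∫ t in (-U)..(T + U), fk k t := by
      apply intervalIntegral.integral_mono_interval (by linarith [hw'.1]) (by linarith) (by linarith [hw'.2])
      · exact Filter.Eventually.of_forall fun t => fk_nonneg k t
      · exact hint _ _
    have h2 : ∫ t in (-U)..(T + U), fk k t = C0 + ∫ t in (0 : ℝ)..(T + U), fk k t := by
      rw [hC0, intervalIntegral.integral_add_adjacent_intervals (hint _ _) (hint _ _)]
    have h3 := h (T + U) (by linarith)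
    have h4 : (T + U) ^ a ≤ (1 + U) ^ a * T ^ a := by
      rw [← Real.mul_rpow (by linarith) (by linarith)]
      apply Real.rpow_le_rpow (by linarith) _ ha
      nlinarith
    have h5 : 1 ≤ T ^ a := Real.one_le_rpow hT ha
    have h6 : C * (T + U) ^ a ≤ |C| * ((1 + U) ^ a * T ^ a) := by
      calc C * (T + U) ^ a ≤ |C| * (T + U) ^ a :=
            mul_le_mul_of_nonneg_right (le_abs_self C) (Real.rpow_nonneg (by linarith) _)
        _ ≤ _ := mul_le_mul_of_nonneg_left h4 (abs_nonneg C)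
    calc ∫ t in (0 + w)..(T + w), fk k t ≤ C0 + ∫ t in (0 : ℝ)..(T + U), fk k t := h1.trans h2.le
      _ ≤ C0 * T ^ a + |C| * ((1 + U) ^ a * T ^ a) := by
          have : C0 * 1 ≤ C0 * T ^ a := mul_le_mul_of_nonneg_left h5 hC00
          linarith
      _ = _ := by ring
  have h1 : ‖J k u 0 T‖ ≤ ∫ t in (0 : ℝ)..T, (fk k (t + u) + fk k (t + -u)) / 2 := by
    unfold J
    refine (intervalIntegral.norm_integral_le_integral_norm (by linarith)).trans ?_
    apply intervalIntegral.integral_mono_on (by linarith)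
    · have h2 := (J_cont k u).norm.intervalIntegrable (μ := volume) 0 T
      refine h2.congr ?_
      intro t _
      simp only
      rw [zk_shift]
    · apply Continuous.intervalIntegrable
      fun_prop
    intro t _
    rw [norm_mul, norm_pow, norm_pow, Complex.norm_conj]
    unfold fk
    push_cast
    rw [← sub_eq_add_neg, mul_comm 2 k, pow_mul, pow_mul]
    nlinarith [sq_nonneg (‖riemannZeta (1 / 2 + (↑t + ↑u) * Complex.I)‖ ^ k -
      ‖riemannZeta (1 / 2 + (↑t - ↑u) * Complex.I)‖ ^ k)]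
  refine h1.trans ?_
  rw [intervalIntegral.integral_div, intervalIntegral.integral_add]
  · have h2 := hbig u le_rfl
    have h3 := hbig (-u) (by rw [abs_neg])
    linarith
  · exact (hfc.comp (continuous_id.add continuous_const)).intervalIntegrable _ _
  · exact (hfc.comp (continuous_id.add continuous_const)).intervalIntegrable _ _

/-- the Lindelöf hypothesis gives all the moments -/
theorem moment_of_growth (k : ℕ) (h : Growth 0) : ∀ ε : ℝ, 0 < ε → ∃ C : ℝ, ∀ T : ℝ, 1 ≤ T →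
    ∫ t in (0 : ℝ)..T, ‖riemannZeta (1 / 2 + t * Complex.I)‖ ^ (2 * k) ≤ C * T ^ (1 + ε) := by
  intro ε hε
  rcases Nat.eq_zero_or_pos k with hk | hk
  · subst hk
    refine ⟨1, fun T hT => ?_⟩
    simp only [mul_zero, pow_zero]
    rw [intervalIntegral.integral_const, sub_zero, smul_eq_mul, mul_one, one_mul]
    calc T = T ^ (1 : ℝ) := (Real.rpow_one T).symm
      _ ≤ T ^ (1 + ε) := Real.rpow_le_rpow_of_exponent_le hT (by linarith)
  have hk0 : (0 : ℝ) < k := by exact_mod_cast hk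
  obtain ⟨C, hC⟩ := h (ε / (2 * k)) (by positivity)
  have he0 : 0 < ε / (2 * k) := by positivity
  refine ⟨(|C| * 2 ^ (ε / (2 * k))) ^ (2 * k), fun T hT => ?_⟩
  have h1 : ∫ t in (0 : ℝ)..T, ‖riemannZeta (1 / 2 + t * Complex.I)‖ ^ (2 * k) ≤
      ∫ _ in (0 : ℝ)..T, (|C| * (2 * T) ^ (ε / (2 * k))) ^ (2 * k) := by
    apply intervalIntegral.integral_mono_on (by linarith)
    · exact (fk_cont k).intervalIntegrable _ _
    · exact intervalIntegrable_const
    intro t ht
    have h2 := hC t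
    rw [zero_add] at h2
    have h3 : 1 + |t| ≤ 2 * T := by
      rw [abs_of_nonneg ht.1]; linarith [ht.2]
    have h4 : (1 + |t|) ^ (ε / (2 * k)) ≤ (2 * T) ^ (ε / (2 * k)) := Real.rpow_le_rpow (by positivity) h3 he0.le
    apply pow_le_pow_left₀ (norm_nonneg _)
    refine h2.trans ?_
    calc C * (1 + |t|) ^ (ε / (2 * k)) ≤ |C| * (1 + |t|) ^ (ε / (2 * k)) :=
          mul_le_mul_of_nonneg_right (le_abs_self C) (by positivity)
      _ ≤ _ := mul_le_mul_of_nonneg_left h4 (abs_nonneg C)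
  refine h1.trans (le_of_eq ?_)
  rw [intervalIntegral.integral_const, sub_zero, smul_eq_mul, Real.mul_rpow (by norm_num) (by linarith), ← mul_assoc,
    mul_pow, ← Real.rpow_natCast (T ^ (ε / (2 * k))), ← Real.rpow_mul (by linarith), Real.rpow_add (by linarith),
    Real.rpow_one]
  have h5 : ε / (2 * k) * ((2 * k : ℕ) : ℝ) = ε := by push_cast; field_simp
  rw [h5]
  ring

end Pool.Agent.Helper156_SM
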