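import Pool.Agent.Helper156_SM.Glob

set_option autoImplicit false

/-!
# The choice of the parameters
-/

open MeasureTheory Set Filter

namespace Pool.Agent.Helper156_SM

theorem ev0 {φ : ℝ → ℝ} (hφ : Continuous φ) (h : φ 0 < 0) : ∀ᶠ s in nhdsWithin (0 : ℝ) (Ioi 0), φ s < 0 := by
  have h1 : ∀ᶠ s in nhds (0 : ℝ), φ s < 0 := hφ.continuousAt.eventually_lt_const h
  exact h1.filter_mono nhdsWithin_le_nhds

/-- The local result for an interval, from the strict inequalities. -/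
theorem local_interval {θ η ν b U : ℝ} (hθ : 0 ≤ θ) (hη : 0 < η) (hη1 : η < 1 / 2) (hν : 0 < ν) (hν1 : ν < 1 / 2)
    (hb : 0 < b) (hU : 0 < U) (h1 : θ + ν / 2 - 2 * (1 + θ - ν / 2) * η < -(2 * η * ν))
    (h2 : θ - ν / 2 < -(b * η ^ 2)) (h3 : θ + ν / 2 - b * U ^ 2 < -(b * η ^ 2)) :
    ∃ c : ℝ, 0 < c ∧ ∀ (k : ℕ), 1 ≤ k → ∀ u0 : ℝ, ∃ e : ℝ, 0 < e ∧ ∀ᶠ T : ℝ in atTop, Close k (1 / 2) T θ e →
      volume {u : ℝ | u ∈ Icc (u0 - U) (u0 + U) ∧ Close k (1 / 2 + u * Complex.I) T θ e} <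
        ENNReal.ofReal (2 * U - c) := by
  have E1 : ∀ᶠ s in nhdsWithin (0 : ℝ) (Ioi 0), (θ + ν / 2 - 2 * (1 + θ - ν / 2) * η +
      (5 + 2 * (1 + θ - ν / 2)) * s ^ 4) - (-(2 * η * ν) - 2 * s ^ 4) < 0 :=
    ev0 (by fun_prop) (by simp only [ne_eq, OfNat.ofNat_ne_zero, not_false_eq_true, zero_pow, mul_zero, add_zero, sub_zero]; linarith)
  have E2 : ∀ᶠ s in nhdsWithin (0 : ℝ) (Ioi 0), (θ + ν / 2 - 2 * (1 + θ - ν / 2) * (η + s ^ 2) +
      (5 + 2 * (1 + θ - ν / 2)) * s ^ 4) - (-(2 * (η + s ^ 2) * ν) - s ^ 4) < 0 :=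
    ev0 (by fun_prop) (by simp only [ne_eq, OfNat.ofNat_ne_zero, not_false_eq_true, zero_pow, mul_zero, add_zero, sub_zero]; linarith)
  have E3 : ∀ᶠ s in nhdsWithin (0 : ℝ) (Ioi 0), (θ - ν / 2 + 7 * s ^ 4) - (-(b * η * (η + s ^ 2)) - s * η) < 0 :=
    ev0 (by fun_prop) (by simp only [ne_eq, OfNat.ofNat_ne_zero, not_false_eq_true, zero_pow, mul_zero, add_zero, sub_zero, zero_mul]; nlinarith)
  have E4 : ∀ᶠ s in nhdsWithin (0 : ℝ) (Ioi 0), (θ + ν / 2 - b * (U - s) ^ 2 + 6 * s ^ 4) -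
      (-(b * η * (η + s ^ 2)) - s * η) < 0 :=
    ev0 (by fun_prop) (by simp only [ne_eq, OfNat.ofNat_ne_zero, not_false_eq_true, zero_pow, mul_zero, add_zero, sub_zero, zero_mul]; nlinarith)
  have E5 : ∀ᶠ s in nhdsWithin (0 : ℝ) (Ioi 0), (η + s ^ 2) - 1 / 2 < 0 :=
    ev0 (by fun_prop) (by simp only [ne_eq, OfNat.ofNat_ne_zero, not_false_eq_true, zero_pow, add_zero]; linarith)
  have E6 : ∀ᶠ s in nhdsWithin (0 : ℝ) (Ioi 0), s - U < 0 := ev0 (by fun_prop) (by linarith)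
  have E7 : ∀ᶠ s in nhdsWithin (0 : ℝ) (Ioi 0), s - 1 / 6 < 0 := ev0 (by fun_prop) (by norm_num)
  have E8 : ∀ᶠ s in nhdsWithin (0 : ℝ) (Ioi 0), s ^ 4 - η < 0 :=
    ev0 (by fun_prop) (by simp only [ne_eq, OfNat.ofNat_ne_zero, not_false_eq_true, zero_pow]; linarith)
  obtain ⟨s, ⟨⟨⟨⟨⟨⟨⟨⟨a1, a2⟩, a3⟩, a4⟩, a5⟩, a6⟩, a7⟩, a8⟩, a9⟩⟩ :=
    ((((((((E1.and E2).and E3).and E4).and E5).and E6).and E7).and E8).and self_mem_nhdsWithin).exists
  have hs : 0 < s := a9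
  have hs4 : 0 < s ^ 4 := by positivity
  have hs1 : s ≤ 1 / 6 := by linarith
  have hs4' : s ^ 4 ≤ 1 / 4 := by
    calc s ^ 4 ≤ (1 / 6) ^ 4 := by gcongr
      _ ≤ 1 / 4 := by norm_num
  refine ⟨s ^ 4 * η / 2, by positivity, fun k hk u0 => ?_⟩
  obtain ⟨e0, he0, hI⟩ := coreI hk u0 (η1 := η) (lam := s) (δ := s ^ 4) hη hs hs4
  set e := min e0 (s ^ 4) with he
  have hee : 0 < e := lt_min he0 hs4
  have hes : e ≤ s ^ 4 := min_le_right _ _
  have hρ : ν * (2 * (s ^ 4 * η / 2) / η) ≤ s ^ 4 := by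
    have : 2 * (s ^ 4 * η / 2) / η = s ^ 4 := by field_simp
    rw [this]
    nlinarith
  have hx : 0 ≤ 5 + 2 * (1 + θ - ν / 2) := by linarith
  have hxe : (5 + 2 * (1 + θ - ν / 2)) * e ≤ (5 + 2 * (1 + θ - ν / 2)) * s ^ 4 := mul_le_mul_of_nonneg_left hes hx
  refine ⟨e, hee, ?_⟩
  have hfin := hI ν e θ (η + s ^ 2) (U - s) b s (s ^ 4 * η / 2) hν hν1 hee (by linarith) (min_le_left _ _) hθ
    (by linarith) (by nlinarith) (by linarith) (by linarith) hb (by positivity) ?_ ?_ ?_ ?_ ?_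
  · filter_upwards [hfin] with T hT hcl
    have := hT hcl
    rw [sub_add_cancel] at this
    exact this
  · linarith
  · linarith
  · have e1 : s * (η + s ^ 2 - η) = s ^ 3 := by ring
    rw [e1]
    have e2 : 6 * s ^ 4 ≤ s ^ 3 := by
      have : s ^ 4 = s * s ^ 3 := by ring
      rw [this]
      have h5 : 0 < s ^ 3 := by positivity
      nlinarith
    linarith
  · linarith
  · linarith

/-- The exponent for an interval of half length `U`. -/
noncomputable def Th (U : ℝ) : ℝ := if U < 1 then U / (3 + 5 * U) else 1 / 4 - 1 / (8 * U ^ 2)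

theorem Th_pos {U : ℝ} (hU : 0 < U) : 0 < Th U := by
  unfold Th
  split_ifs with h
  · positivity
  · push Not at h
    have : 1 / (8 * U ^ 2) < 1 / 4 := by
      apply one_div_lt_one_div_of_lt (by norm_num)
      nlinarith
    linarith

theorem par_exists {U θ : ℝ} (hU : 0 < U) (hθ : 0 ≤ θ) (hθ1 : θ < Th U) : ∃ η ν b : ℝ, 0 < η ∧ η < 1 / 2 ∧ 0 < ν ∧
    ν < 1 / 2 ∧ 0 < b ∧ θ + ν / 2 - 2 * (1 + θ - ν / 2) * η < -(2 * η * ν) ∧ θ - ν / 2 < -(b * η ^ 2) ∧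
    θ + ν / 2 - b * U ^ 2 < -(b * η ^ 2) := by
  unfold Th at hθ1
  split_ifs at hθ1 with h
  · -- short intervals
    rw [lt_div_iff₀ (by positivity)] at hθ1
    set ν0 := min (1 / 2) ((2 * U - 2 * θ * (1 - U)) / (1 + 3 * U)) with hν0
    have hθ8 : 8 * θ < 1 := by nlinarith
    have hν0' : 4 * θ < ν0 := by
      apply lt_min
      · linarith
      · rw [lt_div_iff₀ (by positivity)]
        nlinarith
    set ν := (4 * θ + ν0) / 2 with hν
    have hν1 : 4 * θ < ν := by rw [hν]; linarith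
    have hν2 : ν < ν0 := by rw [hν]; linarith
    have hν3 : ν < 1 / 2 := hν2.trans_le (min_le_left _ _)
    have hν4 : ν < (2 * U - 2 * θ * (1 - U)) / (1 + 3 * U) := hν2.trans_le (min_le_right _ _)
    rw [lt_div_iff₀ (by positivity)] at hν4
    -- with `b = β / U ^ 2`
    set β := (4 / 3 * (θ + ν / 2) + 4 * (ν / 2 - θ)) / 2 with hβ
    have hβ0 : 0 < β := by rw [hβ]; linarith
    refine ⟨U / 2, ν, β / U ^ 2, by linarith, by linarith, by linarith, hν3, by positivity, ?_, ?_, ?_⟩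
    · nlinarith
    · have : β / U ^ 2 * (U / 2) ^ 2 = β / 4 := by field_simp; ring
      rw [this, hβ]; linarith
    · have e1 : β / U ^ 2 * (U / 2) ^ 2 = β / 4 := by field_simp; ring
      have e2 : β / U ^ 2 * U ^ 2 = β := by field_simp
      rw [e1, e2, hβ]; linarith
  · -- long intervals
    push Not at h
    set w := 1 / U ^ 2 with hw
    have hw0 : 0 < w := by positivity
    have hw1 : w ≤ 1 := by
      rw [hw, div_le_one (by positivity)]
      nlinarith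
    have hθw : θ < 1 / 4 - w / 8 := by
      have : 1 / (8 * U ^ 2) = w / 8 := by rw [hw]; field_simp
      rwa [this] at hθ1
    set s := min (1 / 4) (1 / 4 - w / 8 - θ) with hs
    have hs0 : 0 < s := lt_min (by norm_num) (by linarith)
    have hs1 : s ≤ 1 / 4 := min_le_left _ _
    have hs2 : s ≤ 1 / 4 - w / 8 - θ := min_le_right _ _
    set η := 1 / 2 - s with hη
    have hη0 : 1 / 4 ≤ η := by rw [hη]; linarith
    have hη1 : η < 1 / 2 := by rw [hη]; linarith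
    set q := η ^ 2 * w with hq
    have hq0 : 0 < q := by positivity
    have hq1 : q ≤ w / 4 := by
      have : η ^ 2 ≤ 1 / 4 := by nlinarith
      rw [hq]; nlinarith
    have hkey : θ < η / 2 * (1 - 2 * q) := by
      have h5 : 1 - w / 2 ≤ 1 - 2 * q := by linarith
      have h6 : η / 2 * (1 - w / 2) ≤ η / 2 * (1 - 2 * q) := by gcongr
      have h7 : η / 2 * (1 - w / 2) = 1 / 4 - w / 8 - s / 2 * (1 - w / 2) := by rw [hη]; ring
      have h8 : s / 2 * (1 - w / 2) ≤ s / 2 := by nlinarith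
      linarith
    have h1q : 0 < 1 - q := by linarith
    have hXY : (θ + η / 2) / (1 - q) < (η / 2 - θ) / q := by
      rw [div_lt_div_iff₀ h1q hq0]
      nlinarith
    set β := ((θ + η / 2) / (1 - q) + (η / 2 - θ) / q) / 2 with hβ
    have hβ1 : (θ + η / 2) / (1 - q) < β := by rw [hβ]; linarith
    have hβ2 : β < (η / 2 - θ) / q := by rw [hβ]; linarith
    have hβ0 : 0 < β := lt_trans (by positivity) hβ1
    rw [div_lt_iff₀ h1q] at hβ1
    rw [lt_div_iff₀ hq0] at hβ2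
    have e1 : β * w * η ^ 2 = β * q := by rw [hq]; ring
    have e2 : β * w * U ^ 2 = β := by rw [hw]; field_simp
    refine ⟨η, η, β * w, by linarith, hη1, by linarith, hη1, by positivity, ?_, ?_, ?_⟩
    · nlinarith
    · rw [e1]; linarith
    · rw [e1, e2]; linarith

end Pool.Agent.Helper156_SM
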