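import Pool.Agent.Helper156_SM.LineP
import Pool.Agent.Helper156_SM.Par

set_option autoImplicit false

/-!
# Two vertical lines
-/

open MeasureTheory Set Filter

namespace Pool.Agent.Helper156_SM

open Pool.Agent.Helper156_EK
open Pool.Agent.W188.QS Pool.Agent.W188.GP

/-- the moment in the strip to the right of the line `Re s = a0` -/
theorem strip_bound_a {k : ℕ} {ν e P a0 : ℝ} (hν : 0 < ν) (hν1 : ν < 1 / 2) (he : 0 < e) (he1 : e ≤ 1 / 4)
    (ha0 : 1 / 2 ≤ a0) (ha1 : a0 < 1)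
    (hP : 1 + e ≤ P) : ∀ᶠ T : ℝ in atTop, (∀ s : ℂ, s.re = a0 → |s.im| ≤ T / 8 → ‖Kf k ν e T s‖ ≤ T ^ P) →
    ∀ s : ℂ, a0 ≤ s.re → s.re ≤ 1 + e → |s.im| ≤ T / 16 → ‖Kf k ν e T s‖ ≤ T ^ (P + e) := by
  obtain ⟨A, hA, hcr⟩ := crude k (e := e) hν hν1
  have ev1 := ev_pow 10 (a := P) (b := P + e) (by linarith)
  have ev2 := ev_exp 1 A (c := 1 / 256) (e := 2) (by norm_num) (by norm_num)
  filter_upwards [hcr, right_bound k hν hν1 he he1, diag_upper k hν hν1 he, ev1, ev2,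
    eventually_ge_atTop 1] with T h1 h3 h4 e1 e2 hT h2 s hs1 hs2 hs3
  have hT0 : 0 < T := by linarith
  have hsi := abs_le.1 hs3
  have hz : ∀ z : ℂ, |z.im - s.im| ≤ T / 16 → |z.im| ≤ T / 8 := by
    intro z hz
    have := abs_le.1 hz
    rw [abs_le]; constructor <;> linarith
  have h5 := three_lines (f := Kf k ν e T) (a := a0) (c := 1 + e) (Y := T / 16) (X := 1)
    (A := T ^ P) (B := 2 * T ^ P) (G := T ^ A) (s0 := s)
    (by linarith) (by positivity) ⟨hs1, hs2⟩ ?_ ?_ ?_ ?_ le_rfl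
  · refine h5.trans ?_
    have q1 : Real.exp ((1 + e - a0) ^ 2) ≤ 2 := by
      apply exp_le_two
      nlinarith
    have q2 : T ^ A * Real.exp (-(T / 16) ^ 2) ≤ 1 := by
      have : -(T / 16) ^ 2 = -(1 / 256 * T ^ (2 : ℝ)) := by
        rw [show (2 : ℝ) = ((2 : ℕ) : ℝ) by norm_num, Real.rpow_natCast]; ring
      rw [this]
      simpa using e2
    have q3 : 1 ≤ T ^ P := Real.one_le_rpow hT (by linarith)
    rw [Real.one_rpow, Real.one_rpow, Real.one_rpow, mul_one, mul_one, mul_one]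
    have q4 : T ^ P + 2 * T ^ P + T ^ A * Real.exp (-(T / 16) ^ 2) ≤ 4 * T ^ P := by linarith
    calc Real.exp ((1 + e - a0) ^ 2) * (T ^ P + 2 * T ^ P + T ^ A * Real.exp (-(T / 16) ^ 2))
          ≤ 2 * (4 * T ^ P) := by gcongr
      _ ≤ T ^ (P + e) := by linarith
  · apply (Kf_diff k ν e hT0).mono
    intro z hz1
    change |z.im| < T
    have h6 := hz1.2
    change z.im ∈ Icc _ _ at h6
    rw [abs_lt]
    constructor <;> linarith [h6.1, h6.2]
  · intro z hz1 hz2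
    exact h2 z hz1 (hz z hz2)
  · intro z hz1 hz2
    have h6 := h3 z hz1
    have h7 := h4 z (by rw [hz1]; linarith) (by rw [hz1]; linarith)
    have h8 : ‖Kf k ν e T z‖ ≤ ‖Kf k ν e T z - Sf k ν e T z‖ + ‖Sf k ν e T z‖ := by
      have := norm_add_le (Kf k ν e T z - Sf k ν e T z) (Sf k ν e T z)
      simpa using this
    have h9 : T ^ (ν + e) ≤ T ^ P := Real.rpow_le_rpow_of_exponent_le hT (by linarith)
    have h10 : T ^ (1 - 2 * (z.re - 1 / 2) * ν + e) ≤ T ^ P := by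
      apply Real.rpow_le_rpow_of_exponent_le hT
      rw [hz1]
      nlinarith
    linarith
  · intro z hz1 hz2
    have := hz z hz2
    exact h1 z (by linarith [hz1.1]) (by linarith [hz1.2]) (by linarith)

/-- the remainder in the strip to the right of the line `Re s = a0` -/
theorem rem_bound_a {k : ℕ} {ν e P a0 : ℝ} (hν : 0 < ν) (hν1 : ν < 1 / 2) (he : 0 < e) (he1 : e ≤ 1 / 4)
    (ha0 : 1 / 2 ≤ a0) (ha1 : a0 < 1)
    (hP : 1 + e ≤ P) : ∀ᶠ T : ℝ in atTop, (∀ s : ℂ, s.re = a0 → |s.im| ≤ T / 8 → ‖Kf k ν e T s‖ ≤ T ^ P) →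
    ∀ s : ℂ, a0 + e ≤ s.re → s.re ≤ 1 →
    |s.im| ≤ T / 32 → ‖Kf k ν e T s - Sf k ν e T s‖ ≤
      T ^ (P - (P - ν) / (1 - a0) * (s.re - a0) + (3 + (P - ν) / (1 - a0)) * e) := by
  obtain ⟨A, hA, hcr⟩ := crude k (e := e) hν hν1
  set x := (P - ν) / (1 - a0) with hx
  have h1a : 0 < 1 - a0 := by linarith
  have hx0 : 0 < x := by rw [hx]; apply div_pos <;> linarith
  have hxa : x * (1 - a0) = P - ν := by rw [hx]; field_simp
  have ev2 := ev_exp 2 (A + 2 + x) (c := 1 / 1024) (e := 2) (by norm_num) (by norm_num)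
  have ev3 := ev_pow 8 (a := 0) (b := e) he
  filter_upwards [hcr, strip_bound_a (k := k) hν hν1 he he1 ha0 ha1 hP, right_bound k hν hν1 he he1,
    diag_upper k hν hν1 he, ev2, ev3,
    ev_N hν hν1, eventually_ge_atTop 1] with T h1 h2 h3 h4 e2 e3 hN hT hcl s hs1 hs2 hs3
  have hT0 : 0 < T := by linarith
  have hsi := abs_le.1 hs3
  rw [Real.rpow_zero, mul_one] at e3
  have hz : ∀ z : ℂ, |z.im - s.im| ≤ T / 32 → |z.im| ≤ T / 16 := by
    intro z hz
    have := abs_le.1 hz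
    rw [abs_le]; constructor <;> linarith
  have hSle : ∀ z : ℂ, 1 / 2 + e ≤ z.re → z.re ≤ 2 → ‖Sf k ν e T z‖ ≤ T ^ (1 + e) := by
    intro z hz1 hz2
    refine (h4 z hz1 hz2).trans (Real.rpow_le_rpow_of_exponent_le hT ?_)
    have : 0 ≤ 2 * (z.re - 1 / 2) * ν := by
      have : 0 ≤ z.re - 1 / 2 := by linarith
      positivity
    linarith
  set m0 := P + e with hm0
  set m := P - x * (s.re - a0) + (3 + x) * e with hm
  have h5 := three_lines (f := fun z => Kf k ν e T z - Sf k ν e T z) (a := a0 + e) (c := 1 + e) (Y := T / 32) (X := T ^ x)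
    (A := 2 * T ^ m0) (B := T ^ (ν + e)) (G := T ^ A + T ^ (1 + e)) (s0 := s)
    (by linarith) (by positivity) ⟨hs1, by linarith⟩ ?_ ?_ ?_ ?_ (Real.one_le_rpow hT hx0.le)
  · refine h5.trans ?_
    have q1 : Real.exp ((1 + e - (a0 + e)) ^ 2) ≤ 2 := by
      apply exp_le_two
      nlinarith
    have q2 : 2 * T ^ m0 * (T ^ x) ^ (a0 + e - s.re) = 2 * T ^ (m - 2 * e) := by
      rw [← Real.rpow_mul hT0.le, mul_assoc, ← Real.rpow_add hT0]
      congr 2
      rw [hm0, hm]; ring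
    have q3 : T ^ (ν + e) * (T ^ x) ^ (1 + e - s.re) = T ^ (m - 2 * e) := by
      rw [← Real.rpow_mul hT0.le, ← Real.rpow_add hT0]
      congr 1
      rw [hm]
      linarith
    have q4 : (T ^ A + T ^ (1 + e)) * Real.exp (-(T / 32) ^ 2) * (T ^ x) ^ (1 + e - (a0 + e)) ≤ 1 := by
      have r1 : -(T / 32) ^ 2 = -(1 / 1024 * T ^ (2 : ℝ)) := by
        rw [show (2 : ℝ) = ((2 : ℕ) : ℝ) by norm_num, Real.rpow_natCast]; ring
      have r2 : T ^ A ≤ T ^ (A + 2) := Real.rpow_le_rpow_of_exponent_le hT (by linarith)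
      have r3 : T ^ (1 + e) ≤ T ^ (A + 2) := Real.rpow_le_rpow_of_exponent_le hT (by linarith)
      have r4 : (T ^ x) ^ (1 + e - (a0 + e)) ≤ T ^ x := by
        rw [← Real.rpow_mul hT0.le]
        exact Real.rpow_le_rpow_of_exponent_le hT (by nlinarith)
      rw [r1]
      calc (T ^ A + T ^ (1 + e)) * Real.exp (-(1 / 1024 * T ^ (2 : ℝ))) * (T ^ x) ^ (1 + e - (a0 + e))
          ≤ (T ^ (A + 2) + T ^ (A + 2)) * Real.exp (-(1 / 1024 * T ^ (2 : ℝ))) * T ^ x := by gcongr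
        _ = 2 * T ^ (A + 2 + x) * Real.exp (-(1 / 1024 * T ^ (2 : ℝ))) := by
            rw [Real.rpow_add hT0 (A + 2) x]; ring
        _ ≤ 1 := e2
    have hm1 : 0 ≤ m - 2 * e := by
      have h6 : x * (s.re - a0) ≤ x * (1 - a0) := by gcongr
      rw [hm]
      nlinarith
    have q5 : 1 ≤ T ^ (m - 2 * e) := Real.one_le_rpow hT hm1
    rw [q2, q3]
    calc Real.exp ((1 + e - (a0 + e)) ^ 2) * (2 * T ^ (m - 2 * e) + T ^ (m - 2 * e) +
          (T ^ A + T ^ (1 + e)) * Real.exp (-(T / 32) ^ 2) * (T ^ x) ^ (1 + e - (a0 + e)))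
        ≤ 2 * (4 * T ^ (m - 2 * e)) := by gcongr; linarith
      _ = 8 * T ^ (m - 2 * e) := by ring
      _ ≤ T ^ e * T ^ (m - 2 * e) := by gcongr
      _ = T ^ (m - e) := by rw [← Real.rpow_add hT0]; congr 1; ring
      _ ≤ T ^ m := Real.rpow_le_rpow_of_exponent_le hT (by linarith)
  · apply DifferentiableOn.sub
    · apply (Kf_diff k ν e hT0).mono
      intro z hz1
      change |z.im| < T
      have h6 := hz1.2
      change z.im ∈ Icc _ _ at h6
      rw [abs_lt]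
      constructor <;> linarith [h6.1, h6.2]
    · apply (Sf_diff k ν e T (a := e / 2) (by linarith) hN.1).mono
      intro z hz1
      change 1 / 2 + e / 2 < z.re
      have h6 := hz1.1
      change z.re ∈ Icc _ _ at h6
      linarith [h6.1]
  · intro z hz1 hz2
    have h6 := h2 hcl z (by rw [hz1]; linarith) (by rw [hz1]; linarith) (hz z hz2)
    have h7 := hSle z (by rw [hz1]; linarith) (by rw [hz1]; linarith)
    have h8 : T ^ (1 + e) ≤ T ^ m0 := Real.rpow_le_rpow_of_exponent_le hT (by rw [hm0]; linarith)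
    have h9 := norm_sub_le (Kf k ν e T z) (Sf k ν e T z)
    linarith
  · intro z hz1 _
    exact h3 z hz1
  · intro z hz1 hz2
    have h6 := hz z hz2
    have h7 := h1 z (by linarith [hz1.1]) (by linarith [hz1.2]) (by linarith)
    have h8 := hSle z (by linarith [hz1.1]) (by linarith [hz1.2])
    have h9 := norm_sub_le (Kf k ν e T z) (Sf k ν e T z)
    linarith

/-- `|ζ (σ + i t)| ^ (2 k)` -/
noncomputable def fl (k : ℕ) (σ t : ℝ) : ℝ := ‖riemannZeta (σ + t * Complex.I)‖ ^ (2 * k)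

theorem fl_nonneg (k : ℕ) (σ t : ℝ) : 0 ≤ fl k σ t := by unfold fl; positivity

theorem fl_cont (k : ℕ) {σ : ℝ} (hσ : σ ≠ 1) : Continuous (fl k σ) := by
  unfold fl
  apply Continuous.pow
  apply Continuous.norm
  rw [continuous_iff_continuousAt]
  intro t
  have h1 : (σ : ℂ) + t * Complex.I ≠ 1 := by
    intro h2
    have := congrArg Complex.re h2
    simp at this
    exact hσ this
  exact ContinuousAt.comp (f := fun t : ℝ => (σ : ℂ) + t * Complex.I) (differentiableAt_riemannZeta h1).continuousAt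
    (by fun_prop)

theorem zk_line_le_a (k : ℕ) {s : ℂ} {σ : ℝ} (hs : s.re = σ) (t : ℝ) :
    ‖zk k s t‖ ≤ (fl k σ (t + s.im) + fl k σ (t - s.im)) / 2 := by
  have e1 : s + t * Complex.I = σ + ((t + s.im : ℝ) : ℂ) * Complex.I := by
    apply Complex.ext
    · simp [hs]
    · simp; ring
  have e2 : s - t * Complex.I = (starRingEnd ℂ) (σ + ((t - s.im : ℝ) : ℂ) * Complex.I) := by
    rw [map_add, map_mul, Complex.conj_I, Complex.conj_ofReal, Complex.conj_ofReal]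
    apply Complex.ext
    · simp [hs]
    · simp
  unfold zk
  rw [e1, e2, riemannZeta_conj, norm_mul, norm_pow, norm_pow, RCLike.norm_conj]
  unfold fl
  rw [mul_comm 2 k, pow_mul, pow_mul]
  set a := ‖riemannZeta (σ + ((t + s.im : ℝ) : ℂ) * Complex.I)‖ ^ k
  set b := ‖riemannZeta (σ + ((t - s.im : ℝ) : ℂ) * Complex.I)‖ ^ k
  nlinarith [sq_nonneg (a - b)]

theorem fl_shift_int {k : ℕ} {σ T v : ℝ} (hσ : σ ≠ 1) (hT0 : 0 < T) (hv : |v| ≤ T / 8) :
    ∫ t in (5 * T / 4)..(7 * T / 4), fl k σ (t + v) ≤ ∫ t in T..(2 * T), fl k σ t := by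
  have h1 := abs_le.1 hv
  rw [intervalIntegral.integral_comp_add_right]
  apply intervalIntegral.integral_mono_interval (by linarith) (by linarith) (by linarith)
  · exact Eventually.of_forall fun t => fl_nonneg k σ t
  · exact (fl_cont k hσ).intervalIntegrable _ _

theorem fl_shift_int2 {k : ℕ} {σ T v : ℝ} (hσ : σ ≠ 1) (hT0 : 0 < T) (hv : |v| ≤ T / 8) :
    ∫ t in (5 * T / 4)..(7 * T / 4), (fl k σ (t + v) + fl k σ (t - v)) / 2 ≤ ∫ t in T..(2 * T), fl k σ t := by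
  have h1 := fl_shift_int (k := k) hσ hT0 hv
  have h2 := fl_shift_int (k := k) hσ hT0 (v := -v) (by rwa [abs_neg])
  have hfc := fl_cont k hσ
  have e : ∫ t in (5 * T / 4)..(7 * T / 4), (fl k σ (t + v) + fl k σ (t - v)) / 2 =
      ((∫ t in (5 * T / 4)..(7 * T / 4), fl k σ (t + v)) + ∫ t in (5 * T / 4)..(7 * T / 4), fl k σ (t - v)) / 2 := by
    rw [intervalIntegral.integral_div, intervalIntegral.integral_add]
    · exact (hfc.comp (by fun_prop)).intervalIntegrable _ _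
    · exact (hfc.comp (by fun_prop)).intervalIntegrable _ _
  simp only [← sub_eq_add_neg] at h2
  rw [e]
  linarith

/-- the bound on the line `Re s = σ`, from the mean value only -/
theorem line_bound_a (k : ℕ) {ν e K σ : ℝ} (hν : 0 < ν) (hν1 : ν < 1 / 2) (he : 0 < e) (hK : 0 ≤ K)
    (hσ : 1 / 2 ≤ σ) (hσ1 : σ < 1) :
    ∀ᶠ T : ℝ in atTop, (∫ t in T..(2 * T), fl k σ t ≤ T ^ (1 + K + e)) → ∀ s : ℂ, s.re = σ → |s.im| ≤ T / 8 →
    ‖Kf k ν e T s‖ ≤ T ^ (1 + K + ν + 2 * e) := by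
  obtain ⟨C1, B, hC1, hB, h1⟩ := zk_crude k
  have ev1 := ev_pow 2 (a := 1 + K + ν + e) (b := 1 + K + ν + 2 * e) (by linarith)
  have ev2 := ev_exp C1 (B + 2) (c := 1 / 16) (e := 2 * e) (by norm_num) (by linarith)
  have ev3 := ev_pow 2 (a := 0) (b := 1 + K + ν + 2 * e) (by linarith)
  filter_upwards [ev_N hν hν1, eventually_ge_atTop 1, ev1, ev2, ev3]
    with T hN hT e1 e2 e3 hI s hs hsi
  obtain ⟨n1, n2, n3, n4⟩ := hN
  have hT0 : 0 < T := by linarith
  have hN1 : (1 : ℝ) ≤ Nf ν T := by exact_mod_cast n1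
  have hNT : (Nf ν T : ℝ) ≤ T := by nlinarith
  unfold Kf
  have hP : ∀ t ∈ Icc T (2 * T), ‖zk k s t‖ ≤ C1 * T ^ B := fun t ht =>
    h1 T t hT ht s (by rw [hs]; linarith) (by rw [hs]; linarith) (by linarith)
  refine (KK_split (N := Nf ν T) (W := T ^ (1 - e)) hT0 s (by linarith) hP).trans ?_
  have hD : ∀ t, ‖Dp (fun _ => (1:ℂ)) (Nf ν T) t‖ ≤ Nf ν T := by
    intro t
    have := Dp_norm (c := fun _ => (1:ℂ)) (N := Nf ν T) (B := 1) (fun n _ => by simp) t
    simpa using this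
  have hfc := fl_cont k (by linarith : σ ≠ 1)
  have hzc := zk_contOn k s (by linarith : |s.im| < T)
  have hDc := Dp_cont (fun _ => (1:ℂ)) (Nf ν T)
  have p2 : ∫ t in (5 * T / 4)..(7 * T / 4), ‖Dp (fun _ => (1:ℂ)) (Nf ν T) t‖ * ‖zk k s t‖ ≤ T ^ (1 + K + ν + e) := by
    have q1 : ∫ t in (5 * T / 4)..(7 * T / 4), ‖Dp (fun _ => (1:ℂ)) (Nf ν T) t‖ * ‖zk k s t‖ ≤
        ∫ t in (5 * T / 4)..(7 * T / 4), (Nf ν T : ℝ) * ((fl k σ (t + s.im) + fl k σ (t - s.im)) / 2) := by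
      apply intervalIntegral.integral_mono_on (by linarith)
      · apply ContinuousOn.intervalIntegrable
        apply ContinuousOn.mul hDc.norm.continuousOn
        apply (hzc.norm).mono
        rw [uIcc_of_le (by linarith)]
        exact Icc_subset_Icc (by linarith) (by linarith)
      · apply Continuous.intervalIntegrable
        exact continuous_const.mul (((hfc.comp (by fun_prop)).add (hfc.comp (by fun_prop))).div_const _)
      · intro t _
        have := hD t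
        have := zk_line_le_a k hs t
        gcongr
    rw [intervalIntegral.integral_const_mul] at q1
    refine q1.trans ?_
    calc (Nf ν T : ℝ) * ∫ t in (5 * T / 4)..(7 * T / 4), (fl k σ (t + s.im) + fl k σ (t - s.im)) / 2
        ≤ T ^ ν * T ^ (1 + K + e) := by
          gcongr
          · apply intervalIntegral.integral_nonneg (by linarith)
            intro t _
            have := fl_nonneg k σ (t + s.im)
            have := fl_nonneg k σ (t - s.im)
            positivity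
          · exact (fl_shift_int2 (by linarith) hT0 hsi).trans hI
      _ = T ^ (1 + K + ν + e) := by rw [← Real.rpow_add hT0]; congr 1; ring
  have p3 : T * (Nf ν T) * (C1 * T ^ B) * Real.exp (-(T ^ 2 / (16 * (T ^ (1 - e)) ^ 2))) ≤ 1 := by
    rw [w_sq hT0 16 (by norm_num)]
    refine le_trans ?_ e2
    have : T ^ (B + 2) = T * T * T ^ B := by
      rw [Real.rpow_add hT0]
      have : T ^ (2 : ℝ) = T * T := by
        rw [show (2 : ℝ) = ((2 : ℕ) : ℝ) by norm_num, Real.rpow_natCast]; ring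
      rw [this]; ring
    rw [this]
    have h5 : T * (Nf ν T) * (C1 * T ^ B) ≤ C1 * (T * T * T ^ B) := by
      calc T * (Nf ν T) * (C1 * T ^ B) ≤ T * T * (C1 * T ^ B) := by gcongr
        _ = C1 * (T * T * T ^ B) := by ring
    gcongr
  rw [Real.rpow_zero] at e3
  linarith

/-- The local statement: a good mean value on `Re s = σ1` makes the error term on `Re s = σ2` large. -/
theorem lines_loc {k : ℕ} (hk : 1 ≤ k) {K σ1 σ2 θ : ℝ} (hK : 0 ≤ K) (h1 : 1 / 2 ≤ σ1) (h12 : σ1 < σ2) (h2 : σ2 < 3 / 4)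
    (hθ : 0 ≤ θ) (h : 4 * σ2 * (1 - σ1) * θ < (3 - 4 * σ2) * ((1 + K) * (σ2 - σ1) - K * (1 - σ1))) :
    ∃ e : ℝ, 0 < e ∧ ∀ᶠ T : ℝ in atTop, (∫ t in T..(2 * T), fl k σ1 t ≤ T ^ (1 + K + e)) →
      ¬ Close k ((σ2 : ℝ) : ℂ) T θ e := by
  have h1a : 0 < 1 - σ1 := by linarith
  have h34 : 0 < 3 - 4 * σ2 := by linarith
  set R := ((1 + K) * (σ2 - σ1) - K * (1 - σ1)) / (1 - σ1) with hR
  have hR1 : R * (1 - σ1) = (1 + K) * (σ2 - σ1) - K * (1 - σ1) := by rw [hR]; field_simp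
  have hν0 : 2 * θ / (3 - 4 * σ2) < R / (2 * σ2) := by
    rw [div_lt_div_iff₀ h34 (by linarith)]
    have : 4 * σ2 * θ < (3 - 4 * σ2) * R := by
      have h5 : 4 * σ2 * θ * (1 - σ1) < (3 - 4 * σ2) * R * (1 - σ1) := by
        rw [mul_assoc (3 - 4 * σ2), hR1]; linarith
      exact lt_of_mul_lt_mul_right h5 h1a.le
    linarith
  set ν := (2 * θ / (3 - 4 * σ2) + R / (2 * σ2)) / 2 with hν
  have hν1 : 2 * θ / (3 - 4 * σ2) < ν := by rw [hν]; linarith
  have hν2 : ν < R / (2 * σ2) := by rw [hν]; linarith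
  have hνp : 0 < ν := lt_of_le_of_lt (by positivity) hν1
  rw [div_lt_iff₀ h34] at hν1
  rw [lt_div_iff₀ (by linarith)] at hν2
  have hRle : R ≤ 1 / 2 := by
    have h5 : R * (1 - σ1) ≤ 1 / 2 * (1 - σ1) := by
      rw [hR1]; nlinarith
    exact le_of_mul_le_mul_right h5 h1a
  have hνh : ν < 1 / 2 := by nlinarith
  have E2 : ∀ᶠ e in nhdsWithin (0 : ℝ) (Ioi 0), ((1 + K + ν + 2 * e) - ((1 + K + ν + 2 * e) - ν) / (1 - σ1) * (σ2 - σ1) +
      (3 + ((1 + K + ν + 2 * e) - ν) / (1 - σ1)) * e) - (1 - 2 * (σ2 - 1 / 2) * ν - e) < 0 :=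
    ev0 (by fun_prop) (by
      simp only [mul_zero, add_zero, sub_zero]
      have e1 : (1 + K + ν - ν) / (1 - σ1) * (σ2 - σ1) = R + K := by
        rw [hR]; field_simp; ring
      rw [e1]
      linarith)
  have E3 : ∀ᶠ e in nhdsWithin (0 : ℝ) (Ioi 0), (θ - ν / 2 + 2 * e) - (-(2 * (σ2 - 1 / 2) * ν) - 2 * e) < 0 :=
    ev0 (by fun_prop) (by
      simp only [mul_zero, add_zero, sub_zero]
      linarith)
  have E4 : ∀ᶠ e in nhdsWithin (0 : ℝ) (Ioi 0), σ1 + e - σ2 < 0 := ev0 (by fun_prop) (by linarith)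
  have E5 : ∀ᶠ e in nhdsWithin (0 : ℝ) (Ioi 0), e - 1 / 4 < 0 := ev0 (by fun_prop) (by norm_num)
  obtain ⟨e, ⟨⟨⟨⟨a1, a2⟩, a3⟩, a5⟩, a4⟩⟩ := ((((E2.and E3).and E4).and E5).and self_mem_nhdsWithin).exists
  have he : 0 < e := a4
  refine ⟨e, he, ?_⟩
  have ev1 := ev_pow 2 (a := 1 + θ - ν / 2 + 2 * e) (b := 1 - 2 * (σ2 - 1 / 2) * ν - 2 * e) (by linarith)
  have ev2 := ev_pow 64 (a := (1 + K + ν + 2 * e) - ((1 + K + ν + 2 * e) - ν) / (1 - σ1) * (σ2 - σ1) +
      (3 + ((1 + K + ν + 2 * e) - ν) / (1 - σ1)) * e) (b := 1 - 2 * (σ2 - 1 / 2) * ν - e) (by linarith)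
  have ev3 := ev_pow 64 (a := 1 - 2 * (σ2 - 1 / 2) * ν - 2 * e) (b := 1 - 2 * (σ2 - 1 / 2) * ν - e) (by linarith)
  filter_upwards [line_bound_a k hνp hνh he hK h1 (by linarith : σ1 < 1),
    rem_bound_a (k := k) (P := 1 + K + ν + 2 * e) hνp hνh he (by linarith) h1 (by linarith) (by linarith),
    diag_lower hk hνp hνh he (by linarith) (by linarith : 0 < σ2 - 1 / 2) (by linarith),
    near_bound (k := k) hνp hνh he hθ, ev1, ev2, ev3, eventually_ge_atTop 1]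
    with T k1 k2 k3 k4 e1 e2 e3 hT hI hcl
  have k5 := k2 (k1 hI) ((σ2 : ℝ) : ℂ) (by rw [Complex.ofReal_re]; linarith) (by rw [Complex.ofReal_re]; linarith)
    (by rw [Complex.ofReal_im, abs_zero]; positivity)
  rw [Complex.ofReal_re] at k5
  have k6 := k4 ((σ2 : ℝ) : ℂ) (by rw [Complex.ofReal_im, abs_zero]; positivity) hcl
  have e4 : (1 / 2 + (σ2 - 1 / 2) : ℝ) = σ2 := by ring
  rw [e4] at k3
  have k7 : ‖Sf k ν e T ((σ2 : ℝ) : ℂ)‖ ≤ ‖Kf k ν e T ((σ2 : ℝ) : ℂ) - Sf k ν e T ((σ2 : ℝ) : ℂ)‖ +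
      ‖Kf k ν e T ((σ2 : ℝ) : ℂ)‖ := by
    have := norm_sub_le (Kf k ν e T ((σ2 : ℝ) : ℂ)) (Kf k ν e T ((σ2 : ℝ) : ℂ) - Sf k ν e T ((σ2 : ℝ) : ℂ))
    rw [sub_sub_cancel] at this
    linarith
  have k8 : 0 < T ^ (1 + θ - ν / 2 + 2 * e) := by positivity
  have k9 : 0 < T ^ (1 - 2 * (σ2 - 1 / 2) * ν - e) := by positivity
  linarith

end Pool.Agent.Helper156_SM
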