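import Pool.Agent.Helper156_SM.FinL2
import Pool.Agent.Helper156_EK.FinB
import Pool.Agent.W903.EH.BK
import Pool.Agent.W22.EH.EX
import Pool.Agent.W347.EH.KT

set_option autoImplicit false

/-!
# Lines to the right of the critical line, without any hypothesis
-/

open MeasureTheory Set Filter

namespace Pool.Agent.Helper156_SM

open Pool.Agent.Helper156_EK

theorem weyl_bound : Pool.Agent.W186.EH.S_EX :=
  Pool.Agent.W22.EH.ex (Pool.Agent.W903.EH.bk Pool.Agent.W347.EH.kt) Pool.Agent.W903.EH.b1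

theorem fourth_log (e : ℝ) (he : 0 < e) : ∀ᶠ T : ℝ in atTop,
    ∫ t in T..(2 * T), fl 2 (1 / 2) t ≤ T ^ (1 + e) := by
  have h1 := (isLittleO_log_rpow_rpow_atTop 4 he).bound (by norm_num : (0 : ℝ) < 1 / 32)
  have h2 : ∀ᶠ T : ℝ in atTop, ‖Real.log (2 * T) ^ (4 : ℝ)‖ ≤ 1 / 32 * ‖(2 * T) ^ e‖ :=
    (tendsto_id.const_mul_atTop (by norm_num : (0 : ℝ) < 2)).eventually h1
  have ev := ev_pow 2 (a := 1 + e) (b := 1 + 2 * e) (by linarith)
  have h3 : ∀ᶠ T : ℝ in atTop, ∫ t in T..(2 * T), fl 2 (1 / 2) t ≤ 2 * T * (1 / 32 * (2 * T) ^ e) := by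
    filter_upwards [h2, eventually_ge_atTop 1000] with T h4 hT
    have hT0 : 0 < T := by linarith
    have hl0 : 0 ≤ Real.log (2 * T) := Real.log_nonneg (by linarith)
    rw [Real.norm_of_nonneg (Real.rpow_nonneg hl0 _), Real.norm_of_nonneg (by positivity)] at h4
    have h5 := fourth_mean (by linarith : 1000 ≤ 2 * T)
    have hfc := fl_cont 2 (by norm_num : (1 / 2 : ℝ) ≠ 1)
    have h6 : ∀ t, Pool.Agent.W188.GP.ZZ t ^ 4 = fl 2 (1 / 2) t := by
      intro t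
      unfold Pool.Agent.W188.GP.ZZ fl Pool.Agent.W188.QS.cp
      norm_num
    simp only [h6] at h5
    have h7 : ∫ t in T..(2 * T), fl 2 (1 / 2) t ≤ ∫ t in (0:ℝ)..(2 * T), fl 2 (1 / 2) t := by
      have h8 := intervalIntegral.integral_add_adjacent_intervals (μ := volume) (hfc.intervalIntegrable 0 T)
        (hfc.intervalIntegrable T (2 * T))
      have h9 : 0 ≤ ∫ t in (0:ℝ)..T, fl 2 (1 / 2) t := intervalIntegral.integral_nonneg hT0.le fun t _ => fl_nonneg _ _ _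
      linarith
    have h10 : Real.log (2 * T) ^ (4 : ℝ) = Real.log (2 * T) ^ 4 := by
      rw [show (4 : ℝ) = ((4 : ℕ) : ℝ) by norm_num, Real.rpow_natCast]
    rw [h10] at h4
    calc ∫ t in T..(2 * T), fl 2 (1 / 2) t ≤ 2 * T * Real.log (2 * T) ^ 4 := h7.trans h5
      _ ≤ 2 * T * (1 / 32 * (2 * T) ^ e) := by gcongr
  rcases le_or_gt e 1 with hle | hgt
  · filter_upwards [h3, eventually_ge_atTop 1] with T h4 hT
    have hT0 : 0 < T := by linarith
    refine h4.trans ?_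
    rw [Real.mul_rpow (by norm_num) hT0.le, Real.rpow_add hT0, Real.rpow_one]
    have h5 : (2 : ℝ) ^ e ≤ 2 := by
      calc (2 : ℝ) ^ e ≤ 2 ^ (1 : ℝ) := Real.rpow_le_rpow_of_exponent_le (by norm_num) hle
        _ = 2 := Real.rpow_one 2
    have h6 : 0 < T ^ e := Real.rpow_pos_of_pos hT0 _
    calc 2 * T * (1 / 32 * (2 ^ e * T ^ e)) ≤ 2 * T * (1 / 32 * (2 * T ^ e)) := by gcongr
      _ ≤ T * T ^ e := by nlinarith [mul_pos hT0 h6]
  · -- reduce to a small exponent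
    have h1' := (isLittleO_log_rpow_rpow_atTop 4 one_pos).bound (by norm_num : (0 : ℝ) < 1 / 32)
    have h2' : ∀ᶠ T : ℝ in atTop, ‖Real.log (2 * T) ^ (4 : ℝ)‖ ≤ 1 / 32 * ‖(2 * T) ^ (1 : ℝ)‖ :=
      (tendsto_id.const_mul_atTop (by norm_num : (0 : ℝ) < 2)).eventually h1'
    filter_upwards [h2', eventually_ge_atTop 1000] with T h4 hT
    have hT0 : 0 < T := by linarith
    have hl0 : 0 ≤ Real.log (2 * T) := Real.log_nonneg (by linarith)
    rw [Real.norm_of_nonneg (Real.rpow_nonneg hl0 _), Real.norm_of_nonneg (by positivity), Real.rpow_one] at h4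
    have h5 := fourth_mean (by linarith : 1000 ≤ 2 * T)
    have hfc := fl_cont 2 (by norm_num : (1 / 2 : ℝ) ≠ 1)
    have h6 : ∀ t, Pool.Agent.W188.GP.ZZ t ^ 4 = fl 2 (1 / 2) t := by
      intro t
      unfold Pool.Agent.W188.GP.ZZ fl Pool.Agent.W188.QS.cp
      norm_num
    simp only [h6] at h5
    have h7 : ∫ t in T..(2 * T), fl 2 (1 / 2) t ≤ ∫ t in (0:ℝ)..(2 * T), fl 2 (1 / 2) t := by
      have h8 := intervalIntegral.integral_add_adjacent_intervals (μ := volume) (hfc.intervalIntegrable 0 T)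
        (hfc.intervalIntegrable T (2 * T))
      have h9 : 0 ≤ ∫ t in (0:ℝ)..T, fl 2 (1 / 2) t := intervalIntegral.integral_nonneg hT0.le fun t _ => fl_nonneg _ _ _
      linarith
    have h10 : Real.log (2 * T) ^ (4 : ℝ) = Real.log (2 * T) ^ 4 := by
      rw [show (4 : ℝ) = ((4 : ℕ) : ℝ) by norm_num, Real.rpow_natCast]
    rw [h10] at h4
    have h11 : T ^ (2 : ℝ) ≤ T ^ (1 + e) := Real.rpow_le_rpow_of_exponent_le (by linarith) (by linarith)
    have h12 : T ^ (2 : ℝ) = T * T := by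
      rw [show (2 : ℝ) = ((2 : ℕ) : ℝ) by norm_num, Real.rpow_natCast]; ring
    rw [h12] at h11
    calc ∫ t in T..(2 * T), fl 2 (1 / 2) t ≤ 2 * T * Real.log (2 * T) ^ 4 := h7.trans h5
      _ ≤ 2 * T * (1 / 32 * (2 * T)) := by gcongr
      _ ≤ T * T := by nlinarith
      _ ≤ T ^ (1 + e) := h11

/-- the mean values on the critical line from the fourth moment and the Weyl bound -/
theorem mean_half {k : ℕ} (hk : 2 ≤ k) (e : ℝ) (he : 0 < e) : ∀ᶠ T : ℝ in atTop,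
    ∫ t in T..(2 * T), fl k (1 / 2) t ≤ T ^ (1 + ((k : ℝ) - 2) / 3 + e) := by
  obtain ⟨j, rfl⟩ : ∃ j, k = j + 2 := ⟨k - 2, by omega⟩
  set x := e / (4 * (j + 1)) with hx
  have hx0 : 0 < x := by positivity
  obtain ⟨T0, hT0⟩ := weyl_bound x hx0
  have hxj : x * (2 * j) ≤ e / 2 := by
    rw [hx, div_mul_eq_mul_div, div_le_div_iff₀ (by positivity) (by norm_num)]
    nlinarith
  filter_upwards [fourth_log (e / 4) (by positivity), eventually_ge_atTop T0, eventually_ge_atTop 1,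
    ev_pow (2 ^ ((1 / 6 + x) * (2 * j))) (a := 1 + (j : ℝ) / 3 + 3 * e / 4) (b := 1 + (j : ℝ) / 3 + e) (by linarith)]
    with T h1 h2 hT h3
  have hTp : 0 < T := by linarith
  have hfc := fl_cont 2 (by norm_num : (1 / 2 : ℝ) ≠ 1)
  have hfc' := fl_cont (j + 2) (by norm_num : (1 / 2 : ℝ) ≠ 1)
  have h4 : ∫ t in T..(2 * T), fl (j + 2) (1 / 2) t ≤ ∫ t in T..(2 * T), ((2 * T) ^ ((1 / 6 + x) * (2 * j))) * fl 2 (1 / 2) t := by
    apply intervalIntegral.integral_mono_on (by linarith) (hfc'.intervalIntegrable _ _)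
      ((continuous_const.mul hfc).intervalIntegrable _ _)
    intro t ht
    have h5 := (hT0 t (h2.trans ht.1)).1
    have ht0 : 0 < t := hTp.trans_le ht.1
    have h6 : ‖riemannZeta (((1 / 2 : ℝ) : ℂ) + t * Complex.I)‖ ≤ (2 * T) ^ (1 / 6 + x) := by
      have e1 : (((1 / 2 : ℝ) : ℂ) + t * Complex.I) = 1 / 2 + t * Complex.I := by norm_num
      rw [e1]
      refine h5.trans ?_
      exact Real.rpow_le_rpow ht0.le ht.2 (by positivity)
    have h7 : fl (j + 2) (1 / 2) t = ‖riemannZeta (((1 / 2 : ℝ) : ℂ) + t * Complex.I)‖ ^ (2 * j) * fl 2 (1 / 2) t := by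
      unfold fl
      rw [← pow_add]
      congr 1
    rw [h7]
    apply mul_le_mul_of_nonneg_right _ (fl_nonneg _ _ _)
    calc ‖riemannZeta (((1 / 2 : ℝ) : ℂ) + t * Complex.I)‖ ^ (2 * j) ≤ ((2 * T) ^ (1 / 6 + x)) ^ (2 * j) := by gcongr
      _ = (2 * T) ^ ((1 / 6 + x) * (2 * j)) := by
          rw [← Real.rpow_natCast, ← Real.rpow_mul (by positivity)]
          push_cast; ring_nf
  rw [intervalIntegral.integral_const_mul] at h4
  refine h4.trans ?_
  have e2 : (((j + 2 : ℕ) : ℝ) - 2) / 3 = (j : ℝ) / 3 := by push_cast; ring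
  rw [e2]
  refine le_trans ?_ h3
  calc (2 * T) ^ ((1 / 6 + x) * (2 * j)) * ∫ t in T..(2 * T), fl 2 (1 / 2) t
      ≤ (2 * T) ^ ((1 / 6 + x) * (2 * j)) * T ^ (1 + e / 4) := by gcongr
    _ = 2 ^ ((1 / 6 + x) * (2 * j)) * T ^ ((1 / 6 + x) * (2 * j) + (1 + e / 4)) := by
        rw [Real.mul_rpow (by norm_num) hTp.le, mul_assoc, ← Real.rpow_add hTp]
    _ ≤ 2 ^ ((1 / 6 + x) * (2 * j)) * T ^ (1 + (j : ℝ) / 3 + 3 * e / 4) := by
        apply mul_le_mul_of_nonneg_left _ (by positivity)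
        apply Real.rpow_le_rpow_of_exponent_le hT
        have : (1 / 6 + x) * (2 * (j : ℝ)) = j / 3 + x * (2 * j) := by ring
        rw [this]; linarith

/-- Lines to the right of the critical line: the sixth and the eighth moment. -/
theorem finL3 {k : ℕ} (hk : 2 ≤ k) {σ θ : ℝ} (h1 : (2 * k - 1 : ℝ) / (2 * (k + 1)) < σ) (h2 : σ < 3 / 4)
    (hθ : θ < (3 - 4 * σ) * (2 * (k + 1) * σ - (2 * k - 1)) / (12 * σ)) : ¬ HasLineError k σ θ := by
  have hk' : (2 : ℝ) ≤ k := by exact_mod_cast hk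
  have hσ : 1 / 2 < σ := by
    refine lt_of_le_of_lt ?_ h1
    rw [div_le_div_iff₀ (by norm_num) (by positivity)]
    linarith
  rw [div_lt_iff₀ (by positivity)] at h1
  rw [lt_div_iff₀ (by linarith)] at hθ
  have e1 : (1 + ((k : ℝ) - 2) / 3) * (σ - 1 / 2) - ((k : ℝ) - 2) / 3 * (1 - 1 / 2) =
      (2 * (k + 1) * σ - (2 * k - 1)) / 6 := by ring
  refine lines_gen (by omega) (K := ((k : ℝ) - 2) / 3) (by linarith) le_rfl hσ h2 ?_ ?_ (fun e he => mean_half hk e he)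
  · rw [e1]; linarith
  · rw [e1]; linarith

end Pool.Agent.Helper156_SM
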