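import Pool.Agent.Helper156_SM.Gen
import Pool.Agent.Helper156_SM.Glob

set_option autoImplicit false

/-!
# A positive proportion of the shifts has a large error term
-/

open MeasureTheory Set Filter

namespace Pool.Agent.Helper156_SM

/-- passing from the local statements to the global one -/
theorem meas_global' {k : ℕ} {θ θ' e a b X : ℝ} (hθ : θ < θ') (hθ' : 0 < θ') (he : 0 < e)
    (hloc : ∀ᶠ T : ℝ in atTop,
      volume {u : ℝ | u ∈ Icc a b ∧ Close k (1 / 2 + u * Complex.I) T θ' e} < ENNReal.ofReal X) :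
    volume {u : ℝ | u ∈ Icc a b ∧ HasError k u θ} ≤ ENNReal.ofReal X := by
  have hre : ∀ u : ℝ, (1 / 2 + (u : ℂ) * Complex.I).re ≠ 1 := by
    intro u
    have : (1 / 2 + (u : ℂ) * Complex.I).re = 1 / 2 := by simp
    rw [this]; norm_num
  set Z : ℕ → Set ℝ := fun m => {u | u ∈ Icc a b ∧ ∀ T : ℝ, (m : ℝ) ≤ T → Close k (1 / 2 + u * Complex.I) T θ' e} with hZ
  have hmono : Monotone Z := by
    intro m n hmn u hu
    refine ⟨hu.1, fun T hT => hu.2 T ?_⟩
    have : (m : ℝ) ≤ n := by exact_mod_cast hmn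
    linarith
  have hsub : {u : ℝ | u ∈ Icc a b ∧ HasError k u θ} ⊆ ⋃ m, Z m := by
    intro u hu
    have h1 := close_of_err (hre u) (hasErr_of_hasError hu.2) hθ hθ' he
    obtain ⟨T1, hT1⟩ := eventually_atTop.1 h1
    rw [mem_iUnion]
    refine ⟨⌈T1⌉₊, hu.1, fun T hT => hT1 T ((Nat.le_ceil T1).trans hT)⟩
  refine (measure_mono hsub).trans ?_
  rw [hmono.measure_iUnion]
  apply iSup_le
  intro m
  obtain ⟨T, hT1, hT3⟩ := (hloc.and (eventually_ge_atTop (m : ℝ))).exists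
  refine le_trans (measure_mono ?_) hT1.le
  intro u hu
  exact ⟨hu.1, hu.2 T hT3⟩

theorem finU {k : ℕ} (hk : 1 ≤ k) {θ : ℝ} (hθ : θ < 1 / 4) : ∃ L c : ℝ, 0 < c ∧ c < 2 * L ∧ ∀ u0 : ℝ,
    volume {u : ℝ | u ∈ Icc (u0 - L) (u0 + L) ∧ HasError k u θ} ≤ ENNReal.ofReal (2 * L - c) := by
  set θ' := (max θ 0 + 1 / 4) / 2 with hθ'
  have h1 : max θ 0 < 1 / 4 := max_lt hθ (by norm_num)
  have h2 : max θ 0 < θ' := by rw [hθ']; linarith
  have h3 : θ' < 1 / 4 := by rw [hθ']; linarith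
  have h4 : 0 < θ' := lt_of_le_of_lt (le_max_right _ _) h2
  have h5 : θ < θ' := lt_of_le_of_lt (le_max_left _ _) h2
  set ν := (2 * θ' + 1 / 2) / 2 with hν
  have hν0 : 0 < ν := by rw [hν]; linarith
  have hν1 : ν < 1 / 2 := by rw [hν]; linarith
  have hν2 : 2 * θ' < ν := by rw [hν]; linarith
  obtain ⟨P, hP2, hmain⟩ := coreU k hk hν0 hν1
  set σ := ν / 2 - θ' with hσ
  have hσ0 : 0 < σ := by rw [hσ]; linarith
  have hσ1 : σ ≤ 1 / 4 := by rw [hσ]; linarith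
  set ζ := min (1 / 4) ((1 - 2 * ν) / (8 * P)) with hζ
  have hζ0 : 0 < ζ := lt_min (by norm_num) (div_pos (by linarith) (by linarith))
  have hζ1 : ζ ≤ 1 / 4 := min_le_left _ _
  have hζ2 : ζ ≤ (1 - 2 * ν) / (8 * P) := min_le_right _ _
  rw [le_div_iff₀ (by linarith)] at hζ2
  set w := σ * ζ / 16 with hw
  have hw0 : 0 < w := by positivity
  have hw1 : w ≤ σ / 64 := by rw [hw]; nlinarith
  set η1 := 1 / 2 - ζ with hη1
  set η2 := 1 / 2 - ζ / 2 with hη2
  have hη1' : 1 / 4 ≤ η1 := by rw [hη1]; linarith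
  have hη1'' : η1 ≤ 1 / 2 := by rw [hη1]; linarith
  have hη2'' : η2 ≤ 1 / 2 := by rw [hη2]; linarith
  set U := P / σ with hU
  have hU1 : 1 ≤ U := by rw [hU, le_div_iff₀ hσ0]; linarith
  set ε0 := w * η1 / (2 * P) with hε0
  have hε00 : 0 < ε0 := by positivity
  have hε01 : ε0 ≤ 1 := by
    rw [hε0, div_le_one (by linarith)]
    nlinarith
  refine ⟨U + 1, ε0, hε00, by linarith, fun u0 => ?_⟩
  set δ := min w ((1 - 2 * ν) / 8) with hδ
  have hδ0 : 0 < δ := lt_min hw0 (by linarith)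
  have hδ1 : δ ≤ w := min_le_left _ _
  have hδ2 : δ ≤ (1 - 2 * ν) / 8 := min_le_right _ _
  obtain ⟨e0, he0, hI⟩ := hmain u0 η1 1 δ (by linarith) one_pos hδ0
  set e := min e0 (min (w / 4) ((1 - 2 * ν) / (8 * (4 + 2 * P)))) with he
  have hx : 0 < 8 * (4 + 2 * P) := by linarith
  have hee : 0 < e := lt_min he0 (lt_min (by linarith) (div_pos (by linarith) hx))
  have he1 : e ≤ w / 4 := (min_le_right _ _).trans (min_le_left _ _)
  have he2 : e ≤ (1 - 2 * ν) / (8 * (4 + 2 * P)) := (min_le_right _ _).trans (min_le_right _ _)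
  rw [le_div_iff₀ hx] at he2
  have hρ : P * (2 * ε0 / η1) = w := by rw [hε0]; field_simp
  have hbη : σ * η1 * η2 ≤ σ / 4 := by
    have : η1 * η2 ≤ 1 / 2 * (1 / 2) := mul_le_mul hη1'' hη2'' (by linarith) (by norm_num)
    nlinarith
  have hgη : σ / 2 * η1 ≤ σ / 4 := by nlinarith
  have hPη1 : P - 2 * (P - ν) * η1 = 2 * ζ * P + 2 * ν * η1 := by rw [hη1]; ring
  have hPη2 : P - 2 * (P - ν) * η2 = ζ * P + 2 * ν * η2 := by rw [hη2]; ring
  have hνη1 : ν * η1 ≤ ν * (1 / 2) := mul_le_mul_of_nonneg_left hη1'' hν0.le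
  have hνη2 : ν * η2 ≤ ν * (1 / 2) := mul_le_mul_of_nonneg_left hη2'' hν0.le
  have hxe : (3 + 2 * (P - ν)) * e ≤ (3 + 2 * P) * e := mul_le_mul_of_nonneg_right (by linarith) hee.le
  have hfin := hI e θ' η2 U σ (σ / 2) ε0 hee (by linarith) (min_le_left _ _) h4.le h3.le (by linarith)
    (by rw [hη1, hη2]; linarith) hη2'' (by linarith) hσ0 hε00 ?_ ?_ ?_ ?_ ?_
  · exact meas_global' h5 h4 hee hfin
  · rw [hPη1]; linarith
  · rw [hPη2]; linarith
  · rw [hρ]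
    have e1 : σ / 2 * (η2 - η1) = 4 * w := by rw [hη1, hη2, hw]; ring
    rw [e1]; linarith
  · rw [hρ]; linarith
  · rw [hρ]
    have e1 : P ≤ σ * U ^ 2 := by
      have e2 : σ * U ^ 2 = P * U := by rw [hU]; field_simp
      rw [e2]; nlinarith
    linarith

end Pool.Agent.Helper156_SM
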