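import Pool.Agent.Helper156_SM.ParS
import Pool.Agent.Helper156_SM.FinU

set_option autoImplicit false

/-!
# Shifts near `0`
-/

open MeasureTheory Set Filter

namespace Pool.Agent.Helper156_SM

open Pool.Agent.Helper156_EK

theorem hasError_mono {k : ℕ} {u θ θ' : ℝ} (h : HasError k u θ) (hθ : θ ≤ θ') : HasError k u θ' := by
  obtain ⟨M, hM, C, T₀, h1⟩ := h
  refine ⟨M, hM, |C|, max T₀ 1, fun T hT => ?_⟩
  have h2 := h1 T ((le_max_left _ _).trans hT)
  have h3 : 1 ≤ T := (le_max_right _ _).trans hT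
  have h4 : 0 < T := by linarith
  calc ‖shiftedMoment k u T - M T‖ ≤ C * T ^ θ := h2
    _ ≤ |C| * T ^ θ := by gcongr; exact le_abs_self _
    _ ≤ |C| * T ^ θ' := by gcongr

theorem close_many {k : ℕ} {θ θ' δ r a : ℝ} (hθ : θ < θ') (hθ' : 0 < θ') (hδ : 0 < δ)
    (h : ENNReal.ofReal a < volume {u : ℝ | |u| ≤ r ∧ HasError k u θ}) :
    ∀ᶠ T : ℝ in atTop, ENNReal.ofReal a ≤ volume {u : ℝ | |u| ≤ r ∧ Close k (1 / 2 + u * Complex.I) T θ' δ} := by
  have hre : ∀ u : ℝ, (1 / 2 + (u : ℂ) * Complex.I).re ≠ 1 := by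
    intro u
    have : (1 / 2 + (u : ℂ) * Complex.I).re = 1 / 2 := by simp
    rw [this]; norm_num
  set Z : ℕ → Set ℝ := fun m => {u | |u| ≤ r ∧ ∀ T : ℝ, (m : ℝ) ≤ T → Close k (1 / 2 + u * Complex.I) T θ' δ} with hZ
  have hmono : Monotone Z := by
    intro m n hmn u hu
    refine ⟨hu.1, fun T hT => hu.2 T ?_⟩
    have : (m : ℝ) ≤ n := by exact_mod_cast hmn
    linarith
  have hsub : {u : ℝ | |u| ≤ r ∧ HasError k u θ} ⊆ ⋃ m, Z m := by
    intro u hu
    have h1 := close_of_err (hre u) (hasErr_of_hasError hu.2) hθ hθ' hδ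
    obtain ⟨T1, hT1⟩ := eventually_atTop.1 h1
    rw [mem_iUnion]
    refine ⟨⌈T1⌉₊, hu.1, fun T hT => hT1 T ((Nat.le_ceil T1).trans hT)⟩
  have h2 := h.trans_le (measure_mono hsub)
  rw [hmono.measure_iUnion, lt_iSup_iff] at h2
  obtain ⟨m, hm⟩ := h2
  filter_upwards [eventually_ge_atTop (m : ℝ)] with T hT
  refine hm.le.trans (measure_mono ?_)
  intro u hu
  exact ⟨hu.1, hu.2 T hT⟩

/-- Good shifts near `0` in positive proportion give the mean values on short intervals. -/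
theorem mv_of_near {k : ℕ} {θ θ' e κ : ℝ} (hθ : 0 ≤ θ) (hθθ : θ < θ') (he : 0 < e) (hκ : 0 < κ) (hκ2 : κ ≤ 2) :
    ∃ r0 : ℝ, 0 < r0 ∧ ∀ r : ℝ, 0 < r → r ≤ r0 →
      ENNReal.ofReal (κ * r) < volume {u : ℝ | |u| ≤ r ∧ HasError k u θ} → ∀ᶠ T : ℝ in atTop, MV k T θ' e := by
  obtain ⟨r0, hr0, _, hnear⟩ := near_int k hκ hκ2 (by linarith : 0 < e / 4)
  refine ⟨r0, hr0, fun r hr hrr hvol => ?_⟩
  have hcl := close_many (k := k) (θ := θ) (θ' := (θ + θ') / 2) (δ := e / 4) (by linarith) (by linarith) (by linarith) hvol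
  have ev1 := ev_pow 4 (a := (θ + θ') / 2 + e / 4) (b := θ' + e) (by linarith)
  have ev2 := ev_pow 2 (a := 0) (b := θ' + e) (by linarith)
  filter_upwards [hnear, hcl, ev1, ev2, eventually_ge_atTop 1] with T h1 h2 e1 e2 hT a b ha hab hb
  have hT0 : 0 < T := by linarith
  have h3 := h1 r ((θ + θ') / 2) (e / 4) hr hrr h2 a b ha hab hb
  refine h3.trans ?_
  rw [Real.rpow_zero] at e2
  have h4 : T ^ (e / 4) * (2 * T ^ ((θ + θ') / 2) + (b - a) * T ^ (e / 4)) =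
      2 * T ^ ((θ + θ') / 2 + e / 4) + (b - a) * T ^ (e / 2) := by
    have e3 : T ^ ((θ + θ') / 2 + e / 4) = T ^ ((θ + θ') / 2) * T ^ (e / 4) := Real.rpow_add hT0 _ _
    have e4 : T ^ (e / 2) = T ^ (e / 4) * T ^ (e / 4) := by rw [← Real.rpow_add hT0]; congr 1; ring
    rw [e3, e4]; ring
  rw [h4]
  have h5 : (b - a) * T ^ (e / 2) ≤ (b - a) * T ^ e := by
    apply mul_le_mul_of_nonneg_left _ (by linarith)
    exact Real.rpow_le_rpow_of_exponent_le hT (by linarith)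
  linarith

/-- Many shifts with a large error term, given good shifts near `0`. -/
theorem S_loc {U θ ν : ℝ} (hU : 0 < U) (hθ : 0 ≤ θ) (hν : 0 < ν) (hν1 : ν < 1 / 2)
    (h : 2 * θ * Real.exp (2 * Real.pi * U * (2 + θ - 3 * ν) / (θ + ν)) <
      ν * (Real.exp (2 * Real.pi * U * (2 + θ - 3 * ν) / (θ + ν)) - 3)) :
    ∃ c : ℝ, 0 < c ∧ ∀ (k : ℕ), 1 ≤ k → ∀ (u0 κ : ℝ), 0 < κ → κ ≤ 2 → ∃ r0 : ℝ, 0 < r0 ∧ ∀ r : ℝ, 0 < r → r ≤ r0 →
      ENNReal.ofReal (κ * r) < volume {u : ℝ | |u| ≤ r ∧ HasError k u θ} →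
      volume {u : ℝ | u ∈ Icc (u0 - U) (u0 + U) ∧ HasError k u θ} ≤ ENNReal.ofReal (2 * U - c) := by
  set x := 2 * Real.pi * U * (2 + θ - 3 * ν) / (θ + ν) with hx
  have hd1 : 0 < 2 + θ - 3 * ν := by linarith
  have hd2 : 0 < θ + ν := by linarith
  set ηs := (θ + ν) / (2 * (2 + θ - 3 * ν)) with hηs
  have hηs0 : 0 < ηs := by positivity
  have hηs1 : ηs < 1 / 2 := by
    rw [hηs, div_lt_div_iff₀ (by positivity) (by norm_num)]
    linarith
  have hηx : Real.pi / ηs * U = x := by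
    rw [hηs, hx]
    field_simp
  have hgap : 0 < ν / 2 - θ := by
    have h5 := Real.exp_pos x
    nlinarith
  -- stage 1
  have F1 : ∀ᶠ s in nhdsWithin (0 : ℝ) (Ioi 0), (2 * ν - θ) - (ν / 2 - θ) * (Real.exp (Real.pi / (ηs + s ^ 2) * U) + 1) < 0 := by
    apply ev0
    · have hqc : Continuous fun s : ℝ => Real.pi / (ηs + s ^ 2) :=
        continuous_const.div (by fun_prop) (fun s => by positivity)
      exact continuous_const.sub (continuous_const.mul ((Real.continuous_exp.comp (hqc.mul continuous_const)).add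
        continuous_const))
    · simp only [ne_eq, OfNat.ofNat_ne_zero, not_false_eq_true, zero_pow, add_zero]
      rw [hηx]
      nlinarith
  have F2 : ∀ᶠ s in nhdsWithin (0 : ℝ) (Ioi 0), (ηs + s ^ 2) - 1 / 2 < 0 :=
    ev0 (by fun_prop) (by simp only [ne_eq, OfNat.ofNat_ne_zero, not_false_eq_true, zero_pow, add_zero]; linarith)
  obtain ⟨s, ⟨⟨f1, f2⟩, f3⟩⟩ := ((F1.and F2).and self_mem_nhdsWithin).exists
  have hs : 0 < s := f3
  set η2 := ηs + s ^ 2 with hη2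
  have hη20 : 0 < η2 := by positivity
  have hη2s : ηs < η2 := by rw [hη2]; have : 0 < s ^ 2 := by positivity
                            linarith
  have hi : (θ + ν) / 2 < η2 * (2 + θ - 3 * ν) := by
    have h5 : ηs * (2 + θ - 3 * ν) = (θ + ν) / 2 := by
      rw [hηs, div_mul_eq_mul_div, div_eq_div_iff (by positivity) (by norm_num)]; ring
    have h6 : ηs * (2 + θ - 3 * ν) < η2 * (2 + θ - 3 * ν) := by gcongr
    linarith
  set X := Real.exp (Real.pi / η2 * U) + 1 with hX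
  -- stage 2
  have G1 : ∀ᶠ s in nhdsWithin (0 : ℝ) (Ioi 0), ((1 + (θ + s) - ν / 2 + (ν - (θ + s) / 2)) -
      2 * ((1 + (θ + s) - ν / 2 + (ν - (θ + s) / 2)) - ν) * η2) - (1 - 2 * η2 * ν) < 0 :=
    ev0 (by fun_prop) (by simp only [add_zero]; linarith)
  have G2 : ∀ᶠ s in nhdsWithin (0 : ℝ) (Ioi 0), 2 * (ν - (θ + s) / 2) - (ν / 2 - (θ + s)) * X < 0 :=
    ev0 (by fun_prop) (by simp only [add_zero]; linarith)
  have G3 : ∀ᶠ s in nhdsWithin (0 : ℝ) (Ioi 0), (θ + s) - ν / 2 < 0 :=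
    ev0 (by fun_prop) (by simp only [add_zero]; linarith)
  obtain ⟨t, ⟨⟨⟨g1, g2⟩, g3⟩, g4⟩⟩ := (((G1.and G2).and G3).and self_mem_nhdsWithin).exists
  have ht : 0 < t := g4
  set θ' := θ + t with hθ'
  obtain ⟨c, hc, hS⟩ := local_S (θ := θ') (ν := ν) (D := ν - θ' / 2) (η2 := η2) (U := U) (by linarith) hν hν1 hη20
    (by linarith) hU (by linarith) (by linarith) (by linarith) (by linarith)
  refine ⟨c, hc, fun k hk u0 κ hκ hκ2 => ?_⟩
  obtain ⟨e, he, hloc⟩ := hS k hk u0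
  obtain ⟨r0, hr0, hmv⟩ := mv_of_near (k := k) hθ (by linarith : θ < θ') he hκ hκ2
  refine ⟨r0, hr0, fun r hr hrr hvol => ?_⟩
  refine meas_global' (θ' := θ') (e := e) (by linarith) (by linarith) he ?_
  filter_upwards [hloc, hmv r hr hrr hvol, line_bound_B hk hν hν1 he (by linarith : 0 ≤ θ') (by linarith : θ' ≤ 1)]
    with T h1 h2 h3
  apply h1
  intro s hs1 hs2
  have h4 := h3 h2 s hs1 hs2
  have e1 : 1 + θ' - ν / 2 + (ν - θ' / 2) + 3 * e = 1 + (θ' + ν) / 2 + 3 * e := by ring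
  rw [e1]
  exact h4

/-- Shifts in an interval around `0`, without any hypothesis. -/
theorem finS {U θ ν : ℝ} (hU : 0 < U) (hθ : 0 ≤ θ) (hν : 0 < ν) (hν1 : ν < 1 / 2)
    (h : 2 * θ * Real.exp (2 * Real.pi * U * (2 + θ - 3 * ν) / (θ + ν)) <
      ν * (Real.exp (2 * Real.pi * U * (2 + θ - 3 * ν) / (θ + ν)) - 3)) {k : ℕ} (hk : 1 ≤ k) :
    ∃ c : ℝ, 0 < c ∧ volume {u : ℝ | u ∈ Icc (-U) U ∧ HasError k u θ} ≤ ENNReal.ofReal (2 * U - c) := by
  obtain ⟨c, hc, h1⟩ := S_loc hU hθ hν hν1 h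
  obtain ⟨r0, hr0, h2⟩ := h1 k hk 0 1 one_pos (by norm_num)
  set r := min r0 U with hr
  have hr' : 0 < r := lt_min hr0 hU
  have hrU : r ≤ U := min_le_right _ _
  set c' := min c (r / 2) with hc'
  have hc'0 : 0 < c' := lt_min hc (by linarith)
  refine ⟨c', hc'0, ?_⟩
  by_contra hcon
  push Not at hcon
  have hc'1 : c' ≤ r / 2 := min_le_right _ _
  have hsub : {u : ℝ | u ∈ Icc (-U) U ∧ HasError k u θ} ⊆
      {u : ℝ | |u| ≤ r ∧ HasError k u θ} ∪ (Icc (-U) (-r) ∪ Icc r U) := by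
    intro u hu
    rcases le_or_gt |u| r with h5 | h5
    · exact Or.inl ⟨h5, hu.2⟩
    · right
      rcases lt_abs.1 h5 with h6 | h6
      · exact Or.inr ⟨h6.le, hu.1.2⟩
      · exact Or.inl ⟨hu.1.1, by linarith⟩
  have hvol : ENNReal.ofReal (1 * r) < volume {u : ℝ | |u| ≤ r ∧ HasError k u θ} := by
    by_contra h5
    push Not at h5
    have h6 : volume {u : ℝ | u ∈ Icc (-U) U ∧ HasError k u θ} ≤ ENNReal.ofReal (1 * r) +
        (ENNReal.ofReal (U - r) + ENNReal.ofReal (U - r)) := by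
      refine (measure_mono hsub).trans ((measure_union_le _ _).trans (add_le_add h5 ?_))
      refine (measure_union_le _ _).trans (add_le_add ?_ ?_)
      · rw [Real.volume_Icc]
        apply ENNReal.ofReal_le_ofReal
        linarith
      · rw [Real.volume_Icc]
    rw [← ENNReal.ofReal_add (by linarith) (by linarith), ← ENNReal.ofReal_add (by linarith) (by linarith)] at h6
    have h7 := hcon.trans_le h6
    rw [ENNReal.ofReal_lt_ofReal_iff_of_nonneg (by linarith)] at h7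
    linarith
  have h8 := h2 r hr' (min_le_left _ _) hvol
  rw [zero_sub, zero_add] at h8
  have h9 := hcon.trans_le h8
  rw [ENNReal.ofReal_lt_ofReal_iff_of_nonneg (by linarith)] at h9
  have : c' ≤ c := min_le_left _ _
  linarith

end Pool.Agent.Helper156_SM
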