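import Pool.Agent.Helper156_SM.FinS

set_option autoImplicit false

/-!
# Shifts near `0`, closed form of the exponent
-/

open MeasureTheory Set Filter

namespace Pool.Agent.Helper156_SM

open Pool.Agent.Helper156_EK

theorem exp_ineq {z : ℝ} (hz : 1 ≤ z) :
    3 + 24 / 5 * z < Real.exp (471 / 400 * ((12 * z ^ 2 + 5 * z + 15) / (12 * z + 5))) := by
  obtain ⟨y, hy, rfl⟩ : ∃ y : ℝ, 0 ≤ y ∧ z = 1 + y := ⟨z - 1, by linarith, by ring⟩
  have hd : 0 < 12 * (1 + y) + 5 := by positivity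
  set X := 471 / 400 * ((12 * (1 + y) ^ 2 + 5 * (1 + y) + 15) / (12 * (1 + y) + 5)) with hX
  have hX0 : 0 ≤ X := by positivity
  have h1 := Real.sum_le_exp_of_nonneg hX0 5
  refine lt_of_lt_of_le ?_ h1
  simp only [Finset.sum_range_succ, Finset.sum_range_zero, Nat.factorial]
  push_cast
  have key : 1 + X + X ^ 2 / 2 + X ^ 3 / 6 + X ^ 4 / 24 - (3 + 24 / 5 * (1 + y)) =
      ((22618939504 / 390625) + (252062070207 / 6250000) * y + (39165385891689 / 200000000) * y ^ 2 +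
        (2059578560086263 / 3200000000) * y ^ 3 + (32105402007249663 / 40960000000) * y ^ 4 +
        (5878525053245157 / 12800000000) * y ^ 5 + (890845881678513 / 6400000000) * y ^ 6 +
        (17358548237541 / 800000000) * y ^ 7 + (1328762590587 / 800000000) * y ^ 8) / (12 * (1 + y) + 5) ^ 4 := by
    rw [hX, eq_div_iff (by positivity)]
    field_simp
    ring
  have h2 : 0 < ((22618939504 / 390625) + (252062070207 / 6250000) * y + (39165385891689 / 200000000) * y ^ 2 +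
        (2059578560086263 / 3200000000) * y ^ 3 + (32105402007249663 / 40960000000) * y ^ 4 +
        (5878525053245157 / 12800000000) * y ^ 5 + (890845881678513 / 6400000000) * y ^ 6 +
        (17358548237541 / 800000000) * y ^ 7 + (1328762590587 / 800000000) * y ^ 8) / (12 * (1 + y) + 5) ^ 4 := by
    positivity
  rw [← key] at h2
  norm_num
  linarith

/-- The parameter exists. -/
theorem nu_exists {U θ : ℝ} (hU : 0 < U) (hθ : 0 < θ) (h : θ < 4 * U / (3 + 16 * U)) : ∃ ν : ℝ, 0 < ν ∧ ν < 1 / 2 ∧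
    2 * θ * Real.exp (2 * Real.pi * U * (2 + θ - 3 * ν) / (θ + ν)) <
      ν * (Real.exp (2 * Real.pi * U * (2 + θ - 3 * ν) / (θ + ν)) - 3) := by
  rw [lt_div_iff₀ (by positivity)] at h
  have hθ4 : 4 * θ < 1 := by nlinarith
  set w := 1 - 4 * θ with hw
  have hw0 : 0 < w := by rw [hw]; linarith
  have hw1 : w < 1 := by rw [hw]; linarith
  have hθw : θ = (1 - w) / 4 := by rw [hw]; ring
  have hUw : 3 * θ / (4 * w) < U := by
    rw [div_lt_iff₀ (by positivity), hw]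
    linarith
  set ν := θ * (2 + 5 / 4 * w) with hν
  have hν0 : 0 < ν := by positivity
  have hν1 : ν < 1 / 2 := by
    rw [hν, hθw]; nlinarith
  refine ⟨ν, hν0, hν1, ?_⟩
  set x := 2 * Real.pi * U * (2 + θ - 3 * ν) / (θ + ν) with hx
  have hpi := Real.pi_gt_d2
  have e1 : 2 + θ - 3 * ν = (12 + 5 * w + 15 * w ^ 2) / 16 := by rw [hν, hθw]; ring
  have e2 : θ + ν = θ * (12 + 5 * w) / 4 := by rw [hν]; ring
  have hx1 : 471 / 400 * ((12 + 5 * w + 15 * w ^ 2) / (w * (12 + 5 * w))) ≤ x := by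
    rw [hx, e1, e2]
    calc 471 / 400 * ((12 + 5 * w + 15 * w ^ 2) / (w * (12 + 5 * w)))
        = 2 * 3.14 * (3 * θ / (4 * w)) * ((12 + 5 * w + 15 * w ^ 2) / 16) / (θ * (12 + 5 * w) / 4) := by
          field_simp
          norm_num
      _ ≤ 2 * Real.pi * U * ((12 + 5 * w + 15 * w ^ 2) / 16) / (θ * (12 + 5 * w) / 4) := by
          gcongr
  have hz : 1 ≤ 1 / w := by rw [le_div_iff₀ hw0]; linarith
  have h1 := exp_ineq hz
  have e3 : 471 / 400 * ((12 * (1 / w) ^ 2 + 5 * (1 / w) + 15) / (12 * (1 / w) + 5)) =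
      471 / 400 * ((12 + 5 * w + 15 * w ^ 2) / (w * (12 + 5 * w))) := by
    field_simp
  rw [e3] at h1
  have h2 : 3 + 24 / 5 * (1 / w) < Real.exp x := h1.trans_le (Real.exp_le_exp.2 hx1)
  -- the inequality
  have h3 : 3 * ν < (ν - 2 * θ) * Real.exp x := by
    have e4 : ν - 2 * θ = θ * (5 / 4 * w) := by rw [hν]; ring
    have e5 : 3 * ν = θ * (5 / 4 * w) * (3 + 24 / 5 * (1 / w)) := by
      rw [hν]; field_simp; ring
    rw [e4, e5]
    gcongr
  linarith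

/-- Many shifts with a large error term, given good shifts near `0`; closed form. -/
theorem T_loc {U θ : ℝ} (hU : 0 < U) (hθ : θ < 4 * U / (3 + 16 * U)) :
    ∃ c : ℝ, 0 < c ∧ ∀ (k : ℕ), 1 ≤ k → ∀ (u0 κ : ℝ), 0 < κ → κ ≤ 2 → ∃ r0 : ℝ, 0 < r0 ∧ ∀ r : ℝ, 0 < r → r ≤ r0 →
      ENNReal.ofReal (κ * r) < volume {u : ℝ | |u| ≤ r ∧ HasError k u θ} →
      volume {u : ℝ | u ∈ Icc (u0 - U) (u0 + U) ∧ HasError k u θ} ≤ ENNReal.ofReal (2 * U - c) := by
  have hT : 0 < 4 * U / (3 + 16 * U) := by positivity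
  set θ' := (max θ 0 + 4 * U / (3 + 16 * U)) / 2 with hθ'
  have h1 : max θ 0 < 4 * U / (3 + 16 * U) := max_lt hθ hT
  have h2 : max θ 0 < θ' := by rw [hθ']; linarith
  have h3 : θ' < 4 * U / (3 + 16 * U) := by rw [hθ']; linarith
  have h4 : 0 < θ' := lt_of_le_of_lt (le_max_right _ _) h2
  have h5 : θ ≤ θ' := (lt_of_le_of_lt (le_max_left _ _) h2).le
  obtain ⟨ν, hν, hν1, h6⟩ := nu_exists hU h4 h3
  obtain ⟨c, hc, hS⟩ := S_loc hU h4.le hν hν1 h6
  refine ⟨c, hc, fun k hk u0 κ hκ hκ2 => ?_⟩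
  obtain ⟨r0, hr0, h7⟩ := hS k hk u0 κ hκ hκ2
  refine ⟨r0, hr0, fun r hr hrr hvol => ?_⟩
  refine le_trans (measure_mono ?_) (h7 r hr hrr (hvol.trans_le (measure_mono ?_)))
  · intro u hu
    exact ⟨hu.1, hasError_mono hu.2 h5⟩
  · intro u hu
    exact ⟨hu.1, hasError_mono hu.2 h5⟩

/-- Shifts in an interval around `0`, without any hypothesis; closed form. -/
theorem finT {U θ : ℝ} (hU : 0 < U) (hθ : θ < 4 * U / (3 + 16 * U)) {k : ℕ} (hk : 1 ≤ k) :
    ∃ c : ℝ, 0 < c ∧ volume {u : ℝ | u ∈ Icc (-U) U ∧ HasError k u θ} ≤ ENNReal.ofReal (2 * U - c) := by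
  have hT : 0 < 4 * U / (3 + 16 * U) := by positivity
  set θ' := (max θ 0 + 4 * U / (3 + 16 * U)) / 2 with hθ'
  have h1 : max θ 0 < 4 * U / (3 + 16 * U) := max_lt hθ hT
  have h2 : max θ 0 < θ' := by rw [hθ']; linarith
  have h3 : θ' < 4 * U / (3 + 16 * U) := by rw [hθ']; linarith
  have h4 : 0 < θ' := lt_of_le_of_lt (le_max_right _ _) h2
  have h5 : θ ≤ θ' := (lt_of_le_of_lt (le_max_left _ _) h2).le
  obtain ⟨ν, hν, hν1, h6⟩ := nu_exists hU h4 h3
  obtain ⟨c, hc, hS⟩ := finS hU h4.le hν hν1 h6 hk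
  refine ⟨c, hc, le_trans (measure_mono ?_) hS⟩
  intro u hu
  exact ⟨hu.1, hasError_mono hu.2 h5⟩

end Pool.Agent.Helper156_SM
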