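import Mathlib

set_option autoImplicit false

/-!
# The Gaussian weight
-/

open MeasureTheory Set Filter

namespace Pool.Agent.Helper156_SM

/-- The Gaussian weight centred at `3 T / 2`. -/
noncomputable def gw (T W t : ℝ) : ℝ := Real.exp (-((t - 3 * T / 2) / W) ^ 2)

theorem gw_cont (T W : ℝ) : Continuous (gw T W) := by unfold gw; fun_prop

theorem gw_pos (T W t : ℝ) : 0 < gw T W t := Real.exp_pos _

theorem gw_le_one (T W t : ℝ) : gw T W t ≤ 1 := by
  unfold gw
  rw [Real.exp_le_one_iff]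
  nlinarith [sq_nonneg ((t - 3 * T / 2) / W)]

/-- full Gaussian transform -/
theorem full (W ξ : ℝ) (hW : 0 < W) :
    ∫ x : ℝ, Complex.exp (Complex.I * ξ * x) * Complex.exp (-((1 / W ^ 2 : ℝ) : ℂ) * x ^ 2) =
      ((Real.sqrt Real.pi * W * Real.exp (-(ξ ^ 2 * W ^ 2 / 4)) : ℝ) : ℂ) := by
  have hb : 0 < (((1 / W ^ 2 : ℝ) : ℂ)).re := by
    rw [Complex.ofReal_re]; positivity
  rw [fourierIntegral_gaussian hb]
  have h1 : ((Real.pi : ℂ) / ((1 / W ^ 2 : ℝ) : ℂ)) ^ (1 / 2 : ℂ) = ((Real.sqrt Real.pi * W : ℝ) : ℂ) := by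
    have : (Real.pi : ℂ) / ((1 / W ^ 2 : ℝ) : ℂ) = ((Real.pi * W ^ 2 : ℝ) : ℂ) := by
      push_cast; field_simp
    rw [this]
    have h2 : (1 / 2 : ℂ) = ((1 / 2 : ℝ) : ℂ) := by push_cast; ring
    rw [h2, ← Complex.ofReal_cpow (by positivity), ← Real.sqrt_eq_rpow]
    congr 1
    rw [Real.sqrt_mul Real.pi_pos.le, Real.sqrt_sq hW.le]
  rw [h1]
  have h3 : -(ξ : ℂ) ^ 2 / (4 * ((1 / W ^ 2 : ℝ) : ℂ)) = ((-(ξ ^ 2 * W ^ 2 / 4) : ℝ) : ℂ) := by
    push_cast; field_simp
  rw [h3, ← Complex.ofReal_exp]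
  push_cast
  ring

theorem gauss_integrable {W : ℝ} (hW : 0 < W) (a : ℝ) :
    Integrable fun t : ℝ => Real.exp (-((t - a) / W) ^ 2) := by
  have h := (integrable_exp_neg_mul_sq (b := 1 / W ^ 2) (by positivity)).comp_sub_right a
  refine h.congr (Eventually.of_forall fun t => ?_)
  simp only
  congr 1
  field_simp

theorem gauss_full {W : ℝ} (hW : 0 < W) (a : ℝ) :
    ∫ t : ℝ, Real.exp (-((t - a) / W) ^ 2) = Real.sqrt Real.pi * W := by
  rw [integral_sub_right_eq_self (fun t : ℝ => Real.exp (-(t / W) ^ 2)) a]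
  have h := integral_gaussian (1 / W ^ 2)
  have h2 : (fun t : ℝ => Real.exp (-(t / W) ^ 2)) = fun t => Real.exp (-(1 / W ^ 2) * t ^ 2) := by
    funext t; congr 1; field_simp
  rw [h2, h]
  rw [show Real.pi / (1 / W ^ 2) = Real.pi * W ^ 2 by field_simp, Real.sqrt_mul Real.pi_pos.le,
    Real.sqrt_sq hW.le]

theorem sqrt_pi_le : Real.sqrt Real.pi ≤ 2 := by
  rw [Real.sqrt_le_left (by norm_num)]
  linarith [Real.pi_le_four]

/-- the weight with a phase, over the line -/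
theorem line {T W ξ : ℝ} (hW : 0 < W) :
    ‖∫ t : ℝ, (gw T W t : ℂ) * Complex.exp ((ξ * t : ℝ) * Complex.I)‖ ≤
      2 * W * Real.exp (-(ξ ^ 2 * W ^ 2 / 4)) := by
  have h1 : (fun t : ℝ => (gw T W t : ℂ) * Complex.exp ((ξ * t : ℝ) * Complex.I)) = fun t : ℝ =>
      (fun x : ℝ => Complex.exp ((ξ * (3 * T / 2) : ℝ) * Complex.I) *
        (Complex.exp (Complex.I * ξ * x) * Complex.exp (-((1 / W ^ 2 : ℝ) : ℂ) * x ^ 2))) (t - 3 * T / 2) := by
    funext t
    simp only [gw]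
    rw [Complex.ofReal_exp, ← Complex.exp_add, ← Complex.exp_add, ← Complex.exp_add]
    congr 1
    push_cast
    field_simp
    ring
  rw [h1, integral_sub_right_eq_self (fun x : ℝ => Complex.exp ((ξ * (3 * T / 2) : ℝ) * Complex.I) *
        (Complex.exp (Complex.I * ξ * x) * Complex.exp (-((1 / W ^ 2 : ℝ) : ℂ) * x ^ 2))) (3 * T / 2),
    integral_const_mul, full W ξ hW, norm_mul, Complex.norm_exp_ofReal_mul_I, one_mul,
    Complex.norm_real, Real.norm_of_nonneg (by positivity)]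
  have := sqrt_pi_le
  gcongr

/-- the tails -/
theorem tails {T W : ℝ} (hT : 0 < T) (hW : 0 < W) :
    ∫ t in (Ioc T (2 * T))ᶜ, gw T W t ≤ 3 * W * Real.exp (-(T ^ 2 / (8 * W ^ 2))) := by
  have hi : Integrable fun t : ℝ => Real.exp (-((t - 3 * T / 2) / (Real.sqrt 2 * W)) ^ 2) :=
    gauss_integrable (by positivity) _
  have hs : (Real.sqrt 2) ^ 2 = 2 := Real.sq_sqrt (by norm_num)
  have h1 : ∀ t ∈ (Ioc T (2 * T))ᶜ, gw T W t ≤
      Real.exp (-(T ^ 2 / (8 * W ^ 2))) * Real.exp (-((t - 3 * T / 2) / (Real.sqrt 2 * W)) ^ 2) := by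
    intro t ht
    rw [← Real.exp_add]
    unfold gw
    apply Real.exp_le_exp.2
    have h2 : (T / 2) ^ 2 ≤ (t - 3 * T / 2) ^ 2 := by
      rw [mem_compl_iff, mem_Ioc, not_and_or, not_lt, not_le] at ht
      rcases ht with ht | ht
      · nlinarith
      · nlinarith
    rw [div_pow, div_pow, mul_pow, hs]
    have hW2 : 0 < W ^ 2 := by positivity
    have h3 : (T / 2) ^ 2 / (2 * W ^ 2) ≤ (t - 3 * T / 2) ^ 2 / (2 * W ^ 2) := by gcongr
    have h4 : (T / 2) ^ 2 / (2 * W ^ 2) = T ^ 2 / (8 * W ^ 2) := by field_simp; ring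
    have h5 : (t - 3 * T / 2) ^ 2 / W ^ 2 = 2 * ((t - 3 * T / 2) ^ 2 / (2 * W ^ 2)) := by field_simp
    linarith
  calc ∫ t in (Ioc T (2 * T))ᶜ, gw T W t
      ≤ ∫ t in (Ioc T (2 * T))ᶜ, Real.exp (-(T ^ 2 / (8 * W ^ 2))) *
          Real.exp (-((t - 3 * T / 2) / (Real.sqrt 2 * W)) ^ 2) := by
        refine setIntegral_mono_on ((gauss_integrable hW _).integrableOn) ((hi.const_mul _).integrableOn)
          measurableSet_Ioc.compl h1
    _ ≤ ∫ t : ℝ, Real.exp (-(T ^ 2 / (8 * W ^ 2))) *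
          Real.exp (-((t - 3 * T / 2) / (Real.sqrt 2 * W)) ^ 2) :=
        setIntegral_le_integral (hi.const_mul _) (Eventually.of_forall fun t => by positivity)
    _ = Real.exp (-(T ^ 2 / (8 * W ^ 2))) * (Real.sqrt Real.pi * (Real.sqrt 2 * W)) := by
        rw [integral_const_mul, gauss_full (by positivity)]
    _ ≤ 3 * W * Real.exp (-(T ^ 2 / (8 * W ^ 2))) := by
        have h6 : Real.sqrt Real.pi * Real.sqrt 2 ≤ 3 := by
          rw [← Real.sqrt_mul Real.pi_pos.le, Real.sqrt_le_left (by norm_num)]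
          linarith [Real.pi_le_four]
        have : Real.sqrt Real.pi * (Real.sqrt 2 * W) = (Real.sqrt Real.pi * Real.sqrt 2) * W := by ring
        rw [this, mul_comm]
        gcongr

/-- The transform of the truncated weight. -/
noncomputable def Ph (T W ξ : ℝ) : ℂ := ∫ t in T..(2 * T), (gw T W t : ℂ) * Complex.exp ((ξ * t : ℝ) * Complex.I)

theorem Ph_bound {T W ξ : ℝ} (hT : 0 < T) (hW : 0 < W) :
    ‖Ph T W ξ‖ ≤ 2 * W * Real.exp (-(ξ ^ 2 * W ^ 2 / 4)) + 3 * W * Real.exp (-(T ^ 2 / (8 * W ^ 2))) := by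
  unfold Ph
  rw [intervalIntegral.integral_of_le (by linarith)]
  have hi : Integrable fun t : ℝ => (gw T W t : ℂ) * Complex.exp ((ξ * t : ℝ) * Complex.I) := by
    refine (gauss_integrable hW (3 * T / 2)).mono' ?_ (Eventually.of_forall fun t => ?_)
    · have := gw_cont T W
      exact (by fun_prop : Continuous fun t : ℝ => (gw T W t : ℂ) * Complex.exp ((ξ * t : ℝ) * Complex.I)).aestronglyMeasurable
    · rw [norm_mul, Complex.norm_exp_ofReal_mul_I, mul_one, Complex.norm_real,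
        Real.norm_of_nonneg (gw_pos _ _ _).le]
      exact le_rfl
  have h1 := integral_add_compl (measurableSet_Ioc (a := T) (b := 2 * T)) hi
  have h2 : ∫ t in Ioc T (2 * T), (gw T W t : ℂ) * Complex.exp ((ξ * t : ℝ) * Complex.I) =
      (∫ t : ℝ, (gw T W t : ℂ) * Complex.exp ((ξ * t : ℝ) * Complex.I)) -
        ∫ t in (Ioc T (2 * T))ᶜ, (gw T W t : ℂ) * Complex.exp ((ξ * t : ℝ) * Complex.I) := by
    rw [← h1]; ring
  rw [h2]
  refine (norm_sub_le _ _).trans (add_le_add (line hW) ?_)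
  refine (norm_integral_le_integral_norm _).trans (le_trans (le_of_eq ?_) (tails hT hW))
  congr 1
  funext t
  rw [norm_mul, Complex.norm_exp_ofReal_mul_I, mul_one, Complex.norm_real,
    Real.norm_of_nonneg (gw_pos _ _ _).le]

theorem Ph_zero {T W : ℝ} (hW : 0 < W) (hWT : W ≤ T) :
    W / 2 ≤ (Ph T W 0).re ∧ Ph T W 0 = ((Ph T W 0).re : ℂ) := by
  have h0 : Ph T W 0 = ((∫ t in T..(2 * T), gw T W t : ℝ) : ℂ) := by
    unfold Ph
    rw [← intervalIntegral.integral_ofReal]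
    apply intervalIntegral.integral_congr
    intro t _
    simp
  rw [h0]
  refine ⟨?_, by rw [Complex.ofReal_re]⟩
  rw [Complex.ofReal_re]
  have hc := gw_cont T W
  have h1 : ∫ t in (3 * T / 2 - W / 2)..(3 * T / 2 + W / 2), gw T W t ≤ ∫ t in T..(2 * T), gw T W t := by
    apply intervalIntegral.integral_mono_interval (by linarith) (by linarith) (by linarith)
    · exact Eventually.of_forall fun t => (gw_pos _ _ _).le
    · exact hc.intervalIntegrable _ _
  refine le_trans ?_ h1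
  have h2 : ∫ t in (3 * T / 2 - W / 2)..(3 * T / 2 + W / 2), (1 / 2 : ℝ) ≤
      ∫ t in (3 * T / 2 - W / 2)..(3 * T / 2 + W / 2), gw T W t := by
    apply intervalIntegral.integral_mono_on (by linarith) intervalIntegrable_const (hc.intervalIntegrable _ _)
    intro t ht
    unfold gw
    have h3 : ((t - 3 * T / 2) / W) ^ 2 ≤ 1 / 4 := by
      rw [div_pow, div_le_iff₀ (by positivity)]
      have h4 : |t - 3 * T / 2| ≤ W / 2 := abs_le.2 ⟨by linarith [ht.1], by linarith [ht.2]⟩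
      have := pow_le_pow_left₀ (abs_nonneg _) h4 2
      rw [sq_abs] at this
      linarith
    have h5 := Real.add_one_le_exp (-((t - 3 * T / 2) / W) ^ 2)
    linarith
  refine le_trans ?_ h2
  rw [intervalIntegral.integral_const]
  simp only [smul_eq_mul]
  linarith

end Pool.Agent.Helper156_SM
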