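import Pool.Agent.Helper156_SM.Bounds2
import Pool.Agent.Helper156_SM.TL

set_option autoImplicit false

/-!
# The growth of the twisted moment near the critical line, in both directions
-/

open MeasureTheory Set Filter

namespace Pool.Agent.Helper156_SM

open Pool.Agent.Helper156_EK

/-- the crude bound, with an exponent that depends on `k` only -/
theorem crudeU (k : ℕ) : ∃ A : ℝ, 0 < A ∧ ∀ ν e : ℝ, 0 < ν → ν < 1 / 2 → ∀ᶠ T : ℝ in atTop,
    ∀ s : ℂ, 0 ≤ s.re → s.re ≤ 3 → |s.im| ≤ T / 2 → ‖Kf k ν e T s‖ ≤ T ^ A := by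
  obtain ⟨C, B, hC, hB, h⟩ := zk_crude k
  refine ⟨B + 3, by linarith, fun ν e hν hν1 => ?_⟩
  filter_upwards [ev_N hν hν1, eventually_ge_atTop 1, ev_pow (47 * C) (by linarith : B + 2 < B + 3)]
    with T hN hT hp s h1 h2 h3
  obtain ⟨n1, n2, n3, n4⟩ := hN
  have hT0 : 0 < T := by linarith
  have hN1 : (1 : ℝ) ≤ Nf ν T := by exact_mod_cast n1
  have hNT : (Nf ν T : ℝ) ≤ T := by nlinarith
  have hs : Real.sqrt (Nf ν T) ≤ T := by
    rw [Real.sqrt_le_left hT0.le]; nlinarith
  unfold Kf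
  have hP : ∀ t ∈ Icc T (2 * T), ‖zk k s t‖ ≤ C * T ^ B := fun t ht => h T t hT ht s h1 h2 h3
  refine (KK_le n1 n4 (by positivity) s (by positivity : 0 ≤ C * T ^ B) hP (fun t ht _ => hP t ht)).trans ?_
  have h4 : Real.exp (-(T ^ 2 / (16 * (T ^ (1 - e)) ^ 2))) ≤ 1 := by
    rw [Real.exp_le_one_iff]
    have : 0 ≤ T ^ 2 / (16 * (T ^ (1 - e)) ^ 2) := by positivity
    linarith
  have e1 : T ^ (B + 2) = T * T * T ^ B := by
    rw [Real.rpow_add hT0]
    have : T ^ (2 : ℝ) = T * T := by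
      rw [show (2 : ℝ) = ((2 : ℕ) : ℝ) by norm_num, Real.rpow_natCast]; ring
    rw [this]; ring
  calc 46 * T * Real.sqrt (Nf ν T) * (C * T ^ B) + T * (Nf ν T) * (C * T ^ B) * Real.exp (-(T ^ 2 / (16 * (T ^ (1 - e)) ^ 2)))
      ≤ 46 * T * T * (C * T ^ B) + T * T * (C * T ^ B) * 1 := by gcongr
    _ = 47 * C * T ^ (B + 2) := by rw [e1]; ring
    _ ≤ T ^ (B + 3) := hp

/-- the growth near the critical line -/
theorem grow (k : ℕ) : ∃ a : ℝ, 0 < a ∧ ∀ ν e P : ℝ, 0 < ν → ν < 1 / 2 → 0 ≤ P → ∀ᶠ T : ℝ in atTop,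
    (∀ s : ℂ, s.re = 1 / 2 → |s.im| ≤ T / 8 → ‖Kf k ν e T s‖ ≤ T ^ P) →
    ∀ s : ℂ, |s.re - 1 / 2| ≤ 1 / 2 → |s.im| ≤ T / 16 → ‖Kf k ν e T s‖ ≤ T ^ (P + a * |s.re - 1 / 2|) := by
  obtain ⟨A, hA, hcr⟩ := crudeU k
  refine ⟨3 * A, by positivity, fun ν e P hν hν1 hP => ?_⟩
  filter_upwards [hcr ν e hν hν1, eventually_ge_atTop 32] with T h1 hT hline s hs1 hs2
  have hT0 : 0 < T := by linarith
  have hT1 : 1 ≤ T := by linarith
  set L := Real.log T with hL
  set y0 := s.im with hy0
  -- the sign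
  have key : ∀ ε : ℝ, (ε = 1 ∨ ε = -1) → 0 ≤ ε * (s.re - 1 / 2) → ‖Kf k ν e T s‖ ≤ T ^ (P + 3 * A * |s.re - 1 / 2|) := by
    intro ε hε hεs
    have hε2 : ε ^ 2 = 1 := by rcases hε with rfl | rfl <;> norm_num
    have habs : |s.re - 1 / 2| = ε * (s.re - 1 / 2) := by
      rcases hε with rfl | rfl
      · rw [one_mul] at hεs ⊢; exact abs_of_nonneg hεs
      · rw [abs_of_nonpos (by linarith)]; ring
    set H : ℂ → ℂ := fun z => Kf k ν e T z * Complex.exp ((L : ℂ) * ((2 * A : ℝ) * (z - 1 / 2 - y0 * Complex.I) ^ 2 -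
      ((3 * A * ε : ℝ) : ℂ) * (z - 1 / 2 - y0 * Complex.I))) with hH
    have hHn : ∀ z : ℂ, ‖H z‖ = ‖Kf k ν e T z‖ * T ^ (2 * A * ((z.re - 1 / 2) ^ 2 - (z.im - y0) ^ 2) -
        3 * A * (ε * (z.re - 1 / 2))) := by
      intro z
      rw [hH]
      simp only
      rw [norm_mul, Complex.norm_exp, Real.rpow_def_of_pos hT0]
      congr 2
      rw [Complex.re_ofReal_mul]
      congr 1
      rw [Complex.sub_re, Complex.re_ofReal_mul, Complex.re_ofReal_mul, sq]
      simp only [Complex.sub_re, Complex.mul_re, Complex.mul_im, Complex.sub_im, Complex.ofReal_re,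
        Complex.ofReal_im, Complex.one_re, Complex.one_im, Complex.re_ofNat, Complex.im_ofNat, Complex.div_ofNat_re,
        Complex.div_ofNat_im, Complex.I_re, Complex.I_im]
      ring
    have bnd : ∀ z : ℂ, 0 ≤ ε * (z.re - 1 / 2) → ε * (z.re - 1 / 2) ≤ 1 / 2 → |z.im - y0| ≤ 1 →
        (z.re = 1 / 2 ∨ ε * (z.re - 1 / 2) = 1 / 2 ∨ |z.im - y0| = 1) → ‖H z‖ ≤ T ^ P := by
      intro z hz1 hz2 hz3 hz4
      rw [hHn]
      have hzim : |z.im| ≤ T / 8 := by
        have h2 := abs_le.1 hz3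
        have h3 := abs_le.1 hs2
        rw [abs_le]
        constructor <;> linarith
      have hsq : (ε * (z.re - 1 / 2)) ^ 2 = (z.re - 1 / 2) ^ 2 := by rw [mul_pow, hε2, one_mul]
      set x := ε * (z.re - 1 / 2) with hx
      have hy2 : (z.im - y0) ^ 2 ≤ 1 := by
        rw [← sq_abs]
        exact pow_le_one₀ (abs_nonneg _) hz3
      have hy0' : 0 ≤ (z.im - y0) ^ 2 := sq_nonneg _
      have hcrz : ‖Kf k ν e T z‖ ≤ T ^ A := by
        have hr : |z.re - 1 / 2| ≤ 1 / 2 := by
          have : |z.re - 1 / 2| = |x| := by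
            rw [hx, abs_mul]
            rcases hε with rfl | rfl <;> simp
          rw [this, abs_of_nonneg hz1]; exact hz2
        have h4 := abs_le.1 hr
        exact h1 z (by linarith) (by linarith) (by linarith)
      rw [← hsq]
      rcases hz4 with h5 | h5 | h5
      · have hx0 : x = 0 := by rw [hx, h5]; ring
        have h6 := hline z h5 hzim
        rw [hx0]
        calc ‖Kf k ν e T z‖ * T ^ (2 * A * (0 ^ 2 - (z.im - y0) ^ 2) - 3 * A * 0) ≤ T ^ P * 1 := by
              gcongr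
              apply Real.rpow_le_one_of_one_le_of_nonpos hT1
              have : 0 ≤ A * (z.im - y0) ^ 2 := by positivity
              linarith
          _ = T ^ P := mul_one _
      · rw [h5]
        calc ‖Kf k ν e T z‖ * T ^ (2 * A * ((1 / 2) ^ 2 - (z.im - y0) ^ 2) - 3 * A * (1 / 2)) ≤ T ^ A * T ^ (-A) := by
              gcongr
              have : 0 ≤ A * (z.im - y0) ^ 2 := by positivity
              linarith
          _ = 1 := by rw [← Real.rpow_add hT0, add_neg_cancel, Real.rpow_zero]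
          _ ≤ T ^ P := Real.one_le_rpow hT1 hP
      · have h6 : (z.im - y0) ^ 2 = 1 := by rw [← sq_abs, h5]; norm_num
        rw [h6]
        have h7 : x ^ 2 ≤ 1 / 4 := by nlinarith
        calc ‖Kf k ν e T z‖ * T ^ (2 * A * (x ^ 2 - 1) - 3 * A * x) ≤ T ^ A * T ^ (-A) := by
              gcongr
              have h8 : 0 ≤ A * x := by positivity
              have h9 : A * x ^ 2 ≤ A * (1 / 4) := by gcongr
              linarith
          _ = 1 := by rw [← Real.rpow_add hT0, add_neg_cancel, Real.rpow_zero]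
          _ ≤ T ^ P := Real.one_le_rpow hT1 hP
    have main : ‖H s‖ ≤ T ^ P := by
      have hHd : ∀ a b : ℝ, DifferentiableOn ℂ H (Icc a b ×ℂ Icc (y0 - 1) (y0 + 1)) := by
        intro a b
        rw [hH]
        apply DifferentiableOn.mul
        · apply (Kf_diff k ν e hT0).mono
          intro z hz
          change |z.im| < T
          have h8 := hz.2
          change z.im ∈ Icc _ _ at h8
          have h3 := abs_le.1 hs2
          rw [abs_lt]
          constructor <;> linarith [h8.1, h8.2]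
        · apply Differentiable.differentiableOn
          fun_prop
      rcases hε with rfl | rfl
      · rw [one_mul] at hεs
        have h2 : s.re - 1 / 2 ≤ 1 / 2 := (le_abs_self _).trans hs1
        apply rect_max (a := 1 / 2) (c := 1) (y1 := y0 - 1) (y2 := y0 + 1) (by norm_num) (by linarith) (hHd _ _)
        · intro z hz1 hz2
          exact bnd z (by rw [hz1]; norm_num) (by rw [hz1]; norm_num) (abs_le.2 ⟨by linarith [hz2.1], by linarith [hz2.2]⟩)
            (Or.inl hz1)
        · intro z hz1 hz2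
          exact bnd z (by rw [hz1]; norm_num) (by rw [hz1]; norm_num) (abs_le.2 ⟨by linarith [hz2.1], by linarith [hz2.2]⟩)
            (Or.inr (Or.inl (by rw [hz1]; norm_num)))
        · intro z hz1 hz2
          have h5 : |z.im - y0| = 1 := by rw [hz2]; simp
          exact bnd z (by linarith [hz1.1]) (by linarith [hz1.2]) h5.le (Or.inr (Or.inr h5))
        · intro z hz1 hz2
          have h5 : |z.im - y0| = 1 := by rw [hz2]; simp
          exact bnd z (by linarith [hz1.1]) (by linarith [hz1.2]) h5.le (Or.inr (Or.inr h5))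
        · exact ⟨by linarith, by linarith⟩
        · exact ⟨by rw [hy0]; linarith, by rw [hy0]; linarith⟩
      · have h2 : -(s.re - 1 / 2) ≤ 1 / 2 := (neg_le_abs _).trans hs1
        apply rect_max (a := 0) (c := 1 / 2) (y1 := y0 - 1) (y2 := y0 + 1) (by norm_num) (by linarith) (hHd _ _)
        · intro z hz1 hz2
          exact bnd z (by rw [hz1]; norm_num) (by rw [hz1]; norm_num) (abs_le.2 ⟨by linarith [hz2.1], by linarith [hz2.2]⟩)
            (Or.inr (Or.inl (by rw [hz1]; norm_num)))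
        · intro z hz1 hz2
          exact bnd z (by rw [hz1]; norm_num) (by rw [hz1]; norm_num) (abs_le.2 ⟨by linarith [hz2.1], by linarith [hz2.2]⟩)
            (Or.inl hz1)
        · intro z hz1 hz2
          have h5 : |z.im - y0| = 1 := by rw [hz2]; simp
          exact bnd z (by linarith [hz1.2]) (by linarith [hz1.1]) h5.le (Or.inr (Or.inr h5))
        · intro z hz1 hz2
          have h5 : |z.im - y0| = 1 := by rw [hz2]; simp
          exact bnd z (by linarith [hz1.2]) (by linarith [hz1.1]) h5.le (Or.inr (Or.inr h5))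
        · exact ⟨by linarith, by linarith⟩
        · exact ⟨by rw [hy0]; linarith, by rw [hy0]; linarith⟩
    rw [hHn] at main
    rw [← hy0, sub_self] at main
    have hsq : (ε * (s.re - 1 / 2)) ^ 2 = (s.re - 1 / 2) ^ 2 := by rw [mul_pow, hε2, one_mul]
    rw [habs]
    set x := ε * (s.re - 1 / 2) with hx
    rw [← hsq] at main
    set X := 2 * A * (x ^ 2 - 0 ^ 2) - 3 * A * x with hX
    have h6 : ‖Kf k ν e T s‖ = ‖Kf k ν e T s‖ * T ^ X * T ^ (-X) := by
      rw [mul_assoc, ← Real.rpow_add hT0, add_neg_cancel, Real.rpow_zero, mul_one]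
    rw [h6]
    calc ‖Kf k ν e T s‖ * T ^ X * T ^ (-X) ≤ T ^ P * T ^ (-X) := by gcongr
      _ = T ^ (P + -X) := by rw [← Real.rpow_add hT0]
      _ ≤ T ^ (P + 3 * A * x) := by
          apply Real.rpow_le_rpow_of_exponent_le hT1
          rw [hX]
          have : 0 ≤ A * x ^ 2 := by positivity
          linarith
  rcases le_total 0 (s.re - 1 / 2) with h | h
  · exact key 1 (Or.inl rfl) (by linarith)
  · exact key (-1) (Or.inr rfl) (by linarith)

end Pool.Agent.Helper156_SM
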