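import Pool.Agent.Helper156_SM.Mean

set_option autoImplicit false

/-!
# Functions with a small error term against the test sums
-/

open MeasureTheory Set Filter

namespace Pool.Agent.Helper156_SM

theorem Dp_norm {c : ℕ → ℂ} {N : ℕ} {B : ℝ} (hc : ∀ n ∈ Finset.Ico N (2 * N), ‖c n‖ ≤ B) (t : ℝ) :
    ‖Dp c N t‖ ≤ N * B := by
  unfold Dp
  refine (norm_sum_le _ _).trans ((Finset.sum_le_sum fun n hn => ?_).trans (le_of_eq
    (?_ : ∑ n ∈ Finset.Ico N (2 * N), B = N * B)))
  · rw [norm_mul, Complex.norm_exp_ofReal_mul_I, mul_one]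
    exact hc n hn
  · rw [Finset.sum_const, Nat.card_Ico, nsmul_eq_mul]
    congr 2
    omega

theorem Dp_deriv (c : ℕ → ℂ) (N : ℕ) (t : ℝ) :
    HasDerivAt (Dp c N) (Dp (fun n => Complex.I * om n * c n) N t) t := by
  unfold Dp
  apply HasDerivAt.fun_sum
  intro n _
  have h1 : HasDerivAt (fun t : ℝ => ((om n * t : ℝ) : ℂ) * Complex.I) (om n * Complex.I) t := by
    have h0 : HasDerivAt (fun t : ℝ => om n * t) (om n) t := by
      simpa using (hasDerivAt_id t).const_mul (om n)
    simpa using h0.ofReal_comp.mul_const Complex.I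
  have h2 := (h1.cexp).const_mul (c n)
  refine h2.congr_deriv ?_
  ring

theorem gw_deriv {T W : ℝ} (t : ℝ) :
    HasDerivAt (gw T W) (gw T W t * (-(2 * ((t - 3 * T / 2) / W) * (1 / W)))) t := by
  unfold gw
  have h1 : HasDerivAt (fun t : ℝ => (t - 3 * T / 2) / W) (1 / W) t :=
    ((hasDerivAt_id t).sub_const _).div_const _
  have h2 : HasDerivAt (fun t : ℝ => -((t - 3 * T / 2) / W) ^ 2) (-(2 * ((t - 3 * T / 2) / W) * (1 / W))) t := by
    have := (h1.fun_pow 2).fun_neg
    refine this.congr_deriv ?_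
    push_cast
    ring
  exact h2.exp

theorem gw_deriv_le {T W : ℝ} (hW : 0 < W) (t : ℝ) :
    |gw T W t * (-(2 * ((t - 3 * T / 2) / W) * (1 / W)))| ≤ 1 / W := by
  set x := (t - 3 * T / 2) / W with hx
  have h1 : |2 * x| * gw T W t ≤ 1 := by
    have h2 : |2 * x| ≤ 1 + x ^ 2 := by
      rw [abs_le]
      constructor
      · nlinarith [sq_nonneg (x + 1)]
      · nlinarith [sq_nonneg (x - 1)]
    have h3 := Real.add_one_le_exp (x ^ 2)
    have h4 : gw T W t = (Real.exp (x ^ 2))⁻¹ := by
      unfold gw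
      rw [← hx, Real.exp_neg]
    rw [h4, ← div_eq_mul_inv, div_le_one (Real.exp_pos _)]
    linarith
  rw [abs_mul, abs_of_pos (gw_pos _ _ _), abs_neg, abs_mul, abs_of_pos (by positivity : 0 < 1 / W)]
  have : 0 < 1 / W := by positivity
  nlinarith [abs_nonneg (2 * x), gw_pos T W t]

theorem gw_left {T W : ℝ} : gw T W T = Real.exp (-(T ^ 2 / (4 * W ^ 2))) := by
  unfold gw
  congr 2
  rw [div_pow]
  rcases eq_or_ne W 0 with h | h
  · subst h; simp
  · field_simp; ring

theorem gw_right {T W : ℝ} : gw T W (2 * T) = Real.exp (-(T ^ 2 / (4 * W ^ 2))) := by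
  unfold gw
  congr 2
  rw [div_pow]
  rcases eq_or_ne W 0 with h | h
  · subst h; simp
  · field_simp; ring

theorem left {F M M' M'' : ℝ → ℂ} {c : ℕ → ℂ} {N : ℕ} {T W E A1 A2 : ℝ} (hN : 1 ≤ N)
    (hT : (N : ℝ) ^ 2 ≤ T) (hW : 0 < W)
    (hc : ∀ n ∈ Finset.Ico N (2 * N), ‖c n‖ ≤ 1) (hF : ContinuousOn F (Icc T (2 * T)))
    (hM : ∀ t ∈ Icc T (2 * T), HasDerivAt M (M' t) t) (hM' : ∀ t ∈ Icc T (2 * T), HasDerivAt M' (M'' t) t)
    (hM'' : ContinuousOn M'' (Icc T (2 * T)))
    (h1 : ∀ t ∈ Icc T (2 * T), ‖M' t‖ ≤ A1) (h2 : ∀ t ∈ Icc T (2 * T), ‖M'' t‖ ≤ A2)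
    (hE : ∀ t ∈ Icc T (2 * T), ‖(∫ v in T..t, F v) - M t‖ ≤ E) :
    ‖∫ t in T..(2 * T), (gw T W t : ℂ) * Dp c N t * F t‖ ≤
      2 * Real.exp (-(T ^ 2 / (4 * W ^ 2))) * (N * E + 2 * N ^ 2 * A1) +
      46 * E * (T * Real.sqrt N / W + T * Real.sqrt N / N) + 92 * (A1 / W + A2) * (T * Real.sqrt N * N) := by
  have hN' : (1 : ℝ) ≤ N := by exact_mod_cast hN
  have hT0 : 0 < T := by nlinarith
  have hTT : T ≤ 2 * T := by linarith
  have hu : uIcc T (2 * T) = Icc T (2 * T) := uIcc_of_le hTT
  have hE0 : 0 ≤ E := (norm_nonneg _).trans (hE T ⟨le_rfl, hTT⟩)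
  have hA1 : 0 ≤ A1 := (norm_nonneg _).trans (h1 T ⟨le_rfl, hTT⟩)
  have hA2 : 0 ≤ A2 := (norm_nonneg _).trans (h2 T ⟨le_rfl, hTT⟩)
  have hgc : Continuous fun t : ℝ => (gw T W t : ℂ) := Complex.continuous_ofReal.comp (gw_cont T W)
  have hDc := Dp_cont c N
  have hFi : IntervalIntegrable F volume T (2 * T) := by
    apply ContinuousOn.intervalIntegrable; rwa [hu]
  have hMc : ContinuousOn M (Icc T (2 * T)) := fun t ht => (hM t ht).continuousAt.continuousWithinAt
  have hM'c : ContinuousOn M' (Icc T (2 * T)) := fun t ht => (hM' t ht).continuousAt.continuousWithinAt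
  have hM'i : IntervalIntegrable M' volume T (2 * T) := by
    apply ContinuousOn.intervalIntegrable; rwa [hu]
  -- the error
  set e : ℝ → ℂ := fun t => (∫ v in T..t, F v) - M t with he
  have hJc : ContinuousOn (fun t => ∫ v in T..t, F v) (Icc T (2 * T)) := by
    have := intervalIntegral.continuousOn_primitive_interval' hFi (left_mem_uIcc)
    rwa [hu] at this
  have hec : ContinuousOn e (Icc T (2 * T)) := hJc.sub hMc
  have hed : ∀ t ∈ Ioo T (2 * T), HasDerivAt e (F t - M' t) t := by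
    intro t ht
    have ht' : t ∈ Icc T (2 * T) := ⟨ht.1.le, ht.2.le⟩
    have hn : Icc T (2 * T) ∈ nhds t := Icc_mem_nhds ht.1 ht.2
    have h3 : HasDerivAt (fun t => ∫ v in T..t, F v) (F t) t := by
      apply intervalIntegral.integral_hasDerivAt_right
      · apply ContinuousOn.intervalIntegrable
        rw [uIcc_of_le ht.1.le]
        exact hF.mono (Icc_subset_Icc_right ht.2.le)
      · exact (hF.stronglyMeasurableAtFilter_nhdsWithin measurableSet_Icc t).filter_mono (by rw [nhdsWithin_eq_nhds.2 hn])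
      · exact hF.continuousAt hn
    exact h3.sub (hM t ht')
  -- the test function
  set gd : ℝ → ℝ := fun t => gw T W t * (-(2 * ((t - 3 * T / 2) / W) * (1 / W))) with hgd
  have hgdc : Continuous gd := by
    have := gw_cont T W
    rw [hgd]; fun_prop
  set u : ℝ → ℂ := fun t => (gw T W t : ℂ) * Dp c N t with hudef
  set u' : ℝ → ℂ := fun t => (gd t : ℂ) * Dp c N t + (gw T W t : ℂ) * Dp (fun n => Complex.I * om n * c n) N t with hu'
  have hud : ∀ t, HasDerivAt u (u' t) t := fun t => ((gw_deriv t).ofReal_comp).mul (Dp_deriv c N t)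
  have huc : Continuous u := hgc.mul hDc
  have hu'c : Continuous u' := by
    have h3 := Dp_cont (fun n => Complex.I * om n * c n) N
    exact ((Complex.continuous_ofReal.comp hgdc).mul hDc).add (hgc.mul h3)
  -- first integration by parts
  have ibp1 : ∫ t in T..(2 * T), u t * (F t - M' t) = u (2 * T) * e (2 * T) - u T * e T -
      ∫ t in T..(2 * T), u' t * e t := by
    apply intervalIntegral.integral_mul_deriv_eq_deriv_mul_of_hasDerivAt huc.continuousOn (by rwa [hu])
    · intro x _; exact hud x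
    · intro x hx
      rw [min_eq_left hTT, max_eq_right hTT] at hx
      exact hed x hx
    · exact hu'c.intervalIntegrable _ _
    · exact hFi.sub hM'i
  -- second integration by parts
  set c1 : ℕ → ℂ := fun n => c n / (Complex.I * om n) with hc1
  have hD1 : ∀ t, HasDerivAt (Dp c1 N) (Dp c N t) t := by
    intro t
    refine (Dp_deriv c1 N t).congr_deriv ?_
    unfold Dp
    refine Finset.sum_congr rfl fun n hn => ?_
    rw [Finset.mem_Ico] at hn
    have h3 : (om n : ℂ) ≠ 0 := by exact_mod_cast (om_pos (by omega : 1 ≤ n)).ne'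
    rw [hc1]
    field_simp
  have hc1b : ∀ n ∈ Finset.Ico N (2 * N), ‖c1 n‖ ≤ 2 * N := by
    intro n hn
    have hn' := Finset.mem_Ico.1 hn
    have h3 := om_lower (by omega : 1 ≤ n)
    have h4 : (n : ℝ) + 1 ≤ 2 * N := by exact_mod_cast (by omega : n + 1 ≤ 2 * N)
    rw [hc1]
    simp only
    rw [norm_div, norm_mul, Complex.norm_I, one_mul, Complex.norm_real, Real.norm_of_nonneg (om_pos (by omega : 1 ≤ n)).le,
      div_le_iff₀ (om_pos (by omega : 1 ≤ n))]
    refine (hc n hn).trans ?_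
    have h5 : 1 = ((n : ℝ) + 1) * (1 / ((n : ℝ) + 1)) := by field_simp
    rw [h5]
    gcongr
  set w : ℝ → ℂ := fun t => (gw T W t : ℂ) * M' t with hw
  set w' : ℝ → ℂ := fun t => (gd t : ℂ) * M' t + (gw T W t : ℂ) * M'' t with hw'
  have hwd : ∀ t ∈ Icc T (2 * T), HasDerivAt w (w' t) t := fun t ht => ((gw_deriv t).ofReal_comp).mul (hM' t ht)
  have hwc : ContinuousOn w (Icc T (2 * T)) := hgc.continuousOn.mul hM'c
  have hw'c : ContinuousOn w' (Icc T (2 * T)) :=
    (((Complex.continuous_ofReal.comp hgdc).continuousOn).mul hM'c).add (hgc.continuousOn.mul hM'')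
  have ibp2 : ∫ t in T..(2 * T), w t * Dp c N t = w (2 * T) * Dp c1 N (2 * T) - w T * Dp c1 N T -
      ∫ t in T..(2 * T), w' t * Dp c1 N t := by
    apply intervalIntegral.integral_mul_deriv_eq_deriv_mul_of_hasDerivAt (by rwa [hu]) (Dp_cont c1 N).continuousOn
    · intro x hx
      rw [min_eq_left hTT, max_eq_right hTT] at hx
      exact hwd x ⟨hx.1.le, hx.2.le⟩
    · intro x _; exact hD1 x
    · apply ContinuousOn.intervalIntegrable; rwa [hu]
    · exact hDc.intervalIntegrable _ _
  have hsplit : ∫ t in T..(2 * T), (gw T W t : ℂ) * Dp c N t * F t =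
      (∫ t in T..(2 * T), u t * (F t - M' t)) + ∫ t in T..(2 * T), w t * Dp c N t := by
    rw [← intervalIntegral.integral_add]
    · apply intervalIntegral.integral_congr
      intro t _
      simp only [hudef, hw]
      ring
    · exact (hFi.sub hM'i).continuousOn_mul huc.continuousOn
    · apply ContinuousOn.intervalIntegrable
      rw [hu]
      exact hwc.mul hDc.continuousOn
  rw [hsplit, ibp1, ibp2]
  set g0 := Real.exp (-(T ^ 2 / (4 * W ^ 2))) with hg0
  have hg0p : 0 < g0 := Real.exp_pos _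
  have b1 : ‖u (2 * T) * e (2 * T)‖ ≤ g0 * N * E := by
    rw [hudef]
    simp only
    rw [norm_mul, norm_mul, Complex.norm_real, Real.norm_of_nonneg (gw_pos _ _ _).le, gw_right]
    have h3 := Dp_norm hc (2 * T)
    rw [mul_one] at h3
    have h4 := hE (2 * T) ⟨hTT, le_rfl⟩
    gcongr
  have b2 : ‖u T * e T‖ ≤ g0 * N * E := by
    rw [hudef]
    simp only
    rw [norm_mul, norm_mul, Complex.norm_real, Real.norm_of_nonneg (gw_pos _ _ _).le, gw_left]
    have h3 := Dp_norm hc T
    rw [mul_one] at h3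
    have h4 := hE T ⟨le_rfl, hTT⟩
    gcongr
  have b3 : ‖w (2 * T) * Dp c1 N (2 * T)‖ ≤ g0 * A1 * (N * (2 * N)) := by
    rw [hw]
    simp only
    rw [norm_mul, norm_mul, Complex.norm_real, Real.norm_of_nonneg (gw_pos _ _ _).le, gw_right]
    have h3 := Dp_norm hc1b (2 * T)
    have h4 := h1 (2 * T) ⟨hTT, le_rfl⟩
    gcongr
  have b4 : ‖w T * Dp c1 N T‖ ≤ g0 * A1 * (N * (2 * N)) := by
    rw [hw]
    simp only
    rw [norm_mul, norm_mul, Complex.norm_real, Real.norm_of_nonneg (gw_pos _ _ _).le, gw_left]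
    have h3 := Dp_norm hc1b T
    have h4 := h1 T ⟨le_rfl, hTT⟩
    gcongr
  have hcd : ∀ n ∈ Finset.Ico N (2 * N), ‖Complex.I * om n * c n‖ ≤ 1 / N := by
    intro n hn
    have hn' := Finset.mem_Ico.1 hn
    rw [norm_mul, norm_mul, Complex.norm_I, one_mul, Complex.norm_real, Real.norm_of_nonneg (om_pos (by omega : 1 ≤ n)).le]
    have h3 := om_upper (by omega : 1 ≤ n)
    have h4 : 1 / (n : ℝ) ≤ 1 / N := by
      apply one_div_le_one_div_of_le (by linarith)
      exact_mod_cast hn'.1
    calc om n * ‖c n‖ ≤ (1 / N) * 1 := by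
          apply mul_le_mul (h3.trans h4) (hc n hn) (norm_nonneg _) (by positivity)
      _ = 1 / N := mul_one _
  have m0 := mean_one hN hT one_pos hc
  have m1 := mean_one hN hT (B := 1 / N) (by positivity) hcd
  have m2 := mean_one hN hT (B := 2 * N) (by positivity) hc1b
  have b5 : ‖∫ t in T..(2 * T), u' t * e t‖ ≤ 46 * E * (T * Real.sqrt N / W + T * Real.sqrt N / N) := by
    have h3 : ‖∫ t in T..(2 * T), u' t * e t‖ ≤
        ∫ t in T..(2 * T), (E / W * ‖Dp c N t‖ + E * ‖Dp (fun n => Complex.I * om n * c n) N t‖) := by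
      apply intervalIntegral.norm_integral_le_of_norm_le hTT
      · refine Eventually.of_forall fun t ht => ?_
        have ht' : t ∈ Icc T (2 * T) := ⟨ht.1.le, ht.2⟩
        rw [norm_mul]
        have h4 : ‖u' t‖ ≤ 1 / W * ‖Dp c N t‖ + ‖Dp (fun n => Complex.I * om n * c n) N t‖ := by
          rw [hu']
          refine (norm_add_le _ _).trans ?_
          rw [norm_mul, norm_mul, Complex.norm_real, Complex.norm_real, Real.norm_of_nonneg (gw_pos _ _ _).le]
          have h5 : ‖gd t‖ ≤ 1 / W := gw_deriv_le hW t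
          have h6 := gw_le_one T W t
          have h7 := norm_nonneg (Dp (fun n => Complex.I * om n * c n) N t)
          have h8 := norm_nonneg (Dp c N t)
          nlinarith
        calc ‖u' t‖ * ‖e t‖ ≤ (1 / W * ‖Dp c N t‖ + ‖Dp (fun n => Complex.I * om n * c n) N t‖) * E :=
              mul_le_mul h4 (hE t ht') (norm_nonneg _) (by positivity)
          _ = E / W * ‖Dp c N t‖ + E * ‖Dp (fun n => Complex.I * om n * c n) N t‖ := by ring
      · exact ((continuous_const.mul hDc.norm).add (continuous_const.mul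
          (Dp_cont (fun n => Complex.I * om n * c n) N).norm)).intervalIntegrable _ _
    have i1 : IntervalIntegrable (fun t => E / W * ‖Dp c N t‖) volume T (2 * T) :=
      (continuous_const.mul hDc.norm).intervalIntegrable _ _
    have i2 : IntervalIntegrable (fun t => E * ‖Dp (fun n => Complex.I * om n * c n) N t‖) volume T (2 * T) :=
      (continuous_const.mul (Dp_cont (fun n => Complex.I * om n * c n) N).norm).intervalIntegrable _ _
    rw [intervalIntegral.integral_add i1 i2,
      intervalIntegral.integral_const_mul, intervalIntegral.integral_const_mul] at h3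
    refine h3.trans ?_
    calc E / W * (∫ t in T..(2 * T), ‖Dp c N t‖) + E * ∫ t in T..(2 * T), ‖Dp (fun n => Complex.I * om n * c n) N t‖
        ≤ E / W * (46 * T * Real.sqrt N * 1) + E * (46 * T * Real.sqrt N * (1 / N)) := by gcongr
      _ = 46 * E * (T * Real.sqrt N / W + T * Real.sqrt N / N) := by ring
  have b6 : ‖∫ t in T..(2 * T), w' t * Dp c1 N t‖ ≤ 92 * (A1 / W + A2) * (T * Real.sqrt N * N) := by
    have h3 : ‖∫ t in T..(2 * T), w' t * Dp c1 N t‖ ≤
        ∫ t in T..(2 * T), (A1 / W + A2) * ‖Dp c1 N t‖ := by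
      apply intervalIntegral.norm_integral_le_of_norm_le hTT
      · refine Eventually.of_forall fun t ht => ?_
        have ht' : t ∈ Icc T (2 * T) := ⟨ht.1.le, ht.2⟩
        rw [norm_mul]
        have h4 : ‖w' t‖ ≤ A1 / W + A2 := by
          rw [hw']
          refine (norm_add_le _ _).trans ?_
          rw [norm_mul, norm_mul, Complex.norm_real, Complex.norm_real, Real.norm_of_nonneg (gw_pos _ _ _).le]
          have h5 : ‖gd t‖ ≤ 1 / W := gw_deriv_le hW t
          have h6 := gw_le_one T W t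
          have h7 := h1 t ht'
          have h8 := h2 t ht'
          have h9 := norm_nonneg (M' t)
          have h10 := norm_nonneg (M'' t)
          have h11 := gw_pos T W t
          have h12 : ‖gd t‖ * ‖M' t‖ ≤ 1 / W * A1 := mul_le_mul h5 h7 h9 (by positivity)
          have h13 : gw T W t * ‖M'' t‖ ≤ 1 * A2 := mul_le_mul h6 h8 h10 (by norm_num)
          have h14 : 1 / W * A1 = A1 / W := by ring
          linarith
        gcongr
      · exact (continuous_const.mul (Dp_cont c1 N).norm).intervalIntegrable _ _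
    rw [intervalIntegral.integral_const_mul] at h3
    refine h3.trans ?_
    calc (A1 / W + A2) * ∫ t in T..(2 * T), ‖Dp c1 N t‖
        ≤ (A1 / W + A2) * (46 * T * Real.sqrt N * (2 * N)) := by gcongr
      _ = 92 * (A1 / W + A2) * (T * Real.sqrt N * N) := by ring
  have n1 : ‖u (2 * T) * e (2 * T) - u T * e T - ∫ t in T..(2 * T), u' t * e t‖ ≤
      ‖u (2 * T) * e (2 * T)‖ + ‖u T * e T‖ + ‖∫ t in T..(2 * T), u' t * e t‖ := by
    refine (norm_sub_le _ _).trans ?_
    have := norm_sub_le (u (2 * T) * e (2 * T)) (u T * e T)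
    linarith
  have n2 : ‖w (2 * T) * Dp c1 N (2 * T) - w T * Dp c1 N T - ∫ t in T..(2 * T), w' t * Dp c1 N t‖ ≤
      ‖w (2 * T) * Dp c1 N (2 * T)‖ + ‖w T * Dp c1 N T‖ + ‖∫ t in T..(2 * T), w' t * Dp c1 N t‖ := by
    refine (norm_sub_le _ _).trans ?_
    have := norm_sub_le (w (2 * T) * Dp c1 N (2 * T)) (w T * Dp c1 N T)
    linarith
  refine (norm_add_le _ _).trans ?_
  have e1 : 2 * g0 * (N * E + 2 * N ^ 2 * A1) = g0 * N * E + g0 * N * E + (g0 * A1 * (N * (2 * N)) + g0 * A1 * (N * (2 * N))) := by ring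
  rw [e1]
  linarith

end Pool.Agent.Helper156_SM
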