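import Pool.Agent.Helper156_SM.Diag
import Pool.Agent.Helper156_SM.Left
import Pool.Agent.H448R2.GC.X2
import Pool.Agent.Y813.RL.HI

set_option autoImplicit false

/-!
# The twisted moment: analyticity and bounds
-/

open MeasureTheory Set Filter

namespace Pool.Agent.Helper156_SM

theorem ne_one_of_im {w : ℂ} (h : w.im ≠ 0) : w ≠ 1 := by
  intro h2
  rw [h2] at h
  simp at h

theorem KK_diff (k N : ℕ) {T W : ℝ} (hT : 0 < T) :
    DifferentiableOn ℂ (KK k N T W) {s : ℂ | |s.im| < T} := by
  have hU : IsOpen {s : ℂ | |s.im| < T} := isOpen_lt (Complex.continuous_im.abs) continuous_const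
  have hgc : Continuous fun t : ℝ => (gw T W t : ℂ) := Complex.continuous_ofReal.comp (gw_cont T W)
  have hDc := Dp_cont (fun _ => (1:ℂ)) N
  have hz : ∀ (σ : ℝ), (σ = 1 ∨ σ = -1) → ContinuousOn (fun q : ℂ × ℝ => riemannZeta (q.1 + σ * q.2 * Complex.I) ^ k)
      ({s : ℂ | |s.im| < T} ×ˢ Icc T (2 * T)) := by
    intro σ hσ q hq
    obtain ⟨h1, h2⟩ := hq
    change |q.1.im| < T at h1
    have h3 := abs_lt.1 h1
    have hne : q.1 + σ * q.2 * Complex.I ≠ 1 := by
      apply ne_one_of_im
      rcases hσ with rfl | rfl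
      · simp; linarith [h2.1]
      · simp; linarith [h2.1]
    have h4 : ContinuousAt riemannZeta (q.1 + σ * q.2 * Complex.I) := (differentiableAt_riemannZeta hne).continuousAt
    have h5 : ContinuousAt (fun q : ℂ × ℝ => q.1 + σ * q.2 * Complex.I) q := by fun_prop
    exact ((ContinuousAt.comp (f := fun q : ℂ × ℝ => q.1 + σ * q.2 * Complex.I) h4 h5).pow k).continuousWithinAt
  have hc : ContinuousOn (fun q : ℂ × ℝ => (gw T W q.2 : ℂ) * Dp (fun _ => 1) N q.2 * zk k q.1 q.2)
      ({s : ℂ | |s.im| < T} ×ˢ Icc T (2 * T)) := by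
    apply ContinuousOn.mul
    · exact ((hgc.comp continuous_snd).mul (hDc.comp continuous_snd)).continuousOn
    · unfold zk
      have h1 := hz 1 (Or.inl rfl)
      have h2 := hz (-1) (Or.inr rfl)
      refine (h1.mul h2).congr fun q _ => ?_
      simp only [Pi.mul_apply, Complex.ofReal_one, one_mul, Complex.ofReal_neg, neg_mul, sub_eq_add_neg]
  have hd : ∀ t ∈ Icc T (2 * T), DifferentiableOn ℂ (fun s : ℂ => (gw T W t : ℂ) * Dp (fun _ => 1) N t * zk k s t)
      {s : ℂ | |s.im| < T} := by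
    intro t ht s hs
    change |s.im| < T at hs
    have h3 := abs_lt.1 hs
    have hne1 : s + t * Complex.I ≠ 1 := by
      apply ne_one_of_im
      simp; linarith [ht.1]
    have hne2 : s - t * Complex.I ≠ 1 := by
      apply ne_one_of_im
      simp; linarith [ht.1]
    unfold zk
    have h4 : DifferentiableAt ℂ (fun s : ℂ => riemannZeta (s + t * Complex.I)) s :=
      DifferentiableAt.comp s (f := fun s : ℂ => s + t * Complex.I) (differentiableAt_riemannZeta hne1) (by fun_prop)
    have h5 : DifferentiableAt ℂ (fun s : ℂ => riemannZeta (s - t * Complex.I)) s :=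
      DifferentiableAt.comp s (f := fun s : ℂ => s - t * Complex.I) (differentiableAt_riemannZeta hne2) (by fun_prop)
    exact (((h4.pow k).mul (h5.pow k)).const_mul _).differentiableWithinAt
  have h := Pool.Agent.Y813.RL.differentiableOn_setIntegral (volume : Measure ℝ) isCompact_Icc measurableSet_Icc
    (by rw [Real.volume_Icc]; exact ENNReal.ofReal_lt_top) hU hc hd
  refine h.congr fun s _ => ?_
  unfold KK
  rw [intervalIntegral.integral_of_le (by linarith), integral_Icc_eq_integral_Ioc]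

/-- crude bound for the product -/
theorem zk_crude (k : ℕ) : ∃ C B : ℝ, 0 < C ∧ 0 < B ∧ ∀ T t : ℝ, 1 ≤ T → t ∈ Icc T (2 * T) → ∀ s : ℂ,
    0 ≤ s.re → s.re ≤ 3 → |s.im| ≤ T / 2 → ‖zk k s t‖ ≤ C * T ^ B := by
  obtain ⟨C, B, hC, hB, h⟩ := Pool.Agent.H448R2.GC.zeta_growth 0
  refine ⟨(C * 4 ^ B) ^ (2 * k), B * (2 * k) + 1, by positivity, by positivity, fun T t hT ht s h1 h2 h3 => ?_⟩
  have h4 := abs_le.1 h3
  have key : ∀ w : ℂ, w.re = s.re → |w.im| ≤ 3 * T → T / 2 ≤ |w.im| → ‖riemannZeta w‖ ≤ C * 4 ^ B * T ^ B := by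
    intro w hw1 hw2 hw3
    have hn : 1 / 16 ≤ ‖w - 1‖ := by
      have := Complex.abs_im_le_norm (w - 1)
      simp only [Complex.sub_im, Complex.one_im, sub_zero] at this
      linarith
    refine (h w (by rw [hw1]; linarith) (by rw [hw1]; exact h2) hn).trans ?_
    rw [mul_assoc, ← Real.mul_rpow (by norm_num) (by linarith)]
    gcongr
    linarith
  have k1 : ‖riemannZeta (s + t * Complex.I)‖ ≤ C * 4 ^ B * T ^ B := by
    apply key
    · simp
    · simp only [Complex.add_im, Complex.mul_im, Complex.ofReal_re, Complex.I_im, mul_one, Complex.ofReal_im,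
        Complex.I_re, mul_zero, add_zero]
      rw [abs_le]; constructor <;> linarith [ht.1, ht.2]
    · simp only [Complex.add_im, Complex.mul_im, Complex.ofReal_re, Complex.I_im, mul_one, Complex.ofReal_im,
        Complex.I_re, mul_zero, add_zero]
      refine le_trans ?_ (le_abs_self _)
      linarith [ht.1]
  have k2 : ‖riemannZeta (s - t * Complex.I)‖ ≤ C * 4 ^ B * T ^ B := by
    apply key
    · simp
    · simp only [Complex.sub_im, Complex.mul_im, Complex.ofReal_re, Complex.I_im, mul_one, Complex.ofReal_im,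
        Complex.I_re, mul_zero, add_zero]
      rw [abs_le]; constructor <;> linarith [ht.1, ht.2]
    · simp only [Complex.sub_im, Complex.mul_im, Complex.ofReal_re, Complex.I_im, mul_one, Complex.ofReal_im,
        Complex.I_re, mul_zero, add_zero]
      refine le_trans ?_ (neg_le_abs _)
      linarith [ht.1]
  unfold zk
  rw [norm_mul, norm_pow, norm_pow]
  calc ‖riemannZeta (s + t * Complex.I)‖ ^ k * ‖riemannZeta (s - t * Complex.I)‖ ^ k
      ≤ (C * 4 ^ B * T ^ B) ^ k * (C * 4 ^ B * T ^ B) ^ k := by gcongr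
    _ = (C * 4 ^ B) ^ (2 * k) * T ^ (B * (2 * k)) := by
        rw [← pow_add, ← two_mul, mul_pow, ← Real.rpow_natCast (T ^ B), ← Real.rpow_mul (by linarith)]
        push_cast
        rfl
    _ ≤ (C * 4 ^ B) ^ (2 * k) * T ^ (B * (2 * k) + 1) := by
        gcongr
        linarith

theorem zk_contOn (k : ℕ) {T : ℝ} (s : ℂ) (hs : |s.im| < T) : ContinuousOn (zk k s) (Icc T (2 * T)) := by
  have h3 := abs_lt.1 hs
  intro t ht
  have hne1 : s + t * Complex.I ≠ 1 := by
    apply ne_one_of_im
    simp; linarith [ht.1]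
  have hne2 : s - t * Complex.I ≠ 1 := by
    apply ne_one_of_im
    simp; linarith [ht.1]
  unfold zk
  have h4 : ContinuousAt (fun t : ℝ => riemannZeta (s + t * Complex.I)) t :=
    ContinuousAt.comp (f := fun t : ℝ => s + t * Complex.I) (differentiableAt_riemannZeta hne1).continuousAt (by fun_prop)
  have h5 : ContinuousAt (fun t : ℝ => riemannZeta (s - t * Complex.I)) t :=
    ContinuousAt.comp (f := fun t : ℝ => s - t * Complex.I) (differentiableAt_riemannZeta hne2).continuousAt (by fun_prop)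
  exact ((h4.pow k).mul (h5.pow k)).continuousWithinAt

/-- a bound for the twisted moment from a pointwise bound in the core -/
theorem KK_le {k N : ℕ} {T W H P : ℝ} (hN : 1 ≤ N) (hT : (N : ℝ) ^ 2 ≤ T) (hW : 0 < W) (s : ℂ)
    (hH : 0 ≤ H) (hP : ∀ t ∈ Icc T (2 * T), ‖zk k s t‖ ≤ P)
    (hc : ∀ t ∈ Icc T (2 * T), |t - 3 * T / 2| ≤ T / 4 → ‖zk k s t‖ ≤ H) :
    ‖KK k N T W s‖ ≤ 46 * T * Real.sqrt N * H + T * N * P * Real.exp (-(T ^ 2 / (16 * W ^ 2))) := by
  have hN' : (1 : ℝ) ≤ N := by exact_mod_cast hN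
  have hT0 : 0 < T := by nlinarith
  have hTT : T ≤ 2 * T := by linarith
  have hP0 : 0 ≤ P := (norm_nonneg _).trans (hP T ⟨le_rfl, hTT⟩)
  have hDc := Dp_cont (fun _ => (1:ℂ)) N
  have hD : ∀ t, ‖Dp (fun _ => (1:ℂ)) N t‖ ≤ N := by
    intro t
    have := Dp_norm (c := fun _ => (1:ℂ)) (N := N) (B := 1) (fun n _ => by simp) t
    simpa using this
  set E := Real.exp (-(T ^ 2 / (16 * W ^ 2))) with hE
  unfold KK
  have h1 : ‖∫ t in T..(2 * T), (gw T W t : ℂ) * Dp (fun _ => 1) N t * zk k s t‖ ≤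
      ∫ t in T..(2 * T), (H * ‖Dp (fun _ => (1:ℂ)) N t‖ + N * P * E) := by
    apply intervalIntegral.norm_integral_le_of_norm_le hTT
    · refine Eventually.of_forall fun t ht => ?_
      have ht' : t ∈ Icc T (2 * T) := ⟨ht.1.le, ht.2⟩
      rw [norm_mul, norm_mul, Complex.norm_real, Real.norm_of_nonneg (gw_pos _ _ _).le]
      have hz0 := norm_nonneg (zk k s t)
      have hd0 := norm_nonneg (Dp (fun _ => (1:ℂ)) N t)
      rcases le_or_gt |t - 3 * T / 2| (T / 4) with h | h
      · have h2 := hc t ht' h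
        have h3 := gw_le_one T W t
        have h5 : gw T W t * ‖Dp (fun _ => (1:ℂ)) N t‖ * ‖zk k s t‖ ≤ 1 * ‖Dp (fun _ => (1:ℂ)) N t‖ * H := by gcongr
        have h6 : 0 ≤ N * P * E := by positivity
        linarith
      · have h2 : gw T W t ≤ E := by
          unfold gw
          rw [hE]
          apply Real.exp_le_exp.2
          have h3 : (T / 4) ^ 2 ≤ (t - 3 * T / 2) ^ 2 := by
            have := pow_le_pow_left₀ (by positivity) h.le 2
            rwa [sq_abs] at this
          have h4 : (T / 4) ^ 2 / W ^ 2 ≤ (t - 3 * T / 2) ^ 2 / W ^ 2 := by gcongr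
          rw [div_pow]
          have h5 : (T / 4) ^ 2 / W ^ 2 = T ^ 2 / (16 * W ^ 2) := by field_simp; ring
          linarith
        have h5 : gw T W t * ‖Dp (fun _ => (1:ℂ)) N t‖ * ‖zk k s t‖ ≤ E * N * P := by
          have := hD t
          have := hP t ht'
          gcongr
        have h6 : 0 ≤ H * ‖Dp (fun _ => (1:ℂ)) N t‖ := by positivity
        linarith
    · exact ((continuous_const.mul hDc.norm).add continuous_const).intervalIntegrable _ _
  refine h1.trans ?_
  have i1 : IntervalIntegrable (fun t => H * ‖Dp (fun _ => (1:ℂ)) N t‖) volume T (2 * T) :=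
    (continuous_const.mul hDc.norm).intervalIntegrable _ _
  rw [intervalIntegral.integral_add i1 intervalIntegrable_const, intervalIntegral.integral_const_mul,
    intervalIntegral.integral_const]
  have m0 := mean_one (c := fun _ => (1:ℂ)) hN hT one_pos (fun n _ => by simp)
  simp only [smul_eq_mul]
  have h7 : H * ∫ t in T..(2 * T), ‖Dp (fun _ => (1:ℂ)) N t‖ ≤ H * (46 * T * Real.sqrt N * 1) := by gcongr
  have h8 : (2 * T - T) * (N * P * E) = T * N * P * E := by ring
  rw [h8]
  linarith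

end Pool.Agent.Helper156_SM
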