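import Pool.Agent.Helper156_SM.KB
import Pool.Agent.Helper156_EK.FinC

set_option autoImplicit false

/-!
# Pointwise bounds from a small error term
-/

open MeasureTheory Set Filter

namespace Pool.Agent.Helper156_SM

open Pool.Agent.Helper156_EK
open Pool.Agent.W188.QS Pool.Agent.W188.GP

/-- The integral of the shifted product. -/
noncomputable def SM (k : ℕ) (s : ℂ) (T t : ℝ) : ℂ := ∫ v in T..t, zk k s v

/-- On `[T, 2 T]` the integral of the shifted product is within `T ^ θ` of a slowly varying function. -/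
def Close (k : ℕ) (s : ℂ) (T θ δ : ℝ) : Prop :=
  ∃ M M' M'' : ℝ → ℂ, (∀ t ∈ Icc T (2 * T), HasDerivAt M (M' t) t) ∧
    (∀ t ∈ Icc T (2 * T), HasDerivAt M' (M'' t) t) ∧ ContinuousOn M'' (Icc T (2 * T)) ∧
    (∀ t ∈ Icc T (2 * T), ‖M' t‖ ≤ T ^ δ) ∧ (∀ t ∈ Icc T (2 * T), ‖M'' t‖ ≤ T ^ (δ - 1)) ∧
    ∀ t ∈ Icc T (2 * T), ‖SM k s T t - M t‖ ≤ T ^ θ

theorem zk_half (k : ℕ) (t : ℝ) : zk k (1 / 2) t = (fk k t : ℂ) := by
  unfold zk
  have h1 : (1 / 2 : ℂ) - t * Complex.I = (starRingEnd ℂ) (1 / 2 + t * Complex.I) := by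
    rw [map_add, map_mul, Complex.conj_I, Complex.conj_ofReal, map_div₀, map_one, Complex.conj_ofNat]
    ring
  rw [h1, riemannZeta_conj, ← map_pow, Complex.mul_conj, Complex.normSq_eq_norm_sq, norm_pow]
  unfold fk
  rw [← pow_mul, mul_comm k 2]

theorem lh {k : ℕ} (hk : 1 ≤ k) : ∃ C T₀ : ℝ, 0 < C ∧ 1 ≤ T₀ ∧ ∀ T θ δ : ℝ, T₀ ≤ T → 0 ≤ θ → 0 ≤ δ →
    Close k (1 / 2) T θ δ → ∀ v ∈ Icc (T + T / 100) (2 * T - T / 100),
    fk k v ≤ C * Real.log T ^ 2 * (T ^ θ + T ^ δ) := by
  obtain ⟨C, T₀, hC, hT₀, hfl⟩ := floc hk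
  have hlog : ∀ᶠ T : ℝ in atTop, 2 * Real.log T ≤ T / 100 := by
    have h1 := (isLittleO_log_rpow_rpow_atTop 1 (by norm_num : (0 : ℝ) < 1)).bound
      (by norm_num : (0 : ℝ) < 1 / 200)
    filter_upwards [h1, eventually_ge_atTop 1] with T h2 h3
    rw [Real.rpow_one, Real.rpow_one, Real.norm_of_nonneg (Real.log_nonneg (by linarith)),
      Real.norm_of_nonneg (by linarith)] at h2
    linarith
  obtain ⟨T1, hT1⟩ := eventually_atTop.1 hlog
  refine ⟨7 * C, max T₀ (max T1 3), by positivity, hT₀.trans (le_max_left _ _), fun T θ δ hT hθ hδ hcl v hv => ?_⟩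
  have hTa : T₀ ≤ T := (le_max_left _ _).trans hT
  have hTb := hT1 T (((le_max_left _ _).trans (le_max_right _ _)).trans hT)
  have hT3 : 3 ≤ T := ((le_max_right _ _).trans (le_max_right _ _)).trans hT
  set L := Real.log T with hL
  have hL1 : 1 ≤ L := by
    rw [hL, Real.le_log_iff_exp_le (by linarith)]
    linarith [Real.exp_one_lt_d9]
  obtain ⟨M, M', M'', hM, hM', hM'', hb1, hb2, hE⟩ := hcl
  have hfc := fk_cont k
  set a := v - 2 * L with ha
  set b := v + 2 * L with hb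
  have hav : a ∈ Icc T (2 * T) := ⟨by rw [ha]; linarith [hv.1], by rw [ha]; linarith [hv.2]⟩
  have hbv : b ∈ Icc T (2 * T) := ⟨by rw [hb]; linarith [hv.1], by rw [hb]; linarith [hv.2]⟩
  have hab : a ≤ b := by rw [ha, hb]; linarith
  -- the integral over the window
  have hI : ∫ u in a..b, fk k u ≤ 2 * T ^ θ + T ^ δ * (4 * L) := by
    have h1 : ((∫ u in a..b, fk k u : ℝ) : ℂ) = SM k (1 / 2) T b - SM k (1 / 2) T a := by
      unfold SM
      have h2 : ∀ c, ∫ v in T..c, zk k (1 / 2) v = ((∫ v in T..c, fk k v : ℝ) : ℂ) := by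
        intro c
        rw [← intervalIntegral.integral_ofReal]
        congr 1
        funext v
        exact zk_half k v
      rw [h2, h2, ← Complex.ofReal_sub]
      congr 1
      rw [intervalIntegral.integral_interval_sub_left (hfc.intervalIntegrable _ _) (hfc.intervalIntegrable _ _)]
    have h3 : ∫ u in a..b, fk k u ≤ ‖SM k (1 / 2) T b - SM k (1 / 2) T a‖ := by
      rw [← h1, Complex.norm_real]; exact le_abs_self _
    have h4 : ‖M b - M a‖ ≤ T ^ δ * (b - a) := by
      have := norm_image_sub_le_of_norm_deriv_le_segment' (f := M) (f' := M') (a := a) (b := b) (C := T ^ δ)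
        (fun x hx => (hM x ⟨hav.1.trans hx.1, hx.2.trans hbv.2⟩).hasDerivWithinAt)
        (fun x hx => hb1 x ⟨hav.1.trans hx.1, hx.2.le.trans hbv.2⟩) b ⟨hab, le_rfl⟩
      exact this
    have h5 : b - a = 4 * L := by rw [ha, hb]; ring
    rw [h5] at h4
    have h6 := hE a hav
    have h7 := hE b hbv
    have h8 : SM k (1 / 2) T b - SM k (1 / 2) T a = (SM k (1 / 2) T b - M b) - (SM k (1 / 2) T a - M a) + (M b - M a) := by
      ring
    rw [h8] at h3
    have h9 := norm_add_le ((SM k (1 / 2) T b - M b) - (SM k (1 / 2) T a - M a)) (M b - M a)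
    have h10 := norm_sub_le (SM k (1 / 2) T b - M b) (SM k (1 / 2) T a - M a)
    linarith
  have h1 := hfl T v hTa (by linarith [hv.1]) (by linarith [hv.2])
  have h2 : ∫ u in a..b, fk k u * (L / (1 + L * |u - v|) ^ 2) ≤ ∫ u in a..b, fk k u * L := by
    apply intervalIntegral.integral_mono_on hab
    · apply Continuous.intervalIntegrable
      apply hfc.mul
      apply Continuous.div continuous_const (by fun_prop)
      intro u
      positivity
    · exact (hfc.mul continuous_const).intervalIntegrable _ _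
    intro u _
    apply mul_le_mul_of_nonneg_left _ (fk_nonneg k u)
    apply div_le_self (by linarith)
    have : 0 ≤ L * |u - v| := by positivity
    nlinarith
  rw [intervalIntegral.integral_mul_const] at h2
  have hTθ : 1 ≤ T ^ θ := Real.one_le_rpow (by linarith) hθ
  have hTδ : 1 ≤ T ^ δ := Real.one_le_rpow (by linarith) hδ
  have h3 : (∫ u in a..b, fk k u) * L ≤ (2 * T ^ θ + T ^ δ * (4 * L)) * L := by gcongr
  calc fk k v ≤ C * ((∫ u in a..b, fk k u * (L / (1 + L * |u - v|) ^ 2)) + 1) := h1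
    _ ≤ C * ((2 * T ^ θ + T ^ δ * (4 * L)) * L + 1) := by gcongr; linarith
    _ ≤ C * (7 * (L ^ 2 * (T ^ θ + T ^ δ))) := by
        gcongr
        nlinarith [mul_nonneg (by linarith : (0:ℝ) ≤ L - 1) (by linarith : (0:ℝ) ≤ L), mul_pos (by linarith : (0:ℝ) < L) (by linarith : (0:ℝ) < L), mul_le_mul_of_nonneg_left hTθ (by positivity : 0 ≤ L ^ 2), mul_le_mul_of_nonneg_left hTδ (by positivity : 0 ≤ L ^ 2)]
    _ = 7 * C * L ^ 2 * (T ^ θ + T ^ δ) := by ring

end Pool.Agent.Helper156_SM
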