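import Pool.Agent.Helper156_EK.Disc
import Pool.Agent.Helper156_SM.Gauss

set_option autoImplicit false

/-!
# Mean values of sums with the frequencies `log ((n + 1) / n)`
-/

open MeasureTheory Set Filter

namespace Pool.Agent.Helper156_SM

open Pool.Agent.Helper156_EK (wt wt_pos wt_sum)

/-- The frequencies. -/
noncomputable def om (n : ℕ) : ℝ := Real.log ((n + 1 : ℝ) / n)

/-- The sums. -/
noncomputable def Dp (c : ℕ → ℂ) (N : ℕ) (t : ℝ) : ℂ :=
  ∑ n ∈ Finset.Ico N (2 * N), c n * Complex.exp ((om n * t : ℝ) * Complex.I)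

theorem Dp_cont (c : ℕ → ℂ) (N : ℕ) : Continuous (Dp c N) := by unfold Dp; fun_prop

theorem om_lower {n : ℕ} (hn : 1 ≤ n) : 1 / ((n : ℝ) + 1) ≤ om n := by
  have h0 : (1 : ℝ) ≤ n := by exact_mod_cast hn
  unfold om
  have h1 := Real.one_sub_inv_le_log_of_pos (x := ((n : ℝ) + 1) / n) (by positivity)
  refine le_trans (le_of_eq ?_) h1
  field_simp
  ring

theorem om_upper {n : ℕ} (hn : 1 ≤ n) : om n ≤ 1 / (n : ℝ) := by
  have h0 : (1 : ℝ) ≤ n := by exact_mod_cast hn
  unfold om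
  have h1 := Real.log_le_sub_one_of_pos (x := ((n : ℝ) + 1) / n) (by positivity)
  refine h1.trans (le_of_eq ?_)
  field_simp
  ring

theorem om_pos {n : ℕ} (hn : 1 ≤ n) : 0 < om n := lt_of_lt_of_le (by positivity) (om_lower hn)

theorem om_sep {N n m : ℕ} (hN : 1 ≤ N) (hn : n ∈ Finset.Ico N (2 * N)) (hm : m ∈ Finset.Ico N (2 * N))
    (h : n < m) : ((m : ℝ) - n) / (4 * (N : ℝ) ^ 2) ≤ om n - om m := by
  rw [Finset.mem_Ico] at hn hm
  have h0 : (1 : ℝ) ≤ n := by exact_mod_cast (by omega : 1 ≤ n)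
  have h1 : (1 : ℝ) ≤ m := by exact_mod_cast (by omega : 1 ≤ m)
  have h2 : (n : ℝ) + 1 ≤ 2 * N := by exact_mod_cast (by omega : n + 1 ≤ 2 * N)
  have h3 : (m : ℝ) ≤ 2 * N := by exact_mod_cast (by omega : m ≤ 2 * N)
  have h4 : (n : ℝ) < m := by exact_mod_cast h
  have hN' : (1 : ℝ) ≤ N := by exact_mod_cast hN
  unfold om
  rw [← Real.log_div (by positivity) (by positivity)]
  have h5 := Real.one_sub_inv_le_log_of_pos (x := ((n : ℝ) + 1) / n / (((m : ℝ) + 1) / m)) (by positivity)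
  refine le_trans ?_ h5
  have e : 1 - (((n : ℝ) + 1) / n / (((m : ℝ) + 1) / m))⁻¹ = ((m : ℝ) - n) / (((n : ℝ) + 1) * m) := by
    field_simp
    ring
  rw [e]
  apply div_le_div_of_nonneg_left (by linarith) (by positivity)
  nlinarith

theorem om_sep_abs {N n m : ℕ} (hN : 1 ≤ N) (hn : n ∈ Finset.Ico N (2 * N)) (hm : m ∈ Finset.Ico N (2 * N)) :
    |(m : ℝ) - n| / (4 * (N : ℝ) ^ 2) ≤ |om n - om m| := by
  rcases lt_trichotomy n m with h | h | h
  · have := om_sep hN hn hm h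
    have h4 : (n : ℝ) < m := by exact_mod_cast h
    rw [abs_of_pos (by linarith : 0 < (m : ℝ) - n)]
    exact this.trans (le_abs_self _)
  · subst h; simp
  · have := om_sep hN hm hn h
    have h4 : (m : ℝ) < n := by exact_mod_cast h
    rw [abs_of_neg (by linarith : (m : ℝ) - n < 0), abs_sub_comm]
    refine le_trans (le_of_eq ?_) (this.trans (le_abs_self _))
    ring

theorem exp_le_wt {x : ℝ} : Real.exp (-(x ^ 2 / 64)) ≤ 64 / (1 + x ^ 2) := by
  rw [Real.exp_neg, inv_le_comm₀ (Real.exp_pos _) (by positivity), inv_div]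
  have := Real.add_one_le_exp (x ^ 2 / 64)
  refine le_trans ?_ this
  rw [div_le_iff₀ (by norm_num)]
  nlinarith [sq_nonneg x]

theorem mean_sq {c : ℕ → ℂ} {N : ℕ} {T B : ℝ} (hN : 1 ≤ N) (hT : (N : ℝ) ^ 2 ≤ T) (hB : 0 ≤ B)
    (hc : ∀ n ∈ Finset.Ico N (2 * N), ‖c n‖ ≤ B) :
    ∫ t in T..(2 * T), ‖Dp c N t‖ ^ 2 ≤ 2048 * T * N * B ^ 2 := by
  have hN' : (1 : ℝ) ≤ N := by exact_mod_cast hN
  have hT0 : 0 < T := by nlinarith
  have hDc := Dp_cont c N
  have hgc := gw_cont T T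
  set S := Finset.Ico N (2 * N) with hS
  have hint : ∀ ξ : ℝ, Integrable fun t : ℝ => (gw T T t : ℂ) * Complex.exp ((ξ * t : ℝ) * Complex.I) := by
    intro ξ
    refine (gauss_integrable hT0 (3 * T / 2)).mono' ?_ (Eventually.of_forall fun t => ?_)
    · exact (by fun_prop : Continuous fun t : ℝ => (gw T T t : ℂ) * Complex.exp ((ξ * t : ℝ) * Complex.I)).aestronglyMeasurable
    · rw [norm_mul, Complex.norm_exp_ofReal_mul_I, mul_one, Complex.norm_real,
        Real.norm_of_nonneg (gw_pos _ _ _).le]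
      exact le_rfl
  have hexp : ∀ t : ℝ, ((gw T T t * ‖Dp c N t‖ ^ 2 : ℝ) : ℂ) = ∑ n ∈ S, ∑ m ∈ S,
      (c n * (starRingEnd ℂ) (c m)) * ((gw T T t : ℂ) * Complex.exp (((om n - om m) * t : ℝ) * Complex.I)) := by
    intro t
    rw [Complex.ofReal_mul]
    have h1 : ((‖Dp c N t‖ ^ 2 : ℝ) : ℂ) = Dp c N t * (starRingEnd ℂ) (Dp c N t) := by
      rw [Complex.mul_conj, Complex.normSq_eq_norm_sq]
    rw [h1]
    unfold Dp
    rw [map_sum, Finset.sum_mul_sum, Finset.mul_sum]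
    refine Finset.sum_congr rfl fun n _ => ?_
    rw [Finset.mul_sum]
    refine Finset.sum_congr rfl fun m _ => ?_
    rw [map_mul, ← Complex.exp_conj]
    have h2 : Complex.exp ((om n * t : ℝ) * Complex.I) * Complex.exp ((starRingEnd ℂ) ((om m * t : ℝ) * Complex.I)) =
        Complex.exp (((om n - om m) * t : ℝ) * Complex.I) := by
      rw [← Complex.exp_add]
      congr 1
      rw [map_mul, Complex.conj_I, Complex.conj_ofReal]
      push_cast
      ring
    rw [← h2]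
    ring
  have hI : ∫ t : ℝ, gw T T t * ‖Dp c N t‖ ^ 2 ≤ ∑ n ∈ S, ∑ m ∈ S, B ^ 2 *
      (2 * T * Real.exp (-((om n - om m) ^ 2 * T ^ 2 / 4))) := by
    have h1 : ((∫ t : ℝ, gw T T t * ‖Dp c N t‖ ^ 2 : ℝ) : ℂ) = ∑ n ∈ S, ∑ m ∈ S,
      (c n * (starRingEnd ℂ) (c m)) * ∫ t : ℝ, ((gw T T t : ℂ) * Complex.exp (((om n - om m) * t : ℝ) * Complex.I)) := by
      rw [← integral_complex_ofReal]
      simp_rw [hexp]
      rw [integral_finsetSum]
      · refine Finset.sum_congr rfl fun n _ => ?_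
        rw [integral_finsetSum]
        · refine Finset.sum_congr rfl fun m _ => ?_
          rw [integral_const_mul]
        · intro m _
          exact (hint _).const_mul _
      · intro n _
        refine integrable_finsetSum _ fun m _ => (hint _).const_mul _
    have h2 : ∫ t : ℝ, gw T T t * ‖Dp c N t‖ ^ 2 ≤ ‖((∫ t : ℝ, gw T T t * ‖Dp c N t‖ ^ 2 : ℝ) : ℂ)‖ := by
      rw [Complex.norm_real]; exact le_abs_self _
    refine h2.trans ?_
    rw [h1]
    refine (norm_sum_le _ _).trans (Finset.sum_le_sum fun n hn => ?_)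
    refine (norm_sum_le _ _).trans (Finset.sum_le_sum fun m hm => ?_)
    rw [norm_mul, norm_mul, RCLike.norm_conj]
    apply mul_le_mul ?_ (line hT0) (norm_nonneg _) (by positivity)
    rw [sq]
    exact mul_le_mul (hc n hn) (hc m hm) (norm_nonneg _) hB
  have hterm : ∀ n ∈ S, ∑ m ∈ S, B ^ 2 * (2 * T * Real.exp (-((om n - om m) ^ 2 * T ^ 2 / 4))) ≤
      B ^ 2 * (2 * T * 512) := by
    intro n hn
    rw [← Finset.mul_sum, ← Finset.mul_sum]
    have h1 : ∑ m ∈ S, Real.exp (-((om n - om m) ^ 2 * T ^ 2 / 4)) ≤ ∑ m ∈ S, 64 * wt m n := by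
      refine Finset.sum_le_sum fun m hm => ?_
      have h2 := om_sep_abs hN hn hm
      have h3 : |(m : ℝ) - n| / 4 ≤ |om n - om m| * T := by
        calc |(m : ℝ) - n| / 4 = |(m : ℝ) - n| / (4 * (N : ℝ) ^ 2) * (N : ℝ) ^ 2 := by field_simp
          _ ≤ |om n - om m| * T := by gcongr
      have h4 : ((m : ℝ) - n) ^ 2 / 16 ≤ (om n - om m) ^ 2 * T ^ 2 := by
        have := pow_le_pow_left₀ (by positivity) h3 2
        rw [div_pow, mul_pow, sq_abs, sq_abs] at this
        linarith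
      refine le_trans (Real.exp_le_exp.2 ?_) (le_trans (exp_le_wt (x := (m : ℝ) - n)) (le_of_eq ?_))
      · linarith
      · unfold wt; ring
    have h2 : ∑ m ∈ S, 64 * wt m n ≤ 512 := by
      rw [← Finset.mul_sum]
      have h3 : ∑ m ∈ S, wt m n ≤ ∑ m ∈ Finset.range (2 * N), wt m n := by
        refine Finset.sum_le_sum_of_subset_of_nonneg ?_ fun m _ _ => (wt_pos m n).le
        intro x hx
        rw [hS, Finset.mem_Ico] at hx
        exact Finset.mem_range.2 hx.2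
      have := wt_sum n (2 * N)
      linarith
    have h3 := h1.trans h2
    gcongr
  have hfin : ∫ t : ℝ, gw T T t * ‖Dp c N t‖ ^ 2 ≤ N * (B ^ 2 * (2 * T * 512)) := by
    refine hI.trans ((Finset.sum_le_sum hterm).trans (le_of_eq ?_))
    rw [Finset.sum_const, hS, Nat.card_Ico, nsmul_eq_mul]
    congr 2
    omega
  have hgi : Integrable fun t : ℝ => gw T T t * ‖Dp c N t‖ ^ 2 := by
    have hbd : ∀ t : ℝ, ‖Dp c N t‖ ≤ ∑ n ∈ S, ‖c n‖ := by
      intro t
      refine (norm_sum_le _ _).trans (Finset.sum_le_sum fun n _ => ?_)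
      rw [norm_mul, Complex.norm_exp_ofReal_mul_I, mul_one]
    refine ((gauss_integrable hT0 (3 * T / 2)).mul_const ((∑ n ∈ S, ‖c n‖) ^ 2)).mono' ?_ (Eventually.of_forall fun t => ?_)
    · exact (by fun_prop : Continuous fun t : ℝ => gw T T t * ‖Dp c N t‖ ^ 2).aestronglyMeasurable
    · rw [norm_mul, Real.norm_of_nonneg (gw_pos _ _ _).le, norm_pow, norm_norm]
      have := hbd t
      unfold gw
      gcongr
  have h1 : ∫ t in T..(2 * T), ‖Dp c N t‖ ^ 2 ≤ ∫ t in T..(2 * T), 2 * (gw T T t * ‖Dp c N t‖ ^ 2) := by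
    apply intervalIntegral.integral_mono_on (by linarith)
    · exact (by fun_prop : Continuous fun t : ℝ => ‖Dp c N t‖ ^ 2).intervalIntegrable _ _
    · exact (by fun_prop : Continuous fun t : ℝ => 2 * (gw T T t * ‖Dp c N t‖ ^ 2)).intervalIntegrable _ _
    intro t ht
    have h2 : 1 / 2 ≤ gw T T t := by
      unfold gw
      have h3 : ((t - 3 * T / 2) / T) ^ 2 ≤ 1 / 4 := by
        rw [div_pow, div_le_iff₀ (by positivity)]
        have h4 : |t - 3 * T / 2| ≤ T / 2 := abs_le.2 ⟨by linarith [ht.1], by linarith [ht.2]⟩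
        have := pow_le_pow_left₀ (abs_nonneg _) h4 2
        rw [sq_abs] at this
        linarith
      have h5 := Real.add_one_le_exp (-((t - 3 * T / 2) / T) ^ 2)
      linarith
    nlinarith [sq_nonneg ‖Dp c N t‖]
  have h2 : ∫ t in T..(2 * T), gw T T t * ‖Dp c N t‖ ^ 2 ≤ ∫ t : ℝ, gw T T t * ‖Dp c N t‖ ^ 2 := by
    rw [intervalIntegral.integral_of_le (by linarith)]
    exact setIntegral_le_integral hgi (Eventually.of_forall fun t => mul_nonneg (gw_pos _ _ _).le (sq_nonneg _))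
  rw [intervalIntegral.integral_const_mul] at h1
  nlinarith

theorem mean_one {c : ℕ → ℂ} {N : ℕ} {T B : ℝ} (hN : 1 ≤ N) (hT : (N : ℝ) ^ 2 ≤ T) (hB : 0 < B)
    (hc : ∀ n ∈ Finset.Ico N (2 * N), ‖c n‖ ≤ B) :
    ∫ t in T..(2 * T), ‖Dp c N t‖ ≤ 46 * T * Real.sqrt N * B := by
  have hN' : (1 : ℝ) ≤ N := by exact_mod_cast hN
  have hT0 : 0 < T := by nlinarith
  have hDc := Dp_cont c N
  have hs : 0 < Real.sqrt N := Real.sqrt_pos.2 (by linarith)
  have hs2 : Real.sqrt N ^ 2 = N := Real.sq_sqrt (by linarith)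
  set l := 46 * Real.sqrt N * B with hl
  have hl0 : 0 < l := by positivity
  have h1 : ∫ t in T..(2 * T), ‖Dp c N t‖ ≤ ∫ t in T..(2 * T), (l / 2 + 1 / (2 * l) * ‖Dp c N t‖ ^ 2) := by
    apply intervalIntegral.integral_mono_on (by linarith)
    · exact (by fun_prop : Continuous fun t : ℝ => ‖Dp c N t‖).intervalIntegrable _ _
    · exact (by fun_prop : Continuous fun t : ℝ => l / 2 + 1 / (2 * l) * ‖Dp c N t‖ ^ 2).intervalIntegrable _ _
    intro t _
    have h2 : 0 ≤ (l - ‖Dp c N t‖) ^ 2 / (2 * l) := by positivity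
    have h3 : (l - ‖Dp c N t‖) ^ 2 / (2 * l) = l / 2 + 1 / (2 * l) * ‖Dp c N t‖ ^ 2 - ‖Dp c N t‖ := by
      field_simp
      ring
    linarith
  rw [intervalIntegral.integral_add intervalIntegrable_const
    ((by fun_prop : Continuous fun t : ℝ => 1 / (2 * l) * ‖Dp c N t‖ ^ 2).intervalIntegrable _ _),
    intervalIntegral.integral_const, intervalIntegral.integral_const_mul] at h1
  have h2 := mean_sq hN hT hB.le hc
  have h3 : 1 / (2 * l) * ∫ t in T..(2 * T), ‖Dp c N t‖ ^ 2 ≤ 1 / (2 * l) * (2048 * T * N * B ^ 2) := by gcongr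
  have h4 : 1 / (2 * l) * (2048 * T * N * B ^ 2) = 2048 / 92 * T * Real.sqrt N * B := by
    rw [hl, ← hs2]
    simp only [hs2]
    field_simp
    norm_num
    ring
  simp only [smul_eq_mul] at h1
  have h5 : (2 * T - T) * (l / 2) = 23 * T * Real.sqrt N * B := by rw [hl]; ring
  have h6 : 0 < T * Real.sqrt N * B := by positivity
  rw [h4] at h3
  rw [h5] at h1
  nlinarith

end Pool.Agent.Helper156_SM
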