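import Pool.Agent.Helper156_SM.Remez
import Pool.Agent.Helper156_SM.LH
import Pool.Agent.Helper156_SM.Asym

set_option autoImplicit false

/-!
# Good shifts near `0` control the moments on short intervals
-/

open MeasureTheory Set Filter

namespace Pool.Agent.Helper156_SM

open Pool.Agent.Helper156_EK

theorem zkint_diff (k : ℕ) {T a b : ℝ} (hT : 0 < T) (ha : T ≤ a) (hab : a ≤ b) (hb : b ≤ 2 * T) :
    DifferentiableOn ℂ (fun s : ℂ => ∫ t in a..b, zk k s t) {s : ℂ | |s.im| < T} := by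
  have hU : IsOpen {s : ℂ | |s.im| < T} := isOpen_lt (Complex.continuous_im.abs) continuous_const
  have hz : ∀ (σ : ℝ), (σ = 1 ∨ σ = -1) → ContinuousOn (fun q : ℂ × ℝ => riemannZeta (q.1 + σ * q.2 * Complex.I) ^ k)
      ({s : ℂ | |s.im| < T} ×ˢ Icc a b) := by
    intro σ hσ q hq
    obtain ⟨h1, h2⟩ := hq
    change |q.1.im| < T at h1
    have h3 := abs_lt.1 h1
    have hne : q.1 + σ * q.2 * Complex.I ≠ 1 := by
      apply ne_one_of_im
      rcases hσ with rfl | rfl
      · simp; linarith [h2.1]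
      · simp; linarith [h2.1]
    have h4 : ContinuousAt riemannZeta (q.1 + σ * q.2 * Complex.I) := (differentiableAt_riemannZeta hne).continuousAt
    have h5 : ContinuousAt (fun q : ℂ × ℝ => q.1 + σ * q.2 * Complex.I) q := by fun_prop
    exact ((ContinuousAt.comp (f := fun q : ℂ × ℝ => q.1 + σ * q.2 * Complex.I) h4 h5).pow k).continuousWithinAt
  have hc : ContinuousOn (fun q : ℂ × ℝ => zk k q.1 q.2) ({s : ℂ | |s.im| < T} ×ˢ Icc a b) := by
    unfold zk
    have h1 := hz 1 (Or.inl rfl)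
    have h2 := hz (-1) (Or.inr rfl)
    refine (h1.mul h2).congr fun q _ => ?_
    simp only [Pi.mul_apply, Complex.ofReal_one, one_mul, Complex.ofReal_neg, neg_mul, sub_eq_add_neg]
  have hd : ∀ t ∈ Icc a b, DifferentiableOn ℂ (fun s : ℂ => zk k s t) {s : ℂ | |s.im| < T} := by
    intro t ht s hs
    change |s.im| < T at hs
    have h3 := abs_lt.1 hs
    have hne1 : s + t * Complex.I ≠ 1 := by
      apply ne_one_of_im
      simp; linarith [ht.1]
    have hne2 : s - t * Complex.I ≠ 1 := by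
      apply ne_one_of_im
      simp; linarith [ht.1]
    unfold zk
    have h4 : DifferentiableAt ℂ (fun s : ℂ => riemannZeta (s + t * Complex.I)) s :=
      DifferentiableAt.comp s (f := fun s : ℂ => s + t * Complex.I) (differentiableAt_riemannZeta hne1) (by fun_prop)
    have h5 : DifferentiableAt ℂ (fun s : ℂ => riemannZeta (s - t * Complex.I)) s :=
      DifferentiableAt.comp s (f := fun s : ℂ => s - t * Complex.I) (differentiableAt_riemannZeta hne2) (by fun_prop)
    exact ((h4.pow k).mul (h5.pow k)).differentiableWithinAt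
  have h := Pool.Agent.Y813.RL.differentiableOn_setIntegral (volume : Measure ℝ) isCompact_Icc measurableSet_Icc
    (by rw [Real.volume_Icc]; exact ENNReal.ofReal_lt_top) hU hc hd
  refine h.congr fun s _ => ?_
  rw [intervalIntegral.integral_of_le hab, integral_Icc_eq_integral_Ioc]

/-- a short interval integral from the closeness -/
theorem int_of_close {k : ℕ} {s : ℂ} {T θ δ a b : ℝ} (hs : |s.im| < T) (hcl : Close k s T θ δ) (ha : T ≤ a)
    (hab : a ≤ b) (hb : b ≤ 2 * T) : ‖∫ t in a..b, zk k s t‖ ≤ 2 * T ^ θ + (b - a) * T ^ δ := by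
  obtain ⟨M, M', M'', hM, hM', hM'', hb1, hb2, hE⟩ := hcl
  have hav : a ∈ Icc T (2 * T) := ⟨ha, hab.trans hb⟩
  have hbv : b ∈ Icc T (2 * T) := ⟨ha.trans hab, hb⟩
  have hzc := zk_contOn k s hs
  have h1 : ∫ t in a..b, zk k s t = SM k s T b - SM k s T a := by
    unfold SM
    rw [intervalIntegral.integral_interval_sub_left]
    · apply ContinuousOn.intervalIntegrable
      apply hzc.mono
      rw [uIcc_of_le (by linarith)]
      exact Icc_subset_Icc le_rfl hb
    · apply ContinuousOn.intervalIntegrable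
      apply hzc.mono
      rw [uIcc_of_le (by linarith)]
      exact Icc_subset_Icc le_rfl (by linarith)
  have h4 : ‖M b - M a‖ ≤ T ^ δ * (b - a) := by
    have := norm_image_sub_le_of_norm_deriv_le_segment' (f := M) (f' := M') (a := a) (b := b) (C := T ^ δ)
      (fun x hx => (hM x ⟨hav.1.trans hx.1, hx.2.trans hbv.2⟩).hasDerivWithinAt)
      (fun x hx => hb1 x ⟨hav.1.trans hx.1, hx.2.le.trans hbv.2⟩) b ⟨hab, le_rfl⟩
    exact this
  have h6 := hE a hav
  have h7 := hE b hbv
  have h8 : SM k s T b - SM k s T a = (SM k s T b - M b) - (SM k s T a - M a) + (M b - M a) := by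
    ring
  rw [h1, h8]
  have h9 := norm_add_le ((SM k s T b - M b) - (SM k s T a - M a)) (M b - M a)
  have h10 := norm_sub_le (SM k s T b - M b) (SM k s T a - M a)
  linarith

theorem zkint_half (k : ℕ) (a b : ℝ) : ∫ t in a..b, zk k (1 / 2) t = ((∫ t in a..b, fk k t : ℝ) : ℂ) := by
  rw [← intervalIntegral.integral_ofReal]
  congr 1
  funext v
  exact zk_half k v

/-- Good shifts near `0`, in positive proportion, control the moments on short intervals. -/
theorem near_int (k : ℕ) {κ ε : ℝ} (hκ : 0 < κ) (hκ2 : κ ≤ 2) (hε : 0 < ε) : ∃ r0 : ℝ, 0 < r0 ∧ r0 ≤ 1 / 4 ∧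
    ∀ᶠ T : ℝ in atTop, ∀ r θ δ : ℝ, 0 < r → r ≤ r0 →
      ENNReal.ofReal (κ * r) ≤ volume {u : ℝ | |u| ≤ r ∧ Close k (1 / 2 + u * Complex.I) T θ δ} →
      ∀ a b : ℝ, T ≤ a → a ≤ b → b ≤ 2 * T → ∫ t in a..b, fk k t ≤ T ^ ε * (2 * T ^ θ + (b - a) * T ^ δ) + 1 := by
  obtain ⟨C, B, hC, hB, hcr⟩ := zk_crude k
  set Q := 2 * Real.exp 1 / κ with hQ
  have hQe : Real.exp 1 ≤ Q := by
    rw [hQ, le_div_iff₀ hκ]
    have := Real.exp_pos 1
    nlinarith
  have hQ1 : 1 < Q := lt_of_lt_of_le (by have := Real.exp_one_gt_d9; linarith) hQe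
  have hQ0 : 0 < Q := by linarith
  have hlQ : 0 < Real.log Q := Real.log_pos hQ1
  set lam := ε / (2 * Real.log Q) with hlam
  have hlam0 : 0 < lam := by positivity
  set x := Real.exp (-((B + 2) / lam)) with hx
  have hx0 : 0 < x := Real.exp_pos _
  have hx1 : x ≤ 1 := by
    rw [hx, Real.exp_le_one_iff]
    have : 0 ≤ (B + 2) / lam := by positivity
    linarith
  set r0 := x / (2 * Q) with hr0
  have hr00 : 0 < r0 := by positivity
  have hr04 : r0 ≤ 1 / 4 := by
    rw [hr0, div_le_iff₀ (by positivity)]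
    have := Real.exp_one_gt_d9
    nlinarith
  have ev1 := ev_pow Q (a := ε / 2) (b := ε) (by linarith)
  have ev2 := ev_pow (2 * C) (a := -1) (b := 0) (by norm_num)
  refine ⟨r0, hr00, hr04, ?_⟩
  filter_upwards [ev1, ev2, eventually_gt_atTop 1] with T e1 e2 hT r θ δ hr hrr hvol a b ha hab hb
  have hT0 : 0 < T := by linarith
  set Φ : ℂ → ℂ := fun z => ∫ t in a..b, zk k (1 / 2 + z * Complex.I) t with hΦ
  set A := 2 * T ^ θ + (b - a) * T ^ δ with hA
  have hA0 : 0 ≤ A := by
    have : 0 ≤ b - a := by linarith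
    positivity
  set n := ⌈lam * Real.log T⌉₊ with hn
  have hlT : 0 < Real.log T := Real.log_pos hT
  have hn0 : 0 < lam * Real.log T := by positivity
  have hn1 : 1 ≤ n := by
    rw [hn]
    exact Nat.one_le_iff_ne_zero.2 (Nat.ceil_pos.2 hn0).ne'
  have hn2 : lam * Real.log T ≤ n := Nat.le_ceil _
  have hn3 : (n : ℝ) ≤ lam * Real.log T + 1 := (Nat.ceil_lt_add_one hn0.le).le
  have hre : ∀ z : ℂ, ‖z‖ ≤ 1 / 2 → 0 ≤ (1 / 2 + z * Complex.I).re ∧ (1 / 2 + z * Complex.I).re ≤ 3 ∧
      |(1 / 2 + z * Complex.I).im| ≤ T / 2 := by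
    intro z hz
    have h1 := (Complex.abs_im_le_norm z).trans hz
    have h2 := (Complex.abs_re_le_norm z).trans hz
    have h3 := abs_le.1 h1
    have e3 : (1 / 2 + z * Complex.I).re = 1 / 2 - z.im := by simp; ring
    have e4 : (1 / 2 + z * Complex.I).im = z.re := by simp
    rw [e3, e4]
    refine ⟨by linarith, by linarith, by linarith⟩
  have hdiff : DifferentiableOn ℂ Φ (Metric.closedBall 0 (1 / 2)) := by
    have h1 := zkint_diff k hT0 ha hab hb
    have h2 : MapsTo (fun z : ℂ => 1 / 2 + z * Complex.I) (Metric.closedBall 0 (1 / 2)) {s : ℂ | |s.im| < T} := by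
      intro z hz
      rw [mem_closedBall_zero_iff] at hz
      have := (hre z hz).2.2
      change |(1 / 2 + z * Complex.I).im| < T
      linarith
    exact h1.comp (by fun_prop) h2
  have hM : ∀ z : ℂ, ‖z‖ ≤ 1 / 2 → ‖Φ z‖ ≤ C * T ^ (B + 1) := by
    intro z hz
    obtain ⟨h1, h2, h3⟩ := hre z hz
    rw [hΦ]
    simp only
    have h4 := intervalIntegral.norm_integral_le_of_norm_le_const (a := a) (b := b) (C := C * T ^ B)
      (f := fun t => zk k (1 / 2 + z * Complex.I) t) (fun t ht => by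
        rw [uIoc_of_le hab] at ht
        exact hcr T t hT.le ⟨ha.trans ht.1.le, ht.2.trans hb⟩ _ h1 h2 h3)
    rw [abs_of_nonneg (by linarith)] at h4
    refine h4.trans ?_
    have h5 : b - a ≤ T := by linarith
    calc C * T ^ B * (b - a) ≤ C * T ^ B * T := by gcongr
      _ = C * T ^ (B + 1) := by rw [Real.rpow_add hT0, Real.rpow_one]; ring
  set E : Set ℝ := {u : ℝ | |u| ≤ r ∧ Close k (1 / 2 + u * Complex.I) T θ δ} with hE
  have hEA : ∀ u ∈ E, ‖Φ u‖ ≤ A := by
    intro u hu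
    refine int_of_close ?_ hu.2 ha hab hb
    have e4 : (1 / 2 + (u : ℂ) * Complex.I).im = u := by simp
    rw [e4]
    have := hu.1
    linarith
  have hmain := remez (by norm_num : (0 : ℝ) < 1 / 2) hdiff hM hr (by linarith) hκ hκ2 (fun u hu => hu.1) hvol hA0 hEA n hn1
  rw [← hQ] at hmain
  have h0 : ∫ t in a..b, fk k t = ‖Φ 0‖ := by
    rw [hΦ]
    simp only [zero_mul, add_zero]
    rw [zkint_half, Complex.norm_real, Real.norm_of_nonneg]
    exact intervalIntegral.integral_nonneg hab fun t _ => fk_nonneg k t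
  rw [h0]
  refine hmain.trans ?_
  -- the two factors
  have f1 : Q ^ n ≤ T ^ ε := by
    calc Q ^ n = Q ^ (n : ℝ) := (Real.rpow_natCast Q n).symm
      _ ≤ Q ^ (lam * Real.log T + 1) := Real.rpow_le_rpow_of_exponent_le hQ1.le hn3
      _ = Q ^ (lam * Real.log T) * Q := by rw [Real.rpow_add hQ0, Real.rpow_one]
      _ = T ^ (ε / 2) * Q := by
          congr 1
          rw [Real.rpow_def_of_pos hQ0, Real.rpow_def_of_pos hT0]
          congr 1
          rw [hlam]
          field_simp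
      _ ≤ T ^ ε := by linarith
  have f2 : Q ^ n * (2 * (C * T ^ (B + 1)) * (r / (1 / 2)) ^ n) ≤ 1 := by
    have h1 : Q ^ n * (2 * (C * T ^ (B + 1)) * (r / (1 / 2)) ^ n) = 2 * C * T ^ (B + 1) * (Q * (r / (1 / 2))) ^ n := by
      rw [mul_pow]; ring
    rw [h1]
    have h2 : Q * (r / (1 / 2)) ≤ x := by
      have : Q * (r / (1 / 2)) ≤ Q * (r0 / (1 / 2)) := by gcongr
      refine this.trans (le_of_eq ?_)
      rw [hr0]
      field_simp
    have h3 : x ^ n ≤ T ^ (-(B + 2)) := by
      rw [hx, ← Real.exp_nat_mul, Real.rpow_def_of_pos hT0]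
      apply Real.exp_le_exp.2
      have : (B + 2) / lam * (lam * Real.log T) ≤ (B + 2) / lam * n := by gcongr
      have e5 : (B + 2) / lam * (lam * Real.log T) = (B + 2) * Real.log T := by field_simp
      linarith
    have h4 : (Q * (r / (1 / 2))) ^ n ≤ x ^ n := pow_le_pow_left₀ (by positivity) h2 n
    calc 2 * C * T ^ (B + 1) * (Q * (r / (1 / 2))) ^ n ≤ 2 * C * T ^ (B + 1) * T ^ (-(B + 2)) := by
          gcongr
          exact h4.trans h3
      _ = 2 * C * T ^ (-1 : ℝ) := by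
          rw [mul_assoc, ← Real.rpow_add hT0]; congr 2; ring
      _ ≤ 1 := by rw [Real.rpow_zero] at e2; exact e2
  have : Q ^ n * (A + 2 * (C * T ^ (B + 1)) * (r / (1 / 2)) ^ n) =
      Q ^ n * A + Q ^ n * (2 * (C * T ^ (B + 1)) * (r / (1 / 2)) ^ n) := by ring
  rw [this]
  have h5 : Q ^ n * A ≤ T ^ ε * A := by gcongr
  linarith

/-- the pointwise bound -/
theorem lh2 {k : ℕ} (hk : 1 ≤ k) : ∃ C T₀ : ℝ, 0 < C ∧ 1 ≤ T₀ ∧ ∀ T A1 A2 : ℝ, T₀ ≤ T → 1 ≤ A1 → 0 ≤ A2 →
    (∀ a b : ℝ, T ≤ a → a ≤ b → b ≤ 2 * T → ∫ t in a..b, fk k t ≤ A1 + (b - a) * A2) →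
    ∀ v ∈ Icc (T + T / 100) (2 * T - T / 100), fk k v ≤ C * Real.log T ^ 2 * (A1 + A2) := by
  obtain ⟨C, T₀, hC, hT₀, hfl⟩ := floc hk
  have hlog : ∀ᶠ T : ℝ in atTop, 2 * Real.log T ≤ T / 100 := by
    have h1 := (isLittleO_log_rpow_rpow_atTop 1 (by norm_num : (0 : ℝ) < 1)).bound
      (by norm_num : (0 : ℝ) < 1 / 200)
    filter_upwards [h1, eventually_ge_atTop 1] with T h2 h3
    rw [Real.rpow_one, Real.rpow_one, Real.norm_of_nonneg (Real.log_nonneg (by linarith)),
      Real.norm_of_nonneg (by linarith)] at h2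
    linarith
  obtain ⟨T1, hT1⟩ := eventually_atTop.1 hlog
  refine ⟨6 * C, max T₀ (max T1 3), by positivity, hT₀.trans (le_max_left _ _), fun T A1 A2 hT hA1 hA2 hMV v hv => ?_⟩
  have hTa : T₀ ≤ T := (le_max_left _ _).trans hT
  have hTb := hT1 T (((le_max_left _ _).trans (le_max_right _ _)).trans hT)
  have hT3 : 3 ≤ T := ((le_max_right _ _).trans (le_max_right _ _)).trans hT
  set L := Real.log T with hL
  have hL1 : 1 ≤ L := by
    rw [hL, Real.le_log_iff_exp_le (by linarith)]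
    linarith [Real.exp_one_lt_d9]
  have hfc := fk_cont k
  set a := v - 2 * L with ha
  set b := v + 2 * L with hb
  have hav : a ∈ Icc T (2 * T) := ⟨by rw [ha]; linarith [hv.1], by rw [ha]; linarith [hv.2]⟩
  have hbv : b ∈ Icc T (2 * T) := ⟨by rw [hb]; linarith [hv.1], by rw [hb]; linarith [hv.2]⟩
  have hab : a ≤ b := by rw [ha, hb]; linarith
  have hI : ∫ u in a..b, fk k u ≤ A1 + 4 * L * A2 := by
    have := hMV a b hav.1 hab hbv.2
    have h5 : b - a = 4 * L := by rw [ha, hb]; ring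
    rwa [h5] at this
  have h1 := hfl T v hTa (by linarith [hv.1]) (by linarith [hv.2])
  have h2 : ∫ u in a..b, fk k u * (L / (1 + L * |u - v|) ^ 2) ≤ ∫ u in a..b, fk k u * L := by
    apply intervalIntegral.integral_mono_on hab
    · apply Continuous.intervalIntegrable
      apply hfc.mul
      apply Continuous.div continuous_const (by fun_prop)
      intro u
      positivity
    · exact (hfc.mul continuous_const).intervalIntegrable _ _
    intro u _
    apply mul_le_mul_of_nonneg_left _ (fk_nonneg k u)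
    apply div_le_self (by linarith)
    have : 0 ≤ L * |u - v| := by positivity
    nlinarith
  rw [intervalIntegral.integral_mul_const] at h2
  have h3 : (∫ u in a..b, fk k u) * L ≤ (A1 + 4 * L * A2) * L := by gcongr
  have hLL : L ≤ L ^ 2 := by nlinarith
  have hLL1 : 1 ≤ L ^ 2 := by nlinarith
  calc fk k v ≤ C * ((∫ u in a..b, fk k u * (L / (1 + L * |u - v|) ^ 2)) + 1) := h1
    _ ≤ C * ((A1 + 4 * L * A2) * L + 1) := by gcongr; linarith
    _ ≤ C * (6 * (L ^ 2 * (A1 + A2))) := by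
        gcongr
        have e1 : A1 * L ≤ A1 * L ^ 2 := by gcongr
        have e2 : 1 ≤ A1 * L ^ 2 := by nlinarith
        have e3 : 0 ≤ L ^ 2 * A2 := by positivity
        nlinarith
    _ = 6 * C * L ^ 2 * (A1 + A2) := by ring

end Pool.Agent.Helper156_SM
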