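import Pool.Agent.Helper156_SM.Coef
import Pool.Agent.Helper156_SM.Mean

set_option autoImplicit false

/-!
# Near coincidences
-/

open MeasureTheory Set Filter

namespace Pool.Agent.Helper156_SM

/-- the integer coordinates -/
def ec (n : ℕ) (p : ℕ × ℕ) : ℤ × ℤ := ((p.1 : ℤ) - p.2, (p.2 : ℤ) - n * ((p.1 : ℤ) - p.2))

theorem ec_inj (n : ℕ) : Function.Injective (ec n) := by
  intro p q h
  unfold ec at h
  rw [Prod.mk.injEq] at h
  obtain ⟨h1, h2⟩ := h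
  rw [h1] at h2
  have h3 : (p.2 : ℤ) = q.2 := by linarith
  have h4 : (p.1 : ℤ) = q.1 := by linarith
  exact Prod.ext (by exact_mod_cast h4) (by exact_mod_cast h3)

/-- the frequency of a pair -/
noncomputable def xi (n : ℕ) (p : ℕ × ℕ) : ℝ := om n + Real.log p.2 - Real.log p.1

theorem exp_decay {y B : ℝ} (hy : 0 < y) (hB0 : 0 ≤ B) (hB : B ≤ 4) :
    Real.exp (-(y ^ 2 / 4)) ≤ 32 * (1 / y) ^ B := by
  have h1 : y ^ B ≤ 1 + y ^ 4 := by
    rcases le_total y 1 with h | h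
    · have := Real.rpow_le_one hy.le h hB0
      have : 0 < y ^ 4 := by positivity
      linarith
    · have h2 := Real.rpow_le_rpow_of_exponent_le h hB
      have h3 : y ^ (4 : ℝ) = y ^ (4 : ℕ) := by rw [← Real.rpow_natCast]; norm_num
      rw [h3] at h2
      linarith
  have h2 : 1 + y ^ 4 ≤ 32 * Real.exp (y ^ 2 / 4) := by
    have h3 := Real.quadratic_le_exp_of_nonneg (x := y ^ 2 / 4) (by positivity)
    nlinarith [sq_nonneg (y ^ 2)]
  have h3 : (1 / y) ^ B = (y ^ B)⁻¹ := by rw [one_div, Real.inv_rpow hy.le]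
  rw [h3, Real.exp_neg, ← div_eq_mul_inv, le_div_iff₀ (by positivity), inv_mul_le_iff₀ (Real.exp_pos _)]
  linarith

theorem xi_lower {N n : ℕ} (hN : 1 ≤ N) (hn : n ∈ Finset.Ico N (2 * N)) {p : ℕ × ℕ} (h1 : 1 ≤ p.1) (h2 : 1 ≤ p.2) :
    |((n : ℝ) + 1) * p.2 - n * p.1| / (2 * N * max (p.1 : ℝ) p.2) ≤ |xi n p| := by
  rw [Finset.mem_Ico] at hn
  have hn0 : (1 : ℝ) ≤ n := by exact_mod_cast (by omega : 1 ≤ n)
  have hn1 : (n : ℝ) + 1 ≤ 2 * N := by exact_mod_cast (by omega : n + 1 ≤ 2 * N)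
  have ha : (1 : ℝ) ≤ p.1 := by exact_mod_cast h1
  have hb : (1 : ℝ) ≤ p.2 := by exact_mod_cast h2
  have hmx : (1 : ℝ) ≤ max (p.1 : ℝ) p.2 := ha.trans (le_max_left _ _)
  have hx : xi n p = Real.log ((((n : ℝ) + 1) * p.2) / (n * p.1)) := by
    unfold xi om
    rw [Real.log_div (by positivity) (by positivity), Real.log_div (by positivity) (by positivity),
      Real.log_mul (by positivity) (by positivity), Real.log_mul (by positivity) (by positivity)]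
    ring
  rw [hx]
  rcases le_total ((n : ℝ) * p.1) (((n : ℝ) + 1) * p.2) with h | h
  · rw [abs_of_nonneg (by linarith : 0 ≤ ((n : ℝ) + 1) * p.2 - n * p.1)]
    have h3 := Real.one_sub_inv_le_log_of_pos (x := (((n : ℝ) + 1) * p.2) / (n * p.1)) (by positivity)
    refine le_trans ?_ (h3.trans (le_abs_self _))
    have e : 1 - ((((n : ℝ) + 1) * p.2) / (n * p.1))⁻¹ = (((n : ℝ) + 1) * p.2 - n * p.1) / (((n : ℝ) + 1) * p.2) := by
      field_simp
    rw [e]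
    apply div_le_div_of_nonneg_left (by linarith) (by positivity)
    have := le_max_right (p.1 : ℝ) p.2
    nlinarith
  · rw [abs_of_nonpos (by linarith : ((n : ℝ) + 1) * p.2 - n * p.1 ≤ 0)]
    have h3 := Real.one_sub_inv_le_log_of_pos (x := (n * p.1) / (((n : ℝ) + 1) * p.2)) (by positivity)
    have h4 : Real.log ((n * p.1) / (((n : ℝ) + 1) * p.2)) = -Real.log ((((n : ℝ) + 1) * p.2) / (n * p.1)) := by
      rw [← Real.log_inv, inv_div]
    rw [h4] at h3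
    refine le_trans ?_ (h3.trans (neg_le_abs _))
    have e : 1 - ((n * p.1) / (((n : ℝ) + 1) * p.2))⁻¹ = -(((n : ℝ) + 1) * p.2 - n * p.1) / (n * p.1) := by
      field_simp
      ring
    rw [e]
    apply div_le_div_of_nonneg_left (by linarith) (by positivity)
    have := le_max_left (p.1 : ℝ) p.2
    nlinarith

/-- the comparison function on the lattice -/
noncomputable def GG (ε : ℝ) (q : ℤ × ℤ) : ℝ := |(q.1 : ℝ)| ^ (-(1 + 4 * ε)) * |(q.2 : ℝ)| ^ (-(1 + 2 * ε))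

theorem GG_nonneg (ε : ℝ) (q : ℤ × ℤ) : 0 ≤ GG ε q := by unfold GG; positivity

theorem GG_summable {ε : ℝ} (hε : 0 < ε) : Summable (GG ε) := by
  have h1 := Real.summable_abs_int_rpow (b := 1 + 4 * ε) (by linarith)
  have h2 := Real.summable_abs_int_rpow (b := 1 + 2 * ε) (by linarith)
  exact h1.mul_of_nonneg h2 (fun _ => by positivity) (fun _ => by positivity)

theorem off_term (k : ℕ) {ε : ℝ} (hε : 0 < ε) (hε1 : ε ≤ 1 / 4) : ∃ C : ℝ, 0 < C ∧ ∀ N n : ℕ, 1 ≤ N →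
    n ∈ Finset.Ico N (2 * N) → ∀ W : ℝ, 0 < W → ∀ p : ℕ × ℕ, 1 ≤ p.1 → 1 ≤ p.2 →
    ((n : ℝ) + 1) * p.2 - n * p.1 ≠ 0 →
    ak k p.1 * (p.1 : ℝ) ^ (-(1 + 4 * ε)) * (ak k p.2 * (p.2 : ℝ) ^ (-(1 + 4 * ε))) *
      Real.exp (-(xi n p ^ 2 * W ^ 2 / 4)) ≤
    C * ((N / W) ^ 3 * (ak k p.1 * (p.1 : ℝ) ^ (-(1 + 4 * ε)) * (ak k p.2 * (p.2 : ℝ) ^ (-(1 + 4 * ε)))) +
      (N / W) ^ (1 + 2 * ε) * (N : ℝ) ^ (-(1 + 4 * ε)) * GG ε (ec n p)) := by
  obtain ⟨C, hC, hak⟩ := ak_bound k ε hε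
  refine ⟨max 2048 (8192 * C ^ 2), by positivity, fun N n hN hn W hW p h1 h2 hj => ?_⟩
  have hn' := Finset.mem_Ico.1 hn
  have hN' : (1 : ℝ) ≤ N := by exact_mod_cast hN
  have hn0 : (1 : ℝ) ≤ n := by exact_mod_cast (by omega : 1 ≤ n)
  have hn1 : (n : ℝ) + 1 ≤ 2 * N := by exact_mod_cast (by omega : n + 1 ≤ 2 * N)
  have hnN : (N : ℝ) ≤ n := by exact_mod_cast hn'.1
  set a : ℝ := (p.1 : ℝ) with ha'
  set b : ℝ := (p.2 : ℝ) with hb'
  have ha : (1 : ℝ) ≤ a := by rw [ha']; exact_mod_cast h1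
  have hb : (1 : ℝ) ≤ b := by rw [hb']; exact_mod_cast h2
  set j : ℝ := ((n : ℝ) + 1) * b - n * a with hjdef
  have hj0 : 0 < |j| := abs_pos.2 hj
  have hxi := xi_lower hN hn h1 h2
  rw [← ha', ← hb', ← hjdef] at hxi
  have hmx : (1 : ℝ) ≤ max a b := ha.trans (le_max_left _ _)
  have hxi0 : 0 < |xi n p| := lt_of_lt_of_le (by positivity) hxi
  set y := |xi n p| * W with hy
  have hy0 : 0 < y := by positivity
  have hyq : 1 / y ≤ 2 * N * max a b / (|j| * W) := by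
    rw [div_le_div_iff₀ hy0 (by positivity)]
    rw [div_le_iff₀ (by positivity)] at hxi
    rw [hy]
    nlinarith
  have hexp : Real.exp (-(xi n p ^ 2 * W ^ 2 / 4)) = Real.exp (-(y ^ 2 / 4)) := by
    rw [hy, mul_pow, sq_abs]
  have hpa : 0 ≤ ak k p.1 * a ^ (-(1 + 4 * ε)) := mul_nonneg (ak_nonneg _ _) (by positivity)
  have hpb : 0 ≤ ak k p.2 * b ^ (-(1 + 4 * ε)) := mul_nonneg (ak_nonneg _ _) (by positivity)
  have hGG := GG_nonneg ε (ec n p)
  rw [hexp]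
  rcases le_or_gt (max a b) (2 * |j|) with hcase | hcase
  · have h3 := exp_decay (B := 3) hy0 (by norm_num) (by norm_num)
    have h4 : (1 / y) ^ (3 : ℝ) = (1 / y) ^ (3 : ℕ) := by rw [← Real.rpow_natCast]; norm_num
    have h5 : 1 / y ≤ 4 * (N / W) := by
      refine hyq.trans ?_
      rw [div_le_iff₀ (by positivity)]
      have : 4 * (N / W) * (|j| * W) = 4 * N * |j| := by field_simp
      rw [this]
      nlinarith
    have h6 : (1 / y) ^ 3 ≤ (4 * (N / W)) ^ 3 := pow_le_pow_left₀ (by positivity) h5 3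
    have h7 : Real.exp (-(y ^ 2 / 4)) ≤ 2048 * (N / W) ^ 3 := by
      rw [h4] at h3
      refine h3.trans ?_
      calc 32 * (1 / y) ^ 3 ≤ 32 * (4 * (N / W)) ^ 3 := by gcongr
        _ = 2048 * (N / W) ^ 3 := by ring
    calc ak k p.1 * a ^ (-(1 + 4 * ε)) * (ak k p.2 * b ^ (-(1 + 4 * ε))) * Real.exp (-(y ^ 2 / 4))
        ≤ ak k p.1 * a ^ (-(1 + 4 * ε)) * (ak k p.2 * b ^ (-(1 + 4 * ε))) * (2048 * (N / W) ^ 3) := by
          gcongr
      _ = 2048 * ((N / W) ^ 3 * (ak k p.1 * a ^ (-(1 + 4 * ε)) * (ak k p.2 * b ^ (-(1 + 4 * ε))))) := by ring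
      _ ≤ max 2048 (8192 * C ^ 2) * ((N / W) ^ 3 * (ak k p.1 * a ^ (-(1 + 4 * ε)) * (ak k p.2 * b ^ (-(1 + 4 * ε)))) +
          (N / W) ^ (1 + 2 * ε) * (N : ℝ) ^ (-(1 + 4 * ε)) * GG ε (ec n p)) := by
          apply mul_le_mul (le_max_left _ _) _ (by positivity) (by positivity)
          have : 0 ≤ (N / W) ^ (1 + 2 * ε) * (N : ℝ) ^ (-(1 + 4 * ε)) * GG ε (ec n p) := by positivity
          linarith
  · -- `b < a`
    have hab : b < a := by
      by_contra h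
      push Not at h
      have h3 : max a b = b := max_eq_right h
      have h4 : b ≤ j := by rw [hjdef]; nlinarith
      have h5 : |j| = j := abs_of_nonneg (by linarith)
      rw [h3, h5] at hcase
      linarith
    have hmax : max a b = a := max_eq_left hab.le
    rw [hmax] at hcase hyq
    have hh1 : (1 : ℝ) ≤ a - b := by
      have h3' : (p.2 : ℝ) < p.1 := hab
      have h3 : p.2 < p.1 := by exact_mod_cast h3'
      have h4 : (p.2 : ℝ) + 1 ≤ p.1 := by exact_mod_cast h3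
      linarith
    set h := a - b with hh
    have hja : |j| < a / 2 := by linarith
    have hj1 := neg_abs_le j
    have hj2 := le_abs_self j
    have hnh : ((n : ℝ) + 1) * h = a - j := by rw [hh, hjdef]; ring
    have hh2 : h ≤ 3 / 4 * a := by
      have h3 : ((n : ℝ) + 1) * h ≤ 3 / 2 * a := by rw [hnh]; linarith
      nlinarith
    have hb4 : a / 4 ≤ b := by linarith
    have haN : N * h / 2 ≤ a := by
      have h3 : (N : ℝ) * h ≤ ((n : ℝ) + 1) * h := by gcongr; linarith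
      rw [hnh] at h3
      linarith
    have h3 := exp_decay (B := 1 + 2 * ε) hy0 (by linarith) (by linarith)
    have h4 : (1 / y) ^ (1 + 2 * ε) ≤ (2 * (N / W) * (a / |j|)) ^ (1 + 2 * ε) := by
      apply Real.rpow_le_rpow (by positivity) (hyq.trans (le_of_eq ?_)) (by linarith)
      field_simp
    have h5 : (2 * (N / W) * (a / |j|)) ^ (1 + 2 * ε) = 2 ^ (1 + 2 * ε) * (N / W) ^ (1 + 2 * ε) *
        (a ^ (1 + 2 * ε) * |j| ^ (-(1 + 2 * ε))) := by
      have e0 : (a / |j|) ^ (1 + 2 * ε) = a ^ (1 + 2 * ε) * |j| ^ (-(1 + 2 * ε)) := by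
        rw [Real.div_rpow (by positivity) (by positivity), Real.rpow_neg (by positivity), div_eq_mul_inv]
      rw [Real.mul_rpow (by positivity) (by positivity), Real.mul_rpow (by positivity) (by positivity), e0]
    have h6 : (2 : ℝ) ^ (1 + 2 * ε) ≤ 4 := by
      calc (2 : ℝ) ^ (1 + 2 * ε) ≤ 2 ^ (2 : ℝ) := Real.rpow_le_rpow_of_exponent_le (by norm_num) (by linarith)
        _ = 4 := by norm_num
    -- the coefficients
    have h7 : ak k p.1 * ak k p.2 ≤ C ^ 2 * (a * b) ^ ε := by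
      have := mul_le_mul (hak p.1 h1) (hak p.2 h2) (ak_nonneg _ _) (by positivity)
      refine this.trans (le_of_eq ?_)
      rw [Real.mul_rpow (by positivity) (by positivity)]
      ring
    have h8 : ak k p.1 * a ^ (-(1 + 4 * ε)) * (ak k p.2 * b ^ (-(1 + 4 * ε))) ≤
        C ^ 2 * (16 * a ^ (-(2 + 6 * ε))) := by
      have e1 : ak k p.1 * a ^ (-(1 + 4 * ε)) * (ak k p.2 * b ^ (-(1 + 4 * ε))) =
          ak k p.1 * ak k p.2 * (a * b) ^ (-(1 + 4 * ε)) := by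
        rw [Real.mul_rpow (by positivity) (by positivity)]; ring
      rw [e1]
      have e2 : (a * b) ^ (-(1 + 4 * ε)) * (a * b) ^ ε = (a * b) ^ (-(1 + 3 * ε)) := by
        rw [← Real.rpow_add (by positivity)]; congr 1; ring
      have e3 : (a * b) ^ (-(1 + 3 * ε)) ≤ (a ^ 2 / 4) ^ (-(1 + 3 * ε)) := by
        apply Real.rpow_le_rpow_of_nonpos (by positivity) (by nlinarith) (by linarith)
      have e4 : (a ^ 2 / 4) ^ (-(1 + 3 * ε)) = 4 ^ (1 + 3 * ε) * a ^ (-(2 + 6 * ε)) := by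
        have e6 : (a ^ 2) ^ (1 + 3 * ε) = a ^ (2 + 6 * ε) := by
          rw [← Real.rpow_natCast a 2, ← Real.rpow_mul (by positivity)]
          congr 1
          push_cast
          ring
        rw [Real.rpow_neg (by positivity), Real.div_rpow (by positivity) (by norm_num), inv_div, e6,
          Real.rpow_neg (by positivity), div_eq_mul_inv]
      have e5 : (4 : ℝ) ^ (1 + 3 * ε) ≤ 16 := by
        calc (4 : ℝ) ^ (1 + 3 * ε) ≤ 4 ^ (2 : ℝ) := Real.rpow_le_rpow_of_exponent_le (by norm_num) (by linarith)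
          _ = 16 := by norm_num
      calc ak k p.1 * ak k p.2 * (a * b) ^ (-(1 + 4 * ε)) ≤ C ^ 2 * (a * b) ^ ε * (a * b) ^ (-(1 + 4 * ε)) := by gcongr
        _ = C ^ 2 * ((a * b) ^ (-(1 + 4 * ε)) * (a * b) ^ ε) := by ring
        _ ≤ C ^ 2 * (4 ^ (1 + 3 * ε) * a ^ (-(2 + 6 * ε))) := by rw [e2, ← e4]; gcongr
        _ ≤ C ^ 2 * (16 * a ^ (-(2 + 6 * ε))) := by gcongr
    have h9 : a ^ (-(2 + 6 * ε)) * a ^ (1 + 2 * ε) = a ^ (-(1 + 4 * ε)) := by
      rw [← Real.rpow_add (by positivity)]; congr 1; ring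
    have h10 : a ^ (-(1 + 4 * ε)) ≤ 4 * ((N : ℝ) ^ (-(1 + 4 * ε)) * h ^ (-(1 + 4 * ε))) := by
      calc a ^ (-(1 + 4 * ε)) ≤ (N * h / 2) ^ (-(1 + 4 * ε)) :=
            Real.rpow_le_rpow_of_nonpos (by positivity) haN (by linarith)
        _ = 2 ^ (1 + 4 * ε) * ((N : ℝ) ^ (-(1 + 4 * ε)) * h ^ (-(1 + 4 * ε))) := by
            rw [Real.div_rpow (by positivity) (by norm_num), Real.mul_rpow (by positivity) (by positivity),
              Real.rpow_neg (by norm_num : (0:ℝ) ≤ 2) (1 + 4 * ε), div_inv_eq_mul]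
            ring
        _ ≤ 4 * ((N : ℝ) ^ (-(1 + 4 * ε)) * h ^ (-(1 + 4 * ε))) := by
            gcongr
            calc (2 : ℝ) ^ (1 + 4 * ε) ≤ 2 ^ (2 : ℝ) := Real.rpow_le_rpow_of_exponent_le (by norm_num) (by linarith)
              _ = 4 := by norm_num
    have hGe : GG ε (ec n p) = h ^ (-(1 + 4 * ε)) * |j| ^ (-(1 + 2 * ε)) := by
      unfold GG ec
      simp only
      have e1 : |(((p.1 : ℤ) - p.2 : ℤ) : ℝ)| = h := by
        push_cast
        rw [← ha', ← hb', abs_of_nonneg (by linarith)]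
      have e2 : |(((p.2 : ℤ) - n * ((p.1 : ℤ) - p.2) : ℤ) : ℝ)| = |j| := by
        push_cast
        rw [← ha', ← hb', hjdef]
        congr 1
        ring
      rw [e1, e2]
    rw [hGe]
    calc ak k p.1 * a ^ (-(1 + 4 * ε)) * (ak k p.2 * b ^ (-(1 + 4 * ε))) * Real.exp (-(y ^ 2 / 4))
        ≤ (C ^ 2 * (16 * a ^ (-(2 + 6 * ε)))) * (32 * (4 * (N / W) ^ (1 + 2 * ε) *
            (a ^ (1 + 2 * ε) * |j| ^ (-(1 + 2 * ε))))) := by
          apply mul_le_mul h8 _ (Real.exp_pos _).le (by positivity)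
          refine h3.trans ?_
          apply mul_le_mul_of_nonneg_left _ (by norm_num)
          refine h4.trans ?_
          rw [h5]
          gcongr
      _ = 2048 * C ^ 2 * (N / W) ^ (1 + 2 * ε) * |j| ^ (-(1 + 2 * ε)) * (a ^ (-(2 + 6 * ε)) * a ^ (1 + 2 * ε)) := by ring
      _ ≤ 2048 * C ^ 2 * (N / W) ^ (1 + 2 * ε) * |j| ^ (-(1 + 2 * ε)) *
            (4 * ((N : ℝ) ^ (-(1 + 4 * ε)) * h ^ (-(1 + 4 * ε)))) := by
          rw [h9]; gcongr
      _ = 8192 * C ^ 2 * ((N / W) ^ (1 + 2 * ε) * (N : ℝ) ^ (-(1 + 4 * ε)) *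
            (h ^ (-(1 + 4 * ε)) * |j| ^ (-(1 + 2 * ε)))) := by ring
      _ ≤ max 2048 (8192 * C ^ 2) * ((N / W) ^ 3 * (ak k p.1 * a ^ (-(1 + 4 * ε)) * (ak k p.2 * b ^ (-(1 + 4 * ε)))) +
          (N / W) ^ (1 + 2 * ε) * (N : ℝ) ^ (-(1 + 4 * ε)) * (h ^ (-(1 + 4 * ε)) * |j| ^ (-(1 + 2 * ε)))) := by
          apply mul_le_mul (le_max_right _ _) _ (by positivity) (by positivity)
          have : 0 ≤ (N / W) ^ 3 * (ak k p.1 * a ^ (-(1 + 4 * ε)) * (ak k p.2 * b ^ (-(1 + 4 * ε)))) := by positivity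
          linarith

/-- the coefficient sum over pairs -/
noncomputable def bb (k : ℕ) (ε : ℝ) (p : ℕ × ℕ) : ℝ :=
  ak k p.1 * (p.1 : ℝ) ^ (-(1 + 4 * ε)) * (ak k p.2 * (p.2 : ℝ) ^ (-(1 + 4 * ε)))

theorem bb_nonneg (k : ℕ) (ε : ℝ) (p : ℕ × ℕ) : 0 ≤ bb k ε p :=
  mul_nonneg (mul_nonneg (ak_nonneg _ _) (by positivity)) (mul_nonneg (ak_nonneg _ _) (by positivity))

theorem bb_summable (k : ℕ) {ε : ℝ} (hε : 0 < ε) : Summable (bb k ε) := by
  have h := ak_summable k (σ := 1 + 4 * ε) (by linarith)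
  exact h.mul_of_nonneg h (fun n => mul_nonneg (ak_nonneg _ _) (by positivity))
    (fun n => mul_nonneg (ak_nonneg _ _) (by positivity))

/-- the sum over the near coincidences -/
theorem off_sum (k : ℕ) {ε : ℝ} (hε : 0 < ε) (hε1 : ε ≤ 1 / 4) : ∃ C : ℝ, 0 < C ∧ ∀ N n : ℕ, 1 ≤ N →
    n ∈ Finset.Ico N (2 * N) → ∀ W : ℝ, 0 < W →
    ∑' p : ℕ × ℕ, (if ((n : ℝ) + 1) * p.2 - n * p.1 ≠ 0 then
      bb k ε p * Real.exp (-(xi n p ^ 2 * W ^ 2 / 4)) else 0) ≤
    C * ((N / W) ^ 3 + (N / W) ^ (1 + 2 * ε) * (N : ℝ) ^ (-(1 + 4 * ε))) := by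
  obtain ⟨C, hC, h⟩ := off_term k hε hε1
  refine ⟨C * (∑' p, bb k ε p + ∑' q, GG ε q + 1), ?_, fun N n hN hn W hW => ?_⟩
  · have h1 : 0 ≤ ∑' p, bb k ε p := tsum_nonneg (bb_nonneg k ε)
    have h2 : 0 ≤ ∑' q, GG ε q := tsum_nonneg (GG_nonneg ε)
    positivity
  have hN' : (1 : ℝ) ≤ N := by exact_mod_cast hN
  have hsb := bb_summable k hε
  have hsG := (GG_summable hε).comp_injective (ec_inj n)
  set α : ℝ := (N / W) ^ 3 with hα
  set β : ℝ := (N / W) ^ (1 + 2 * ε) * (N : ℝ) ^ (-(1 + 4 * ε)) with hβ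
  have hα0 : 0 ≤ α := by positivity
  have hβ0 : 0 ≤ β := by positivity
  have hpt : ∀ p : ℕ × ℕ, (if ((n : ℝ) + 1) * p.2 - n * p.1 ≠ 0 then
      bb k ε p * Real.exp (-(xi n p ^ 2 * W ^ 2 / 4)) else 0) ≤
      C * (α * bb k ε p + β * (GG ε ∘ ec n) p) := by
    intro p
    have h0 : 0 ≤ C * (α * bb k ε p + β * (GG ε ∘ ec n) p) := by
      have := bb_nonneg k ε p
      have : 0 ≤ (GG ε ∘ ec n) p := GG_nonneg _ _
      positivity
    split_ifs with hj
    · rcases Nat.eq_zero_or_pos p.1 with hp | hp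
      · have : bb k ε p = 0 := by unfold bb; rw [hp, ak_zero]; ring
        rw [this] at h0 ⊢
        simpa using h0
      rcases Nat.eq_zero_or_pos p.2 with hp2 | hp2
      · have : bb k ε p = 0 := by unfold bb; rw [hp2, ak_zero]; ring
        rw [this] at h0 ⊢
        simpa using h0
      exact h N n hN hn W hW p hp hp2 hj
    · exact h0
  have hs2 : Summable fun p : ℕ × ℕ => C * (α * bb k ε p + β * (GG ε ∘ ec n) p) :=
    ((hsb.mul_left α).add (hsG.mul_left β)).mul_left C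
  have hs1 : Summable fun p : ℕ × ℕ => (if ((n : ℝ) + 1) * p.2 - n * p.1 ≠ 0 then
      bb k ε p * Real.exp (-(xi n p ^ 2 * W ^ 2 / 4)) else 0) := by
    refine Summable.of_nonneg_of_le (fun p => ?_) hpt hs2
    split_ifs
    · exact mul_nonneg (bb_nonneg k ε p) (Real.exp_pos _).le
    · exact le_rfl
  have h1 := hs1.tsum_le_tsum hpt hs2
  refine h1.trans ?_
  rw [tsum_mul_left, (hsb.mul_left α).tsum_add (hsG.mul_left β), tsum_mul_left, tsum_mul_left]
  have h2 : ∑' p, (GG ε ∘ ec n) p ≤ ∑' q, GG ε q :=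
    tsum_comp_le_tsum_of_inj (GG_summable hε) (GG_nonneg ε) (ec_inj n)
  have h3 : 0 ≤ ∑' p, bb k ε p := tsum_nonneg (bb_nonneg k ε)
  have h4 : 0 ≤ ∑' q, GG ε q := tsum_nonneg (GG_nonneg ε)
  calc C * (α * (∑' p, bb k ε p) + β * ∑' p, (GG ε ∘ ec n) p)
      ≤ C * (α * (∑' p, bb k ε p + ∑' q, GG ε q + 1) + β * (∑' p, bb k ε p + ∑' q, GG ε q + 1)) := by
        gcongr
        · linarith
        · linarith
    _ = C * (∑' p, bb k ε p + ∑' q, GG ε q + 1) * (α + β) := by ring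

end Pool.Agent.Helper156_SM
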