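import Pool.Agent.Helper156_SM.CoreS
import Pool.Agent.Helper156_SM.Par

set_option autoImplicit false

/-!
# The choice of the parameters, sharp version
-/

open MeasureTheory Set Filter

namespace Pool.Agent.Helper156_SM

/-- the harmonic measure of the far part: the lower bound -/
theorem chi_bound {q s : ℝ} (hq : 0 < q) (hs : 0 < s) (hs1 : s ≤ 1 / 2) (hqs : q * s ≤ 1 / 3) :
    0 < Real.cos (q * s ^ 2) - Real.exp (-(q * s)) ∧
      1 - s ≤ 1 - 1 / Real.pi * (Real.sin (q * s ^ 2) / (Real.cos (q * s ^ 2) - Real.exp (-(q * s)))) := by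
  set x := q * s with hx
  have hx0 : 0 < x := by positivity
  have e1 : q * s ^ 2 = x * s := by rw [hx]; ring
  have h1 := Real.one_sub_sq_div_two_le_cos (x := x * s)
  have h2 : Real.exp (-x) ≤ 1 - 3 / 4 * x := by
    rw [Real.exp_neg, inv_le_comm₀ (Real.exp_pos x) (by linarith)]
    have h3 := Real.add_one_le_exp x
    refine le_trans ?_ h3
    rw [inv_le_comm₀ (by linarith) (by linarith), inv_eq_one_div, div_le_iff₀ (by linarith)]
    nlinarith
  have h4 : (x * s) ^ 2 / 2 ≤ x / 4 := by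
    have : (x * s) ^ 2 / 2 = x * (x * s ^ 2 / 2) := by ring
    rw [this]
    have : x * s ^ 2 / 2 ≤ 1 / 4 := by nlinarith
    nlinarith
  have h5 : x / 2 ≤ Real.cos (q * s ^ 2) - Real.exp (-x) := by
    rw [e1]; linarith
  have h6 : 0 < Real.cos (q * s ^ 2) - Real.exp (-x) := by linarith
  refine ⟨h6, ?_⟩
  have h7 : Real.sin (q * s ^ 2) ≤ x * s := by
    rw [e1]; exact Real.sin_le (by positivity)
  have h8 : Real.sin (q * s ^ 2) / (Real.cos (q * s ^ 2) - Real.exp (-x)) ≤ 2 * s := by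
    rw [div_le_iff₀ h6]
    have : 2 * s * (x / 2) ≤ 2 * s * (Real.cos (q * s ^ 2) - Real.exp (-x)) := by gcongr
    linarith
  have hpi := Real.pi_gt_three
  have h9 : 1 / Real.pi * (Real.sin (q * s ^ 2) / (Real.cos (q * s ^ 2) - Real.exp (-x))) ≤ 1 / Real.pi * (2 * s) := by
    gcongr
  have h10 : 1 / Real.pi * (2 * s) ≤ s := by
    rw [div_mul_eq_mul_div, one_mul, div_le_iff₀ Real.pi_pos]
    nlinarith
  linarith

/-- The local result for an interval, from the strict inequalities. -/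
theorem local_S {θ ν D η2 U : ℝ} (hθ : 0 ≤ θ) (hν : 0 < ν) (hν1 : ν < 1 / 2) (hη2 : 0 < η2) (hη21 : η2 < 1 / 2)
    (hU : 0 < U) (hD : 0 ≤ D) (hD1 : ν / 2 - θ ≤ D)
    (h1 : (1 + θ - ν / 2 + D) - 2 * ((1 + θ - ν / 2 + D) - ν) * η2 < 1 - 2 * η2 * ν)
    (h2 : 2 * D < (ν / 2 - θ) * (Real.exp (Real.pi / η2 * U) + 1)) :
    ∃ c : ℝ, 0 < c ∧ ∀ (k : ℕ), 1 ≤ k → ∀ u0 : ℝ, ∃ e : ℝ, 0 < e ∧ ∀ᶠ T : ℝ in atTop,
      (∀ s : ℂ, s.re = 1 / 2 → |s.im| ≤ T / 8 → ‖Kf k ν e T s‖ ≤ T ^ (1 + θ - ν / 2 + D + 3 * e)) →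
      volume {u : ℝ | u ∈ Icc (u0 - U) (u0 + U) ∧ Close k (1 / 2 + u * Complex.I) T θ e} <
        ENNReal.ofReal (2 * U - c) := by
  have hX0 : 0 < Real.exp (Real.pi / η2 * U) + 1 := by positivity
  have hgap : 0 < ν / 2 - θ := by
    by_contra hcon
    push Not at hcon
    have : (ν / 2 - θ) * (Real.exp (Real.pi / η2 * U) + 1) ≤ 0 := mul_nonpos_of_nonpos_of_nonneg hcon hX0.le
    linarith
  obtain ⟨Λ, hΛ1, hΛ2⟩ : ∃ Λ : ℝ, 2 * D / (ν / 2 - θ) < Λ ∧ Λ < Real.exp (Real.pi / η2 * U) + 1 := by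
    apply exists_between
    rw [div_lt_iff₀ hgap, mul_comm]
    linarith
  have hΛ0 : 0 < Λ := lt_of_le_of_lt (by positivity) hΛ1
  rw [div_lt_iff₀ hgap] at hΛ1
  set P0 := 1 + θ - ν / 2 + D with hP0
  have hP01 : 1 ≤ P0 := by rw [hP0]; linarith
  -- the conditions
  have hqc : Continuous fun s : ℝ => Real.pi / (η2 + 2 * s ^ 2) :=
    continuous_const.div (by fun_prop) (fun s => by positivity)
  have E0 : ∀ᶠ s in nhdsWithin (0 : ℝ) (Ioi 0), Λ - (Real.exp (Real.pi / (η2 + 2 * s ^ 2) * (U - 2 * s)) +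
      Real.cos (Real.pi / (η2 + 2 * s ^ 2) * (s + s ^ 2))) < 0 := by
    apply ev0
    · exact continuous_const.sub ((Real.continuous_exp.comp (hqc.mul (by fun_prop))).add
        (Real.continuous_cos.comp (hqc.mul (by fun_prop))))
    · simp only [ne_eq, OfNat.ofNat_ne_zero, not_false_eq_true, zero_pow, mul_zero, add_zero, sub_zero, Real.cos_zero]
      linarith
  have E1 : ∀ᶠ s in nhdsWithin (0 : ℝ) (Ioi 0), (θ - ν / 2 + 6 * s ^ 2) +
      (D + s ^ 2) * (s * (s + 2 * (1 + 3 * s) / (η2 * Λ))) + s * η2 ^ 2 + 5 * s * η2 +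
      η2 * (D + s ^ 2) * (s + 2 * (1 + 3 * s) / (η2 * Λ)) < 0 := by
    apply ev0 (by fun_prop)
    simp only [ne_eq, OfNat.ofNat_ne_zero, not_false_eq_true, zero_pow, mul_zero, add_zero, zero_mul, zero_add, mul_one]
    have e1 : η2 * D * (2 / (η2 * Λ)) = 2 * D / Λ := by field_simp
    rw [e1]
    have : 2 * D / Λ < ν / 2 - θ := by rw [div_lt_iff₀ hΛ0]; linarith
    linarith
  have E2 : ∀ᶠ s in nhdsWithin (0 : ℝ) (Ioi 0), ((P0 + 3 * s ^ 2) * (1 - 2 * (η2 - s)) + 2 * ν * (η2 - s) +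
      (3 + 2 * (P0 + 3)) * s ^ 2) - (1 - 2 * (η2 - s) * ν - s ^ 2 - s ^ 2) < 0 :=
    ev0 (by fun_prop) (by
      simp only [ne_eq, OfNat.ofNat_ne_zero, not_false_eq_true, zero_pow, mul_zero, add_zero, sub_zero]
      linarith)
  have E3 : ∀ᶠ s in nhdsWithin (0 : ℝ) (Ioi 0), ((P0 + 3 * s ^ 2) * (1 - 2 * η2) + 2 * ν * η2 +
      (3 + 2 * (P0 + 3)) * s ^ 2) - (1 - 2 * η2 * ν - s ^ 2) < 0 :=
    ev0 (by fun_prop) (by
      simp only [ne_eq, OfNat.ofNat_ne_zero, not_false_eq_true, zero_pow, mul_zero, add_zero, sub_zero]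
      linarith)
  have E4 : ∀ᶠ s in nhdsWithin (0 : ℝ) (Ioi 0), 4 * s - η2 < 0 := ev0 (by fun_prop) (by linarith)
  have E5 : ∀ᶠ s in nhdsWithin (0 : ℝ) (Ioi 0), 4 * s - U < 0 := ev0 (by fun_prop) (by linarith)
  have E6 : ∀ᶠ s in nhdsWithin (0 : ℝ) (Ioi 0), 3 * s - 1 < 0 := ev0 (by fun_prop) (by norm_num)
  have E7 : ∀ᶠ s in nhdsWithin (0 : ℝ) (Ioi 0), 3 * Real.pi * s - η2 < 0 := ev0 (by fun_prop) (by linarith)
  obtain ⟨s, ⟨⟨⟨⟨⟨⟨⟨⟨b0, b1⟩, b2⟩, b3⟩, b4⟩, b5⟩, b6⟩, b7⟩, b8⟩⟩ :=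
    ((((((((E0.and E1).and E2).and E3).and E4).and E5).and E6).and E7).and self_mem_nhdsWithin).exists
  have hs : 0 < s := b8
  have hs1 : s < 1 / 3 := by linarith
  have hs2 : 0 < s ^ 2 := by positivity
  have hs2' : s ^ 2 ≤ s / 3 := by nlinarith
  set η1 := η2 - s with hη1
  have hη10 : 0 < η1 := by rw [hη1]; linarith
  set q := Real.pi / (η2 + 2 * s ^ 2) with hq
  have hq0 : 0 < q := by positivity
  have hqa : q * (η2 + 2 * s ^ 2) = Real.pi := by rw [hq]; field_simp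
  have hqs : q * s ≤ 1 / 3 := by
    have h5 : q ≤ Real.pi / η2 := by
      rw [hq]
      apply div_le_div_of_nonneg_left Real.pi_pos.le hη2
      linarith
    have h6 : Real.pi / η2 * s ≤ 1 / 3 := by
      rw [div_mul_eq_mul_div, div_le_iff₀ hη2]
      linarith
    calc q * s ≤ Real.pi / η2 * s := by gcongr
      _ ≤ 1 / 3 := h6
  obtain ⟨c1, c2⟩ := chi_bound hq0 hs (by linarith) hqs
  set χ := 1 - s with hχ
  have hχ0 : 0 < χ := by rw [hχ]; linarith
  set ω := 2 * (s + s ^ 2) / (η2 * Λ) with hω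
  have hω0 : 0 ≤ ω := by positivity
  -- the ratio
  set R := s + 2 * (1 + 3 * s) / (η2 * Λ) with hR
  have hR0 : 0 ≤ R := by positivity
  have hρ : s ^ 2 + ω / χ ≤ s * R := by
    have h5 : ω / χ ≤ s * (2 * (1 + 3 * s) / (η2 * Λ)) := by
      rw [div_le_iff₀ hχ0, hω, hχ]
      have h6 : 2 * (s + s ^ 2) ≤ s * (2 * (1 + 3 * s)) * (1 - s) := by nlinarith
      calc 2 * (s + s ^ 2) / (η2 * Λ) ≤ s * (2 * (1 + 3 * s)) * (1 - s) / (η2 * Λ) := by gcongr
        _ = s * (2 * (1 + 3 * s) / (η2 * Λ)) * (1 - s) := by ring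
    rw [hR]
    nlinarith
  refine ⟨s ^ 2 * η1 / 2, by positivity, fun k hk u0 => ?_⟩
  obtain ⟨e0, he0, hI⟩ := coreIS hk u0 (η1 := η1) (lam := s) (δ := s ^ 2) hη10 hs hs2
  set e := min e0 (min (s ^ 2 / 2) η1) with he
  have hee : 0 < e := lt_min he0 (lt_min (by positivity) hη10)
  have hes : e ≤ s ^ 2 / 2 := (min_le_right _ _).trans (min_le_left _ _)
  have hes1 : e ≤ s ^ 2 := by linarith
  have he4 : e ≤ 1 / 4 := by nlinarith
  have heη : e ≤ η1 := (min_le_right _ _).trans (min_le_right _ _)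
  set g := (5 * s ^ 2 + (D + s ^ 2) * (s * R)) / s with hg
  have hgs : g * s = 5 * s ^ 2 + (D + s ^ 2) * (s * R) := by rw [hg]; field_simp
  have hg0 : 0 ≤ g := by positivity
  have hε : 2 * (s ^ 2 * η1 / 2) / η1 = s ^ 2 := by field_simp
  have hDρ : (D + e) * (s ^ 2 + ω / χ) ≤ (D + s ^ 2) * (s * R) := by
    apply mul_le_mul (by linarith) hρ (by positivity) (by positivity)
  have hx : (3 + 2 * (P0 + 3 * e - ν)) * e ≤ (3 + 2 * (P0 + 3)) * s ^ 2 := by
    apply mul_le_mul _ hes1 hee.le (by linarith)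
    linarith
  refine ⟨e, hee, ?_⟩
  have hfin := hI ν e (P0 + 3 * e) θ η2 (s ^ 2) (U - s) (U - 2 * s) s g (s ^ 2 * η1 / 2) χ ω hν hν1 hee he4
    (min_le_left _ _) hθ (by linarith) (by rw [hP0]; linarith) heη (by rw [hη1]; linarith) hη21.le hs2 (by linarith)
    (by linarith) hs (by positivity) ?_ hχ0 ?_ ?_ ?_ ?_ ?_ ?_
  · filter_upwards [hfin] with T hT hcl
    have := hT hcl
    rw [sub_add_cancel] at this
    exact this
  · rw [← hq, show U - s - (U - 2 * s) = s by ring]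
    exact c1
  · rw [← hq, show U - s - (U - 2 * s) = s by ring]
    exact c2
  · -- the upper bound for the harmonic measure
    rw [← hq]
    have h5 : q * (η1 + s ^ 2) = Real.pi - q * (s + s ^ 2) := by
      rw [← hqa, hη1]; ring
    rw [h5, Real.sin_pi_sub, Real.cos_pi_sub, sub_neg_eq_add]
    have h6 : Real.sin (q * (s + s ^ 2)) ≤ q * (s + s ^ 2) := Real.sin_le (by positivity)
    have h7 : Λ ≤ Real.exp (q * (U - 2 * s)) + Real.cos (q * (s + s ^ 2)) := by linarith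
    have h8 : Real.sin (q * (s + s ^ 2)) / (Real.exp (q * (U - 2 * s)) + Real.cos (q * (s + s ^ 2))) ≤
        q * (s + s ^ 2) / Λ := by
      apply div_le_div₀ (by positivity) h6 hΛ0 h7
    calc 2 / Real.pi * (Real.sin (q * (s + s ^ 2)) / (Real.exp (q * (U - 2 * s)) + Real.cos (q * (s + s ^ 2))))
        ≤ 2 / Real.pi * (q * (s + s ^ 2) / Λ) := by gcongr
      _ = 2 * (s + s ^ 2) / ((η2 + 2 * s ^ 2) * Λ) := by
          rw [hq]
          have := Real.pi_pos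
          field_simp
      _ ≤ ω := by
          rw [hω]
          gcongr
          linarith
  · have e3 : (P0 + 3 * e) - 2 * ((P0 + 3 * e) - ν) * η1 = (P0 + 3 * e) * (1 - 2 * η1) + 2 * ν * η1 := by ring
    rw [e3]
    have h5 : (P0 + 3 * e) * (1 - 2 * η1) ≤ (P0 + 3 * s ^ 2) * (1 - 2 * η1) := by
      apply mul_le_mul_of_nonneg_right (by linarith)
      rw [hη1]; linarith
    linarith
  · have e3 : (P0 + 3 * e) - 2 * ((P0 + 3 * e) - ν) * η2 = (P0 + 3 * e) * (1 - 2 * η2) + 2 * ν * η2 := by ring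
    rw [e3]
    have h5 : (P0 + 3 * e) * (1 - 2 * η2) ≤ (P0 + 3 * s ^ 2) * (1 - 2 * η2) := by
      apply mul_le_mul_of_nonneg_right (by linarith)
      linarith
    linarith
  · have e3 : P0 + 3 * e - (1 + θ - ν / 2 + 2 * e) = D + e := by rw [hP0]; ring
    have e4 : g * (η2 - η1) = g * s := by rw [hη1]; ring
    rw [e3, hε, e4, hgs]
    linarith
  · have e3 : P0 + 3 * e - (1 + θ - ν / 2 + 2 * e) = D + e := by rw [hP0]; ring
    rw [e3, hε]
    have h5 : s * η1 * η2 ≤ s * η2 ^ 2 := by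
      have : s * η1 * η2 ≤ s * η2 * η2 := by
        have : η1 ≤ η2 := by rw [hη1]; linarith
        gcongr
      linarith [sq η2]
    have h6 : g * η1 ≤ g * η2 := by
      apply mul_le_mul_of_nonneg_left _ hg0
      rw [hη1]; linarith
    have h7 : g * η2 = 5 * s * η2 + η2 * (D + s ^ 2) * R := by
      rw [hg]; field_simp
    linarith

end Pool.Agent.Helper156_SM
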