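import Mathlib

set_option autoImplicit false

/-!
# A Remez type inequality for analytic functions
-/

open MeasureTheory Set Filter

namespace Pool.Agent.Helper156_SM

/-- well spaced points in a set of positive measure -/
theorem spaced {d : ℝ} (hd : 0 < d) (n : ℕ) : ∀ E : Set ℝ, Bornology.IsBounded E →
    ENNReal.ofReal (n * d) < volume E →
    ∃ x : ℕ → ℝ, (∀ i ≤ n, x i ∈ E) ∧ ∀ i < n, x i + d ≤ x (i + 1) := by
  induction n with
  | zero =>
    intro E _ hE
    have hne : E.Nonempty := by
      by_contra h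
      rw [Set.not_nonempty_iff_eq_empty] at h
      rw [h, measure_empty] at hE
      exact not_lt_bot hE
    obtain ⟨x, hx⟩ := hne
    exact ⟨fun _ => x, fun i _ => hx, fun i hi => absurd hi (Nat.not_lt_zero i)⟩
  | succ n ih =>
    intro E hb hE
    have hne : E.Nonempty := by
      by_contra h
      rw [Set.not_nonempty_iff_eq_empty] at h
      rw [h, measure_empty] at hE
      exact not_lt_bot hE
    have hba : BddAbove E := hb.bddAbove
    set b := sSup E with hbdef
    -- the room
    have hEfin : volume E < ⊤ := hb.measure_lt_top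
    obtain ⟨v, hv1, hv2⟩ : ∃ v : ℝ, (volume E) = ENNReal.ofReal v ∧ ((n + 1 : ℕ) : ℝ) * d < v := by
      refine ⟨(volume E).toReal, (ENNReal.ofReal_toReal hEfin.ne).symm, ?_⟩
      rw [ENNReal.ofReal_lt_iff_lt_toReal (by positivity) hEfin.ne] at hE
      exact hE
    set ε := (v - ((n + 1 : ℕ) : ℝ) * d) / 2 with hε
    have hε0 : 0 < ε := by rw [hε]; linarith
    obtain ⟨x, hxE, hx⟩ := exists_lt_of_lt_csSup hne (by linarith : b - ε < b)
    set E' := E ∩ Iic (x - d) with hE'
    have hsub : E ⊆ E' ∪ Ioc (x - d) b := by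
      intro y hy
      rcases le_or_gt y (x - d) with h | h
      · exact Or.inl ⟨hy, h⟩
      · exact Or.inr ⟨h, le_csSup hba hy⟩
    have h1 : volume E ≤ volume E' + volume (Ioc (x - d) b) := (measure_mono hsub).trans (measure_union_le _ _)
    have h2 : volume (Ioc (x - d) b) ≤ ENNReal.ofReal (d + ε) := by
      rw [Real.volume_Ioc]
      apply ENNReal.ofReal_le_ofReal
      linarith
    have h3 : ENNReal.ofReal (n * d) < volume E' := by
      by_contra h4
      push Not at h4
      have h5 : ENNReal.ofReal v ≤ ENNReal.ofReal (n * d + (d + ε)) := by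
        rw [ENNReal.ofReal_add (by positivity) (by positivity), ← hv1]
        exact h1.trans (add_le_add h4 h2)
      rw [ENNReal.ofReal_le_ofReal_iff (by positivity)] at h5
      push_cast at hv2 hε
      have h6 : v ≤ (n + 1) * d + ε := by linarith
      have h7 : 2 * ε = v - (n + 1) * d := by rw [hε]; ring
      linarith
    obtain ⟨x', hx'1, hx'2⟩ := ih E' (hb.subset inter_subset_left) h3
    refine ⟨fun i => if i = n + 1 then x else x' i, fun i hi => ?_, fun i hi => ?_⟩
    · by_cases h : i = n + 1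
      · simp only [h, if_true]; exact hxE
      · simp only [h, if_false]
        exact (hx'1 i (by omega)).1
    · have h : i ≠ n + 1 := by omega
      simp only [h, if_false]
      by_cases h' : i + 1 = n + 1
      · simp only [h', if_true]
        have hi' : i = n := by omega
        rw [hi']
        have := (hx'1 n le_rfl).2
        change x' n ≤ x - d at this
        linarith
      · simp only [h', if_false]
        exact hx'2 i (by omega)

theorem spaced_abs {d : ℝ} (hd : 0 < d) {n : ℕ} {x : ℕ → ℝ} (h : ∀ i < n, x i + d ≤ x (i + 1)) :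
    ∀ i j : ℕ, i ≤ j → j ≤ n → ((j : ℝ) - i) * d ≤ x j - x i := by
  intro i j hij
  induction j, hij using Nat.le_induction with
  | base => intro _; simp
  | succ j hij ih =>
    intro hj
    have h1 := ih (by omega)
    have h2 := h j (by omega)
    push_cast
    linarith

/-- the product of the distances -/
theorem prod_dist {n j : ℕ} (hj : j ≤ n) :
    ∏ i ∈ (Finset.range (n + 1)).erase j, |(j : ℝ) - i| = (j.factorial : ℝ) * ((n - j).factorial : ℝ) := by
  obtain ⟨m, rfl⟩ := Nat.exists_eq_add_of_le hj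
  have h1 : (Finset.range (j + m + 1)).erase j = Finset.range j ∪ Finset.Ico (j + 1) (j + m + 1) := by
    ext i
    simp only [Finset.mem_erase, Finset.mem_range, Finset.mem_union, Finset.mem_Ico]
    omega
  have h2 : Disjoint (Finset.range j) (Finset.Ico (j + 1) (j + m + 1)) := by
    rw [Finset.disjoint_left]
    intro i hi
    simp only [Finset.mem_range, Finset.mem_Ico] at *
    omega
  rw [h1, Finset.prod_union h2]
  congr 1
  · rw [← Finset.prod_range_reflect]
    have : ∀ i ∈ Finset.range j, |(j : ℝ) - ((j - 1 - i : ℕ) : ℝ)| = ((i + 1 : ℕ) : ℝ) := by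
      intro i hi
      rw [Finset.mem_range] at hi
      have : ((j - 1 - i : ℕ) : ℝ) = (j : ℝ) - 1 - i := by
        rw [Nat.cast_sub (by omega), Nat.cast_sub (by omega)]; push_cast; ring
      rw [this]
      push_cast
      rw [abs_of_nonneg (by ring_nf; positivity)]
      ring
    rw [Finset.prod_congr rfl this, ← Nat.cast_prod, Finset.prod_range_add_one_eq_factorial]
  · rw [Nat.add_sub_cancel_left, Finset.prod_Ico_eq_prod_range]
    have e : j + m + 1 - (j + 1) = m := by omega
    rw [e]
    have : ∀ i ∈ Finset.range m, |(j : ℝ) - ((j + 1 + i : ℕ) : ℝ)| = ((i + 1 : ℕ) : ℝ) := by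
      intro i _
      push_cast
      rw [abs_sub_comm, abs_of_nonneg (by ring_nf; positivity)]
      ring
    rw [Finset.prod_congr rfl this, ← Nat.cast_prod, Finset.prod_range_add_one_eq_factorial]

/-- Weights for the extrapolation to `0`. -/
theorem weights {r d : ℝ} (hd : 0 < d) (hr : 0 < r) {n : ℕ} {x : ℕ → ℝ} (hx : ∀ i < n, x i + d ≤ x (i + 1))
    (hxr : ∀ i ≤ n, |x i| ≤ r) : ∃ w : ℕ → ℂ,
      (∀ m ≤ n, ∑ j ∈ Finset.range (n + 1), w j * (x j : ℂ) ^ m = if m = 0 then 1 else 0) ∧
      ∑ j ∈ Finset.range (n + 1), ‖w j‖ ≤ (2 * r / d) ^ n / n.factorial := by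
  classical
  set s := Finset.range (n + 1) with hs
  set v : ℕ → ℂ := fun i => (x i : ℂ) with hv
  have hspace := spaced_abs hd hx
  have hne : ∀ i ∈ s, ∀ j ∈ s, i ≠ j → |(i : ℝ) - j| * d ≤ |x i - x j| := by
    intro i hi j hj hij
    rw [hs, Finset.mem_range] at hi hj
    rcases lt_or_gt_of_ne hij with h | h
    · have h1 := hspace i j h.le (by omega)
      have h2 : (i : ℝ) < j := by exact_mod_cast h
      rw [abs_sub_comm, abs_of_pos (by linarith), abs_sub_comm]
      exact h1.trans (le_abs_self _)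
    · have h1 := hspace j i h.le (by omega)
      have h2 : (j : ℝ) < i := by exact_mod_cast h
      rw [abs_of_pos (by linarith)]
      exact h1.trans (le_abs_self _)
  have hinj : Set.InjOn v s := by
    intro i hi j hj hij
    by_contra h
    have h1 := hne i hi j hj h
    have h2 : x i = x j := by
      have : (x i : ℂ) = (x j : ℂ) := hij
      exact_mod_cast this
    rw [h2, sub_self, abs_zero] at h1
    have h3 : (i : ℝ) - j ≠ 0 := by
      rw [sub_ne_zero]; exact_mod_cast h
    have h4 : 0 < |(i : ℝ) - j| * d := by positivity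
    linarith
  refine ⟨fun j => (Lagrange.basis s v j).eval 0, ?_, ?_⟩
  · intro m hm
    have h1 := Lagrange.eq_interpolate (s := s) (v := v) (f := (Polynomial.X : Polynomial ℂ) ^ m) hinj (by
      rw [Polynomial.degree_X_pow, hs, Finset.card_range]
      exact_mod_cast (by omega : m < n + 1))
    have h2 := congrArg (Polynomial.eval 0) h1
    rw [Lagrange.interpolate_apply, Polynomial.eval_finsetSum] at h2
    simp only [Polynomial.eval_mul, Polynomial.eval_C, Polynomial.eval_pow, Polynomial.eval_X] at h2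
    rw [zero_pow_eq] at h2
    rw [h2]
    apply Finset.sum_congr rfl
    intro j _
    rw [mul_comm]
  · have hb : ∀ j ∈ s, ‖(Lagrange.basis s v j).eval 0‖ ≤ (r / d) ^ n / ((j.factorial : ℝ) * ((n - j).factorial : ℝ)) := by
      intro j hj
      have hjn : j ≤ n := by rw [hs, Finset.mem_range] at hj; omega
      unfold Lagrange.basis
      rw [Polynomial.eval_prod, norm_prod]
      have h1 : ∀ i ∈ s.erase j, ‖(Lagrange.basisDivisor (v j) (v i)).eval 0‖ ≤ (r / d) * (|(j : ℝ) - i|)⁻¹ := by
        intro i hi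
        rw [Finset.mem_erase] at hi
        have h2 := hne j hj i hi.2 (Ne.symm hi.1)
        unfold Lagrange.basisDivisor
        rw [Polynomial.eval_mul, Polynomial.eval_C, Polynomial.eval_sub, Polynomial.eval_X, Polynomial.eval_C, norm_mul,
          norm_inv, zero_sub, norm_neg]
        have h3 : ‖v j - v i‖ = |x j - x i| := by
          rw [hv]
          simp only
          rw [← Complex.ofReal_sub, Complex.norm_real, Real.norm_eq_abs]
        have h4 : ‖v i‖ = |x i| := by
          rw [hv]
          simp only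
          rw [Complex.norm_real, Real.norm_eq_abs]
        rw [h3, h4]
        have h5 : (j : ℝ) - i ≠ 0 := by
          rw [sub_ne_zero]; exact_mod_cast (Ne.symm hi.1)
        have h6 : 0 < |(j : ℝ) - i| := abs_pos.2 h5
        have h7 := hxr i (by rw [hs, Finset.mem_range] at hi; omega)
        calc |x j - x i|⁻¹ * |x i| ≤ (|(j : ℝ) - i| * d)⁻¹ * r := by gcongr
          _ = r / d * |(j : ℝ) - i|⁻¹ := by rw [mul_inv]; ring
      refine (Finset.prod_le_prod (fun i _ => norm_nonneg _) h1).trans (le_of_eq ?_)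
      rw [Finset.prod_mul_distrib, Finset.prod_const, Finset.card_erase_of_mem hj, hs, Finset.card_range,
        Nat.add_sub_cancel, Finset.prod_inv_distrib, prod_dist hjn, ← div_eq_mul_inv]
    refine (Finset.sum_le_sum hb).trans (le_of_eq ?_)
    have h2 : ∑ j ∈ Finset.range (n + 1), (1 / ((j.factorial : ℝ) * ((n - j).factorial : ℝ))) = 2 ^ n / n.factorial := by
      rw [eq_div_iff (by positivity), Finset.sum_mul]
      have h3 : (2 : ℝ) ^ n = ∑ j ∈ Finset.range (n + 1), (n.choose j : ℝ) := by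
        have := Nat.sum_range_choose n
        exact_mod_cast this.symm
      rw [h3]
      apply Finset.sum_congr rfl
      intro j hj
      rw [Finset.mem_range] at hj
      have h4 := Nat.choose_mul_factorial_mul_factorial (by omega : j ≤ n)
      have h5 : (n.choose j : ℝ) * j.factorial * (n - j).factorial = n.factorial := by exact_mod_cast h4
      rw [← h5]
      field_simp
    have h3 : ∀ j ∈ s, (r / d) ^ n / ((j.factorial : ℝ) * ((n - j).factorial : ℝ)) =
        (r / d) ^ n * (1 / ((j.factorial : ℝ) * ((n - j).factorial : ℝ))) := by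
      intro j _; ring
    rw [Finset.sum_congr rfl h3, ← Finset.mul_sum, hs, h2]
    rw [show 2 * r / d = 2 * (r / d) by ring, mul_pow]
    ring

theorem pow_div_factorial (m : ℕ) : ((m : ℝ) + 1) ^ m / m.factorial ≤ Real.exp 1 ^ (m + 1) := by
  have h1 : ((m : ℝ) + 1) ^ m / m.factorial = ((m : ℝ) + 1) ^ (m + 1) / (m + 1).factorial := by
    rw [Nat.factorial_succ, pow_succ]
    push_cast
    field_simp
  rw [h1, ← Real.exp_nat_mul, mul_one]
  have h2 := Real.pow_div_factorial_le_exp ((m : ℝ) + 1) (by positivity) (m + 1)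
  push_cast
  exact h2

/-- A Remez type inequality for analytic functions. -/
theorem remez {Φ : ℂ → ℂ} {R M A r κ : ℝ} (hR : 0 < R) (hΦ : DifferentiableOn ℂ Φ (Metric.closedBall 0 R))
    (hM : ∀ z : ℂ, ‖z‖ ≤ R → ‖Φ z‖ ≤ M) (hr : 0 < r) (hrR : r ≤ R / 2) (hκ : 0 < κ) (hκ2 : κ ≤ 2) {E : Set ℝ}
    (hE : ∀ x ∈ E, |x| ≤ r) (hEv : ENNReal.ofReal (κ * r) ≤ volume E) (hA0 : 0 ≤ A) (hA : ∀ x ∈ E, ‖Φ x‖ ≤ A) (n : ℕ)
    (hn : 1 ≤ n) : ‖Φ 0‖ ≤ (2 * Real.exp 1 / κ) ^ n * (A + 2 * M * (r / R) ^ n) := by
  obtain ⟨m, rfl⟩ : ∃ m, n = m + 1 := ⟨n - 1, by omega⟩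
  have hM0 : 0 ≤ M := (norm_nonneg _).trans (hM 0 (by simpa using hR.le))
  set d := κ * r / (m + 1) with hd
  have hd0 : 0 < d := by positivity
  have hEb : Bornology.IsBounded E := by
    apply (Metric.isBounded_Icc (-r) r).subset
    intro x hx
    exact abs_le.1 (hE x hx)
  have hvol : ENNReal.ofReal (m * d) < volume E := by
    refine lt_of_lt_of_le ?_ hEv
    rw [ENNReal.ofReal_lt_ofReal_iff (by positivity)]
    have : (m + 1) * d = κ * r := by rw [hd]; field_simp
    linarith
  obtain ⟨x, hx1, hx2⟩ := spaced hd0 m E hEb hvol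
  obtain ⟨w, hw1, hw2⟩ := weights hd0 hr hx2 (fun i hi => hE _ (hx1 i hi))
  -- the Taylor coefficients
  set a : ℕ → ℂ := fun i => (i.factorial : ℂ)⁻¹ * iteratedDeriv i Φ 0 with ha
  have hdc : DiffContOnCl ℂ Φ (Metric.ball 0 R) := by
    apply DifferentiableOn.diffContOnCl
    rwa [closure_ball 0 hR.ne']
  have ha1 : ∀ i, ‖a i‖ ≤ M / R ^ i := by
    intro i
    have h1 := Complex.norm_iteratedDeriv_le_of_forall_mem_sphere_norm_le (n := i) hR hdc (C := M)
      (fun z hz => hM z (by rw [mem_sphere_zero_iff_norm] at hz; exact hz.le))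
    rw [ha]
    simp only
    rw [norm_mul, norm_inv, Complex.norm_natCast]
    calc (i.factorial : ℝ)⁻¹ * ‖iteratedDeriv i Φ 0‖ ≤ (i.factorial : ℝ)⁻¹ * (i.factorial * M / R ^ i) := by gcongr
      _ = M / R ^ i := by field_simp
  have hsum : ∀ y : ℝ, |y| ≤ r → HasSum (fun i => a i * (y : ℂ) ^ i) (Φ y) := by
    intro y hy
    have h1 := Complex.hasSum_taylorSeries_on_ball (c := (0 : ℂ)) (r := R) (f := Φ)
      (hΦ.mono Metric.ball_subset_closedBall) (z := (y : ℂ)) (by
        rw [mem_ball_zero_iff, Complex.norm_real, Real.norm_eq_abs]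
        linarith)
    have h2 : (fun i => a i * (y : ℂ) ^ i) = fun n => ((n.factorial : ℂ))⁻¹ • ((y : ℂ) - 0) ^ n • iteratedDeriv n Φ 0 := by
      funext i
      rw [ha]
      simp only [smul_eq_mul, sub_zero]
      ring
    rw [h2]
    exact h1
  have hq : r / R ≤ 1 / 2 := by
    rw [div_le_iff₀ hR]; linarith
  have hq0 : 0 ≤ r / R := by positivity
  have htail : ∀ y : ℝ, |y| ≤ r → ‖Φ y - ∑ i ∈ Finset.range (m + 1), a i * (y : ℂ) ^ i‖ ≤ 2 * M * (r / R) ^ (m + 1) := by
    intro y hy
    have h1 := (hasSum_nat_add_iff' (m + 1)).2 (hsum y hy)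
    have h2 : HasSum (fun i => M * (r / R) ^ (m + 1) * (1 / 2 : ℝ) ^ i) (M * (r / R) ^ (m + 1) * 2) :=
      hasSum_geometric_two.mul_left _
    have h3 := h1.norm_le_of_bounded h2 (fun i => by
      rw [norm_mul, norm_pow, Complex.norm_real, Real.norm_eq_abs]
      calc ‖a (i + (m + 1))‖ * |y| ^ (i + (m + 1)) ≤ M / R ^ (i + (m + 1)) * r ^ (i + (m + 1)) := by
            gcongr
            exact ha1 _
        _ = M * (r / R) ^ (m + 1) * (r / R) ^ i := by
            rw [div_pow, div_pow, pow_add R, pow_add r]; field_simp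
        _ ≤ M * (r / R) ^ (m + 1) * (1 / 2 : ℝ) ^ i := by gcongr)
    linarith
  -- the value at `0`
  have h0 : Φ 0 = ∑ j ∈ Finset.range (m + 1), w j * ∑ i ∈ Finset.range (m + 1), a i * (x j : ℂ) ^ i := by
    have h1 : Φ 0 = a 0 := by
      rw [ha]; simp
    have h2 : ∑ j ∈ Finset.range (m + 1), w j * ∑ i ∈ Finset.range (m + 1), a i * (x j : ℂ) ^ i =
        ∑ i ∈ Finset.range (m + 1), a i * ∑ j ∈ Finset.range (m + 1), w j * (x j : ℂ) ^ i := by
      simp_rw [Finset.mul_sum]
      rw [Finset.sum_comm]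
      apply Finset.sum_congr rfl
      intro i _
      apply Finset.sum_congr rfl
      intro j _
      ring
    rw [h2, h1]
    have h3 : ∀ i ∈ Finset.range (m + 1), a i * ∑ j ∈ Finset.range (m + 1), w j * (x j : ℂ) ^ i =
        if i = 0 then a 0 else 0 := by
      intro i hi
      rw [Finset.mem_range] at hi
      rw [hw1 i (by omega)]
      by_cases h : i = 0
      · simp [h]
      · simp [h]
    rw [Finset.sum_congr rfl h3]
    simp
  have hmain : ‖Φ 0‖ ≤ (∑ j ∈ Finset.range (m + 1), ‖w j‖) * (A + 2 * M * (r / R) ^ (m + 1)) := by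
    rw [h0, Finset.sum_mul]
    refine (norm_sum_le _ _).trans (Finset.sum_le_sum fun j hj => ?_)
    rw [Finset.mem_range] at hj
    rw [norm_mul]
    have h1 := hx1 j (by omega)
    have h2 := htail (x j) (hE _ h1)
    have h3 := hA _ h1
    have h4 : ‖∑ i ∈ Finset.range (m + 1), a i * (x j : ℂ) ^ i‖ ≤ A + 2 * M * (r / R) ^ (m + 1) := by
      have := norm_sub_le (Φ (x j)) (Φ (x j) - ∑ i ∈ Finset.range (m + 1), a i * (x j : ℂ) ^ i)
      rw [sub_sub_cancel] at this
      linarith
    gcongr
  refine hmain.trans ?_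
  have hB0 : 0 ≤ A + 2 * M * (r / R) ^ (m + 1) := by positivity
  apply mul_le_mul_of_nonneg_right _ hB0
  refine hw2.trans ?_
  have e1 : 2 * r / d = 2 / κ * (m + 1) := by rw [hd]; field_simp
  have h1κ : 1 ≤ 2 / κ := by rw [le_div_iff₀ hκ]; linarith
  rw [e1, mul_pow, mul_div_assoc]
  calc (2 / κ) ^ m * (((m : ℝ) + 1) ^ m / m.factorial) ≤ (2 / κ) ^ (m + 1) * Real.exp 1 ^ (m + 1) := by
        apply mul_le_mul _ (pow_div_factorial m) (by positivity) (by positivity)
        exact pow_le_pow_right₀ h1κ (by omega)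
    _ = (2 * Real.exp 1 / κ) ^ (m + 1) := by
        rw [← mul_pow]; congr 1; ring

end Pool.Agent.Helper156_SM
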