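import Pool.Agent.Helper156_SM.Remez

set_option autoImplicit false

/-!
# A Remez type inequality for analytic functions and sets of positive Frostman measure
-/

open MeasureTheory Set Filter

namespace Pool.Agent.Helper156_SM

/-- Quantiles of a measure on a set. -/
theorem quant {μ : Measure ℝ} {s K : ℝ} (hs : 0 < s)
    (hμ : ∀ x y : ℝ, x ≤ y → μ (Icc x y) ≤ ENNReal.ofReal (K * (y - x) ^ s)) {E : Set ℝ} {r : ℝ} (hr : 0 < r)
    (hE : ∀ x ∈ E, |x| ≤ r) {m : ℕ} {δ : ℝ} (hδ : 0 < δ) (h : ENNReal.ofReal ((m + 1) * δ) ≤ μ E) :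
    ∃ x : ℕ → ℝ, (∀ i ≤ m, x i ∈ E) ∧ ∀ i j : ℕ, i < j → j ≤ m → x i ≤ x j ∧ ((j : ℝ) - i) * δ ≤ K * (x j - x i) ^ s := by
  have hfin : ∀ A : Set ℝ, A ⊆ Icc (-r) r → μ A < ⊤ := by
    intro A hA
    refine (measure_mono hA).trans_lt ((hμ (-r) r (by linarith)).trans_lt ENNReal.ofReal_lt_top)
  have hEI : E ⊆ Icc (-r) r := fun x hx => abs_le.1 (hE x hx)
  set F : ℝ → ℝ := fun y => (μ (E ∩ Iic y)).toReal with hF
  have hFfin : ∀ y, μ (E ∩ Iic y) ≠ ⊤ := fun y => (hfin _ (inter_subset_left.trans hEI)).ne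
  have hmono : Monotone F := by
    intro x y hxy
    apply ENNReal.toReal_mono (hFfin y)
    exact measure_mono (inter_subset_inter_right _ (Iic_subset_Iic.2 hxy))
  have hKs : ∀ x y : ℝ, x < y → 0 ≤ (max K 0) * (y - x) ^ s := fun x y hxy => by
    have : 0 < y - x := by linarith
    positivity
  have hstep : ∀ x y : ℝ, x ≤ y → F y ≤ F x + max K 0 * (y - x) ^ s := by
    intro x y hxy
    have hp : 0 ≤ (y - x) ^ s := Real.rpow_nonneg (by linarith) _
    have h1 : μ (E ∩ Iic y) ≤ μ (E ∩ Iic x) + ENNReal.ofReal (max K 0 * (y - x) ^ s) := by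
      have h2 : E ∩ Iic y ⊆ (E ∩ Iic x) ∪ Icc x y := by
        intro z hz
        rcases le_or_gt z x with h3 | h3
        · exact Or.inl ⟨hz.1, h3⟩
        · exact Or.inr ⟨h3.le, hz.2⟩
      refine (measure_mono h2).trans ((measure_union_le _ _).trans (add_le_add le_rfl ((hμ x y hxy).trans ?_)))
      apply ENNReal.ofReal_le_ofReal
      exact mul_le_mul_of_nonneg_right (le_max_left _ _) hp
    have h3 := ENNReal.toReal_mono (ENNReal.add_ne_top.2 ⟨hFfin x, ENNReal.ofReal_ne_top⟩) h1
    rw [ENNReal.toReal_add (hFfin x) ENNReal.ofReal_ne_top, ENNReal.toReal_ofReal (by positivity)] at h3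
    exact h3
  -- the same with `K` itself
  have hstepK : ∀ x y : ℝ, x ≤ y → F x < F y → F y - F x ≤ K * (y - x) ^ s := by
    intro x y hxy hlt
    have hp : 0 ≤ (y - x) ^ s := Real.rpow_nonneg (by linarith) _
    have h1 := hstep x y hxy
    rcases le_or_gt 0 K with h2 | h2
    · rw [max_eq_left h2] at h1; linarith
    · rw [max_eq_right h2.le, zero_mul] at h1
      linarith
  have hcont : Continuous F := by
    rw [continuous_iff_continuousAt]
    intro x
    rw [ContinuousAt, tendsto_iff_norm_sub_tendsto_zero]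
    have hlim : Tendsto (fun y : ℝ => max K 0 * |y - x| ^ s) (nhds x) (nhds 0) := by
      have h1 : Continuous fun y : ℝ => max K 0 * |y - x| ^ s := by
        apply continuous_const.mul
        apply Continuous.rpow_const (by fun_prop)
        intro y
        right
        exact hs.le
      have h2 := h1.tendsto x
      rw [sub_self, abs_zero, Real.zero_rpow hs.ne', mul_zero] at h2
      exact h2
    refine squeeze_zero (fun y => norm_nonneg _) (fun y => ?_) hlim
    rw [Real.norm_eq_abs, abs_le]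
    rcases le_total x y with h1 | h1
    · have h2 := hstep x y h1
      have h3 := hmono h1
      rw [abs_of_nonneg (by linarith : 0 ≤ y - x)]
      constructor
      · have : 0 ≤ max K 0 * (y - x) ^ s := by
          have := Real.rpow_nonneg (by linarith : 0 ≤ y - x) s
          positivity
        linarith
      · linarith
    · have h2 := hstep y x h1
      have h3 := hmono h1
      have e1 : |y - x| = x - y := by rw [abs_sub_comm, abs_of_nonneg (by linarith)]
      rw [e1]
      constructor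
      · linarith
      · have : 0 ≤ max K 0 * (x - y) ^ s := by
          have := Real.rpow_nonneg (by linarith : 0 ≤ x - y) s
          positivity
        linarith
  have hF0 : F (-r - 1) = 0 := by
    have : E ∩ Iic (-r - 1) = ∅ := by
      rw [Set.eq_empty_iff_forall_notMem]
      rintro z ⟨h1, h2⟩
      have := (hEI h1).1
      change z ≤ -r - 1 at h2
      linarith
    rw [hF]
    simp [this]
  have hF1 : (m + 1) * δ ≤ F r := by
    have : E ∩ Iic r = E := by
      apply inter_eq_left.2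
      intro z hz
      exact (hEI hz).2
    rw [hF]
    simp only [this]
    have h1 := ENNReal.toReal_mono (hfin E hEI).ne h
    rwa [ENNReal.toReal_ofReal (by positivity)] at h1
  set η := δ / (2 * (m + 1)) with hη
  have hη0 : 0 < η := by positivity
  have hηm : (m + 1) * η = δ / 2 := by rw [hη]; field_simp
  have hpick : ∀ i : ℕ, i ≤ m → ∃ x ∈ E, i * (δ + η) ≤ F x ∧ F x ≤ i * (δ + η) + η := by
    intro i hi
    have him : (i : ℝ) ≤ m := by exact_mod_cast hi
    have hup : i * (δ + η) + η ≤ F r := by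
      have h1 : i * (δ + η) ≤ m * (δ + η) := by gcongr
      have h2 : m * (δ + η) + η = m * δ + (m + 1) * η := by ring
      rw [hηm] at h2
      have h3 : (m + 1) * δ = m * δ + δ := by ring
      linarith
    have hlow : (0 : ℝ) ≤ i * (δ + η) := by positivity
    have hr1 : -r - 1 ≤ r := by linarith
    obtain ⟨y2, hy2, hy2'⟩ := intermediate_value_Icc hr1 hcont.continuousOn (show i * (δ + η) + η ∈ Icc (F (-r - 1)) (F r) from
      ⟨by rw [hF0]; linarith, hup⟩)
    obtain ⟨y1, hy1, hy1'⟩ := intermediate_value_Icc hr1 hcont.continuousOn (show i * (δ + η) ∈ Icc (F (-r - 1)) (F r) from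
      ⟨by rw [hF0]; linarith, by linarith⟩)
    have hlt : y1 < y2 := by
      by_contra h1
      push Not at h1
      have := hmono h1
      rw [hy1', hy2'] at this
      linarith
    by_contra hne
    push Not at hne
    have heq : E ∩ Iic y2 ⊆ E ∩ Iic y1 := by
      rintro z ⟨h1, h2⟩
      refine ⟨h1, ?_⟩
      by_contra h3
      change ¬ z ≤ y1 at h3
      push Not at h3
      have h4 := hne z h1 (by rw [← hy1']; exact hmono h3.le)
      have h5 := hmono (show z ≤ y2 from h2)
      rw [hy2'] at h5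
      linarith
    have h6 : F y2 ≤ F y1 := ENNReal.toReal_mono (hFfin y1) (measure_mono heq)
    rw [hy1', hy2'] at h6
    linarith
  choose! x hx1 hx2 hx3 using hpick
  refine ⟨x, hx1, fun i j hij hj => ?_⟩
  have h1 := hx3 i (by omega)
  have h2 := hx2 j hj
  have hijr : (i : ℝ) + 1 ≤ j := by exact_mod_cast hij
  have h3 : ((j : ℝ) - i) * δ ≤ F (x j) - F (x i) := by
    have : 0 ≤ ((j : ℝ) - i - 1) * η := mul_nonneg (by linarith) hη0.le
    have e : (j : ℝ) * (δ + η) - (i * (δ + η) + η) = (j - i) * δ + (j - i - 1) * η := by ring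
    linarith
  have hlt : F (x i) < F (x j) := by
    have : 0 < ((j : ℝ) - i) * δ := mul_pos (by linarith) hδ
    linarith
  have hle : x i ≤ x j := by
    by_contra h4
    push Not at h4
    have := hmono h4.le
    linarith
  exact ⟨hle, h3.trans (hstepK _ _ hle hlt)⟩

/-- Weights for the extrapolation to `0`; the nodes satisfy `|x i - x j| ≥ ρ |i - j| ^ t`. -/
theorem weightsMu {r ρ t : ℝ} (hρ : 0 < ρ) (hr : 0 < r) (ht : 0 < t) {n : ℕ} {x : ℕ → ℝ}
    (hx : ∀ i ≤ n, ∀ j ≤ n, i ≠ j → |(i : ℝ) - j| ^ t * ρ ≤ |x i - x j|)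
    (hxr : ∀ i ≤ n, |x i| ≤ r) : ∃ w : ℕ → ℂ,
      (∀ m ≤ n, ∑ j ∈ Finset.range (n + 1), w j * (x j : ℂ) ^ m = if m = 0 then 1 else 0) ∧
      ∑ j ∈ Finset.range (n + 1), ‖w j‖ ≤ (n + 1) * ((r / ρ) ^ n * (2 ^ n / n.factorial) ^ t) := by
  classical
  set s := Finset.range (n + 1) with hs
  set v : ℕ → ℂ := fun i => (x i : ℂ) with hv
  have hne : ∀ i ∈ s, ∀ j ∈ s, i ≠ j → |(i : ℝ) - j| ^ t * ρ ≤ |x i - x j| := by
    intro i hi j hj hij
    rw [hs, Finset.mem_range] at hi hj
    exact hx i (by omega) j (by omega) hij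
  have habs : ∀ i j : ℕ, i ≠ j → 0 < |(i : ℝ) - j| := by
    intro i j hij
    apply abs_pos.2
    rw [sub_ne_zero]; exact_mod_cast hij
  have hinj : Set.InjOn v s := by
    intro i hi j hj hij
    by_contra h
    have h1 := hne i hi j hj h
    have h2 : x i = x j := by
      have : (x i : ℂ) = (x j : ℂ) := hij
      exact_mod_cast this
    rw [h2, sub_self, abs_zero] at h1
    have h3 := habs i j h
    have h4 : 0 < |(i : ℝ) - j| ^ t * ρ := by positivity
    linarith
  refine ⟨fun j => (Lagrange.basis s v j).eval 0, ?_, ?_⟩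
  · intro m hm
    have h1 := Lagrange.eq_interpolate (s := s) (v := v) (f := (Polynomial.X : Polynomial ℂ) ^ m) hinj (by
      rw [Polynomial.degree_X_pow, hs, Finset.card_range]
      exact_mod_cast (by omega : m < n + 1))
    have h2 := congrArg (Polynomial.eval 0) h1
    rw [Lagrange.interpolate_apply, Polynomial.eval_finsetSum] at h2
    simp only [Polynomial.eval_mul, Polynomial.eval_C, Polynomial.eval_pow, Polynomial.eval_X] at h2
    rw [zero_pow_eq] at h2
    rw [h2]
    apply Finset.sum_congr rfl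
    intro j _
    rw [mul_comm]
  · have hb : ∀ j ∈ s, ‖(Lagrange.basis s v j).eval 0‖ ≤ (r / ρ) ^ n * (2 ^ n / n.factorial) ^ t := by
      intro j hj
      have hjn : j ≤ n := by rw [hs, Finset.mem_range] at hj; omega
      unfold Lagrange.basis
      rw [Polynomial.eval_prod, norm_prod]
      have h1 : ∀ i ∈ s.erase j, ‖(Lagrange.basisDivisor (v j) (v i)).eval 0‖ ≤ (r / ρ) * (|(j : ℝ) - i|⁻¹) ^ t := by
        intro i hi
        rw [Finset.mem_erase] at hi
        have h2 := hne j hj i hi.2 (Ne.symm hi.1)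
        unfold Lagrange.basisDivisor
        rw [Polynomial.eval_mul, Polynomial.eval_C, Polynomial.eval_sub, Polynomial.eval_X, Polynomial.eval_C, norm_mul,
          norm_inv, zero_sub, norm_neg]
        have h3 : ‖v j - v i‖ = |x j - x i| := by
          rw [hv]
          simp only
          rw [← Complex.ofReal_sub, Complex.norm_real, Real.norm_eq_abs]
        have h4 : ‖v i‖ = |x i| := by
          rw [hv]
          simp only
          rw [Complex.norm_real, Real.norm_eq_abs]
        rw [h3, h4]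
        have h6 := habs j i (Ne.symm hi.1)
        have h7 := hxr i (by rw [hs, Finset.mem_range] at hi; omega)
        rw [Real.inv_rpow h6.le]
        calc |x j - x i|⁻¹ * |x i| ≤ (|(j : ℝ) - i| ^ t * ρ)⁻¹ * r := by gcongr
          _ = r / ρ * (|(j : ℝ) - i| ^ t)⁻¹ := by rw [mul_inv]; ring
      refine (Finset.prod_le_prod (fun i _ => norm_nonneg _) h1).trans ?_
      rw [Finset.prod_mul_distrib, Finset.prod_const, Finset.card_erase_of_mem hj, hs, Finset.card_range,
        Nat.add_sub_cancel, Real.finsetProd_rpow _ _ (fun i _ => by positivity), Finset.prod_inv_distrib, prod_dist hjn]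
      apply mul_le_mul_of_nonneg_left _ (by positivity)
      apply Real.rpow_le_rpow (by positivity) _ ht.le
      have h4 := Nat.choose_mul_factorial_mul_factorial hjn
      have h5 : (n.choose j : ℝ) * j.factorial * (n - j).factorial = n.factorial := by exact_mod_cast h4
      have h6 : (n.choose j : ℝ) ≤ 2 ^ n := by exact_mod_cast Nat.choose_le_two_pow n j
      rw [inv_eq_one_div, div_le_div_iff₀ (by positivity) (by positivity), one_mul, ← h5, mul_assoc]
      gcongr
    refine (Finset.sum_le_sum hb).trans (le_of_eq ?_)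
    rw [Finset.sum_const, hs, Finset.card_range, nsmul_eq_mul]
    push_cast
    ring

/-- A Remez type inequality for analytic functions and Frostman measures. -/
theorem remezMu {μ : Measure ℝ} {s K : ℝ} (hs : 0 < s)
    (hμ : ∀ x y : ℝ, x ≤ y → μ (Icc x y) ≤ ENNReal.ofReal (K * (y - x) ^ s))
    {Φ : ℂ → ℂ} {R M A r κ : ℝ} (hR : 0 < R) (hΦ : DifferentiableOn ℂ Φ (Metric.closedBall 0 R))
    (hM : ∀ z : ℂ, ‖z‖ ≤ R → ‖Φ z‖ ≤ M) (hr : 0 < r) (hrR : r ≤ R / 2) (hκ : 0 < κ) (hκ2 : κ ≤ K) {E : Set ℝ}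
    (hE : ∀ x ∈ E, |x| ≤ r) (hEv : ENNReal.ofReal (κ * r ^ s) ≤ μ E) (hA0 : 0 ≤ A) (hA : ∀ x ∈ E, ‖Φ x‖ ≤ A) (n : ℕ)
    (hn : 1 ≤ n) : ‖Φ 0‖ ≤ (2 * (2 * Real.exp 1 * K / κ) ^ (1 / s)) ^ n * (A + 2 * M * (r / R) ^ n) := by
  obtain ⟨m, rfl⟩ : ∃ m, n = m + 1 := ⟨n - 1, by omega⟩
  have hM0 : 0 ≤ M := (norm_nonneg _).trans (hM 0 (by simpa using hR.le))
  have hK0 : 0 < K := hκ.trans_le hκ2
  set δ := κ * r ^ s / (m + 1) with hδ
  have hrs : 0 < r ^ s := Real.rpow_pos_of_pos hr s
  have hδ0 : 0 < δ := by positivity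
  have hvol : ENNReal.ofReal ((m + 1) * δ) ≤ μ E := by
    refine le_trans (le_of_eq ?_) hEv
    congr 1
    rw [hδ]; field_simp
  obtain ⟨x, hx1, hx2⟩ := quant hs hμ hr hE hδ0 hvol
  set t := 1 / s with ht
  have ht0 : 0 < t := by positivity
  set ρ := (δ / K) ^ t with hρ
  have hρ0 : 0 < ρ := by positivity
  have hdist : ∀ i ≤ m, ∀ j ≤ m, i ≠ j → |(i : ℝ) - j| ^ t * ρ ≤ |x i - x j| := by
    have key : ∀ i j : ℕ, i < j → j ≤ m → |(j : ℝ) - i| ^ t * ρ ≤ |x j - x i| := by
      intro i j hij hj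
      obtain ⟨h1, h2⟩ := hx2 i j hij hj
      have hijr : (i : ℝ) < j := by exact_mod_cast hij
      have h3 : 0 ≤ x j - x i := by linarith
      rw [abs_of_pos (by linarith), abs_of_nonneg h3, hρ, ← Real.mul_rpow (by linarith) (by positivity)]
      have h4 : ((j : ℝ) - i) * (δ / K) ≤ (x j - x i) ^ s := by
        rw [← mul_div_assoc, div_le_iff₀ hK0]
        linarith
      calc (((j : ℝ) - i) * (δ / K)) ^ t ≤ ((x j - x i) ^ s) ^ t :=
            Real.rpow_le_rpow (mul_nonneg (by linarith) (by positivity)) h4 ht0.le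
        _ = x j - x i := by
            rw [← Real.rpow_mul h3, ht, mul_one_div_cancel hs.ne', Real.rpow_one]
    intro i hi j hj hij
    rcases lt_or_gt_of_ne hij with h | h
    · have h1 := key i j h hj
      rwa [abs_sub_comm (j : ℝ), abs_sub_comm (x j)] at h1
    · exact key j i h hi
  obtain ⟨w, hw1, hw2⟩ := weightsMu hρ0 hr ht0 hdist (fun i hi => hE _ (hx1 i hi))
  -- the Taylor coefficients
  set a : ℕ → ℂ := fun i => (i.factorial : ℂ)⁻¹ * iteratedDeriv i Φ 0 with ha
  have hdc : DiffContOnCl ℂ Φ (Metric.ball 0 R) := by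
    apply DifferentiableOn.diffContOnCl
    rwa [closure_ball 0 hR.ne']
  have ha1 : ∀ i, ‖a i‖ ≤ M / R ^ i := by
    intro i
    have h1 := Complex.norm_iteratedDeriv_le_of_forall_mem_sphere_norm_le (n := i) hR hdc (C := M)
      (fun z hz => hM z (by rw [mem_sphere_zero_iff_norm] at hz; exact hz.le))
    rw [ha]
    simp only
    rw [norm_mul, norm_inv, Complex.norm_natCast]
    calc (i.factorial : ℝ)⁻¹ * ‖iteratedDeriv i Φ 0‖ ≤ (i.factorial : ℝ)⁻¹ * (i.factorial * M / R ^ i) := by gcongr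
      _ = M / R ^ i := by field_simp
  have hsum : ∀ y : ℝ, |y| ≤ r → HasSum (fun i => a i * (y : ℂ) ^ i) (Φ y) := by
    intro y hy
    have h1 := Complex.hasSum_taylorSeries_on_ball (c := (0 : ℂ)) (r := R) (f := Φ)
      (hΦ.mono Metric.ball_subset_closedBall) (z := (y : ℂ)) (by
        rw [mem_ball_zero_iff, Complex.norm_real, Real.norm_eq_abs]
        linarith)
    have h2 : (fun i => a i * (y : ℂ) ^ i) = fun n => ((n.factorial : ℂ))⁻¹ • ((y : ℂ) - 0) ^ n • iteratedDeriv n Φ 0 := by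
      funext i
      rw [ha]
      simp only [smul_eq_mul, sub_zero]
      ring
    rw [h2]
    exact h1
  have hq : r / R ≤ 1 / 2 := by
    rw [div_le_iff₀ hR]; linarith
  have hq0 : 0 ≤ r / R := by positivity
  have htail : ∀ y : ℝ, |y| ≤ r → ‖Φ y - ∑ i ∈ Finset.range (m + 1), a i * (y : ℂ) ^ i‖ ≤ 2 * M * (r / R) ^ (m + 1) := by
    intro y hy
    have h1 := (hasSum_nat_add_iff' (m + 1)).2 (hsum y hy)
    have h2 : HasSum (fun i => M * (r / R) ^ (m + 1) * (1 / 2 : ℝ) ^ i) (M * (r / R) ^ (m + 1) * 2) :=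
      hasSum_geometric_two.mul_left _
    have h3 := h1.norm_le_of_bounded h2 (fun i => by
      rw [norm_mul, norm_pow, Complex.norm_real, Real.norm_eq_abs]
      calc ‖a (i + (m + 1))‖ * |y| ^ (i + (m + 1)) ≤ M / R ^ (i + (m + 1)) * r ^ (i + (m + 1)) := by
            gcongr
            exact ha1 _
        _ = M * (r / R) ^ (m + 1) * (r / R) ^ i := by
            rw [div_pow, div_pow, pow_add R, pow_add r]; field_simp
        _ ≤ M * (r / R) ^ (m + 1) * (1 / 2 : ℝ) ^ i := by gcongr)
    linarith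
  -- the value at `0`
  have h0 : Φ 0 = ∑ j ∈ Finset.range (m + 1), w j * ∑ i ∈ Finset.range (m + 1), a i * (x j : ℂ) ^ i := by
    have h1 : Φ 0 = a 0 := by
      rw [ha]; simp
    have h2 : ∑ j ∈ Finset.range (m + 1), w j * ∑ i ∈ Finset.range (m + 1), a i * (x j : ℂ) ^ i =
        ∑ i ∈ Finset.range (m + 1), a i * ∑ j ∈ Finset.range (m + 1), w j * (x j : ℂ) ^ i := by
      simp_rw [Finset.mul_sum]
      rw [Finset.sum_comm]
      apply Finset.sum_congr rfl
      intro i _
      apply Finset.sum_congr rfl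
      intro j _
      ring
    rw [h2, h1]
    have h3 : ∀ i ∈ Finset.range (m + 1), a i * ∑ j ∈ Finset.range (m + 1), w j * (x j : ℂ) ^ i =
        if i = 0 then a 0 else 0 := by
      intro i hi
      rw [Finset.mem_range] at hi
      rw [hw1 i (by omega)]
      by_cases h : i = 0
      · simp [h]
      · simp [h]
    rw [Finset.sum_congr rfl h3]
    simp
  have hmain : ‖Φ 0‖ ≤ (∑ j ∈ Finset.range (m + 1), ‖w j‖) * (A + 2 * M * (r / R) ^ (m + 1)) := by
    rw [h0, Finset.sum_mul]
    refine (norm_sum_le _ _).trans (Finset.sum_le_sum fun j hj => ?_)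
    rw [Finset.mem_range] at hj
    rw [norm_mul]
    have h1 := hx1 j (by omega)
    have h2 := htail (x j) (hE _ h1)
    have h3 := hA _ h1
    have h4 : ‖∑ i ∈ Finset.range (m + 1), a i * (x j : ℂ) ^ i‖ ≤ A + 2 * M * (r / R) ^ (m + 1) := by
      have := norm_sub_le (Φ (x j)) (Φ (x j) - ∑ i ∈ Finset.range (m + 1), a i * (x j : ℂ) ^ i)
      rw [sub_sub_cancel] at this
      linarith
    gcongr
  refine hmain.trans ?_
  have hB0 : 0 ≤ A + 2 * M * (r / R) ^ (m + 1) := by positivity
  apply mul_le_mul_of_nonneg_right _ hB0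
  refine hw2.trans ?_
  -- the constants
  have e1 : r / ρ = (K / κ) ^ t * ((m : ℝ) + 1) ^ t := by
    rw [hρ, hδ, ← Real.mul_rpow (by positivity) (by positivity)]
    have h5 : κ * r ^ s / (m + 1) / K = (r ^ s) * (K / κ * ((m : ℝ) + 1))⁻¹ := by field_simp
    rw [h5, Real.mul_rpow hrs.le (by positivity), ← Real.rpow_mul hr.le, ht, mul_one_div_cancel hs.ne', Real.rpow_one,
      Real.inv_rpow (by positivity)]
    field_simp
  have h1κ : 1 ≤ K / κ := by rw [le_div_iff₀ hκ]; linarith
  have e2 : (r / ρ) ^ m * (2 ^ m / (m.factorial : ℝ)) ^ t =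
      ((2 * (K / κ)) ^ m * (((m : ℝ) + 1) ^ m / m.factorial)) ^ t := by
    rw [e1, ← Real.mul_rpow (by positivity) (by positivity), ← Real.rpow_natCast (_ ^ t) m,
      ← Real.rpow_mul (by positivity), mul_comm t (m : ℝ), Real.rpow_mul (by positivity), Real.rpow_natCast,
      ← Real.mul_rpow (by positivity) (by positivity)]
    congr 1
    rw [mul_pow, mul_pow]
    ring
  rw [e2]
  have e3 : (2 * (K / κ)) ^ m * (((m : ℝ) + 1) ^ m / m.factorial) ≤ (2 * Real.exp 1 * K / κ) ^ (m + 1) := by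
    calc (2 * (K / κ)) ^ m * (((m : ℝ) + 1) ^ m / m.factorial)
        ≤ (2 * (K / κ)) ^ (m + 1) * Real.exp 1 ^ (m + 1) := by
          apply mul_le_mul _ (pow_div_factorial m) (by positivity) (by positivity)
          exact pow_le_pow_right₀ (by linarith) (by omega)
      _ = (2 * Real.exp 1 * K / κ) ^ (m + 1) := by
          rw [← mul_pow]; congr 1; ring
  have e4 : ((2 * (K / κ)) ^ m * (((m : ℝ) + 1) ^ m / m.factorial)) ^ t ≤
      ((2 * Real.exp 1 * K / κ) ^ t) ^ (m + 1) := by
    refine (Real.rpow_le_rpow (by positivity) e3 ht0.le).trans (le_of_eq ?_)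
    rw [← Real.rpow_natCast _ (m + 1), ← Real.rpow_natCast _ (m + 1), ← Real.rpow_mul (by positivity),
      ← Real.rpow_mul (by positivity), mul_comm t]
  have e5 : (m : ℝ) + 1 ≤ 2 ^ (m + 1) := by
    have h6 : m + 1 < 2 ^ (m + 1) := Nat.lt_two_pow_self
    exact_mod_cast h6.le
  have e6 : (2 * (2 * Real.exp 1 * K / κ) ^ t) ^ (m + 1) = 2 ^ (m + 1) * ((2 * Real.exp 1 * K / κ) ^ t) ^ (m + 1) :=
    mul_pow _ _ _
  rw [e6]
  exact mul_le_mul e5 e4 (by positivity) (by positivity)

end Pool.Agent.Helper156_SM
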