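import Pool.Agent.Helper156_SM.RemezMu
import Pool.Agent.Helper156_SM.Near
import Pool.Agent.Helper156_SM.Glob

set_option autoImplicit false

/-!
# Thick sets of shifts control the unshifted integrals
-/

open MeasureTheory Set Filter

namespace Pool.Agent.Helper156_SM

open Pool.Agent.Helper156_EK

/-- `E` is thick at `0`: for some measure `μ` with `μ [x, y] ≤ K (y - x) ^ s`, `s > 0`, and for every `c > 0`, the
outer measure of `E ∩ [-r, r]` is at least `r ^ (s + c)` for arbitrarily small `r`. -/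
def Thick (E : Set ℝ) : Prop :=
  ∃ (μ : Measure ℝ) (s K : ℝ), 0 < s ∧
    (∀ x y : ℝ, x ≤ y → μ (Icc x y) ≤ ENNReal.ofReal (K * (y - x) ^ s)) ∧
    ∀ c : ℝ, 0 < c → ∀ r₀ : ℝ, 0 < r₀ → ∃ r : ℝ, 0 < r ∧ r ≤ r₀ ∧
      ENNReal.ofReal (r ^ (s + c)) ≤ μ (E ∩ Icc (-r) r)

/-- The integrals of `zk` for a set of shifts on which one has a Remez inequality. -/
theorem near_gen (k : ℕ) {μ : Measure ℝ} {s K : ℝ} (hs : 0 < s)
    (hμ : ∀ x y : ℝ, x ≤ y → μ (Icc x y) ≤ ENNReal.ofReal (K * (y - x) ^ s)) (hK : 1 ≤ K) {ε : ℝ} (hε : 0 < ε) :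
    ∃ c r₀ : ℝ, 0 < c ∧ 0 < r₀ ∧ r₀ ≤ 1 / 4 ∧ ∀ r : ℝ, 0 < r → r ≤ r₀ → ∀ᶠ T : ℝ in atTop,
      ∀ E : Set ℝ, ENNReal.ofReal (r ^ (s + c) / 2) ≤ μ (E ∩ Icc (-r) r) →
      ∀ a b A : ℝ, T ≤ a → a ≤ b → b ≤ 2 * T → 0 ≤ A →
        (∀ u ∈ E, |u| ≤ r → ‖∫ t in a..b, zk k (1 / 2 + u * Complex.I) t‖ ≤ A) →
        ∫ t in a..b, fk k t ≤ T ^ ε * A + 1 := by
  obtain ⟨C, B, hC, hB, hcr⟩ := zk_crude k
  set L := 2 * (B + 2) / ε with hL
  have hL0 : 0 < L := by positivity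
  set c := s / (2 * (1 + L)) with hc
  have hc0 : 0 < c := by positivity
  set Q0 := 2 * (4 * Real.exp 1 * K) ^ (1 / s) with hQ0
  have he1 : 1 ≤ 4 * Real.exp 1 * K := by
    have := Real.exp_one_gt_d9
    nlinarith
  have hQ01 : 2 ≤ Q0 := by
    have : 1 ≤ (4 * Real.exp 1 * K) ^ (1 / s) := Real.one_le_rpow he1 (by positivity)
    rw [hQ0]; linarith
  set r₀ := min (1 / 4) ((2 * Q0 ^ (1 + L)) ^ (-2 : ℝ)) with hr₀
  have hr₀0 : 0 < r₀ := lt_min (by norm_num) (by positivity)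
  refine ⟨c, r₀, hc0, hr₀0, min_le_left _ _, fun r hr hrr => ?_⟩
  have hr4 : r ≤ 1 / 4 := hrr.trans (min_le_left _ _)
  have hr2 : r ≤ (2 * Q0 ^ (1 + L)) ^ (-2 : ℝ) := hrr.trans (min_le_right _ _)
  set κ := r ^ c / 2 with hκ
  have hκ0 : 0 < κ := by positivity
  have hκ1 : κ ≤ 1 := by
    have : r ^ c ≤ 1 := Real.rpow_le_one hr.le (by linarith) hc0.le
    rw [hκ]; linarith
  set Q := 2 * (2 * Real.exp 1 * K / κ) ^ (1 / s) with hQ
  have hQe : Q = Q0 * r ^ (-(c / s)) := by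
    rw [hQ, hQ0, hκ]
    have h1 : 2 * Real.exp 1 * K / (r ^ c / 2) = (4 * Real.exp 1 * K) * r ^ (-c) := by
      rw [Real.rpow_neg hr.le]; field_simp; ring
    rw [h1, Real.mul_rpow (by positivity) (by positivity), ← Real.rpow_mul hr.le]
    have h2 : -c * (1 / s) = -(c / s) := by ring
    rw [h2]; ring
  have hQ2 : 2 ≤ Q := by
    rw [hQe]
    have : 1 ≤ r ^ (-(c / s)) := Real.one_le_rpow_of_pos_of_le_one_of_nonpos hr (by linarith)
      (by have : 0 < c / s := by positivity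
          linarith)
    nlinarith
  have hQpos : 0 < Q := by linarith
  have hlQ : 0 < Real.log Q := Real.log_pos (by linarith)
  -- the main inequality for `r`
  have hkey : 2 * r * Q ^ (1 + L) ≤ 1 := by
    have h1 : Q ^ (1 + L) = Q0 ^ (1 + L) * r ^ (-(1 / 2 : ℝ)) := by
      rw [hQe, Real.mul_rpow (by positivity) (by positivity), ← Real.rpow_mul hr.le]
      congr 2
      rw [hc]; field_simp
    rw [h1]
    have h2 : r * r ^ (-(1 / 2 : ℝ)) = r ^ (1 / 2 : ℝ) := by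
      nth_rw 1 [← Real.rpow_one r]
      rw [← Real.rpow_add hr]
      norm_num
    have h3 : 2 * r * (Q0 ^ (1 + L) * r ^ (-(1 / 2 : ℝ))) = 2 * Q0 ^ (1 + L) * (r * r ^ (-(1 / 2 : ℝ))) := by ring
    rw [h3, h2]
    have h4 : r ^ (1 / 2 : ℝ) ≤ (2 * Q0 ^ (1 + L)) ^ (-1 : ℝ) := by
      have h5 := Real.rpow_le_rpow hr.le hr2 (by norm_num : (0 : ℝ) ≤ 1 / 2)
      rw [← Real.rpow_mul (by positivity)] at h5
      norm_num at h5
      norm_num
      exact h5
    rw [Real.rpow_neg_one] at h4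
    calc 2 * Q0 ^ (1 + L) * r ^ (1 / 2 : ℝ) ≤ 2 * Q0 ^ (1 + L) * (2 * Q0 ^ (1 + L))⁻¹ := by gcongr
      _ = 1 := by field_simp
  set lam := ε / (2 * Real.log Q) with hlam
  have hlam0 : 0 < lam := by positivity
  have hx : Q * (r / (1 / 2)) ≤ Real.exp (-((B + 2) / lam)) := by
    have h1 : (B + 2) / lam = L * Real.log Q := by
      rw [hlam, hL]; field_simp
    rw [h1, show -(L * Real.log Q) = Real.log Q * (-L) by ring, ← Real.rpow_def_of_pos hQpos, Real.rpow_neg hQpos.le]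
    have h2 : Q ^ (1 + L) = Q * Q ^ L := by rw [Real.rpow_add hQpos, Real.rpow_one]
    rw [h2] at hkey
    have h3 : 0 < Q ^ L := Real.rpow_pos_of_pos hQpos L
    rw [← one_div, le_div_iff₀ h3]
    calc Q * (r / (1 / 2)) * Q ^ L = 2 * r * (Q * Q ^ L) := by ring
      _ ≤ 1 := hkey
  have ev1 := ev_pow Q (a := ε / 2) (b := ε) (by linarith)
  have ev2 := ev_pow (2 * C) (a := -1) (b := 0) (by norm_num)
  filter_upwards [ev1, ev2, eventually_gt_atTop 1] with T e1 e2 hT E hvol a b A ha hab hb hA0 hEA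
  have hT0 : 0 < T := by linarith
  set Φ : ℂ → ℂ := fun z => ∫ t in a..b, zk k (1 / 2 + z * Complex.I) t with hΦ
  set n := ⌈lam * Real.log T⌉₊ with hn
  have hlT : 0 < Real.log T := Real.log_pos hT
  have hn0 : 0 < lam * Real.log T := by positivity
  have hn1 : 1 ≤ n := by
    rw [hn]
    exact Nat.one_le_iff_ne_zero.2 (Nat.ceil_pos.2 hn0).ne'
  have hn2 : lam * Real.log T ≤ n := Nat.le_ceil _
  have hn3 : (n : ℝ) ≤ lam * Real.log T + 1 := (Nat.ceil_lt_add_one hn0.le).le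
  have hre : ∀ z : ℂ, ‖z‖ ≤ 1 / 2 → 0 ≤ (1 / 2 + z * Complex.I).re ∧ (1 / 2 + z * Complex.I).re ≤ 3 ∧
      |(1 / 2 + z * Complex.I).im| ≤ T / 2 := by
    intro z hz
    have h1 := (Complex.abs_im_le_norm z).trans hz
    have h2 := (Complex.abs_re_le_norm z).trans hz
    have h3 := abs_le.1 h1
    have e3 : (1 / 2 + z * Complex.I).re = 1 / 2 - z.im := by simp; ring
    have e4 : (1 / 2 + z * Complex.I).im = z.re := by simp
    rw [e3, e4]
    refine ⟨by linarith, by linarith, by linarith⟩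
  have hdiff : DifferentiableOn ℂ Φ (Metric.closedBall 0 (1 / 2)) := by
    have h1 := zkint_diff k hT0 ha hab hb
    have h2 : MapsTo (fun z : ℂ => 1 / 2 + z * Complex.I) (Metric.closedBall 0 (1 / 2)) {s : ℂ | |s.im| < T} := by
      intro z hz
      rw [mem_closedBall_zero_iff] at hz
      have := (hre z hz).2.2
      change |(1 / 2 + z * Complex.I).im| < T
      linarith
    exact h1.comp (by fun_prop) h2
  have hM : ∀ z : ℂ, ‖z‖ ≤ 1 / 2 → ‖Φ z‖ ≤ C * T ^ (B + 1) := by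
    intro z hz
    obtain ⟨h1, h2, h3⟩ := hre z hz
    rw [hΦ]
    simp only
    have h4 := intervalIntegral.norm_integral_le_of_norm_le_const (a := a) (b := b) (C := C * T ^ B)
      (f := fun t => zk k (1 / 2 + z * Complex.I) t) (fun t ht => by
        rw [uIoc_of_le hab] at ht
        exact hcr T t hT.le ⟨ha.trans ht.1.le, ht.2.trans hb⟩ _ h1 h2 h3)
    rw [abs_of_nonneg (by linarith)] at h4
    refine h4.trans ?_
    have h5 : b - a ≤ T := by linarith
    calc C * T ^ B * (b - a) ≤ C * T ^ B * T := by gcongr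
      _ = C * T ^ (B + 1) := by rw [Real.rpow_add hT0, Real.rpow_one]; ring
  have hvol' : ENNReal.ofReal (κ * r ^ s) ≤ μ (E ∩ Icc (-r) r) := by
    refine le_trans (le_of_eq ?_) hvol
    congr 1
    rw [hκ, Real.rpow_add hr]; ring
  have hmain := remezMu hs hμ (by norm_num : (0 : ℝ) < 1 / 2) hdiff hM hr (by linarith) hκ0 (hκ1.trans hK)
    (fun u hu => abs_le.2 hu.2) hvol' hA0 (fun u hu => hEA u hu.1 (abs_le.2 hu.2)) n hn1
  rw [← hQ] at hmain
  have h0 : ∫ t in a..b, fk k t = ‖Φ 0‖ := by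
    rw [hΦ]
    simp only [zero_mul, add_zero]
    rw [zkint_half, Complex.norm_real, Real.norm_of_nonneg]
    exact intervalIntegral.integral_nonneg hab fun t _ => fk_nonneg k t
  rw [h0]
  refine hmain.trans ?_
  -- the two factors
  have f1 : Q ^ n ≤ T ^ ε := by
    calc Q ^ n = Q ^ (n : ℝ) := (Real.rpow_natCast Q n).symm
      _ ≤ Q ^ (lam * Real.log T + 1) := Real.rpow_le_rpow_of_exponent_le (by linarith) hn3
      _ = Q ^ (lam * Real.log T) * Q := by rw [Real.rpow_add hQpos, Real.rpow_one]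
      _ = T ^ (ε / 2) * Q := by
          congr 1
          rw [Real.rpow_def_of_pos hQpos, Real.rpow_def_of_pos hT0]
          congr 1
          rw [hlam]
          field_simp
      _ ≤ T ^ ε := by linarith
  have f2 : Q ^ n * (2 * (C * T ^ (B + 1)) * (r / (1 / 2)) ^ n) ≤ 1 := by
    have h1 : Q ^ n * (2 * (C * T ^ (B + 1)) * (r / (1 / 2)) ^ n) = 2 * C * T ^ (B + 1) * (Q * (r / (1 / 2))) ^ n := by
      rw [mul_pow Q]; ring
    rw [h1]
    have h3 : Real.exp (-((B + 2) / lam)) ^ n ≤ T ^ (-(B + 2)) := by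
      rw [← Real.exp_nat_mul, Real.rpow_def_of_pos hT0]
      apply Real.exp_le_exp.2
      have : (B + 2) / lam * (lam * Real.log T) ≤ (B + 2) / lam * n := by gcongr
      have e5 : (B + 2) / lam * (lam * Real.log T) = (B + 2) * Real.log T := by field_simp
      linarith
    have h4 : (Q * (r / (1 / 2))) ^ n ≤ Real.exp (-((B + 2) / lam)) ^ n := pow_le_pow_left₀ (by positivity) hx n
    calc 2 * C * T ^ (B + 1) * (Q * (r / (1 / 2))) ^ n ≤ 2 * C * T ^ (B + 1) * T ^ (-(B + 2)) := by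
          gcongr
          exact h4.trans h3
      _ = 2 * C * T ^ (-1 : ℝ) := by
          rw [mul_assoc, ← Real.rpow_add hT0]; congr 2; ring
      _ ≤ 1 := by rw [Real.rpow_zero] at e2; exact e2
  have : Q ^ n * (A + 2 * (C * T ^ (B + 1)) * (r / (1 / 2)) ^ n) =
      Q ^ n * A + Q ^ n * (2 * (C * T ^ (B + 1)) * (r / (1 / 2)) ^ n) := by ring
  rw [this]
  have h5 : Q ^ n * A ≤ T ^ ε * A := by gcongr
  linarith

/-- A thick set which is an increasing union of sets `E n`. -/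
theorem thick_union {μ : Measure ℝ} {s c r : ℝ} (hr : 0 < r) {E : Set ℝ}
    (h : ENNReal.ofReal (r ^ (s + c)) ≤ μ (E ∩ Icc (-r) r)) {F : ℕ → Set ℝ} (hmono : Monotone F)
    (hF : E ⊆ ⋃ n, F n) : ∃ n, ENNReal.ofReal (r ^ (s + c) / 2) ≤ μ (F n ∩ Icc (-r) r) := by
  by_contra hne
  push Not at hne
  have h1 : μ (E ∩ Icc (-r) r) ≤ μ (⋃ n, F n ∩ Icc (-r) r) := by
    apply measure_mono
    rintro x ⟨hx1, hx2⟩
    obtain ⟨n, hn⟩ := mem_iUnion.1 (hF hx1)
    exact mem_iUnion.2 ⟨n, hn, hx2⟩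
  have hmono' : Monotone fun n => F n ∩ Icc (-r) r := fun i j hij => inter_subset_inter_left _ (hmono hij)
  rw [hmono'.measure_iUnion] at h1
  have h2 : ⨆ n, μ (F n ∩ Icc (-r) r) ≤ ENNReal.ofReal (r ^ (s + c) / 2) := iSup_le fun n => (hne n).le
  have h3 := h.trans (h1.trans h2)
  have hp : 0 < r ^ (s + c) := Real.rpow_pos_of_pos hr _
  rw [ENNReal.ofReal_le_ofReal_iff (by positivity)] at h3
  linarith

end Pool.Agent.Helper156_SM
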